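import Mathlib
import Pool.Agent.N131.FV.Hs

/-!
Families of finite extensions of a function field, and their ultraproduct.
-/

set_option autoImplicit false
set_option linter.unusedSectionVars false

namespace Pool.Agent.N131.FM

open FF Filter Pool.Agent.W603.LV Pool.Agent.W603.PV
open Pool.Agent.N131.FV (avo avo_nonneg hgt_der hgt_add_le hgt_mul_le)

/-- a family of finite extensions of `F`, with the extensions of a derivation and with heights -/
structure Fam (k F : Type) [Field k] [Field F] [Algebra k F] where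
  I : Type
  U : Ultrafilter I
  L : I → Type
  fld : ∀ n, Field (L n)
  algk : ∀ n, Algebra k (L n)
  algF : ∀ n, Algebra F (L n)
  tow : ∀ n, IsScalarTower k F (L n)
  fin : ∀ n, FiniteDimensional F (L n)
  isff : ∀ n, IsFF k (L n)
  D0 : Derivation k F F
  D : ∀ n, Derivation k (L n) (L n)
  hD0 : D0 ≠ 0
  hD : ∀ n x, D n (algebraMap F (L n) x) = algebraMap F (L n) (D0 x)
  hDn : ∀ n, D n ≠ 0
  h : I → ℤ
  deg_sm : ∀ m : ℕ, ∀ᶠ n in (U : Filter I), (m : ℤ) * Module.finrank F (L n) ≤ h n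
  avo_sm : ∀ m : ℕ, ∀ᶠ n in (U : Filter I), (m : ℤ) * avo (D n) ≤ h n

variable {k F : Type} [Field k] [Field F] [Algebra k F]

instance (S : Fam k F) (n : S.I) : Field (S.L n) := S.fld n
instance (S : Fam k F) (n : S.I) : Algebra k (S.L n) := S.algk n
instance (S : Fam k F) (n : S.I) : Algebra F (S.L n) := S.algF n
instance (S : Fam k F) (n : S.I) : IsScalarTower k F (S.L n) := S.tow n
instance (S : Fam k F) (n : S.I) : FiniteDimensional F (S.L n) := S.fin n
instance (S : Fam k F) (n : S.I) : IsFF k (S.L n) := S.isff n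

namespace Fam

variable (S : Fam k F)

/-- the sequences of elements -/
abbrev Sq : Type := ∀ n, S.L n

/-- the ideal of the sequences which are zero almost everywhere -/
def id0 : Ideal S.Sq where
  carrier := {a | ∀ᶠ n in (S.U : Filter S.I), a n = 0}
  add_mem' := by
    intro a b ha hb
    filter_upwards [ha, hb] with n h1 h2
    rw [Pi.add_apply, h1, h2, add_zero]
  zero_mem' := Eventually.of_forall fun n => rfl
  smul_mem' := by
    intro c a ha
    change ∀ᶠ n in (S.U : Filter S.I), (c • a) n = 0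
    filter_upwards [ha] with n h1
    rw [Pi.smul_apply', h1, smul_zero]

theorem mem_id0 {a : S.Sq} : a ∈ S.id0 ↔ ∀ᶠ n in (S.U : Filter S.I), a n = 0 := Iff.rfl

/-- the ultraproduct -/
def MF : Type := S.Sq ⧸ S.id0

noncomputable instance : CommRing S.MF := inferInstanceAs (CommRing (S.Sq ⧸ S.id0))

/-- the class of a sequence -/
noncomputable def mf : S.Sq →+* S.MF := Ideal.Quotient.mk S.id0

theorem mf_surj (x : S.MF) : ∃ a, S.mf a = x := Ideal.Quotient.mk_surjective x

theorem mf_eq {a b : S.Sq} : S.mf a = S.mf b ↔ ∀ᶠ n in (S.U : Filter S.I), a n = b n := by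
  have h1 : S.mf a = S.mf b ↔ a - b ∈ S.id0 := Ideal.Quotient.eq
  rw [h1, mem_id0]
  exact eventually_congr (Eventually.of_forall fun n => sub_eq_zero)

theorem mf_eq_zero {a : S.Sq} : S.mf a = 0 ↔ ∀ᶠ n in (S.U : Filter S.I), a n = 0 := by
  rw [← map_zero S.mf, mf_eq]
  rfl

theorem mf_ne_zero {a : S.Sq} : S.mf a ≠ 0 ↔ ∀ᶠ n in (S.U : Filter S.I), a n ≠ 0 := by
  rw [Ne, mf_eq_zero, ← Ultrafilter.eventually_not]

noncomputable instance : Inv S.MF := ⟨fun x => S.mf fun n => ((S.mf_surj x).choose n)⁻¹⟩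

theorem mf_inv (a : S.Sq) : (S.mf a)⁻¹ = S.mf fun n => (a n)⁻¹ := by
  have h1 := (S.mf_surj (S.mf a)).choose_spec
  rw [mf_eq] at h1
  exact S.mf_eq.2 (h1.mono fun p hp => by simp only [hp])

noncomputable instance : Field S.MF :=
  { (inferInstance : CommRing S.MF), (inferInstance : Inv S.MF) with
    exists_pair_ne := ⟨0, 1, fun h => by
      rw [← map_zero S.mf, ← map_one S.mf, mf_eq] at h
      obtain ⟨p, hp⟩ := h.exists
      exact zero_ne_one hp⟩
    mul_inv_cancel := by
      intro x hx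
      obtain ⟨a, rfl⟩ := S.mf_surj x
      rw [mf_inv, ← map_mul, ← map_one S.mf, mf_eq]
      exact (S.mf_ne_zero.1 hx).mono fun p hp => mul_inv_cancel₀ hp
    inv_zero := by
      rw [← map_zero S.mf, mf_inv, mf_eq]
      exact Eventually.of_forall fun p => inv_zero
    nnqsmul := _
    nnqsmul_def := fun _ _ => rfl
    qsmul := _
    qsmul_def := fun _ _ => rfl }

theorem mf_div (a b : S.Sq) : S.mf a / S.mf b = S.mf fun n => a n / b n := by
  rw [div_eq_mul_inv, mf_inv, ← map_mul, mf_eq]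
  exact Eventually.of_forall fun p => (div_eq_mul_inv _ _).symm

/-- the constants -/
noncomputable instance : Algebra F S.MF := (S.mf.comp (algebraMap F S.Sq)).toAlgebra

noncomputable instance : Algebra k S.MF := (S.mf.comp (algebraMap k S.Sq)).toAlgebra

theorem algebraMap_mf (c : F) : algebraMap F S.MF c = S.mf fun n => algebraMap F (S.L n) c := rfl

theorem algebraMap_mfk (c : k) : algebraMap k S.MF c = S.mf fun n => algebraMap k (S.L n) c := rfl

instance : IsScalarTower k F S.MF := IsScalarTower.of_algebraMap_eq fun c => by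
  rw [algebraMap_mf, algebraMap_mfk, mf_eq]
  exact Eventually.of_forall fun n => IsScalarTower.algebraMap_apply k F (S.L n) c

instance [CharZero k] : CharZero S.MF :=
  charZero_of_injective_algebraMap (algebraMap k S.MF).injective

instance [CharZero k] (n : S.I) : CharZero (S.L n) :=
  charZero_of_injective_algebraMap (algebraMap k (S.L n)).injective

/-- the derivation of a sequence -/
noncomputable def dv (a : S.Sq) : S.Sq := fun n => S.D n (a n)

/-- the derivation -/
noncomputable def dm0 (x : S.MF) : S.MF := S.mf (S.dv (S.mf_surj x).choose)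

theorem dm0_mf (a : S.Sq) : S.dm0 (S.mf a) = S.mf (S.dv a) := by
  have h1 := (S.mf_surj (S.mf a)).choose_spec
  rw [mf_eq] at h1
  exact S.mf_eq.2 (h1.mono fun n hn => by
    change S.D n ((S.mf_surj (S.mf a)).choose n) = S.D n (a n)
    rw [hn])

/-- the derivation -/
noncomputable def DM : Derivation k S.MF S.MF :=
  Derivation.mk'
    { toFun := S.dm0
      map_add' := fun x y => by
        obtain ⟨a, rfl⟩ := S.mf_surj x
        obtain ⟨b, rfl⟩ := S.mf_surj y
        rw [← map_add, dm0_mf, dm0_mf, dm0_mf, ← map_add]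
        congr 1
        funext n
        exact map_add (S.D n) _ _
      map_smul' := fun c x => by
        obtain ⟨a, rfl⟩ := S.mf_surj x
        rw [RingHom.id_apply, Algebra.smul_def, Algebra.smul_def, algebraMap_mfk, ← map_mul,
          dm0_mf, dm0_mf, ← map_mul]
        congr 1
        funext n
        change S.D n (algebraMap k (S.L n) c * a n) = algebraMap k (S.L n) c * S.D n (a n)
        rw [← Algebra.smul_def, (S.D n).map_smul, Algebra.smul_def] }
    (fun x y => by
      obtain ⟨a, rfl⟩ := S.mf_surj x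
      obtain ⟨b, rfl⟩ := S.mf_surj y
      change S.dm0 (S.mf a * S.mf b) = S.mf a * S.dm0 (S.mf b) + S.mf b * S.dm0 (S.mf a)
      rw [← map_mul, dm0_mf, dm0_mf, dm0_mf, ← map_mul, ← map_mul, ← map_add]
      congr 1
      funext n
      change S.D n (a n * b n) = a n * S.D n (b n) + b n * S.D n (a n)
      rw [Derivation.leibniz]
      rfl)

theorem DM_mf (a : S.Sq) : S.DM (S.mf a) = S.mf (S.dv a) := S.dm0_mf a

/-- the derivation on `F` -/
theorem DM_F (c : F) : S.DM (algebraMap F S.MF c) = algebraMap F S.MF (S.D0 c) := by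
  rw [algebraMap_mf, DM_mf, algebraMap_mf]
  congr 1
  funext n
  exact S.hD n c

/-- small sequences of numbers -/
def Sm (b : S.I → ℤ) : Prop := ∀ m : ℕ, ∀ᶠ n in (S.U : Filter S.I), (m : ℤ) * b n ≤ S.h n

/-- bounded sequences of numbers -/
def Ob (b : S.I → ℤ) : Prop := ∃ C : ℕ, ∀ᶠ n in (S.U : Filter S.I), b n ≤ C * S.h n

variable {S}

theorem h_nonneg : ∀ᶠ n in (S.U : Filter S.I), 0 ≤ S.h n := by
  filter_upwards [S.deg_sm 0] with n hn
  simpa using hn

theorem Sm.add {a b : S.I → ℤ} (ha : S.Sm a) (hb : S.Sm b) : S.Sm fun n => a n + b n := by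
  intro m
  filter_upwards [ha (2 * m), hb (2 * m)] with n h1 h2
  push_cast at h1 h2
  linarith

theorem Sm.mono {a b : S.I → ℤ} (ha : S.Sm a) (h : ∀ᶠ n in (S.U : Filter S.I), b n ≤ a n) :
    S.Sm b := by
  intro m
  filter_upwards [ha m, h] with n h1 h2
  exact (mul_le_mul_of_nonneg_left h2 (by positivity)).trans h1

theorem Sm.zero : S.Sm fun _ => 0 := by
  intro m
  filter_upwards [h_nonneg] with n hn
  simpa using hn

theorem Sm.mul {a : S.I → ℤ} (ha : S.Sm a) (C : ℕ) : S.Sm fun n => C * a n := by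
  intro m
  filter_upwards [ha (m * C)] with n h1
  push_cast at h1
  linarith

theorem Sm.sum {ι : Type} (s : Finset ι) {a : ι → S.I → ℤ} (ha : ∀ i ∈ s, S.Sm (a i)) :
    S.Sm fun n => ∑ i ∈ s, a i n := by
  classical
  induction s using Finset.induction_on with
  | empty => simpa using Sm.zero
  | insert i s hi ih =>
    simp only [Finset.sum_insert hi]
    exact (ha i (Finset.mem_insert_self _ _)).add
      (ih fun j hj => ha j (Finset.mem_insert_of_mem hj))

theorem Sm.ob {a : S.I → ℤ} (ha : S.Sm a) : S.Ob a :=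
  ⟨1, (ha 1).mono fun n hn => by simpa using hn⟩

theorem Ob.add {a b : S.I → ℤ} (ha : S.Ob a) (hb : S.Ob b) : S.Ob fun n => a n + b n := by
  obtain ⟨C, hC⟩ := ha
  obtain ⟨C', hC'⟩ := hb
  refine ⟨C + C', ?_⟩
  filter_upwards [hC, hC'] with n h1 h2
  push_cast
  linarith

theorem Ob.mono {a b : S.I → ℤ} (ha : S.Ob a) (h : ∀ᶠ n in (S.U : Filter S.I), b n ≤ a n) :
    S.Ob b := by
  obtain ⟨C, hC⟩ := ha
  exact ⟨C, by filter_upwards [hC, h] with n h1 h2; exact h2.trans h1⟩

theorem Ob.mul {a : S.I → ℤ} (ha : S.Ob a) (C : ℕ) : S.Ob fun n => C * a n := by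
  obtain ⟨C', hC⟩ := ha
  refine ⟨C * C', ?_⟩
  filter_upwards [hC] with n h1
  have := mul_le_mul_of_nonneg_left h1 (show (0 : ℤ) ≤ C by positivity)
  push_cast
  linarith

/-- small sequences of elements -/
def SmE (a : S.Sq) : Prop := S.Sm fun n => hgt k (a n)

/-- sequences of elements of bounded height -/
def ObE (a : S.Sq) : Prop := S.Ob fun n => hgt k (a n)

theorem SmE.ob {a : S.Sq} (ha : SmE a) : ObE a := Sm.ob ha

theorem SmE.congr {a b : S.Sq} (ha : SmE a) (h : ∀ᶠ n in (S.U : Filter S.I), b n = a n) :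
    SmE b := Sm.mono ha (h.mono fun n hn => by simp only [hn]; exact le_rfl)

theorem ObE.congr {a b : S.Sq} (ha : ObE a) (h : ∀ᶠ n in (S.U : Filter S.I), b n = a n) :
    ObE b := Ob.mono ha (h.mono fun n hn => by simp only [hn]; exact le_rfl)

variable [IsAlgClosed k] [CharZero k] [IsFF k F]

theorem F_sm (c : F) : SmE (S := S) fun n => algebraMap F (S.L n) c := by
  refine Sm.mono (Sm.mul (a := fun n => (Module.finrank F (S.L n) : ℤ)) S.deg_sm
    (hgt k c).toNat) (Eventually.of_forall fun n => ?_)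
  have h1 := hgt_nonneg (k := k) c
  simp only
  rw [hgt_algebraMap, Int.toNat_of_nonneg h1, mul_comm]

theorem SmE.add {a b : S.Sq} (ha : SmE a) (hb : SmE b) : SmE (a + b) :=
  Sm.mono (Sm.add ha hb) (Eventually.of_forall fun _ => hgt_add_le _ _)

theorem SmE.mul {a b : S.Sq} (ha : SmE a) (hb : SmE b) : SmE (a * b) :=
  Sm.mono (Sm.add ha hb) (Eventually.of_forall fun _ => hgt_mul_le _ _)

theorem SmE.inv {a : S.Sq} (ha : SmE a) : SmE fun n => (a n)⁻¹ :=
  Sm.mono ha (Eventually.of_forall fun _ => (hgt_inv _).le)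

theorem ObE.add {a b : S.Sq} (ha : ObE a) (hb : ObE b) : ObE (a + b) :=
  Ob.mono (Ob.add ha hb) (Eventually.of_forall fun _ => hgt_add_le _ _)

theorem ObE.mul {a b : S.Sq} (ha : ObE a) (hb : ObE b) : ObE (a * b) :=
  Ob.mono (Ob.add ha hb) (Eventually.of_forall fun _ => hgt_mul_le _ _)

theorem ObE.inv {a : S.Sq} (ha : ObE a) : ObE fun n => (a n)⁻¹ :=
  Ob.mono ha (Eventually.of_forall fun _ => (hgt_inv _).le)

theorem SmE.deriv {a : S.Sq} (ha : SmE a) : SmE (S.dv a) :=
  Sm.mono (Sm.add (Sm.mul ha 2) (Sm.mul (a := fun n => avo (S.D n)) S.avo_sm 2))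
    (Eventually.of_forall fun n => by
      change hgt k (S.D n (a n)) ≤ ((2 : ℕ) : ℤ) * hgt k (a n) + ((2 : ℕ) : ℤ) * avo (S.D n)
      push_cast
      exact hgt_der (S.hDn n) (a n))

theorem ObE.deriv {a : S.Sq} (ha : ObE a) : ObE (S.dv a) :=
  Ob.mono (Ob.add (Ob.mul ha 2) (Sm.ob (Sm.mul (a := fun n => avo (S.D n)) S.avo_sm 2)))
    (Eventually.of_forall fun n => by
      change hgt k (S.D n (a n)) ≤ ((2 : ℕ) : ℤ) * hgt k (a n) + ((2 : ℕ) : ℤ) * avo (S.D n)
      push_cast
      exact hgt_der (S.hDn n) (a n))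

/-- the field of small sequences -/
noncomputable def smf (S : Fam k F) : IntermediateField F S.MF where
  carrier := {x | ∃ a : S.Sq, SmE a ∧ S.mf a = x}
  mul_mem' := by
    rintro _ _ ⟨a, h1, rfl⟩ ⟨b, h2, rfl⟩
    exact ⟨_, h1.mul h2, map_mul _ _ _⟩
  add_mem' := by
    rintro _ _ ⟨a, h1, rfl⟩ ⟨b, h2, rfl⟩
    exact ⟨_, h1.add h2, map_add _ _ _⟩
  algebraMap_mem' := fun c => ⟨_, F_sm c, rfl⟩
  inv_mem' := by
    rintro _ ⟨a, h1, rfl⟩
    exact ⟨_, h1.inv, (S.mf_inv a).symm⟩

/-- the field of the sequences of bounded height -/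
noncomputable def obf (S : Fam k F) : IntermediateField F S.MF where
  carrier := {x | ∃ a : S.Sq, ObE a ∧ S.mf a = x}
  mul_mem' := by
    rintro _ _ ⟨a, h1, rfl⟩ ⟨b, h2, rfl⟩
    exact ⟨_, h1.mul h2, map_mul _ _ _⟩
  add_mem' := by
    rintro _ _ ⟨a, h1, rfl⟩ ⟨b, h2, rfl⟩
    exact ⟨_, h1.add h2, map_add _ _ _⟩
  algebraMap_mem' := fun c => ⟨_, (F_sm c).ob, rfl⟩
  inv_mem' := by
    rintro _ ⟨a, h1, rfl⟩
    exact ⟨_, h1.inv, (S.mf_inv a).symm⟩

instance : IsScalarTower k S.smf S.MF := IsScalarTower.of_algebraMap_eq fun c => rfl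

instance : IsScalarTower k F S.smf := IsScalarTower.of_algebraMap_eq fun c => Subtype.ext (by
  exact IsScalarTower.algebraMap_apply k F S.MF c)

theorem mem_smf {a : S.Sq} : S.mf a ∈ S.smf ↔ SmE a := by
  constructor
  · rintro ⟨b, h1, h2⟩
    exact h1.congr ((S.mf_eq.1 h2).mono fun _ h => h.symm)
  · exact fun h => ⟨a, h, rfl⟩

theorem mem_obf {a : S.Sq} : S.mf a ∈ S.obf ↔ ObE a := by
  constructor
  · rintro ⟨b, h1, h2⟩
    exact h1.congr ((S.mf_eq.1 h2).mono fun _ h => h.symm)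
  · exact fun h => ⟨a, h, rfl⟩

theorem smf_le_obf : S.smf ≤ S.obf := by
  rintro _ ⟨a, h1, rfl⟩
  exact ⟨a, h1.ob, rfl⟩

theorem DM_smf {x : S.MF} (hx : x ∈ S.smf) : S.DM x ∈ S.smf := by
  obtain ⟨a, rfl⟩ := S.mf_surj x
  rw [mem_smf] at hx
  rw [DM_mf, mem_smf]
  exact hx.deriv

theorem DM_obf {x : S.MF} (hx : x ∈ S.obf) : S.DM x ∈ S.obf := by
  obtain ⟨a, rfl⟩ := S.mf_surj x
  rw [mem_obf] at hx
  rw [DM_mf, mem_obf]
  exact hx.deriv

/-- sequences of sets of places with small numbers of elements -/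
structure SmS (S : Fam k F) (B : ∀ n, Set (Place k (S.L n))) : Prop where
  fin : ∀ᶠ n in (S.U : Filter S.I), (B n).Finite
  small : S.Sm fun n => ((B n).ncard : ℤ)

/-- a representative -/
noncomputable def rp (x : S.MF) : S.Sq := (S.mf_surj x).choose

theorem mf_rp (x : S.MF) : S.mf (rp x) = x := (S.mf_surj x).choose_spec

theorem rp_mf (a : S.Sq) : ∀ᶠ n in (S.U : Filter S.I), rp (S.mf a) n = a n :=
  S.mf_eq.1 (mf_rp (S.mf a))

/-- the order of the pole -/
noncomputable def po (x : S.MF) (n : S.I) (P : Place k (S.L n)) : ℤ := max 0 (-P.ord (rp x n))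

/-- the valuation ring of a sequence of places -/
noncomputable def hp (z : ∀ n, Place k (S.L n)) : ValuationSubring S.MF where
  carrier := {x | ∃ a : S.Sq, S.mf a = x ∧ ∀ᶠ n in (S.U : Filter S.I), Ge (z n) 0 (a n)}
  mul_mem' := by
    rintro _ _ ⟨a, rfl, h1⟩ ⟨b, rfl, h2⟩
    refine ⟨_, map_mul _ _ _, ?_⟩
    filter_upwards [h1, h2] with n h3 h4
    have := h3.mul h4
    rwa [add_zero] at this
  one_mem' := ⟨1, map_one _, Eventually.of_forall fun n => Or.inr (by
    change (0 : ℤ) ≤ (z n).ord (1 : S.L n)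
    rw [(z n).ord_one])⟩
  add_mem' := by
    rintro _ _ ⟨a, rfl, h1⟩ ⟨b, rfl, h2⟩
    refine ⟨_, map_add _ _ _, ?_⟩
    filter_upwards [h1, h2] with n h3 h4
    exact h3.add h4
  zero_mem' := ⟨0, map_zero _, Eventually.of_forall fun n => Or.inl rfl⟩
  neg_mem' := by
    rintro _ ⟨a, rfl, h1⟩
    refine ⟨_, map_neg _ _, ?_⟩
    filter_upwards [h1] with n h3
    exact h3.neg
  mem_or_inv_mem' := by
    intro x
    obtain ⟨a, rfl⟩ := S.mf_surj x
    have h1 : ∀ᶠ n in (S.U : Filter S.I), Ge (z n) 0 (a n) ∨ Ge (z n) 0 (a n)⁻¹ := by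
      refine Eventually.of_forall fun n => ?_
      rcases le_total 0 ((z n).ord (a n)) with h | h
      · exact Or.inl (Or.inr h)
      · refine Or.inr (Or.inr ?_)
        rw [(z n).ord_inv]
        omega
    rw [Ultrafilter.eventually_or] at h1
    rcases h1 with h1 | h1
    · exact Or.inl ⟨a, rfl, h1⟩
    · exact Or.inr ⟨_, (S.mf_inv a).symm, h1⟩

theorem mem_hp {z : ∀ n, Place k (S.L n)} {a : S.Sq} :
    S.mf a ∈ hp z ↔ ∀ᶠ n in (S.U : Filter S.I), Ge (z n) 0 (a n) := by
  constructor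
  · rintro ⟨b, h1, h2⟩
    filter_upwards [h2, S.mf_eq.1 h1] with n h3 h4
    rwa [← h4]
  · exact fun h => ⟨a, rfl, h⟩

theorem mem_hp_nonunits {z : ∀ n, Place k (S.L n)} {a : S.Sq} :
    S.mf a ∈ (hp z).nonunits ↔ ∀ᶠ n in (S.U : Filter S.I), Ge (z n) 1 (a n) := by
  have h0 : S.mf a ∈ (hp z).nonunits ↔ S.mf a = 0 ∨ (S.mf a)⁻¹ ∉ hp z := by
    rw [ValuationSubring.mem_nonunits_iff]
    by_cases h : S.mf a = 0
    · simp [h]
    · rw [← ValuationSubring.valuation_le_one_iff, map_inv₀]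
      have h1 : (hp z).valuation (S.mf a) ≠ 0 := by
        rwa [Ne, map_eq_zero]
      simp only [h, false_or, not_le]
      rw [one_lt_inv₀ (zero_lt_iff.2 h1)]
  rw [h0]
  by_cases h : S.mf a = 0
  · simp only [h, true_or, true_iff]
    filter_upwards [S.mf_eq_zero.1 h] with n hn
    rw [hn]
    exact Or.inl rfl
  · simp only [h, false_or]
    rw [mf_inv, mem_hp, ← Ultrafilter.eventually_not]
    apply eventually_congr
    filter_upwards [S.mf_ne_zero.1 h] with n hn
    constructor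
    · intro h2
      right
      by_contra h3
      apply h2
      right
      rw [(z n).ord_inv]
      omega
    · rintro (h2 | h2) (h3 | h3)
      · exact hn h2
      · exact hn h2
      · exact hn (inv_eq_zero.1 h3)
      · rw [(z n).ord_inv] at h3
        omega

theorem mem_hp' {z : ∀ n, Place k (S.L n)} {x : S.MF} :
    x ∈ hp z ↔ ∀ᶠ n in (S.U : Filter S.I), Ge (z n) 0 (rp x n) := by
  have h1 := mem_hp (z := z) (a := rp x)
  rwa [mf_rp] at h1

theorem mem_hp_nonunits' {z : ∀ n, Place k (S.L n)} {x : S.MF} :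
    x ∈ (hp z).nonunits ↔ ∀ᶠ n in (S.U : Filter S.I), Ge (z n) 1 (rp x n) := by
  have h1 := mem_hp_nonunits (z := z) (a := rp x)
  rwa [mf_rp] at h1

/-- the derivation preserves the ring at good places -/
theorem DM_hp {z : ∀ n, Place k (S.L n)}
    (hz : ∀ᶠ n in (S.U : Filter S.I), vo (z n) (S.D n) = 0) {x : S.MF} (hx : x ∈ hp z) :
    S.DM x ∈ hp z := by
  obtain ⟨a, rfl⟩ := S.mf_surj x
  rw [mem_hp] at hx
  rw [DM_mf, mem_hp]
  filter_upwards [hx, hz] with n h1 h2
  exact FV.reg_der (z n) (S.hDn n) h2.ge h1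

end Fam

end Pool.Agent.N131.FM
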