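import Mathlib
import Pool.Agent.N131.FM.Kf
import Pool.Agent.N131.MV.Stm

/-!
Statements of the parts over function fields.
-/

set_option autoImplicit false

namespace Pool.Agent.N131.FM

open FF Filter MvPolynomial Pool.Agent.W603.LV Pool.Agent.W603.PV
open Pool.Agent.N131.MV (PV gen1 W1 R0)

/-- (SMS) small sets -/
def S_SMS : Prop := ∀ (k F : Type) [Field k] [IsAlgClosed k] [CharZero k] [Field F] [Algebra k F]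
  [IsFF k F] (S : Fam k F),
  (∀ B B' : ∀ n, Set (Place k (S.L n)), (∀ᶠ n in (S.U : Filter S.I), B n ⊆ B' n) →
    Fam.SmS S B' → Fam.SmS S B) ∧
  (∀ B B' : ∀ n, Set (Place k (S.L n)), Fam.SmS S B → Fam.SmS S B' →
    Fam.SmS S fun n => B n ∪ B' n) ∧
  (Fam.SmS S fun _ => ∅) ∧
  (∀ x ∈ S.smf, Fam.SmS S fun n => {P | ¬ Ge P 0 (Fam.rp x n)}) ∧
  (∀ x ∈ S.smf, Fam.SmS S fun n => {P | P.ord (Fam.rp x n) ≠ 0}) ∧
  Fam.SmS S fun n => {P | vo P (S.D n) ≠ 0}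

/-- (MFB) constants and algebraic elements -/
def S_MFB : Prop := ∀ (k F : Type) [Field k] [IsAlgClosed k] [CharZero k] [Field F] [Algebra k F]
  [IsFF k F] (S : Fam k F),
  (∀ x : S.MF, S.DM x = 0 → x ∈ S.smf) ∧ ∀ x : S.MF, IsAlgebraic S.smf x → x ∈ S.smf

/-- the twisted derivative -/
noncomputable def Et {k F : Type} [Field k] [Field F] [Algebra k F] {S : Fam k F} (ℓ y : S.MF) :
    S.MF := S.DM y + ℓ * y

/-- (FRB) the linear differential equation of a point with few osculation places -/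
def S_FRB : Prop := ∀ (k F : Type) [Field k] [IsAlgClosed k] [CharZero k] [Field F] [Algebra k F]
  [IsFF k F] (S : Fam k F) (n : ℕ) (g : Fin (n + 1) → S.Sq),
  (∀ i, LinearIndependent k fun j => g j i) →
  (∀ i j, Fam.ObE (S := S) fun m => g i m / g j m) →
  Fam.SmS S (fun i => FV.osc k fun j => g j i) →
  ∀ ρ ℓ : S.MF, ρ = S.mf (g 0) ^ (n + 1) / S.mf (fun i => wr (S.D i) fun j => g j i) →
  ℓ = S.DM (S.mf (g 0)) / S.mf (g 0) - S.DM (S.mf fun i => wr (S.D i) fun j => g j i) /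
    ((n + 1) * S.mf fun i => wr (S.D i) fun j => g j i) →
  (∃ c : Fin (n + 1) → S.MF, (∀ i, c i ∈ S.smf) ∧ ∀ j,
    (Et ℓ)^[n + 1] (S.mf (g j) / S.mf (g 0)) =
      ∑ i, c i * (Et ℓ)^[(i : ℕ)] (S.mf (g j) / S.mf (g 0))) ∧
  ρ * (Matrix.of fun i j : Fin (n + 1) =>
    (Et ℓ)^[(i : ℕ)] (S.mf (g j) / S.mf (g 0))).det = 1 ∧
  S.DM ρ = (n + 1) * ℓ * ρ ∧
  ∀ p : (Fin (n + 1) → Fin (n + 1)) × (Fin (n + 1) → Fin (n + 1)),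
    ∀ᶠ i in (S.U : Filter S.I), ∀ P : Place k (S.L i), (P ∉ FV.osc k fun j => g j i) →
      vo P (S.D i) = 0 →
      Ge P 0 (Fam.rp (ρ * ∏ s, (Et ℓ)^[(p.1 s : ℕ)] (S.mf (g (p.2 s)) / S.mf (g 0))) i)

/-- (FLD) the differential field -/
def S_FLD : Prop := ∀ (k F : Type) [Field k] [IsAlgClosed k] [CharZero k] [Field F] [Algebra k F]
  [IsFF k F] (S : Fam k F) (n : ℕ)
  (x c : Fin (n + 1) → S.MF) (ρ ℓ : S.MF), x 0 = 1 → (∀ i, c i ∈ S.smf) → (∀ j, x j ∈ S.obf) →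
  (∀ j, (Et ℓ)^[n + 1] (x j) = ∑ i, c i * (Et ℓ)^[(i : ℕ)] (x j)) →
  ρ * (Matrix.of fun i j : Fin (n + 1) => (Et ℓ)^[(i : ℕ)] (x j)).det = 1 →
  S.DM ρ = (n + 1) * ℓ * ρ → ℓ ∈ S.obf →
  ∀ X : Finset S.MF, (∀ y ∈ X, y ∈ S.obf) →
  (∀ y ∈ X, IsAlgebraic (IntermediateField.adjoin S.smf (Set.range x)) y) →
  ∃ (Fd : IntermediateField S.smf S.MF) (D : Derivation k Fd Fd)
    (U' : Matrix (Fin (n + 1)) (Fin (n + 1)) Fd) (ρ' ℓ' : Fd)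
    (A : Matrix (Fin (n + 1)) (Fin (n + 1)) S.smf),
    PV S.smf D n U' ρ' ℓ' A ∧ (∀ i j, ((U' i j : Fd) : S.MF) = (Et ℓ)^[(i : ℕ)] (x j)) ∧
    (ρ' : S.MF) = ρ ∧ (∀ y : Fd, ((D y : Fd) : S.MF) = S.DM y) ∧ (∀ y ∈ X, y ∈ Fd) ∧
    (∀ y : Fd, (y : S.MF) ∈ S.obf) ∧ Algebra.EssFiniteType S.smf Fd

/-- (ZG) common zeros of the members of a prime ideal of codimension at least two are few -/
def S_ZG : Prop := ∀ (k F : Type) [Field k] [IsAlgClosed k] [CharZero k] [Field F] [Algebra k F]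
  [IsFF k F] (S : Fam k F) (Fd : IntermediateField S.smf S.MF) (D : Derivation k Fd Fd) (n : ℕ)
  (U' : Matrix (Fin (n + 1)) (Fin (n + 1)) Fd) (ρ ℓ : Fd)
  (A : Matrix (Fin (n + 1)) (Fin (n + 1)) S.smf), (∀ y : Fd, ((D y : Fd) : S.MF) = S.DM y) →
  (∀ y : Fd, (y : S.MF) ∈ S.obf) → PV S.smf D n U' ρ ℓ A → Algebra.EssFiniteType S.smf Fd →
  ∀ m : ℕ, Algebra.trdeg S.smf Fd = (m + 1 : ℕ) →
  Fam.SmS S (fun i => {P | ∃ p, ¬ Ge P 0 (Fam.rp ((gen1 U' ρ p : Fd) : S.MF) i)}) →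
  ∀ G : Finset (R0 S.smf U' ρ), (Ideal.span (G : Set (R0 S.smf U' ρ))).IsPrime →
  Algebra.trdeg S.smf (R0 S.smf U' ρ ⧸ Ideal.span (G : Set (R0 S.smf U' ρ))) < m →
  Fam.SmS S fun i => {P | ∀ x ∈ G, Ge P 1 (Fam.rp ((x : Fd) : S.MF) i)}

/-- (PRX) poles from integral equations -/
def S_PRX : Prop := ∀ (k F : Type) [Field k] [IsAlgClosed k] [CharZero k] [Field F] [Algebra k F]
  [IsFF k F] (S : Fam k F) (q J : ℕ) (b : S.MF) (y : Fin q → S.MF) (g : S.MF), b ≠ 0 →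
  (∃ i0, y i0 ≠ 0) →
  (∀ i0, y i0 ≠ 0 → ∃ p : Polynomial (MvPolynomial (Fin q ⊕ Fin (J + 1)) S.smf), p.Monic ∧
    p.eval₂ (aeval (Sum.elim (fun a => y a / y i0)
      (fun j : Fin (J + 1) => S.DM^[(j : ℕ)] b / b))).toRingHom g = 0) →
  ∃ (C r : ℕ) (c : Fin r → S.MF), (∀ l, c l ∈ S.smf) ∧
    ∀ᶠ i in (S.U : Filter S.I), ∀ P : Place k (S.L i),
      -((C : ℤ) * (1 + |vo P (S.D i)| + ∑ l, Fam.po (c l) i P)) ≤ P.ord (Fam.rp g i)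

/-- (GPT) the orders at the places which are not exceptional -/
def S_GPT : Prop := ∀ (k F : Type) [Field k] [IsAlgClosed k] [CharZero k] [Field F] [Algebra k F]
  [IsFF k F] (S : Fam k F) (Fd : IntermediateField S.smf S.MF) (D : Derivation k Fd Fd),
  (∀ y : Fd, ((D y : Fd) : S.MF) = S.DM y) →
  ∀ (I1 ι J : Type) [Finite I1] [Finite ι] [Finite J] (gen : I1 → Fd) (T : Finset S.smf)
  (Pos Neg : J → Finset Fd) (g : ι → Fd) (N : ℕ) (Gs : Finset (Finset Fd)),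
  (∀ V : ValuationSubring Fd, (∀ x ∈ V, D x ∈ V) → (∀ c ∈ T, algebraMap S.smf Fd c ∈ V) →
    (∀ p, gen p ∈ V) → (∀ i, g i ∈ V) ∨
      ((∃ j, (∀ x ∈ Pos j, x ∈ V) ∧ ∀ x ∈ Neg j, x ∈ V.nonunits) ∧
        ∃ t ∈ V.nonunits, D t ∈ V ∧ D t ∉ V.nonunits ∧ ∀ i, t ^ N * g i ∈ V) ∨
      ∃ G ∈ Gs, ∀ x ∈ G, x ∈ V.nonunits) →
  ∀ B Z : ∀ i, Set (Place k (S.L i)),
  (∀ᶠ i in (S.U : Filter S.I), ∀ P, P ∉ B i → vo P (S.D i) = 0) →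
  (∀ c ∈ T, ∀ᶠ i in (S.U : Filter S.I), ∀ P, P ∉ B i → Ge P 0 (Fam.rp (c : S.MF) i)) →
  (∀ p, ∀ᶠ i in (S.U : Filter S.I), ∀ P, P ∉ B i → Ge P 0 (Fam.rp (gen p : S.MF) i)) →
  (∀ G ∈ Gs, ∀ᶠ i in (S.U : Filter S.I), ∀ P, P ∉ B i →
    ∃ x ∈ G, ¬ Ge P 1 (Fam.rp ((x : Fd) : S.MF) i)) →
  (∀ z : ∀ i, Place k (S.L i), (∃ j, (∀ x ∈ Pos j, ((x : Fd) : S.MF) ∈ Fam.hp z) ∧
    ∀ x ∈ Neg j, ((x : Fd) : S.MF) ∈ (Fam.hp z).nonunits) →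
      ∀ᶠ i in (S.U : Filter S.I), z i ∈ Z i) →
  ∀ᶠ i in (S.U : Filter S.I), ∀ P, P ∉ B i → (∀ i', Ge P 0 (Fam.rp (g i' : S.MF) i)) ∨
    (P ∈ Z i ∧ ∀ i', Ge P (-N) (Fam.rp (g i' : S.MF) i))

end Pool.Agent.N131.FM
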