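import Mathlib
import Pool.Agent.N131.FM.Stm
import Pool.Agent.N131.SV.Key

/-!
The main estimate for sequences of points.
-/

set_option autoImplicit false

namespace Pool.Agent.N131.FM

open FF Filter MvPolynomial Pool.Agent.W603.LV Pool.Agent.W603.PV
open Pool.Agent.N131.MV (PV gen1 W1 R0 Inv Ri RegP LogP)
open Pool.Agent.N131.SV (S_KEY)
open Pool.Agent.W602.GT (Divisorial IsPluri RegAt LogAt)
open Pool.Agent.N131.FM.Fam (SmS rp po hp ObE SmE mem_obf mem_smf DM_obf DM_smf)

section shift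

variable {k F : Type} [Field k] [Field F] [Algebra k F] (D : Derivation k F F) (ℓ : F)

/-- twisted derivatives -/
def tw (y : F) : F := D y + ℓ * y

theorem tw_expand : ∃ c : ℕ → ℕ → F, ∀ i (y : F), (tw D ℓ)^[i] y =
    D^[i] y + ∑ j ∈ Finset.range i, c i j * D^[j] y := by
  have key : ∀ i, ∃ c : ℕ → F, ∀ y : F, (tw D ℓ)^[i] y =
      D^[i] y + ∑ j ∈ Finset.range i, c j * D^[j] y := by
    intro i
    induction i with
    | zero => exact ⟨fun _ => 0, fun y => by simp⟩
    | succ i ih =>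
      obtain ⟨c, hc⟩ := ih
      refine ⟨fun j => (if j = 0 then 0 else if j - 1 < i then c (j - 1) else 0) +
        (if j < i then D (c j) + ℓ * c j else if j = i then ℓ else 0), fun y => ?_⟩
      rw [Function.iterate_succ_apply', hc]
      unfold tw
      rw [map_add, map_sum]
      have e1 : ∀ j, D (c j * D^[j] y) = c j * D^[j + 1] y + D (c j) * D^[j] y := by
        intro j
        rw [Derivation.leibniz, Function.iterate_succ_apply']
        simp only [smul_eq_mul]
        ring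
      simp only [e1, add_mul, Finset.sum_add_distrib]
      rw [← Function.iterate_succ_apply' (⇑D) i y]
      have e2 : ∑ j ∈ Finset.range (i + 1),
          (if j = 0 then 0 else if j - 1 < i then c (j - 1) else 0) * D^[j] y =
          ∑ j ∈ Finset.range i, c j * D^[j + 1] y := by
        rw [Finset.sum_range_succ']
        simp only [Nat.add_sub_cancel, if_true, zero_mul, add_zero, Nat.succ_ne_zero, if_false]
        apply Finset.sum_congr rfl
        intro j hj
        rw [if_pos (Finset.mem_range.1 hj)]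
      have e3 : ∑ j ∈ Finset.range (i + 1),
          (if j < i then D (c j) + ℓ * c j else if j = i then ℓ else 0) * D^[j] y =
          ∑ j ∈ Finset.range i, (D (c j) + ℓ * c j) * D^[j] y + ℓ * D^[i] y := by
        rw [Finset.sum_range_succ]
        simp only [lt_irrefl, if_false, if_true]
        congr 1
        apply Finset.sum_congr rfl
        intro j hj
        rw [if_pos (Finset.mem_range.1 hj)]
      rw [e2, e3]
      simp only [add_mul, Finset.sum_add_distrib, mul_add, Finset.mul_sum, mul_assoc]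
      ring
  choose c hc using key
  exact ⟨c, hc⟩

theorem det_tw {n : ℕ} (x : Fin n → F) : (Matrix.of fun i j : Fin n => (tw D ℓ)^[(i : ℕ)] (x j)).det =
    (Matrix.of fun i j : Fin n => D^[(i : ℕ)] (x j)).det := by
  obtain ⟨c, hc⟩ := tw_expand D ℓ
  let M : Matrix (Fin n) (Fin n) F := Matrix.of fun i j =>
    if (j : ℕ) < i then c i j else if i = j then 1 else 0
  have h1 : (Matrix.of fun i j : Fin n => (tw D ℓ)^[(i : ℕ)] (x j)) =
      M * (Matrix.of fun i j : Fin n => D^[(i : ℕ)] (x j)) := by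
    ext i j
    rw [Matrix.of_apply, Matrix.mul_apply, hc]
    simp only [M, Matrix.of_apply]
    have h2 : ∀ l : Fin n, (if (l : ℕ) < i then c i l else if i = l then 1 else 0) *
        D^[(l : ℕ)] (x j) = (if (l : ℕ) < i then c i l * D^[(l : ℕ)] (x j) else 0) +
          (if i = l then D^[(l : ℕ)] (x j) else 0) := by
      intro l
      by_cases h3 : (l : ℕ) < i
      · have h4 : i ≠ l := fun h => by rw [h] at h3; exact lt_irrefl _ h3
        simp [h3, h4]
      · by_cases h4 : i = l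
        · simp [h4]
        · simp [h3, h4]
    simp only [h2, Finset.sum_add_distrib]
    rw [Finset.sum_ite_eq Finset.univ i (fun l : Fin n => D^[(l : ℕ)] (x j)), if_pos (Finset.mem_univ i),
      add_comm]
    congr 1
    have h5 : ∑ l : Fin n, (if (l : ℕ) < i then c i l * D^[(l : ℕ)] (x j) else 0) =
        ∑ l ∈ Finset.range n, if l < (i : ℕ) then c i l * D^[l] (x j) else 0 :=
      (Fin.sum_univ_eq_sum_range (fun l => if l < (i : ℕ) then c i l * D^[l] (x j) else 0) n)
    rw [h5, ← Finset.sum_filter]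
    congr 1
    ext l
    simp only [Finset.mem_filter, Finset.mem_range]
    have := i.2
    omega
  rw [h1, Matrix.det_mul]
  have h6 : M.det = 1 := by
    rw [Matrix.det_of_isLowerTriangular M (by
      intro i j hij
      have hij' : i < j := hij
      simp only [M, Matrix.of_apply]
      have h7 : ¬ ((j : ℕ) < i) := by
        have : (i : ℕ) < j := hij'
        omega
      rw [if_neg h7, if_neg hij'.ne])]
    apply Finset.prod_eq_one
    intro i _
    simp [M]
  rw [h6, one_mul]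

end shift

variable {k F : Type} [Field k] [IsAlgClosed k] [CharZero k] [Field F] [Algebra k F] [IsFF k F]

theorem ob_det {S : Fam k F} {n : ℕ} {x : Fin n → S.MF}
    (hx : ∀ j, x j ∈ S.obf) (ℓ : S.MF) :
    (Matrix.of fun i j : Fin n => (Et ℓ)^[(i : ℕ)] (x j)).det ∈ S.obf := by
  have h0 : (Et ℓ) = tw S.DM ℓ := rfl
  rw [h0, det_tw, Matrix.det_apply]
  apply sum_mem
  intro σ _
  rw [Units.smul_def, zsmul_eq_mul]
  have h1 : ∀ (i : ℕ) (y : S.MF), y ∈ S.obf → S.DM^[i] y ∈ S.obf := by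
    intro i
    induction i with
    | zero => exact fun y hy => hy
    | succ i ih =>
      intro y hy
      rw [Function.iterate_succ_apply']
      exact DM_obf (ih y hy)
  exact mul_mem (intCast_mem _ _) (prod_mem fun i _ => h1 _ _ (hx _))

/-- **The differential field of a sequence of points.** -/
theorem pvdata (hSMS : S_SMS) (hFRB : S_FRB) (hFLD : S_FLD) (S : Fam k F) {n : ℕ}
    {g : Fin (n + 1) → S.Sq} (hg : ∀ i, LinearIndependent k fun j => g j i)
    (hOB : ∀ i j, ObE (S := S) fun m => g i m / g j m)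
    (hN : SmS S fun i => FV.osc k fun j => g j i)
    (X : Finset S.MF) (hXob : ∀ x ∈ X, x ∈ S.obf)
    (hXalg : ∀ x ∈ X, IsAlgebraic (IntermediateField.adjoin S.smf
      (Set.range fun j => S.mf (g j) / S.mf (g 0))) x) :
    ∃ (Fd : IntermediateField S.smf S.MF) (D : Derivation k Fd Fd)
      (U' : Matrix (Fin (n + 1)) (Fin (n + 1)) Fd) (ρ' ℓ' : Fd)
      (A : Matrix (Fin (n + 1)) (Fin (n + 1)) S.smf),
      PV S.smf D n U' ρ' ℓ' A ∧ (∀ y : Fd, ((D y : Fd) : S.MF) = S.DM y) ∧
      (∀ y ∈ X, y ∈ Fd) ∧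
      (∀ y : Fd, (y : S.MF) ∈ S.obf) ∧ Algebra.EssFiniteType S.smf Fd ∧
      SmS S (fun i => {P | ∃ p, ¬ Ge P 0 (rp ((gen1 U' ρ' p : Fd) : S.MF) i)}) := by
  obtain ⟨⟨c, hc, heq⟩, hdet, hrho, hreg⟩ := hFRB k F S n g hg hOB hN _ _ rfl rfl
  set W : S.Sq := fun i => wr (S.D i) fun j => g j i with hW
  set ρ : S.MF := S.mf (g 0) ^ (n + 1) / S.mf W with hρ
  set ℓ : S.MF := S.DM (S.mf (g 0)) / S.mf (g 0) -
    S.DM (S.mf W) / ((n + 1) * S.mf W) with hℓ
  have hρ0 : ρ ≠ 0 := fun h => by rw [h, zero_mul] at hdet; exact zero_ne_one hdet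
  have hg0 : S.mf (g 0) ≠ 0 := by
    intro h
    apply hρ0
    rw [hρ, h, zero_pow (Nat.succ_ne_zero n), zero_div]
  have hx0 : S.mf (g 0) / S.mf (g 0) = 1 := div_self hg0
  have hxob : ∀ j, S.mf (g j) / S.mf (g 0) ∈ S.obf := by
    intro j
    rw [Fam.mf_div, mem_obf]
    exact hOB j 0
  have hρob : ρ ∈ S.obf := by
    have h1 := ob_det (S := S) hxob ℓ
    have h2 : ρ = ((Matrix.of fun i j : Fin (n + 1) =>
        (Et ℓ)^[(i : ℕ)] (S.mf (g j) / S.mf (g 0))).det)⁻¹ :=
      eq_inv_of_mul_eq_one_left hdet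
    rw [h2]
    exact inv_mem h1
  have hn1 : ((n : S.MF) + 1) ≠ 0 := by exact_mod_cast Nat.succ_ne_zero n
  have hℓob : ℓ ∈ S.obf := by
    have h1 : ℓ = S.DM ρ / (((n : S.MF) + 1) * ρ) := by
      rw [hrho]
      field_simp
    rw [h1]
    exact div_mem (DM_obf hρob) (mul_mem (add_mem (natCast_mem _ _) (one_mem _)) hρob)
  obtain ⟨Fd, D, U', ρ', ℓ', A, hPV, hU, hρ', hcoe, hXF, hFob, hess⟩ :=
    hFLD k F S n (fun j => S.mf (g j) / S.mf (g 0)) c ρ ℓ hx0 hc hxob heq hdet hrho hℓob
      X hXob hXalg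
  refine ⟨Fd, D, U', ρ', ℓ', A, hPV, hcoe, hXF, hFob, hess, ?_⟩
  obtain ⟨hmono, hunion, -, -, -, hbad⟩ := hSMS k F S
  refine hmono _ _ ?_ (hunion _ _ hN hbad)
  have h1 : ∀ᶠ i in (S.U : Filter S.I),
      ∀ p : (Fin (n + 1) → Fin (n + 1)) × (Fin (n + 1) → Fin (n + 1)),
        ∀ P : Place k (S.L i), (P ∉ FV.osc k fun j => g j i) → vo P (S.D i) = 0 →
        Ge P 0 (rp ((gen1 U' ρ' p : Fd) : S.MF) i) := by
    rw [eventually_all]
    intro p
    have h2 : ((gen1 U' ρ' p : Fd) : S.MF) = ρ * ∏ s, (Et ℓ)^[(p.1 s : ℕ)]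
        (S.mf (g (p.2 s)) / S.mf (g 0)) := by
      unfold gen1
      push_cast
      rw [hρ']
      congr 1
      exact Finset.prod_congr rfl fun s _ => hU _ _
    rw [h2]
    exact hreg p
  filter_upwards [h1] with i hi P hP
  obtain ⟨p, hp⟩ := hP
  by_cases h2 : P ∈ FV.osc k fun j => g j i
  · exact Or.inl h2
  · right
    intro h3
    exact hp (hi p P h2 h3)

theorem sms_finset (hSMS : S_SMS) {S : Fam k F}
    {α : Type} (s : Finset α) (B : α → ∀ i, Set (Place k (S.L i)))
    (h : ∀ a ∈ s, SmS S (B a)) :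
    SmS S fun i => {z | ∃ a ∈ s, z ∈ B a i} := by
  classical
  obtain ⟨hmono, hunion, hempty, -⟩ := hSMS k F S
  induction s using Finset.induction_on with
  | empty =>
    refine hmono _ _ (Eventually.of_forall fun i z hz => ?_) hempty
    obtain ⟨a, ha, -⟩ := hz
    exact absurd ha (Finset.notMem_empty a)
  | insert a s ha ih =>
    refine hmono _ _ (Eventually.of_forall fun i z hz => ?_)
      (hunion _ _ (h a (Finset.mem_insert_self a s)) (ih fun b hb => h b (Finset.mem_insert_of_mem hb)))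
    obtain ⟨b, hb, hzb⟩ := hz
    rcases Finset.mem_insert.1 hb with rfl | hb
    · exact Or.inl hzb
    · exact Or.inr ⟨b, hb, hzb⟩

theorem po_nonneg {S : Fam k F} (x : S.MF) (i : S.I) (P : Place k (S.L i)) : 0 ≤ po x i P :=
  le_max_left _ _

theorem le_po {S : Fam k F} (x : S.MF) (i : S.I) (P : Place k (S.L i)) :
    -po x i P ≤ P.ord (rp x i) := by
  have : -(P.ord (rp x i)) ≤ po x i P := le_max_right _ _
  omega

theorem coe_iter {S : Fam k F} {Fd : IntermediateField S.smf S.MF} {D : Derivation k Fd Fd}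
    (hcoe : ∀ y : Fd, ((D y : Fd) : S.MF) = S.DM y) (j : ℕ) (b : Fd) :
    ((D^[j] b : Fd) : S.MF) = S.DM^[j] (b : S.MF) := by
  induction j with
  | zero => rfl
  | succ j ih => rw [Function.iterate_succ_apply', Function.iterate_succ_apply', hcoe, ih]

/-- **The main estimate.** -/
theorem main_seq (hBAL : MV.S_BAL) (hCAL : MV.S_CAL) (hSMS : S_SMS) (hFRB : S_FRB)
    (hFLD : S_FLD) (hZG : S_ZG) (hPRX : S_PRX) (hGPT : S_GPT) (hKEY : S_KEY)
    (S : Fam k F) {n : ℕ} {g : Fin (n + 1) → S.Sq}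
    (hg : ∀ i, LinearIndependent k fun j => g j i)
    (hOB : ∀ i j, ObE (S := S) fun m => g i m / g j m)
    (hN : SmS S fun i => FV.osc k fun j => g j i)
    {K : Type} [Field K] [Algebra F K] {w : ℕ} (hw : 0 < w) (htr : Algebra.trdeg F K = w)
    (ψ : K →ₐ[F] S.MF) (X : Finset K) (hX : IntermediateField.adjoin F (X : Set K) = ⊤)
    (hXob : ∀ x ∈ X, ψ x ∈ S.obf)
    (hXalg : ∀ x ∈ X, IsAlgebraic (IntermediateField.adjoin S.smf
      (Set.range fun j => S.mf (g j) / S.mf (g 0))) (ψ x))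
    {N : ℕ} {ι J : Type} [Finite ι] [Finite J] (ω : ι → (Fin w → Derivation F K K) → K)
    (Pos Neg : J → Finset K) (hpl : ∀ i, IsPluri N (ω i))
    (hlog : ∀ P : Place F K, Divisorial w P → ∀ i, LogAt P (ω i))
    (hreg : ∀ P : Place F K, Divisorial w P →
      (¬ ∃ j, (∀ x ∈ Pos j, P.Reg x) ∧ ∀ x ∈ Neg j, Ge P 1 x) → ∀ i, RegAt P (ω i))
    (Z : ∀ i, Set (Place k (S.L i))) (hZ : ∀ z : ∀ i, Place k (S.L i),
      (∃ j, (∀ x ∈ Pos j, ψ x ∈ hp z) ∧
      ∀ x ∈ Neg j, ψ x ∈ (hp z).nonunits) → ∀ᶠ i in (S.U : Filter S.I), z i ∈ Z i)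
    {x : Fin w → K} (hx : IsTranscendenceBasis F x) {E : Fin w → Derivation F K K}
    (hE : ∀ i j, E i (x j) = if i = j then 1 else 0) :
    ∃ (G : ι → S.MF) (δ : S.MF), δ ≠ 0 ∧ (∀ i, G i = ψ (ω i E) * δ) ∧
      ∃ (C r : ℕ) (c : Fin r → S.MF) (B : ∀ i, Set (Place k (S.L i))),
        (∀ l, c l ∈ S.smf) ∧ SmS S B ∧
        ∀ᶠ i in (S.U : Filter S.I), ∀ P i',
          -((N : ℤ) * (Z i).indicator (1 : Place k (S.L i) → ℤ) P +
            C * (B i).indicator (1 : Place k (S.L i) → ℤ) P + C * |vo P (S.D i)| +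
            C * ∑ l, po (c l) i P) ≤ P.ord (rp (G i') i) := by
  classical
  obtain ⟨Fd, D, U', ρ', ℓ', A, hPV, hcoe, hXF, hFob, hess, hgen⟩ :=
    pvdata hSMS hFRB hFLD S hg hOB hN (X.image ψ) (by
      intro y hy
      obtain ⟨x, hx, rfl⟩ := Finset.mem_image.1 hy
      exact hXob x hx) (by
      intro y hy
      obtain ⟨x, hx, rfl⟩ := Finset.mem_image.1 hy
      exact hXalg x hx)
  have hψF : ∀ x : K, ψ x ∈ Fd := by
    intro x
    have h1 : (IntermediateField.adjoin F (X : Set K)).map ψ ≤ Fd.restrictScalars F := by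
      rw [IntermediateField.adjoin_map, IntermediateField.adjoin_le_iff]
      rintro _ ⟨y, hy, rfl⟩
      exact hXF _ (Finset.mem_image_of_mem ψ hy)
    apply h1
    rw [hX]
    exact ⟨x, IntermediateField.mem_top, rfl⟩
  let φ : K →+* Fd :=
    { toFun := fun x => ⟨ψ x, hψF x⟩
      map_one' := Subtype.ext (map_one ψ)
      map_mul' := fun x y => Subtype.ext (map_mul ψ x y)
      map_zero' := Subtype.ext (map_zero ψ)
      map_add' := fun x y => Subtype.ext (map_add ψ x y) }
  let _ : Algebra K Fd := φ.toAlgebra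
  have hφ : ∀ x : K, ((algebraMap K Fd x : Fd) : S.MF) = ψ x := fun x => rfl
  have : IsScalarTower F K Fd := IsScalarTower.of_algebraMap_eq fun c => Subtype.ext (by
    rw [hφ, ψ.commutes]
    rfl)
  have hessK : Algebra.EssFiniteType F K := IntermediateField.fg_top_iff.1 ⟨X, hX⟩
  have hFc : CharZero F := charZero_of_injective_algebraMap (algebraMap k F).injective
  have hsc : CharZero S.smf := charZero_of_injective_algebraMap (algebraMap F S.smf).injective
  have hFdc : CharZero Fd := charZero_of_injective_algebraMap (algebraMap S.smf Fd).injective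
  have := hess
  obtain ⟨hmono, hunion, hempty, hpoles, -, hbad⟩ := hSMS k F S
  obtain ⟨d, hd⟩ : ∃ d : ℕ, Algebra.trdeg S.smf Fd = d :=
    Cardinal.lt_aleph0.1 (trdeg_lt_aleph0 S.smf Fd)
  rcases d with - | m
  · -- the algebraic case
    have halg : Algebra.IsAlgebraic S.smf Fd := by
      rw [← _root_.trdeg_eq_zero_iff, hd]
      simp
    have hsm : ∀ y : Fd, (y : S.MF) ∈ S.smf := by
      intro y
      obtain ⟨c, hc⟩ := hPV.alg y (halg.isAlgebraic y)
      rw [← hc]
      exact c.2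
    have hsm' : ∀ i, ψ (ω i E) ∈ S.smf := fun i => hsm (algebraMap K Fd (ω i E))
    obtain ⟨r, ⟨e⟩⟩ := Finite.exists_equiv_fin ι
    refine ⟨fun i => ψ (ω i E), 1, one_ne_zero, fun i => (mul_one _).symm, 1, r,
      fun l => ψ (ω (e.symm l) E), fun _ => ∅, fun l => hsm' _, hempty, ?_⟩
    refine Eventually.of_forall fun k' P i => ?_
    have h1 := le_po (ψ (ω i E)) k' P
    have h2 : po (ψ (ω i E)) k' P ≤ ∑ l, po (ψ (ω (e.symm l) E)) k' P := by
      have h3 := Finset.single_le_sum (f := fun l => po (ψ (ω (e.symm l) E)) k' P)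
        (fun l _ => po_nonneg _ k' P) (Finset.mem_univ (e i))
      simpa using h3
    have h3 : (0 : ℤ) ≤ (N : ℤ) * (Z k').indicator (1 : Place k (S.L k') → ℤ) P :=
      mul_nonneg (by positivity) (Set.indicator_nonneg (fun _ _ => zero_le_one) _)
    have h4 : (0 : ℤ) ≤ ((1 : ℕ) : ℤ) * (∅ : Set (Place k (S.L k'))).indicator
        (1 : Place k (S.L k') → ℤ) P :=
      mul_nonneg (by positivity) (Set.indicator_nonneg (fun _ _ => zero_le_one) _)
    have h5 : (0 : ℤ) ≤ ((1 : ℕ) : ℤ) * |vo P (S.D k')| := by positivity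
    push_cast at h4 h5 ⊢
    linarith
  · -- the transcendental case
    obtain ⟨δ, hδ, hA, hB⟩ := hKEY F S.smf K Fd m w hw hd htr (Inv S.smf D) hPV.inv_span N ι J ω
      Pos Neg hpl hlog hreg x hx E hE
    obtain ⟨T, Gs, hGs, hV⟩ := hCAL k S.smf Fd D n U' ρ' ℓ' A hPV m hd ι J
      (fun i => algebraMap K Fd (ω i E) * δ) N (fun j => (Pos j).image (algebraMap K Fd))
      (fun j => (Neg j).image (algebraMap K Fd)) (by
        intro P s hs hP
        rcases hA P s hs hP with h1 | ⟨⟨j, h2, h3⟩, h4⟩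
        · exact Or.inl h1
        · refine Or.inr ⟨⟨j, ?_, ?_⟩, h4⟩
          · intro y hy
            obtain ⟨x, hx, rfl⟩ := Finset.mem_image.1 hy
            exact h2 x hx
          · intro y hy
            obtain ⟨x, hx, rfl⟩ := Finset.mem_image.1 hy
            exact h3 x hx)
    obtain ⟨l, b, J', hl, hb0, hbW, hint⟩ := hBAL k S.smf Fd D n U' ρ' ℓ' A hPV m hd ι
      (fun i => algebraMap K Fd (ω i E) * δ) fun P s hs hP i => hB P s hs hP i
    -- a spanning family
    have hWfin : Module.Finite S.smf ↥(W1 S.smf U' ρ' ^ l) := MV.pow_fin MV.W1_fin l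
    obtain ⟨q, y, hy⟩ := Submodule.fg_iff_exists_fin_generating_family.1
      (Module.Finite.iff_fg.1 hWfin)
    have hyne : ∃ i0, y i0 ≠ 0 := by
      by_contra hcon
      push Not at hcon
      have h1 : Submodule.span S.smf (Set.range y) = ⊥ := by
        rw [Submodule.span_eq_bot]
        rintro _ ⟨i, rfl⟩
        exact hcon i
      rw [hy] at h1
      rw [h1, Submodule.mem_bot] at hbW
      exact hb0 hbW
    have hprx : ∀ i, ∃ (C r : ℕ) (c : Fin r → S.MF), (∀ l, c l ∈ S.smf) ∧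
        ∀ᶠ k' in (S.U : Filter S.I), ∀ P : Place k (S.L k'),
          -((C : ℤ) * (1 + |vo P (S.D k')| + ∑ l, po (c l) k' P)) ≤
            P.ord (rp ((algebraMap K Fd (ω i E) * δ : Fd) : S.MF) k') := by
      intro i
      refine hPRX k F S q J' (b : S.MF) (fun a => (y a : S.MF)) _
        (fun h => hb0 (Subtype.ext h)) ?_ ?_
      · obtain ⟨i0, hi0⟩ := hyne
        exact ⟨i0, fun h => hi0 (Subtype.ext h)⟩
      · intro i0 hi0
        obtain ⟨p, hp1, hp2⟩ := hint q y hy i0 (fun h => hi0 (by rw [h]; rfl)) i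
        refine ⟨p, hp1, ?_⟩
        have h1 := congrArg (algebraMap Fd S.MF) hp2
        rw [map_zero, Polynomial.hom_eval₂] at h1
        rw [← h1]
        congr 1
        apply MvPolynomial.ringHom_ext
        · intro c
          change aeval _ (MvPolynomial.C c) = algebraMap Fd S.MF (aeval _ (MvPolynomial.C c))
          rw [aeval_C, aeval_C]
          rfl
        · intro v
          change aeval _ (MvPolynomial.X v) = algebraMap Fd S.MF (aeval _ (MvPolynomial.X v))
          rw [aeval_X, aeval_X]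
          rcases v with a | j
          · simp only [Sum.elim_inl]
            rfl
          · simp only [Sum.elim_inr]
            have h2 := coe_iter hcoe (j : ℕ) b
            change S.DM^[(j : ℕ)] (b : S.MF) / (b : S.MF) = ((D^[(j : ℕ)] b / b : Fd) : S.MF)
            rw [← h2]
            rfl
    choose C0 r0 c0 hc0 hpo using hprx
    -- the exceptional set
    let BT : ∀ i, Set (Place k (S.L i)) := fun i => {P | ∃ c ∈ T, ¬ Ge P 0 (rp (c : S.MF) i)}
    let Bg : ∀ i, Set (Place k (S.L i)) := fun i =>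
      {P | ∃ p, ¬ Ge P 0 (rp ((gen1 U' ρ' p : Fd) : S.MF) i)}
    let BG : ∀ i, Set (Place k (S.L i)) := fun i =>
      {P | ∃ G ∈ Gs, ∀ x ∈ G, Ge P 1 (rp ((x : Fd) : S.MF) i)}
    let BD : ∀ i, Set (Place k (S.L i)) := fun i => {P | vo P (S.D i) ≠ 0}
    have hBT : SmS S BT := sms_finset hSMS T (fun c i => {P | ¬ Ge P 0 (rp (c : S.MF) i)})
      fun c _ => hpoles c c.2
    have hBG : SmS S BG := sms_finset hSMS Gs
      (fun G i => {P | ∀ x ∈ G, Ge P 1 (rp ((x : Fd) : S.MF) i)}) fun G hG =>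
        hZG k F S Fd D n U' ρ' ℓ' A hcoe hFob hPV hess m hd hgen G (hGs G hG).1 (hGs G hG).2
    let BB : ∀ i, Set (Place k (S.L i)) := fun i => ((BT i ∪ Bg i) ∪ BG i) ∪ BD i
    have hBB : SmS S BB := hunion _ _ (hunion _ _ (hunion _ _ hBT hgen) hBG) hbad
    have hgpt := hGPT k F S Fd D hcoe _ ι J (gen1 U' ρ') T
      (fun j => (Pos j).image (algebraMap K Fd)) (fun j => (Neg j).image (algebraMap K Fd))
      (fun i => algebraMap K Fd (ω i E) * δ) N (Gs.image fun G => G.image Subtype.val) (by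
        intro V h1 h2 h3
        rcases hV V h1 h2 h3 with h4 | h4 | ⟨G, hG, h4⟩
        · exact Or.inl h4
        · exact Or.inr (Or.inl h4)
        · refine Or.inr (Or.inr ⟨G.image Subtype.val, Finset.mem_image_of_mem _ hG, ?_⟩)
          intro x hx
          obtain ⟨x', hx', rfl⟩ := Finset.mem_image.1 hx
          exact h4 x' hx') BB Z
      (by
        refine Eventually.of_forall fun i P hP => ?_
        by_contra h1
        exact hP (Or.inr h1))
      (by
        intro c hc
        refine Eventually.of_forall fun i P hP => ?_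
        by_contra h1
        exact hP (Or.inl (Or.inl (Or.inl ⟨c, hc, h1⟩))))
      (by
        intro p
        refine Eventually.of_forall fun i P hP => ?_
        by_contra h1
        exact hP (Or.inl (Or.inl (Or.inr ⟨p, h1⟩))))
      (by
        intro G hG
        obtain ⟨G', hG', rfl⟩ := Finset.mem_image.1 hG
        refine Eventually.of_forall fun i P hP => ?_
        by_contra h1
        push Not at h1
        exact hP (Or.inl (Or.inr ⟨G', hG', fun x hx => h1 _ (Finset.mem_image_of_mem _ hx)⟩)))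
      (by
        rintro z ⟨j, h1, h2⟩
        refine hZ z ⟨j, fun x hx => ?_, fun x hx => ?_⟩
        · exact h1 _ (Finset.mem_image_of_mem _ hx)
        · exact h2 _ (Finset.mem_image_of_mem _ hx))
    -- the result
    obtain ⟨r, ⟨e⟩⟩ := Finite.exists_equiv_fin (Σ i, Fin (r0 i))
    have := Fintype.ofFinite ι
    refine ⟨fun i => ψ (ω i E) * (δ : S.MF), (δ : S.MF), fun h => hδ (Subtype.ext h),
      fun i => rfl, ∑ i, C0 i, r, fun l => c0 (e.symm l).1 (e.symm l).2,
      BB, fun l => hc0 _ _, hBB, ?_⟩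
    filter_upwards [hgpt, eventually_all.2 hpo] with k' hk1 hk2 P i
    have hN0 : (0 : ℤ) ≤ (N : ℤ) * (Z k').indicator (1 : Place k (S.L k') → ℤ) P :=
      mul_nonneg (by positivity) (Set.indicator_nonneg (fun _ _ => zero_le_one) _)
    have hs0 : (0 : ℤ) ≤ ∑ l, po (c0 (e.symm l).1 (e.symm l).2) k' P :=
      Finset.sum_nonneg fun _ _ => po_nonneg _ _ _
    have hC0 : (0 : ℤ) ≤ ((∑ i, C0 i : ℕ) : ℤ) := by positivity
    have hB0 : (0 : ℤ) ≤ (BB k').indicator (1 : Place k (S.L k') → ℤ) P :=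
      Set.indicator_nonneg (fun _ _ => zero_le_one) _
    have hv0 : (0 : ℤ) ≤ |vo P (S.D k')| := abs_nonneg _
    have hCs : (0 : ℤ) ≤ ((∑ i, C0 i : ℕ) : ℤ) * ∑ l, po (c0 (e.symm l).1 (e.symm l).2) k' P :=
      mul_nonneg hC0 hs0
    have hCv : (0 : ℤ) ≤ ((∑ i, C0 i : ℕ) : ℤ) * |vo P (S.D k')| := mul_nonneg hC0 hv0
    by_cases hz : P ∈ BB k'
    · have h1 := hk2 i P
      have h2 : (C0 i : ℤ) ≤ ((∑ i, C0 i : ℕ) : ℤ) := by
        exact_mod_cast Finset.single_le_sum (f := C0) (fun _ _ => Nat.zero_le _)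
          (Finset.mem_univ i)
      have h3 : ∑ l, po (c0 i l) k' P ≤ ∑ l, po (c0 (e.symm l).1 (e.symm l).2) k' P := by
        have h4 : ∑ l, po (c0 (e.symm l).1 (e.symm l).2) k' P =
            ∑ i, ∑ l, po (c0 i l) k' P := by
          rw [← Fintype.sum_sigma' (fun i l => po (c0 i l) k' P)]
          exact e.symm.sum_comp fun v => po (c0 v.1 v.2) k' P
        rw [h4]
        exact Finset.single_le_sum (f := fun i => ∑ l, po (c0 i l) k' P)
          (fun _ _ => Finset.sum_nonneg fun _ _ => po_nonneg _ _ _) (Finset.mem_univ i)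
      have h5 : (0 : ℤ) ≤ ∑ l, po (c0 i l) k' P := Finset.sum_nonneg fun _ _ => po_nonneg _ _ _
      rw [Set.indicator_of_mem hz, Pi.one_apply, mul_one]
      have h6 : (C0 i : ℤ) * (1 + |vo P (S.D k')| + ∑ l, po (c0 i l) k' P) ≤
          ((∑ i, C0 i : ℕ) : ℤ) *
            (1 + |vo P (S.D k')| + ∑ l, po (c0 (e.symm l).1 (e.symm l).2) k' P) := by
        apply mul_le_mul h2 (by linarith) (by linarith) hC0
      have h7 : -((C0 i : ℤ) * (1 + |vo P (S.D k')| + ∑ l, po (c0 i l) k' P)) ≤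
        P.ord (rp (ψ (ω i E) * (δ : S.MF)) k') := h1
      rw [mul_add, mul_add, mul_one] at h6
      linarith
    · rw [Set.indicator_of_notMem hz, mul_zero]
      have hge : ∀ {m : ℤ} {a : S.L k'}, m ≤ 0 → Ge P m a → m ≤ P.ord a := by
        rintro m a hm (h1 | h1)
        · rw [h1, P.ord_zero]
          exact hm
        · exact h1
      rcases hk1 P hz with h1 | ⟨h1, h2⟩
      · have h3 : 0 ≤ P.ord (rp (ψ (ω i E) * (δ : S.MF)) k') := hge le_rfl (h1 i)
        linarith
      · have h3 : -(N : ℤ) ≤ P.ord (rp (ψ (ω i E) * (δ : S.MF)) k') := hge (by omega) (h2 i)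
        rw [Set.indicator_of_mem h1, Pi.one_apply, mul_one]
        linarith

end Pool.Agent.N131.FM
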