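import Mathlib
import Pool.Agent.N131.FM.Asm
import Pool.Agent.N131.FV.Key

/-!
Generic sequences of points.
-/

set_option autoImplicit false

namespace Pool.Agent.N131.FM

open FF Filter MvPolynomial Pool.Agent.W603.LV Pool.Agent.W603.PV
open Pool.Agent.N131.SV (S_KEY)
open Pool.Agent.W602.GT (IsForm coords val exists_embedding Divisorial IsPluri RegAt LogAt)
open Pool.Agent.N131.FM.Fam (SmS rp po ObE SmE mem_obf mem_smf DM_obf DM_smf smf_le_obf mem_hp
  mem_hp_nonunits)
open Pool.Agent.N131.FV (mo mo_le exists_mo ge_mo mo_finite osc)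

variable {k F : Type} [Field k] [IsAlgClosed k] [CharZero k] [Field F] [Algebra k F] [IsFF k F]
  {M : ℕ} {K : Type} [Field K] [Algebra F K]

/-- the height -/
noncomputable abbrev ht (k : Type) {L : Type} [Field k] [Field L] [Algebra k L] {ι : Type}
    (x : ι → L) : ℤ := FV.hp k x

theorem ratio_le {L : Type} [Field L] [Algebra k L] [IsFF k L] {ι : Type} [Finite ι] {x : ι → L}
    {l : ι} (hl : x l ≠ 0) (i : ι) : hgt k (x i / x l) ≤ ht k x := by
  classical
  have hx : ∃ c, x c ≠ 0 := ⟨l, hl⟩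
  obtain ⟨T0, hT0⟩ := exists_supp (k := k) (Finset.univ : Finset (Fin 2)) ![x l, x i / x l]
  set T : Finset (Place k L) := T0 ∪ (mo_finite hx).toFinset with hT
  have h1 : ∀ P : Place k L, P.ord (x l) ≠ 0 → P ∈ T := fun P hP =>
    Finset.mem_union_left _ (hT0 0 (Finset.mem_univ _) P hP)
  have h2 : ∀ P : Place k L, P.ord (x i / x l) ≠ 0 → P ∈ T := fun P hP =>
    Finset.mem_union_left _ (hT0 1 (Finset.mem_univ _) P hP)
  have h3 : ∀ P : Place k L, mo P x ≠ 0 → P ∈ T := fun P hP =>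
    Finset.mem_union_right _ (by simpa using hP)
  have h4 : ht k x = -∑ P ∈ T, mo P x := by
    unfold ht FV.hp
    rw [finsum_eq_sum_of_support_subset (s := T)]
    intro P hP
    exact h3 P hP
  have h5 := sum_ord_finset (x l) T h1
  have h6 : -∑ P ∈ T, mo P x = ∑ P ∈ T, (P.ord (x l) - mo P x) := by
    rw [Finset.sum_sub_distrib, h5, zero_sub]
  rw [h4, h6, hgt_finset (x i / x l) T h2]
  refine Finset.sum_le_sum fun P _ => ?_
  have h7 := mo_le P hl
  by_cases hi : x i = 0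
  · rw [hi, zero_div, P.ord_zero]
    simp only [neg_zero, max_self]
    linarith
  · have h8 := mo_le P hi
    rw [P.ord_div hi hl]
    omega

/-- generic sequences of points -/
structure Gsq (S : Fam k F) (y : Fin (M + 1) → K) (f : Fin (M + 1) → S.Sq) : Prop where
  ne : ∀ i, ∃ j, f j i ≠ 0
  van : ∀ G : MvPolynomial (Fin (M + 1)) F, IsForm G → aeval y G = 0 →
    ∀ᶠ i in (S.U : Filter S.I), aeval (fun j => f j i) G = 0
  nz' : ∀ G : MvPolynomial (Fin (M + 1)) F, IsForm G → aeval y G ≠ 0 →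
    ∀ᶠ i in (S.U : Filter S.I), aeval (fun j => f j i) G ≠ 0
  ht : ∀ i, ht k (fun j => f j i) = S.h i

theorem aeval_mf {S : Fam k F} {m : ℕ} (f : Fin m → S.Sq) (G : MvPolynomial (Fin m) F) :
    aeval (fun j => S.mf (f j)) G = S.mf (fun i => aeval (fun j => f j i) G) := by
  induction G using MvPolynomial.induction_on with
  | C c =>
    rw [aeval_C, Fam.algebraMap_mf]
    congr 1
    funext i
    rw [aeval_C]
  | add F G h1 h2 =>
    rw [map_add, h1, h2, ← map_add]
    congr 1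
    funext i
    rw [Pi.add_apply, map_add]
  | mul_X F j h1 =>
    rw [map_mul, aeval_X, h1, ← map_mul]
    congr 1
    funext i
    rw [Pi.mul_apply, map_mul, aeval_X]

variable {S : Fam k F} {y : Fin (M + 1) → K} {f : Fin (M + 1) → S.Sq}

namespace Gsq

variable (h : Gsq S y f)
include h

theorem nz {G : MvPolynomial (Fin (M + 1)) F} (hG : IsForm G) (h0 : aeval y G ≠ 0) :
    ∀ᶠ i in (S.U : Filter S.I), aeval (fun j => f j i) G ≠ 0 := h.nz' G hG h0

theorem mf_nz {G : MvPolynomial (Fin (M + 1)) F} (hG : IsForm G) (h0 : aeval y G ≠ 0) :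
    S.mf (fun i => aeval (fun j => f j i) G) ≠ 0 := S.mf_ne_zero.2 (h.nz hG h0)

/-- the generic point -/
theorem genpt {G : MvPolynomial (Fin (M + 1)) F} (hG : IsForm G) :
    val y G = 0 ↔ val (fun j => S.mf (f j)) G = 0 := by
  unfold val
  rw [aeval_mf]
  constructor
  · intro h0
    exact S.mf_eq_zero.2 (h.van G hG h0)
  · intro h0
    by_contra h1
    exact h.mf_nz hG h1 h0

theorem mf_X_ne {l : Fin (M + 1)} (hl : y l ≠ 0) : S.mf (f l) ≠ 0 := by
  have h1 := h.mf_nz (G := X l) ⟨1, isHomogeneous_X _ _⟩ (by rwa [aeval_X])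
  simpa using h1

theorem emb (hy : coords F y = ⊤) {l : Fin (M + 1)} (hl : y l ≠ 0) :
    ∃ ψ : K →ₐ[F] S.MF, ∀ j, ψ (y j / y l) = S.mf (f j) / S.mf (f l) :=
  exists_embedding hl (h.mf_X_ne hl) hy fun _ hG => h.genpt hG

/-- values of forms -/
theorem psi_form {l : Fin (M + 1)} (hl : y l ≠ 0) {ψ : K →ₐ[F] S.MF}
    (hψ : ∀ j, ψ (y j / y l) = S.mf (f j) / S.mf (f l))
    {G : MvPolynomial (Fin (M + 1)) F} {d : ℕ} (hG : G.IsHomogeneous d) :
    ψ (aeval y G / y l ^ d) = S.mf (fun i => aeval (fun j => f j i) G) / S.mf (f l) ^ d := by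
  have e1 : aeval y G / y l ^ d = aeval (fun j => y j / y l) G := by
    have h1 := Pool.Agent.W602.GT.val_smul hG (y l) (fun j => y j / y l)
    unfold val at h1
    have h2 : (fun j => y l * (y j / y l)) = y := funext fun j => mul_div_cancel₀ _ hl
    rw [h2] at h1
    rw [h1, mul_div_cancel_left₀ _ (pow_ne_zero _ hl)]
  have e2 : aeval (fun j => S.mf (f j)) G / S.mf (f l) ^ d =
      aeval (fun j => S.mf (f j) / S.mf (f l)) G := by
    have hl' := h.mf_X_ne hl
    have h1 := Pool.Agent.W602.GT.val_smul hG (S.mf (f l))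
      (fun j => S.mf (f j) / S.mf (f l))
    unfold val at h1
    have h2 : (fun j => S.mf (f l) * (S.mf (f j) / S.mf (f l))) =
        fun j => S.mf (f j) := funext fun j => mul_div_cancel₀ _ hl'
    rw [h2] at h1
    rw [h1, mul_div_cancel_left₀ _ (pow_ne_zero _ hl')]
  rw [← aeval_mf, e1, e2]
  rw [← AlgHom.comp_apply, comp_aeval]
  congr 2
  funext j
  exact hψ j

/-- ratios of forms of the same degree -/
theorem psi_ratio {l : Fin (M + 1)} (hl : y l ≠ 0) {ψ : K →ₐ[F] S.MF}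
    (hψ : ∀ j, ψ (y j / y l) = S.mf (f j) / S.mf (f l))
    {G G' : MvPolynomial (Fin (M + 1)) F} {d : ℕ} (hG : G.IsHomogeneous d)
    (hG' : G'.IsHomogeneous d) : ψ (aeval y G / aeval y G') =
      S.mf (fun i => aeval (fun j => f j i) G) / S.mf (fun i => aeval (fun j => f j i) G') := by
  have h1 := h.psi_form hl hψ hG
  have h2 := h.psi_form hl hψ hG'
  have hl' := h.mf_X_ne hl
  have h3 : aeval y G / aeval y G' = (aeval y G / y l ^ d) / (aeval y G' / y l ^ d) := by
    rw [div_div_div_cancel_right₀ (pow_ne_zero _ hl)]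
  rw [h3, map_div₀, h1, h2, div_div_div_cancel_right₀ (pow_ne_zero _ hl')]

theorem ob {l : Fin (M + 1)} (hl : y l ≠ 0) (i : Fin (M + 1)) :
    S.mf (f i) / S.mf (f l) ∈ S.obf := by
  rw [Fam.mf_div, mem_obf]
  have h1 := S.mf_ne_zero.1 (h.mf_X_ne hl)
  refine ⟨1, ?_⟩
  filter_upwards [h1] with n hn
  have h2 := ratio_le (k := k) (x := fun j => f j n) hn i
  rw [h.ht n] at h2
  simpa using h2

end Gsq

theorem adjoin_coords (hy : coords F y = ⊤) {l : Fin (M + 1)} (hl : y l ≠ 0) :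
    IntermediateField.adjoin F (Set.range fun i => y i / y l) = ⊤ := by
  rw [eq_top_iff, ← hy]
  unfold coords
  rw [IntermediateField.adjoin_le_iff]
  rintro _ ⟨i, j, hj, rfl⟩
  have h1 : y i / y j = (y i / y l) / (y j / y l) := by
    rw [div_div_div_cancel_right₀ hl]
  rw [h1]
  exact div_mem (IntermediateField.subset_adjoin _ _ ⟨i, rfl⟩)
    (IntermediateField.subset_adjoin _ _ ⟨j, rfl⟩)

theorem Gsq.ob_all (h : Gsq S y f) (hy : coords F y = ⊤) {l : Fin (M + 1)}
    (hl : y l ≠ 0) {ψ : K →ₐ[F] S.MF}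
    (hψ : ∀ j, ψ (y j / y l) = S.mf (f j) / S.mf (f l)) (x : K) :
    ψ x ∈ S.obf := by
  have h1 : (IntermediateField.adjoin F (Set.range fun i => y i / y l)).map ψ ≤ S.obf := by
    rw [IntermediateField.adjoin_map, IntermediateField.adjoin_le_iff]
    rintro _ ⟨_, ⟨i, rfl⟩, rfl⟩
    change ψ (y i / y l) ∈ S.obf
    rw [hψ]
    exact h.ob hl i
  apply h1
  rw [adjoin_coords hy hl]
  exact ⟨x, IntermediateField.mem_top, rfl⟩

/-- the boundary condition: the place has its centre in the set of the common zeros of the forms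
`Q` -/
def Bd {r : ℕ} (Q : Fin (r + 1) → MvPolynomial (Fin (M + 1)) F) (q : Fin (r + 1) → ℕ)
    (y : Fin (M + 1) → K) (P : Place F K) : Prop :=
  ∃ j, y j ≠ 0 ∧ (∀ i, P.Reg (y i / y j)) ∧ ∀ l, Ge P 1 (aeval y (Q l) / y j ^ q l)

/-- the places at which a point reduces to the set of the common zeros of the forms `Q` -/
def ZD {L : Type} [Field L] [Algebra k L] [Algebra F L] {r : ℕ}
    (Q : Fin (r + 1) → MvPolynomial (Fin (M + 1)) F) (q : Fin (r + 1) → ℕ)
    (x : Fin (M + 1) → L) : Set (Place k L) :=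
  {P | ∀ l, Ge P (q l * mo P x + 1) (aeval x (Q l))}

/-- places over the boundary -/
theorem Gsq.bdry (h : Gsq S y f) {l0 : Fin (M + 1)} (hl0 : y l0 ≠ 0) {ψ : K →ₐ[F] S.MF}
    (hψ : ∀ j, ψ (y j / y l0) = S.mf (f j) / S.mf (f l0)) {r : ℕ}
    {Q : Fin (r + 1) → MvPolynomial (Fin (M + 1)) F} {q : Fin (r + 1) → ℕ}
    (hQ : ∀ l, (Q l).IsHomogeneous (q l)) {z : ∀ i, Place k (S.L i)} {j : Fin (M + 1)}
    (hj : y j ≠ 0) (h1 : ∀ i, ψ (y i / y j) ∈ Fam.hp z)
    (h2 : ∀ l, ψ (aeval y (Q l) / y j ^ q l) ∈ (Fam.hp z).nonunits) :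
    ∀ᶠ i in (S.U : Filter S.I), z i ∈ ZD (k := k) Q q fun j => f j i := by
  have hψj : ∀ i, ψ (y i / y j) = S.mf (fun n => f i n / f j n) := by
    intro i
    have h3 : y i / y j = (y i / y l0) / (y j / y l0) := by
      rw [div_div_div_cancel_right₀ hl0]
    rw [h3, map_div₀, hψ, hψ, div_div_div_cancel_right₀ (h.mf_X_ne hl0), Fam.mf_div]
  have hψj' : ∀ i, ψ (y i / y j) = S.mf (f i) / S.mf (f j) := by
    intro i
    rw [hψj, Fam.mf_div]
  have e1 : ∀ᶠ n in (S.U : Filter S.I), ∀ i, Ge (z n) 0 (f i n / f j n) := by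
    rw [eventually_all]
    intro i
    have h3 := h1 i
    rw [hψj i, mem_hp] at h3
    exact h3
  have e2 : ∀ᶠ n in (S.U : Filter S.I), ∀ l,
      Ge (z n) 1 (aeval (fun j => f j n) (Q l) / f j n ^ q l) := by
    rw [eventually_all]
    intro l
    have h3 := h2 l
    rw [h.psi_form hj hψj' (hQ l), ← map_pow, Fam.mf_div, mem_hp_nonunits] at h3
    exact h3
  have e3 := S.mf_ne_zero.1 (h.mf_X_ne hj)
  filter_upwards [e1, e2, e3] with n h3 h4 h5
  have hmo : mo (z n) (fun j => f j n) = (z n).ord (f j n) := by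
    apply le_antisymm (mo_le (z n) (x := fun j => f j n) h5)
    obtain ⟨c, hc, hcm⟩ := exists_mo (z n) (x := fun j => f j n) ⟨j, h5⟩
    rw [← hcm]
    have h6 := (h3 c).resolve_left (div_ne_zero hc h5)
    rw [(z n).ord_div hc h5] at h6
    change (z n).ord (f j n) ≤ (z n).ord (f c n)
    linarith
  intro l
  have h6 := h4 l
  have h7 : Ge (z n) (q l * mo (z n) (fun j => f j n)) (f j n ^ q l) := by
    right
    rw [hmo, (z n).ord_pow]
  have h8 := h7.mul h6
  rwa [mul_div_cancel₀ _ (pow_ne_zero _ h5)] at h8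

/-- transfer of algebraic elements -/
theorem alg_transfer {K₁ K₂ : Type} [Field K₁] [Field K₂] [Algebra F K₁] [Algebra F K₂]
    (ψ : K₁ →ₐ[F] K₂) {P : IntermediateField F K₁} {κ : Type} [Field κ] [Algebra κ K₂]
    (E : IntermediateField κ K₂) (hPE : ∀ x ∈ P, ψ x ∈ E) {x : K₁} (hx : IsAlgebraic P x) :
    IsAlgebraic E (ψ x) := by
  let σ : P →+* E :=
    { toFun := fun x => ⟨ψ x, hPE x x.2⟩
      map_one' := Subtype.ext (map_one ψ)
      map_mul' := fun x y => Subtype.ext (map_mul ψ (x : K₁) (y : K₁))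
      map_zero' := Subtype.ext (map_zero ψ)
      map_add' := fun x y => Subtype.ext (map_add ψ (x : K₁) (y : K₁)) }
  obtain ⟨p, hp, hpx⟩ := hx
  refine ⟨p.map σ, (Polynomial.map_ne_zero_iff σ.injective).2 hp, ?_⟩
  rw [Polynomial.aeval_def, Polynomial.eval₂_map]
  have h1 : (algebraMap E K₂).comp σ = (ψ : K₁ →+* K₂).comp (algebraMap P K₁) :=
    RingHom.ext fun x => rfl
  rw [h1]
  have h2 := Polynomial.hom_eval₂ p (algebraMap P K₁) (ψ : K₁ →+* K₂) x
  rw [Polynomial.aeval_def] at hpx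
  rw [hpx, map_zero] at h2
  exact h2.symm

theorem const_sm (c : S.I → k) : S.mf (fun n => algebraMap k (S.L n) (c n)) ∈ S.smf := by
  rw [mem_smf]
  refine Fam.Sm.mono Fam.Sm.zero (Eventually.of_forall fun n => ?_)
  exact (hgt_algebraic (isAlgebraic_algebraMap _)).le

/-- **The main estimate for generic sequences of points.** -/
theorem core_seq (hBAL : MV.S_BAL) (hCAL : MV.S_CAL) (hSMS : S_SMS) (hFRB : S_FRB)
    (hFLD : S_FLD) (hZG : S_ZG) (hPRX : S_PRX) (hGPT : S_GPT) (hKEY : S_KEY)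
    (h : Gsq S y f) (hy : coords F y = ⊤) {w : ℕ} (hw : 0 < w)
    (htr : Algebra.trdeg F K = w) {l0 : Fin (M + 1)} (hl0 : y l0 ≠ 0) {ν e : ℕ}
    {pr : Fin (ν + 1) → MvPolynomial (Fin (M + 1)) F} (hpr : ∀ i, (pr i).IsHomogeneous e)
    (hpralg : Algebra.IsAlgebraic (IntermediateField.adjoin F
      {z | ∃ i j, aeval y (pr j) ≠ 0 ∧ z = aeval y (pr i) / aeval y (pr j)}) K)
    {n : ℕ} {g : Fin (n + 1) → S.Sq} (hg : ∀ i, LinearIndependent k fun j => g j i)
    {a : Fin (n + 1) → Fin (ν + 1) → S.I → k} {b : Fin (ν + 1) → Fin (n + 1) → S.I → k}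
    (ha : ∀ i m, g i m = ∑ j, algebraMap k (S.L m) (a i j m) * aeval (fun l => f l m) (pr j))
    (hb : ∀ j m, aeval (fun l => f l m) (pr j) = ∑ i, algebraMap k (S.L m) (b j i m) * g i m)
    (hN : SmS S fun i => osc k fun j => g j i) {N t : ℕ}
    (ω : Fin (t + 1) → (Fin w → Derivation F K K) → K) (hpl : ∀ i, IsPluri N (ω i))
    (hlog : ∀ P : Place F K, Divisorial w P → ∀ i, LogAt P (ω i)) {r : ℕ}
    {Q : Fin (r + 1) → MvPolynomial (Fin (M + 1)) F} {q : Fin (r + 1) → ℕ}
    (hQ : ∀ l, (Q l).IsHomogeneous (q l))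
    (hreg : ∀ P : Place F K, Divisorial w P → ¬ Bd Q q y P → ∀ i, RegAt P (ω i))
    {x : Fin w → K} (hx : IsTranscendenceBasis F x) {E : Fin w → Derivation F K K}
    (hE : ∀ i j, E i (x j) = if i = j then 1 else 0) :
    ∃ ψ : K →ₐ[F] S.MF, (∀ j, ψ (y j / y l0) = S.mf (f j) / S.mf (f l0)) ∧
      (∀ x, ψ x ∈ S.obf) ∧ ∃ (G : Fin (t + 1) → S.MF) (δ : S.MF), δ ≠ 0 ∧
        (∀ i, G i = ψ (ω i E) * δ) ∧
        ∃ (C r' : ℕ) (c : Fin r' → S.MF) (B : ∀ i, Set (Place k (S.L i))),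
          (∀ l, c l ∈ S.smf) ∧ SmS S B ∧ ∀ᶠ m in (S.U : Filter S.I), ∀ P i',
            -((N : ℤ) * (ZD (k := k) Q q fun j => f j m).indicator
                (1 : Place k (S.L m) → ℤ) P +
              C * (B m).indicator (1 : Place k (S.L m) → ℤ) P + C * |vo P (S.D m)| +
              C * ∑ l, po (c l) m P) ≤ P.ord (rp (G i') m) := by
  classical
  obtain ⟨ψ, hψ⟩ := h.emb hy hl0
  have hob := h.ob_all hy hl0 hψ
  refine ⟨ψ, hψ, hob, ?_⟩
  have hl' := h.mf_X_ne hl0
  -- the basis in terms of forms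
  have hgm : ∀ i, S.mf (g i) = S.mf (f l0) ^ e *
      ∑ j, S.mf (fun m => algebraMap k (S.L m) (a i j m)) * ψ (aeval y (pr j) / y l0 ^ e) := by
    intro i
    rw [Finset.mul_sum]
    have h1 : ∀ j, S.mf (f l0) ^ e *
        (S.mf (fun m => algebraMap k (S.L m) (a i j m)) * ψ (aeval y (pr j) / y l0 ^ e)) =
        S.mf (fun m => algebraMap k (S.L m) (a i j m) * aeval (fun l => f l m) (pr j)) := by
      intro j
      have h2 : S.mf (fun m => algebraMap k (S.L m) (a i j m) * aeval (fun l => f l m) (pr j)) =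
          S.mf (fun m => algebraMap k (S.L m) (a i j m)) *
            S.mf (fun m => aeval (fun l => f l m) (pr j)) := by
        rw [← map_mul]
        rfl
      rw [h.psi_form hl0 hψ (hpr j), h2]
      field_simp
    rw [Finset.sum_congr rfl fun j _ => h1 j, ← map_sum]
    congr 1
    funext m
    rw [ha i m, Finset.sum_apply]
  have hobg : ∀ i j, S.mf (g i) / S.mf (g j) ∈ S.obf := by
    intro i j
    rw [hgm i, hgm j, mul_div_mul_left _ _ (pow_ne_zero _ hl')]
    exact div_mem (sum_mem fun l _ => mul_mem (smf_le_obf (const_sm _)) (hob _))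
      (sum_mem fun l _ => mul_mem (smf_le_obf (const_sm _)) (hob _))
  have hOB : ∀ i j, ObE (S := S) fun m => g i m / g j m := by
    intro i j
    rw [← mem_obf, ← Fam.mf_div]
    exact hobg i j
  -- algebraic elements
  have hPE : ∀ x ∈ IntermediateField.adjoin F
      {z | ∃ i j, aeval y (pr j) ≠ 0 ∧ z = aeval y (pr i) / aeval y (pr j)},
      ψ x ∈ IntermediateField.adjoin S.smf
        (Set.range fun j => S.mf (g j) / S.mf (g 0)) := by
    set E0 := IntermediateField.adjoin S.smf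
        (Set.range fun j => S.mf (g j) / S.mf (g 0)) with hE0
    have h1 : (IntermediateField.adjoin F
        {z | ∃ i j, aeval y (pr j) ≠ 0 ∧ z = aeval y (pr i) / aeval y (pr j)}).map ψ ≤
        E0.restrictScalars F := by
      rw [IntermediateField.adjoin_map, IntermediateField.adjoin_le_iff]
      rintro _ ⟨_, ⟨i, j, hj, rfl⟩, rfl⟩
      change ψ (aeval y (pr i) / aeval y (pr j)) ∈ E0
      rw [h.psi_ratio hl0 hψ (hpr i) (hpr j)]
      have h2 : ∀ j, S.mf (fun m => aeval (fun l => f l m) (pr j)) / S.mf (g 0) ∈ E0 := by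
        intro j
        have h3 : S.mf (fun m => aeval (fun l => f l m) (pr j)) =
            ∑ i, S.mf (fun m => algebraMap k (S.L m) (b j i m)) * S.mf (g i) := by
          simp only [← map_mul]
          rw [← map_sum]
          congr 1
          funext m
          rw [hb j m, Finset.sum_apply]
          rfl
        rw [h3, Finset.sum_div]
        refine sum_mem fun i _ => ?_
        rw [mul_div_assoc]
        refine mul_mem ?_ (IntermediateField.subset_adjoin _ _ ⟨i, rfl⟩)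
        exact E0.algebraMap_mem (⟨_, const_sm (b j i)⟩ : S.smf)
      have hg0 : S.mf (g 0) ≠ 0 := by
        rw [Fam.mf_ne_zero]
        exact Eventually.of_forall fun m => (hg m).ne_zero 0
      have h4 := div_mem (h2 i) (h2 j)
      rwa [div_div_div_cancel_right₀ hg0] at h4
    exact fun x hx => h1 ⟨x, hx, rfl⟩
  -- the boundary data
  let J := {j : Fin (M + 1) // y j ≠ 0}
  let Pos : J → Finset K := fun j => Finset.univ.image fun i => y i / y j
  let Neg : J → Finset K := fun j => Finset.univ.image fun l => aeval y (Q l) / y j ^ q l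
  have hBd : ∀ P : Place F K, (∃ j, (∀ x ∈ Pos j, P.Reg x) ∧ ∀ x ∈ Neg j, Ge P 1 x) ↔
      Bd Q q y P := by
    intro P
    constructor
    · rintro ⟨j, h1, h2⟩
      exact ⟨j, j.2, fun i => h1 _ (Finset.mem_image_of_mem _ (Finset.mem_univ i)),
        fun l => h2 _ (Finset.mem_image_of_mem _ (Finset.mem_univ l))⟩
    · rintro ⟨j, hj, h1, h2⟩
      refine ⟨⟨j, hj⟩, ?_, ?_⟩
      · intro x hx
        obtain ⟨i, -, rfl⟩ := Finset.mem_image.1 hx
        exact h1 i
      · intro x hx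
        obtain ⟨l, -, rfl⟩ := Finset.mem_image.1 hx
        exact h2 l
  refine main_seq hBAL hCAL hSMS hFRB hFLD hZG hPRX hGPT hKEY S hg hOB hN hw htr ψ
    (Finset.univ.image fun i => y i / y l0) (by
      rw [Finset.coe_image, Finset.coe_univ, Set.image_univ]
      exact adjoin_coords hy hl0) (fun x _ => hob x)
    (fun x _ => alg_transfer ψ _ hPE (hpralg.isAlgebraic x)) ω Pos Neg hpl hlog
    (fun P hP hnB => hreg P hP fun hB => hnB ((hBd P).2 hB))
    (fun m => ZD (k := k) Q q fun j => f j m) ?_ hx hE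
  rintro z ⟨j, h1, h2⟩
  exact h.bdry hl0 hψ hQ j.2 (fun i => h1 _ (Finset.mem_image_of_mem _ (Finset.mem_univ i)))
    fun l => h2 _ (Finset.mem_image_of_mem _ (Finset.mem_univ l))

end Pool.Agent.N131.FM
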