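import Mathlib
import Pool.Agent.N131.FM.Core
import Pool.Agent.N131.FV.Cneg

/-!
Heights of images.
-/

set_option autoImplicit false
set_option linter.unusedSectionVars false

namespace Pool.Agent.N131.FM

open FF Filter MvPolynomial Pool.Agent.W603.LV Pool.Agent.W603.PV
open Pool.Agent.N131.FV (mo mo_le exists_mo ge_mo mo_finite osc cneg cneg_nonneg ord_aeval_ge
  sum_cneg_le sp ge_sp exists_basis)

variable {k F : Type} [Field k] [IsAlgClosed k] [CharZero k] [Field F] [Algebra k F] [IsFF k F]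
  {M : ℕ}

section one

variable {L : Type} [Field L] [Algebra k L] [IsFF k L]

theorem ht_finset {ι : Type} {x : ι → L} (T : Finset (Place k L)) (hT : ∀ P, mo P x ≠ 0 → P ∈ T) :
    ht k x = -∑ P ∈ T, mo P x := by
  unfold ht FV.hp
  rw [finsum_eq_sum_of_support_subset (s := T)]
  intro P hP
  exact hT P hP

theorem ht_nonneg {ι : Type} [Finite ι] {x : ι → L} (hx : ∃ j, x j ≠ 0) : 0 ≤ ht k x := by
  obtain ⟨j, hj⟩ := hx
  exact (hgt_nonneg _).trans (ratio_le hj j)

/-- points with proportional coordinates -/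
theorem ht_prop {ι : Type} [Finite ι] {x z : ι → L} (hx : ∃ j, x j ≠ 0) (hz : ∃ j, z j ≠ 0)
    (h : ∀ i j, x i * z j = x j * z i) {T : Finset (Place k L)} {b : Place k L → ℤ}
    (hT : ∀ P, mo P z ≠ 0 → P ∈ T) (hb : ∀ P ∈ T, ∀ i, -b P ≤ P.ord (z i)) :
    ht k x ≤ ∑ P ∈ T, b P := by
  classical
  obtain ⟨j0, hj0⟩ := hx
  obtain ⟨i0, hi0⟩ := hz
  have hx0 : x i0 ≠ 0 := by
    intro h0
    have := h i0 j0
    rw [h0, zero_mul] at this
    exact (mul_ne_zero hj0 hi0) this.symm
  have hscale : ∀ i, x i = x i0 / z i0 * z i := by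
    intro i
    rw [div_mul_eq_mul_div, eq_div_iff hi0, h i i0]
  set c : L := x i0 / z i0 with hc
  have hc0 : c ≠ 0 := div_ne_zero hx0 hi0
  have hmo : ∀ P : Place k L, mo P x = P.ord c + mo P z := by
    intro P
    apply le_antisymm
    · obtain ⟨i, hi, him⟩ := exists_mo P ⟨i0, hi0⟩
      have h1 : x i ≠ 0 := by rw [hscale]; exact mul_ne_zero hc0 hi
      have h2 := mo_le P h1
      rw [hscale i, P.ord_mul hc0 hi, him] at h2
      exact h2
    · obtain ⟨i, hi, him⟩ := exists_mo P (x := x) ⟨i0, hx0⟩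
      have h1 : z i ≠ 0 := by
        intro h0
        apply hi
        rw [hscale, h0, mul_zero]
      rw [← him, hscale i, P.ord_mul hc0 h1]
      have := mo_le P h1
      linarith
  obtain ⟨T0, hT0⟩ := exists_supp (k := k) (Finset.univ : Finset (Fin 1)) ![c]
  have hTc : ∀ P : Place k L, P.ord c ≠ 0 → P ∈ T ∪ T0 := fun P hP =>
    Finset.mem_union_right _ (hT0 0 (Finset.mem_univ _) P hP)
  have h1 : ht k x = -∑ P ∈ T ∪ T0, mo P x := by
    apply ht_finset
    intro P hP
    by_cases h2 : P.ord c = 0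
    · rw [hmo, h2, zero_add] at hP
      exact Finset.mem_union_left _ (hT P hP)
    · exact hTc P h2
  have h2 : -∑ P ∈ T ∪ T0, mo P x = -∑ P ∈ T, mo P z := by
    rw [Finset.sum_congr rfl fun P _ => hmo P, Finset.sum_add_distrib,
      sum_ord_finset c (T ∪ T0) hTc, zero_add]
    congr 1
    symm
    apply Finset.sum_subset Finset.subset_union_left
    intro P _ hP
    by_contra h3
    exact hP (hT P h3)
  rw [h1, h2, ← Finset.sum_neg_distrib]
  refine Finset.sum_le_sum fun P hP => ?_
  obtain ⟨i, hi, him⟩ := exists_mo P ⟨i0, hi0⟩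
  have := hb P hP i
  rw [← him]
  linarith

theorem mo_span {ι κ : Type} [Finite ι] [Finite κ] {x : ι → L} {g : κ → L}
    (hx : ∃ j, x j ≠ 0) (hg : ∃ j, g j ≠ 0)
    (h : Submodule.span k (Set.range x) = Submodule.span k (Set.range g)) (P : Place k L) :
    mo P x = mo P g := by
  have key : ∀ {ι κ : Type} [Finite ι] [Finite κ] {x : ι → L} {g : κ → L}
      (_ : ∃ j, x j ≠ 0) (_ : Submodule.span k (Set.range x) = Submodule.span k (Set.range g)),
      mo P g ≤ mo P x := by
    intro ι κ _ _ x g hx h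
    obtain ⟨i, hi, him⟩ := exists_mo P hx
    rw [← him]
    have h1 : x i ∈ sp k g := by
      change x i ∈ Submodule.span k (Set.range g)
      rw [← h]
      exact Submodule.subset_span ⟨i, rfl⟩
    exact (ge_sp P g h1).resolve_left hi
  exact le_antisymm (key hg h.symm) (key hx h)

theorem osc_span {ι κ : Type} [Finite ι] [Finite κ] {x : ι → L} {g : κ → L}
    (hx : ∃ j, x j ≠ 0) (hg : ∃ j, g j ≠ 0)
    (h : Submodule.span k (Set.range x) = Submodule.span k (Set.range g)) :
    osc k x = osc k g := by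
  have hf : Module.finrank k (Submodule.span k (Set.range x)) =
      Module.finrank k (Submodule.span k (Set.range g)) := by rw [h]
  ext P
  have hm := mo_span hx hg h P
  constructor
  · rintro ⟨v, hv, hv0, ho⟩
    refine ⟨v, h ▸ hv, hv0, ?_⟩
    rw [← hm, ← hf]
    exact ho
  · rintro ⟨v, hv, hv0, ho⟩
    refine ⟨v, h ▸ hv, hv0, ?_⟩
    rw [hm, hf]
    exact ho

end one

/-- heights of the values of forms -/
theorem ht_form {t b : ℕ} {B : Fin (t + 1) → MvPolynomial (Fin (M + 1)) F}
    (hB : ∀ i, (B i).IsHomogeneous b) : ∃ C : ℕ, ∀ (L : Type) [Field L] [Algebra k L]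
    [Algebra F L] [IsScalarTower k F L] [FiniteDimensional F L] [IsFF k L]
    (x : Fin (M + 1) → L), (∃ j, x j ≠ 0) → (∃ i, aeval x (B i) ≠ 0) →
    ht k (fun i => aeval x (B i)) ≤ b * ht k x + C * Module.finrank F L := by
  classical
  refine ⟨(∑ i, ∑ α ∈ (B i).support, hgt k (coeff α (B i))).toNat, ?_⟩
  intro L _ _ _ _ _ _ x hx hBx
  set T : Finset (Place k L) := (mo_finite hx).toFinset ∪ (mo_finite hBx).toFinset with hT
  have h1 : ∀ P : Place k L, mo P x ≠ 0 → P ∈ T := fun P hP =>
    Finset.mem_union_left _ (by simpa using hP)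
  have h2 : ∀ P : Place k L, mo P (fun i => aeval x (B i)) ≠ 0 → P ∈ T := fun P hP =>
    Finset.mem_union_right _ (by simpa using hP)
  rw [ht_finset T h1, ht_finset T h2]
  have h3 : ∀ P ∈ T, -mo P (fun i => aeval x (B i)) ≤ b * (-mo P x) + ∑ i, cneg P (B i) := by
    intro P _
    obtain ⟨i, hi, him⟩ := exists_mo P hBx
    have h4 := ord_aeval_ge P (hB i) hi
    have h5 := Finset.single_le_sum (f := fun i => cneg P (B i)) (fun i _ => cneg_nonneg P (B i))
      (Finset.mem_univ i)
    have h6 : mo P (fun i => aeval x (B i)) = P.ord (aeval x (B i)) := him.symm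
    rw [h6]
    linarith
  have h4 := Finset.sum_le_sum h3
  rw [Finset.sum_add_distrib, ← Finset.mul_sum, Finset.sum_neg_distrib, Finset.sum_neg_distrib,
    Finset.sum_comm] at h4
  have h5 : ∑ i, ∑ P ∈ T, cneg P (B i) ≤
      ∑ i, Module.finrank F L * ∑ α ∈ (B i).support, hgt k (coeff α (B i)) :=
    Finset.sum_le_sum fun i _ => sum_cneg_le T (B i)
  rw [← Finset.mul_sum] at h5
  have h6 : 0 ≤ ∑ i, ∑ α ∈ (B i).support, hgt k (coeff α (B i)) :=
    Finset.sum_nonneg fun i _ => Finset.sum_nonneg fun α _ => hgt_nonneg _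
  rw [Int.toNat_of_nonneg h6]
  linarith

/-- the places at which a point reduces to the boundary are finite in number -/
theorem ZD_finite {L : Type} [Field L] [Algebra k L] [Algebra F L] [IsFF k L] {r : ℕ}
    {Q : Fin (r + 1) → MvPolynomial (Fin (M + 1)) F} {q : Fin (r + 1) → ℕ}
    {x : Fin (M + 1) → L} (hx : ∃ j, x j ≠ 0) {l : Fin (r + 1)} (hl : aeval x (Q l) ≠ 0) :
    (ZD (k := k) Q q x).Finite := by
  refine ((finite_support (k := k) (aeval x (Q l))).union (mo_finite hx)).subset fun P hP => ?_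
  by_contra hcon
  simp only [Set.mem_union, Set.mem_ofPred_eq, not_or, not_not] at hcon
  have h1 := (hP l).resolve_left hl
  rw [hcon.1, hcon.2] at h1
  simp at h1

end Pool.Agent.N131.FM
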