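import Mathlib
import Pool.Agent.N131.FM.Hts

/-!
Families of counterexamples.
-/

set_option autoImplicit false
set_option linter.unusedSectionVars false

namespace Pool.Agent.N131.FM

open FF Filter MvPolynomial Pool.Agent.W603.LV Pool.Agent.W603.PV
open Pool.Agent.N131.SV (S_KEY)
open Pool.Agent.W602.GT (IsForm coords val exists_embedding Divisorial IsPluri RegAt LogAt)
open Pool.Agent.N131.FM.Fam (SmS rp po ObE SmE mem_obf mem_smf DM_obf DM_smf smf_le_obf mem_hp
  mem_hp_nonunits rp_mf mf_rp)
open Pool.Agent.N131.FV (mo mo_le exists_mo ge_mo mo_finite osc sp exists_basis osc_finite avo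
  avo_nonneg avo_finset avo_le)

variable {k F : Type} [Field k] [IsAlgClosed k] [CharZero k] [Field F] [Algebra k F] [IsFF k F]
  {M : ℕ} {K : Type} [Field K] [Algebra F K]

theorem frame_scale [CharZero F] {w N : ℕ} {ω : (Fin w → Derivation F K K) → K} (hω : IsPluri N ω)
    {x : Fin w → K} (hx : IsTranscendenceBasis F x) {E : Fin w → Derivation F K K}
    (hE : ∀ i j, E i (x j) = if i = j then 1 else 0) (D : Fin w → Derivation F K K) :
    ω D = (Matrix.of fun i j => D i (x j)).det ^ N * ω E := by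
  have h1 : D = fun i => ∑ j, (Matrix.of fun i j => D i (x j)) i j • E j := by
    funext i
    apply Pool.Agent.W602.GT.der_ext x hx
    intro l
    have h2 : (∑ j, (Matrix.of fun i j => D i (x j)) i j • E j) (x l) =
        ∑ j, D i (x j) * E j (x l) := by
      rw [MV.der_sum]
      rfl
    rw [h2]
    simp only [hE]
    simp
  conv_lhs => rw [h1]
  exact hω _ E

/-- a point over a finite extension -/
structure Pdat (k F : Type) [Field k] [Field F] [Algebra k F] (M : ℕ) where
  L : Type
  fld : Field L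
  algk : Algebra k L
  algF : Algebra F L
  tow : IsScalarTower k F L
  fin : FiniteDimensional F L
  isff : IsFF k L
  x : Fin (M + 1) → L

namespace Pdat

instance (p : Pdat k F M) : Field p.L := p.fld
instance (p : Pdat k F M) : Algebra k p.L := p.algk
instance (p : Pdat k F M) : Algebra F p.L := p.algF
instance (p : Pdat k F M) : IsScalarTower k F p.L := p.tow
instance (p : Pdat k F M) : FiniteDimensional F p.L := p.fin
instance (p : Pdat k F M) : IsFF k p.L := p.isff

end Pdat

/-- points of the variety -/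
structure Pt (y : Fin (M + 1) → K) {L : Type} [Field L] [Algebra F L] (x : Fin (M + 1) → L) :
    Prop where
  ne : ∃ j, x j ≠ 0
  van : ∀ G : MvPolynomial (Fin (M + 1)) F, IsForm G → aeval y G = 0 → aeval x G = 0

/-- the remaining term: discriminant, osculation places, degree -/
noncomputable def Xt (k F : Type) [Field k] [Field F] [Algebra k F] {L : Type} [Field L]
    [Algebra k L] [Algebra F L] {ι : Type} (z : ι → L) : ℤ :=
  disc k F L + (osc k z).ncard + Module.finrank F L

theorem disc_nn {L : Type} [Field L] [Algebra k L] [Algebra F L] [IsScalarTower k F L]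
    [FiniteDimensional F L] [IsFF k L] : 0 ≤ disc k F L := by
  unfold disc
  refine finsum_nonneg fun P => ?_
  have := (ram_spec (F := F) P).1
  omega

theorem Xt_parts {L : Type} [Field L] [Algebra k L] [Algebra F L] [IsScalarTower k F L]
    [FiniteDimensional F L] [IsFF k L] {ι : Type} (z : ι → L) : 1 ≤ Xt k F z ∧
      0 ≤ disc k F L ∧ disc k F L ≤ Xt k F z ∧ ((osc k z).ncard : ℤ) ≤ Xt k F z ∧
      (Module.finrank F L : ℤ) ≤ Xt k F z := by
  have h1 : 0 ≤ disc k F L := disc_nn
  have h2 : (0 : ℤ) < Module.finrank F L := by exact_mod_cast Module.finrank_pos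
  have h3 : (0 : ℤ) ≤ (osc k z).ncard := Int.natCast_nonneg _
  unfold Xt
  refine ⟨by omega, h1, by omega, by omega, by omega⟩

/-- the index set -/
abbrev Ix (y : Fin (M + 1) → K) : Type :=
  ℕ × Finset {G : MvPolynomial (Fin (M + 1)) F // IsForm G ∧ aeval y G ≠ 0}

instance Ix_neBot (y : Fin (M + 1) → K) : (atTop : Filter (Ix (F := F) y)).NeBot := by
  classical
  exact atTop_neBot

/-- the ultrafilter -/
noncomputable def Ux (y : Fin (M + 1) → K) : Ultrafilter (Ix (F := F) y) :=
  Ultrafilter.of atTop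

theorem Ux_le (y : Fin (M + 1) → K) : (Ux (F := F) y : Filter (Ix (F := F) y)) ≤ atTop :=
  Ultrafilter.of_le _

theorem Ux_nat (y : Fin (M + 1) → K) (m : ℕ) :
    ∀ᶠ i in (Ux (F := F) y : Filter (Ix (F := F) y)), m ≤ i.1 := by
  apply Ux_le
  filter_upwards [eventually_ge_atTop ((m, ∅) : Ix (F := F) y)] with i hi
  exact hi.1

theorem Ux_form (y : Fin (M + 1) → K) {G : MvPolynomial (Fin (M + 1)) F} (hG : IsForm G)
    (h : aeval y G ≠ 0) :
    ∀ᶠ i in (Ux (F := F) y : Filter (Ix (F := F) y)), ⟨G, hG, h⟩ ∈ i.2 := by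
  apply Ux_le
  filter_upwards [eventually_ge_atTop ((0, {⟨G, hG, h⟩}) : Ix (F := F) y)] with i hi
  exact hi.2 (Finset.mem_singleton_self _)

/-- the product of the forms -/
noncomputable def Ax {y : Fin (M + 1) → K} (i : Ix (F := F) y) : MvPolynomial (Fin (M + 1)) F :=
  ∏ G ∈ i.2, G.1

theorem isForm_prod {ι : Type} (s : Finset ι) {G : ι → MvPolynomial (Fin (M + 1)) F}
    (h : ∀ i ∈ s, IsForm (G i)) : IsForm (∏ i ∈ s, G i) := by
  classical
  induction s using Finset.induction_on with
  | empty => exact ⟨0, isHomogeneous_one _ _⟩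
  | insert i s hi ih =>
    rw [Finset.prod_insert hi]
    obtain ⟨a, ha⟩ := h i (Finset.mem_insert_self i s)
    obtain ⟨b, hb⟩ := ih fun j hj => h j (Finset.mem_insert_of_mem hj)
    exact ⟨a + b, ha.mul hb⟩

theorem Ax_spec {y : Fin (M + 1) → K} (i : Ix (F := F) y) :
    IsForm (Ax i) ∧ aeval y (Ax i) ≠ 0 := by
  constructor
  · exact isForm_prod _ fun G _ => G.2.1
  · unfold Ax
    rw [map_prod, Finset.prod_ne_zero_iff]
    exact fun G _ => G.2.2

theorem Ax_mem {y : Fin (M + 1) → K} {L : Type} [Field L] [Algebra F L] {x : Fin (M + 1) → L}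
    {i : Ix (F := F) y} (h : aeval x (Ax i) ≠ 0) {G} (hG : G ∈ i.2) : aeval x G.1 ≠ 0 := by
  unfold Ax at h
  rw [map_prod, Finset.prod_ne_zero_iff] at h
  exact h G hG

theorem exists_D0 : ∃ D0 : Derivation k F F, D0 ≠ 0 := exists_der

/-- a nonzero derivation -/
noncomputable def D0 (k F : Type) [Field k] [IsAlgClosed k] [CharZero k] [Field F] [Algebra k F]
    [IsFF k F] : Derivation k F F := (exists_D0 (k := k) (F := F)).choose

theorem D0_ne : D0 k F ≠ 0 := (exists_D0 (k := k) (F := F)).choose_spec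

/-- the extension of the derivation -/
noncomputable def DL (k F L : Type) [Field k] [IsAlgClosed k] [CharZero k] [Field F] [Algebra k F]
    [IsFF k F] [Field L] [Algebra k L] [Algebra F L] [IsScalarTower k F L]
    [FiniteDimensional F L] : Derivation k L L :=
  (FV.exists_ext (E := L) (D0 k F)).choose

theorem DL_spec {L : Type} [Field L] [Algebra k L] [Algebra F L] [IsScalarTower k F L]
    [FiniteDimensional F L] (x : F) :
    DL k F L (algebraMap F L x) = algebraMap F L (D0 k F x) :=
  (FV.exists_ext (E := L) (D0 k F)).choose_spec x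

/-- **The family of a sequence of counterexamples.** -/
noncomputable def famOf {y : Fin (M + 1) → K} (p : Ix (F := F) y → Pdat k F M)
    {X : Ix (F := F) y → ℤ} (hXd : ∀ i, disc k F (p i).L ≤ X i)
    (hXf : ∀ i, (Module.finrank F (p i).L : ℤ) ≤ X i)
    (hX : ∀ m : ℕ, ∀ᶠ i in (Ux (F := F) y : Filter (Ix (F := F) y)),
      (m : ℤ) * X i ≤ ht k (p i).x) : Fam k F where
  I := Ix (F := F) y
  U := Ux y
  L := fun i => (p i).L
  fld := fun i => (p i).fld
  algk := fun i => (p i).algk
  algF := fun i => (p i).algF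
  tow := fun i => (p i).tow
  fin := fun i => (p i).fin
  isff := fun i => (p i).isff
  D0 := D0 k F
  D := fun i => DL k F (p i).L
  hD0 := D0_ne
  hD := fun i x => DL_spec x
  hDn := fun i => by
    obtain ⟨C, hC⟩ := avo_le (D0_ne (k := k) (F := F))
    exact (hC (p i).L (DL k F (p i).L) fun x => DL_spec x).1
  h := fun i => ht k (p i).x
  deg_sm := fun m => by
    filter_upwards [hX m] with i hi
    exact (mul_le_mul_of_nonneg_left (hXf i) (Int.natCast_nonneg m)).trans hi
  avo_sm := fun m => by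
    obtain ⟨C, hC⟩ := avo_le (D0_ne (k := k) (F := F))
    filter_upwards [hX (m * (1 + C))] with i hi
    have h1 := (hC (p i).L (DL k F (p i).L) fun x => DL_spec x).2
    have h2 : (C : ℤ) * Module.finrank F (p i).L ≤ C * X i :=
      mul_le_mul_of_nonneg_left (hXf i) (Int.natCast_nonneg C)
    have h3 := hXd i
    have h4 : avo (DL k F (p i).L) ≤ (1 + C) * X i := by linarith
    refine (mul_le_mul_of_nonneg_left h4 (Int.natCast_nonneg m)).trans ?_
    push_cast at hi
    linarith

section famOf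

variable {y : Fin (M + 1) → K} (p : Ix (F := F) y → Pdat k F M)
    {X : Ix (F := F) y → ℤ} (hXd : ∀ i, disc k F (p i).L ≤ X i)
    (hXf : ∀ i, (Module.finrank F (p i).L : ℤ) ≤ X i)
    (hX : ∀ m : ℕ, ∀ᶠ i in (Ux (F := F) y : Filter (Ix (F := F) y)),
      (m : ℤ) * X i ≤ ht k (p i).x)

/-- the coordinates of the points -/
def fO : Fin (M + 1) → (famOf p hXd hXf hX).Sq := fun j i => (p i).x j

theorem gsq_famOf (hp : ∀ i, Pt (F := F) y (p i).x) (hA : ∀ i, aeval (p i).x (Ax i) ≠ 0) :
    Gsq (famOf p hXd hXf hX) y (fO p hXd hXf hX) where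
  ne := fun i => (hp i).ne
  van := fun G hG h0 => Eventually.of_forall fun i => (hp i).van G hG h0
  nz' := fun G hG h0 => by
    have h1 := Ux_form (F := F) y hG h0
    refine h1.mono fun i hi => ?_
    exact Ax_mem (hA i) hi
  ht := fun i => rfl

end famOf

/-- the remaining term is small -/
theorem X_small {y : Fin (M + 1) → K} {p : Ix (F := F) y → Pdat k F M} {X H : Ix (F := F) y → ℤ}
    (hX1 : ∀ i, 1 ≤ X i) (hXf : ∀ i, (Module.finrank F (p i).L : ℤ) ≤ X i)
    {b c : ℕ} (hH : ∀ᶠ i in (Ux (F := F) y : Filter (Ix (F := F) y)),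
      H i ≤ b * ht k (p i).x + c * Module.finrank F (p i).L)
    (hlt : ∀ i, (i.1 : ℤ) * X i < H i) (m : ℕ) :
    ∀ᶠ i in (Ux (F := F) y : Filter (Ix (F := F) y)), (m : ℤ) * X i ≤ ht k (p i).x := by
  filter_upwards [hH, Ux_nat (F := F) y (c + b * m)] with i h1 h2
  have h3 := hlt i
  have h4 := hX1 i
  have h5 : (c : ℤ) * Module.finrank F (p i).L ≤ c * X i :=
    mul_le_mul_of_nonneg_left (hXf i) (Int.natCast_nonneg c)
  have h6 : ((c + b * m : ℕ) : ℤ) * X i ≤ i.1 * X i :=
    mul_le_mul_of_nonneg_right (by exact_mod_cast h2) (by omega)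
  push_cast at h6
  have h7 : (b : ℤ) * (m * X i) < b * ht k (p i).x := by nlinarith
  exact (lt_of_mul_lt_mul_left h7 (Int.natCast_nonneg b)).le

end Pool.Agent.N131.FM
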