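import Mathlib
import Pool.Agent.N131.FM.Eng

/-!
The master inequality over function fields.
-/

set_option autoImplicit false
set_option linter.unusedSectionVars false

namespace Pool.Agent.N131.FM

open FF Filter MvPolynomial Pool.Agent.W603.LV Pool.Agent.W603.PV
open Pool.Agent.N131.SV (S_KEY)
open Pool.Agent.W602.GT (IsForm coords val exists_embedding Divisorial IsPluri RegAt LogAt)
open Pool.Agent.N131.FM.Fam (SmS rp po ObE SmE mem_obf mem_smf DM_obf DM_smf smf_le_obf mem_hp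
  mem_hp_nonunits rp_mf mf_rp)
open Pool.Agent.N131.FV (mo mo_le exists_mo ge_mo mo_finite osc sp exists_basis osc_finite avo
  avo_nonneg avo_finset avo_le)

variable {k F : Type} [Field k] [IsAlgClosed k] [CharZero k] [Field F] [Algebra k F] [IsFF k F]
  {M : ℕ} {K : Type} [Field K] [Algebra F K]

/-- bases of the systems -/
theorem bases {I : Type} {L : I → Type} [∀ i, Field (L i)] [∀ i, Algebra k (L i)] {ν n : ℕ}
    (z : ∀ i, Fin (ν + 1) → L i) (hn : ∀ i, Module.finrank k (sp k (z i)) = n) :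
    ∃ (g : ∀ i, Fin n → L i) (a : Fin n → Fin (ν + 1) → I → k) (b : Fin (ν + 1) → Fin n → I → k),
      (∀ i, LinearIndependent k (g i)) ∧
      (∀ i, Submodule.span k (Set.range (z i)) = Submodule.span k (Set.range (g i))) ∧
      (∀ l i, g i l = ∑ j, algebraMap k (L i) (a l j i) * z i j) ∧
      ∀ j i, z i j = ∑ l, algebraMap k (L i) (b j l i) * g i l := by
  choose g hg hgx hspan using fun i => exists_basis (k := k) (hn i)
  have h1 : ∀ i l, ∃ c : Fin (ν + 1) → k, g i l = ∑ j, algebraMap k (L i) (c j) * z i j := by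
    intro i l
    obtain ⟨c, hc⟩ := (Submodule.mem_span_range_iff_exists_fun k).1 (hgx i l)
    refine ⟨c, hc.symm.trans (Finset.sum_congr rfl fun j _ => Algebra.smul_def _ _)⟩
  choose a ha using h1
  have h2 : ∀ i j, ∃ c : Fin n → k, z i j = ∑ l, algebraMap k (L i) (c l) * g i l :=
    fun i j => hspan i _ (Submodule.subset_span ⟨j, rfl⟩)
  choose b hb using h2
  refine ⟨g, fun l j i => a i l j, fun j l i => b i j l, hg, fun i => ?_, fun l i => ha i l,
    fun j i => hb i j⟩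
  apply le_antisymm
  · rw [Submodule.span_le]
    rintro _ ⟨j, rfl⟩
    rw [hb i j]
    refine Submodule.sum_mem _ fun l _ => ?_
    rw [← Algebra.smul_def]
    exact Submodule.smul_mem _ _ (Submodule.subset_span ⟨l, rfl⟩)
  · rw [Submodule.span_le]
    rintro _ ⟨l, rfl⟩
    exact hgx i l

/-- sums of the local bounds -/
theorem sum_bd {L : Type} [Field L] [Algebra k L] [IsFF k L] {D : Derivation k L L} (hD : D ≠ 0)
    {Z B : Set (Place k L)} (hZ : Z.Finite) (hB : B.Finite) {N C r : ℕ} (c : Fin r → L) :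
    ∃ T : Finset (Place k L), ∀ T', T ⊆ T' →
      ∑ P ∈ T', ((N : ℤ) * Z.indicator (1 : Place k L → ℤ) P +
            C * B.indicator (1 : Place k L → ℤ) P + C * |vo P D| +
            C * ∑ l, max 0 (-P.ord (c l))) =
        N * Z.ncard + (C * B.ncard + C * avo D + C * ∑ l, hgt k (c l)) := by
  classical
  obtain ⟨T0, hT0⟩ := exists_supp (k := k) (Finset.univ : Finset (Fin r)) c
  refine ⟨hZ.toFinset ∪ hB.toFinset ∪ (vo_finite hD).toFinset ∪ T0, fun T' hT' => ?_⟩
  have h1 : ∀ {s : Set (Place k L)} (hs : s.Finite), hs.toFinset ⊆ T' →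
      ∑ P ∈ T', s.indicator (1 : Place k L → ℤ) P = s.ncard := by
    intro s hs hsT
    rw [Set.ncard_eq_toFinset_card _ hs, Finset.card_eq_sum_ones]
    push_cast
    rw [← Finset.sum_subset hsT (f := s.indicator (1 : Place k L → ℤ))]
    · refine Finset.sum_congr rfl fun P hP => ?_
      rw [Set.indicator_of_mem ((Set.Finite.mem_toFinset hs).1 hP)]
      rfl
    · intro P _ hP
      exact Set.indicator_of_notMem (fun h => hP ((Set.Finite.mem_toFinset hs).2 h)) _
  have h2 : avo D = ∑ P ∈ T', |vo P D| := avo_finset T' fun P hP =>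
    hT' (by simp [hP])
  have h3 : ∀ l, hgt k (c l) = ∑ P ∈ T', max 0 (-P.ord (c l)) := by
    intro l
    rw [hgt_finset (c l) T' fun P hP => hT' (Finset.mem_union_right _
      (hT0 l (Finset.mem_univ _) P hP))]
    exact Finset.sum_congr rfl fun P _ => max_comm _ _
  rw [Finset.sum_add_distrib, Finset.sum_add_distrib, Finset.sum_add_distrib, ← Finset.mul_sum,
    ← Finset.mul_sum, ← Finset.mul_sum, ← Finset.mul_sum, h1 hZ fun P hP => hT' (by
      simp only [Finset.mem_union]; exact Or.inl (Or.inl (Or.inl hP))),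
    h1 hB fun P hP => hT' (by simp only [Finset.mem_union]; exact Or.inl (Or.inl (Or.inr hP))),
    ← h2, Finset.sum_comm, Finset.sum_congr rfl fun l _ => (h3 l).symm]
  ring

variable {w : ℕ}

/-- **The master inequality, for systems of the dimension `n`.** -/
theorem fin1n (hBAL : MV.S_BAL) (hCAL : MV.S_CAL) (hSMS : S_SMS) (hFRB : S_FRB)
    (hFLD : S_FLD) (hZG : S_ZG) (hPRX : S_PRX) (hGPT : S_GPT) (hKEY : S_KEY)
    {y : Fin (M + 1) → K} (hy : coords F y = ⊤) (hyne : ∃ l, y l ≠ 0)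
    {ν e : ℕ} {pr : Fin (ν + 1) → MvPolynomial (Fin (M + 1)) F}
    (hpr : ∀ i, (pr i).IsHomogeneous e) (hpr0 : ∃ i, aeval y (pr i) ≠ 0)
    (hpralg : Algebra.IsAlgebraic (IntermediateField.adjoin F
      {z | ∃ i j, aeval y (pr j) ≠ 0 ∧ z = aeval y (pr i) / aeval y (pr j)}) K)
    (hw : 0 < w) (htr : Algebra.trdeg F K = w) {N t : ℕ}
    {ω : Fin (t + 1) → (Fin w → Derivation F K K) → K} (hpl : ∀ i, IsPluri N (ω i))
    (hlog : ∀ P : Place F K, Divisorial w P → ∀ i, LogAt P (ω i)) {r : ℕ}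
    {Q : Fin (r + 1) → MvPolynomial (Fin (M + 1)) F} {q : Fin (r + 1) → ℕ}
    (hQ : ∀ l, (Q l).IsHomogeneous (q l)) (hQ0 : ∃ l, aeval y (Q l) ≠ 0)
    (hreg : ∀ P : Place F K, Divisorial w P → ¬ Bd Q q y P → ∀ i, RegAt P (ω i)) {b : ℕ}
    {B : Fin (t + 1) → MvPolynomial (Fin (M + 1)) F} (hB : ∀ i, (B i).IsHomogeneous b)
    (hBω : ∀ i j D, ω i D * aeval y (B j) = ω j D * aeval y (B i))
    (hB0 : ∃ i, aeval y (B i) ≠ 0) (hω0 : ∃ i D, ω i D ≠ 0) {ε : ℝ} (hε : 0 < ε) (n : ℕ) :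
    ∃ A : MvPolynomial (Fin (M + 1)) F, IsForm A ∧ aeval y A ≠ 0 ∧ ∃ C : ℕ,
      ∀ (L : Type) [Field L] [Algebra k L] [Algebra F L] [IsScalarTower k F L]
        [FiniteDimensional F L] [IsFF k L] (x : Fin (M + 1) → L), Pt (F := F) y x →
        aeval x A ≠ 0 → Module.finrank k (sp k fun j => aeval x (pr j)) = n →
        (ht k (fun i => aeval x (B i)) : ℝ) ≤ N * (ZD (k := k) Q q x).ncard + ε * ht k x +
          C * Xt k F (fun j => aeval x (pr j)) := by
  classical
  by_contra hcon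
  push Not at hcon
  -- the counterexamples
  have hcon' : ∀ i : Ix (F := F) y, ∃ p : Pdat k F M, Pt (F := F) y p.x ∧ aeval p.x (Ax i) ≠ 0 ∧
      Module.finrank k (sp k fun j => aeval p.x (pr j)) = n ∧
      (N * (ZD (k := k) Q q p.x).ncard + ε * ht k p.x +
          i.1 * Xt k F (fun j => aeval p.x (pr j)) : ℝ) < ht k (fun i => aeval p.x (B i)) := by
    intro i
    obtain ⟨L, i1, i2, i3, i4, i5, i6, x, h1, h2, h3, h4⟩ := hcon (Ax i) (Ax_spec i).1
      (Ax_spec i).2 i.1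
    exact ⟨⟨L, i1, i2, i3, i4, i5, i6, x⟩, h1, h2, h3, h4⟩
  choose p hp hA hn hlt using hcon'
  let X : Ix (F := F) y → ℤ := fun i => Xt k F (fun j => aeval (p i).x (pr j))
  have hXp := fun i => Xt_parts (k := k) (F := F) (L := (p i).L) (fun j => aeval (p i).x (pr j))
  obtain ⟨l0, hl0⟩ := hyne
  obtain ⟨i0, hi0⟩ := hB0
  obtain ⟨lQ, hlQ⟩ := hQ0
  obtain ⟨c0, hc0⟩ := ht_form (k := k) hB
  have hB0ev : ∀ᶠ i in (Ux (F := F) y : Filter (Ix (F := F) y)), aeval (p i).x (B i0) ≠ 0 :=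
    (Ux_form (F := F) y ⟨b, hB i0⟩ hi0).mono fun i hi => Ax_mem (hA i) hi
  have hX : ∀ m : ℕ, ∀ᶠ i in (Ux (F := F) y : Filter (Ix (F := F) y)),
      (m : ℤ) * X i ≤ ht k (p i).x := by
    refine X_small (H := fun i => ht k (fun j => aeval (p i).x (B j))) (fun i => (hXp i).1)
      (fun i => (hXp i).2.2.2.2) (b := b) (c := c0) ?_ ?_
    · filter_upwards [hB0ev] with i hi
      exact hc0 (p i).L (p i).x (hp i).ne ⟨i0, hi⟩
    · intro i
      have h1 := hlt i
      have h2 : (0 : ℝ) ≤ ht k (p i).x := by exact_mod_cast ht_nonneg (hp i).ne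
      have h3 : (0 : ℝ) ≤ N * (ZD (k := k) Q q (p i).x).ncard + ε * ht k (p i).x := by positivity
      have h4 : ((i.1 * X i : ℤ) : ℝ) < (ht k (fun j => aeval (p i).x (B j)) : ℤ) := by
        push_cast
        change (i.1 : ℝ) * (Xt k F (fun j => aeval (p i).x (pr j)) : ℤ) < _
        linarith
      exact_mod_cast h4
  let S : Fam k F := famOf p (fun i => (hXp i).2.2.1) (fun i => (hXp i).2.2.2.2) hX
  let f : Fin (M + 1) → S.Sq := fO p (fun i => (hXp i).2.2.1) (fun i => (hXp i).2.2.2.2) hX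
  have hG : Gsq S y f := gsq_famOf p _ _ _ hp hA
  have hfx : ∀ (i : S.I), (fun j => f j i) = (p i).x := fun i => rfl
  -- the bases
  obtain ⟨g, a, b', hgi, hgs, hga, hgb⟩ := bases (L := fun i : S.I => (p i).L)
    (fun i j => aeval (p i).x (pr j)) hn
  have hprne : ∃ j, aeval y (pr j) ≠ 0 := hpr0
  obtain ⟨j0, hj0⟩ := hprne
  have hprev : ∀ᶠ i in (Ux (F := F) y : Filter (Ix (F := F) y)), aeval (p i).x (pr j0) ≠ 0 :=
    (Ux_form (F := F) y ⟨e, hpr j0⟩ hj0).mono fun i hi => Ax_mem (hA i) hi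
  have hn0 : n ≠ 0 := by
    rintro rfl
    obtain ⟨i, hi⟩ := hprev.exists
    apply hi
    have h1 := hgb j0 i
    rw [h1]
    simp
  obtain ⟨n, rfl⟩ := Nat.exists_eq_succ_of_ne_zero hn0
  let gs : Fin (n + 1) → S.Sq := fun l i => g i l
  have hN : SmS S fun i => osc k fun j => gs j i := by
    have h1 : ∀ᶠ i in (Ux (F := F) y : Filter (Ix (F := F) y)),
        osc k (g i) = osc k (fun j => aeval (p i).x (pr j)) := by
      filter_upwards [hprev] with i hi
      exact (osc_span ⟨j0, hi⟩ ⟨0, (hgi i).ne_zero 0⟩ (hgs i)).symm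
    constructor
    · refine Eventually.of_forall fun i => ?_
      exact osc_finite ⟨0, (hgi i).ne_zero 0⟩
    · intro m
      change ∀ᶠ i in (Ux (F := F) y : Filter (Ix (F := F) y)),
        (m : ℤ) * (osc k (g i)).ncard ≤ ht k (p i).x
      filter_upwards [h1, hX m] with i h2 h3
      have h2' : osc k (g i) = osc k (fun j => aeval (p i).x (pr j)) := h2
      change (m : ℤ) * (osc k (g i)).ncard ≤ ht k (p i).x
      rw [h2']
      exact (mul_le_mul_of_nonneg_left (hXp i).2.2.2.1 (Int.natCast_nonneg m)).trans h3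
  have hFc : CharZero F := charZero_of_injective_algebraMap (algebraMap k F).injective
  obtain ⟨x, hx⟩ := Pool.Agent.W602.GT.basis_of_trdeg htr
  obtain ⟨E, hE⟩ := Pool.Agent.W602.GT.exists_dual hx
  have hE' : ∀ i j, E i (x j) = if i = j then 1 else 0 := by
    intro i j
    have h1 := congrFun (congrFun hE i) j
    rwa [Matrix.of_apply, Matrix.one_apply] at h1
  obtain ⟨ψ, hψ, hob, G, δ, hδ, hGω, C, r', c, Bs, hc, hBs, hord⟩ :=
    core_seq hBAL hCAL hSMS hFRB hFLD hZG hPRX hGPT hKEY hG hy hw htr hl0 hpr hpralg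
      (g := gs) (a := a) (b := b') hgi hga hgb hN ω hpl hlog hQ hreg hx hE'
  -- the map
  have hrel : ∀ i j, S.mf (fun m => aeval (fun l => f l m) (B i)) * G j =
      S.mf (fun m => aeval (fun l => f l m) (B j)) * G i := by
    intro i j
    have h1 : ∀ i, S.mf (fun m => aeval (fun l => f l m) (B i)) =
        ψ (aeval y (B i) / y l0 ^ b) * S.mf (f l0) ^ b := by
      intro i
      rw [hG.psi_form hl0 hψ (hB i), div_mul_cancel₀ _ (pow_ne_zero _ (hG.mf_X_ne hl0))]
    have h2 : ψ (aeval y (B i) / y l0 ^ b) * ψ (ω j E) =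
        ψ (aeval y (B j) / y l0 ^ b) * ψ (ω i E) := by
      rw [← map_mul, ← map_mul, div_mul_eq_mul_div, div_mul_eq_mul_div, mul_comm (aeval y (B i)),
        mul_comm (aeval y (B j)), hBω i j E]
    rw [h1, h1, hGω, hGω]
    linear_combination (S.mf (f l0) ^ b * δ) * h2
  have hGne : ∃ i, G i ≠ 0 := by
    obtain ⟨i, D, hD⟩ := hω0
    refine ⟨i, ?_⟩
    rw [hGω]
    refine mul_ne_zero ?_ hδ
    rw [Ne, map_eq_zero]
    intro h1
    apply hD
    rw [frame_scale (hpl i) hx hE' D, h1, mul_zero]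
  obtain ⟨i1, hi1⟩ := hGne
  have e1 : ∀ᶠ m in (S.U : Filter S.I), rp (G i1) m ≠ 0 := by
    have h1 : S.mf (rp (G i1)) ≠ 0 := by rw [mf_rp]; exact hi1
    exact S.mf_ne_zero.1 h1
  have e2 : ∀ᶠ m in (S.U : Filter S.I), ∀ i j,
      aeval (fun l => f l m) (B i) * rp (G j) m = aeval (fun l => f l m) (B j) * rp (G i) m := by
    rw [eventually_all]
    intro i
    rw [eventually_all]
    intro j
    have h1 := hrel i j
    rw [← mf_rp (G j), ← mf_rp (G i), ← map_mul, ← map_mul, Fam.mf_eq] at h1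
    exact h1
  have e3 : ∀ᶠ m in (S.U : Filter S.I), aeval (fun l => f l m) (Q lQ) ≠ 0 :=
    hG.nz ⟨q lQ, hQ lQ⟩ hlQ
  have e0 : ∀ᶠ m in (S.U : Filter S.I), aeval (fun l => f l m) (B i0) ≠ 0 :=
    hG.nz ⟨b, hB i0⟩ hi0
  let R : S.I → ℤ := fun m => C * (Bs m).ncard + C * avo (S.D m) + C * ∑ l, hgt k (rp (c l) m)
  have hR : S.Sm R := by
    refine Fam.Sm.add (Fam.Sm.add (Fam.Sm.mul hBs.small C) (Fam.Sm.mul
      (a := fun m => avo (S.D m)) S.avo_sm C)) (Fam.Sm.mul (Fam.Sm.sum _ fun l _ => ?_) C)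
    have h1 := hc l
    rw [← mf_rp (c l), mem_smf] at h1
    exact h1
  have e4 : ∀ᶠ m in (S.U : Filter S.I), ht k (fun j => aeval (fun l => f l m) (B j)) ≤
      N * (ZD (k := k) Q q (fun l => f l m)).ncard + R m := by
    filter_upwards [e1, e2, e3, e0, hBs.fin, hord] with m h1 h2 h3 h4 h5 h6
    obtain ⟨T, hT⟩ := sum_bd (N := N) (C := C) (S.hDn m)
      (ZD_finite (k := k) (x := fun l => f l m) (hG.ne m) h3) h5 (fun l => rp (c l) m)
    have hz := mo_finite (k := k) (x := fun i => rp (G i) m) ⟨i1, h1⟩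
    have h7 := hT (T ∪ hz.toFinset) Finset.subset_union_left
    have h8 := ht_prop (k := k) (x := fun j => aeval (fun l => f l m) (B j))
      (z := fun i => rp (G i) m)
      ⟨i0, h4⟩ ⟨i1, h1⟩ (fun i j => h2 i j) (T := T ∪ hz.toFinset)
      (fun P hP => Finset.mem_union_right _ ((Set.Finite.mem_toFinset hz).2 hP))
      (fun P _ i => h6 P i)
    exact h8.trans (le_of_eq h7)
  obtain ⟨m0, hm0⟩ := exists_nat_gt (1 / ε)
  obtain ⟨m, h1, h2⟩ := (e4.and (hR m0)).exists
  have h3 := hlt m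
  have h4 : ((R m : ℤ) : ℝ) ≤ ε * ht k (p m).x := by
    have h5 : (m0 : ℝ) * (R m : ℤ) ≤ ht k (p m).x := by exact_mod_cast h2
    have h6 : 1 < m0 * ε := by
      rwa [div_lt_iff₀ hε] at hm0
    have h7 : (0 : ℝ) ≤ ht k (p m).x := by exact_mod_cast ht_nonneg (hp m).ne
    by_cases h8 : (0 : ℝ) ≤ (R m : ℤ)
    · have h9 : (R m : ℤ) * 1 ≤ (R m : ℤ) * (m0 * ε) := mul_le_mul_of_nonneg_left h6.le h8
      nlinarith
    · have h9 : 0 ≤ ε * ht k (p m).x := by positivity
      linarith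
  have h5 : ((ht k (fun j => aeval (p m).x (B j)) : ℤ) : ℝ) ≤
      N * (ZD (k := k) Q q (p m).x).ncard + (R m : ℤ) := by exact_mod_cast h1
  have h6 : (0 : ℝ) ≤ m.1 * (Xt k F (fun j => aeval (p m).x (pr j)) : ℤ) := by
    have h7 : (0 : ℝ) ≤ (Xt k F (fun j => aeval (p m).x (pr j)) : ℤ) := by
      have := (hXp m).1
      exact_mod_cast (by omega : (0 : ℤ) ≤ Xt k F (fun j => aeval (p m).x (pr j)))
    positivity
  linarith

end Pool.Agent.N131.FM
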