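import Mathlib
import Pool.Agent.N131.FM.Fin1

/-!
Varieties of logarithmic general type over function fields.
-/

set_option autoImplicit false
set_option linter.unusedSectionVars false

namespace Pool.Agent.N131.FM

open FF Filter MvPolynomial Pool.Agent.W603.LV Pool.Agent.W603.PV
open Pool.Agent.N131.SV (S_KEY)
open Pool.Agent.W602.GT (IsForm coords val exists_embedding Divisorial IsPluri RegAt LogAt
  LogGeneralType)
open Pool.Agent.N131.FM.Fam (SmS rp po ObE SmE mem_obf mem_smf DM_obf DM_smf smf_le_obf mem_hp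
  mem_hp_nonunits rp_mf mf_rp)
open Pool.Agent.N131.FV (mo mo_le exists_mo ge_mo mo_finite osc sp exists_basis osc_finite avo
  avo_nonneg avo_finset avo_le)

variable {k F : Type} [Field k] [IsAlgClosed k] [CharZero k] [Field F] [Algebra k F] [IsFF k F]
  {M : ℕ} {K : Type} [Field K] [Algebra F K] {w : ℕ}

/-- **Varieties of logarithmic general type, for systems of the dimension `n`.** -/
theorem fin2n (hBAL : MV.S_BAL) (hCAL : MV.S_CAL) (hSMS : S_SMS) (hMFB : S_MFB) (hFRB : S_FRB)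
    (hFLD : S_FLD) (hZG : S_ZG) (hPRX : S_PRX) (hGPT : S_GPT) (hKEY : S_KEY)
    {y : Fin (M + 1) → K} (hy : coords F y = ⊤) (hyne : ∃ l, y l ≠ 0)
    {ν e : ℕ} {pr : Fin (ν + 1) → MvPolynomial (Fin (M + 1)) F}
    (hpr : ∀ i, (pr i).IsHomogeneous e) (hpr0 : ∃ i, aeval y (pr i) ≠ 0)
    (hpralg : Algebra.IsAlgebraic (IntermediateField.adjoin F
      {z | ∃ i j, aeval y (pr j) ≠ 0 ∧ z = aeval y (pr i) / aeval y (pr j)}) K)
    (hw : 0 < w) {r : ℕ}
    {Q : Fin (r + 1) → MvPolynomial (Fin (M + 1)) F} {q : Fin (r + 1) → ℕ}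
    (hQ : ∀ l, (Q l).IsHomogeneous (q l)) (hQ0 : ∃ l, aeval y (Q l) ≠ 0)
    (hLG : LogGeneralType F K w (Bd Q q y)) (n : ℕ) :
    ∃ A : MvPolynomial (Fin (M + 1)) F, IsForm A ∧ aeval y A ≠ 0 ∧ ∃ C : ℕ,
      ∀ (L : Type) [Field L] [Algebra k L] [Algebra F L] [IsScalarTower k F L]
        [FiniteDimensional F L] [IsFF k L] (x : Fin (M + 1) → L), Pt (F := F) y x →
        aeval x A ≠ 0 → Module.finrank k (sp k fun j => aeval x (pr j)) = n →
        ht k x ≤ C * ((ZD (k := k) Q q x).ncard + Xt k F (fun j => aeval x (pr j))) := by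
  classical
  obtain ⟨htr, N, hNpos, ω, hpl, hlog, hreg, D0, hD0, hind⟩ := hLG
  by_contra hcon
  push Not at hcon
  -- the counterexamples
  have hcon' : ∀ i : Ix (F := F) y, ∃ p : Pdat k F M, Pt (F := F) y p.x ∧ aeval p.x (Ax i) ≠ 0 ∧
      Module.finrank k (sp k fun j => aeval p.x (pr j)) = n ∧
      (i.1 : ℤ) * ((ZD (k := k) Q q p.x).ncard + Xt k F (fun j => aeval p.x (pr j))) <
        ht k p.x := by
    intro i
    obtain ⟨L, i1, i2, i3, i4, i5, i6, x, h1, h2, h3, h4⟩ := hcon (Ax i) (Ax_spec i).1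
      (Ax_spec i).2 i.1
    exact ⟨⟨L, i1, i2, i3, i4, i5, i6, x⟩, h1, h2, h3, h4⟩
  choose p hp hA hn hlt using hcon'
  let X : Ix (F := F) y → ℤ := fun i => (ZD (k := k) Q q (p i).x).ncard +
    Xt k F (fun j => aeval (p i).x (pr j))
  have hXp := fun i => Xt_parts (k := k) (F := F) (L := (p i).L) (fun j => aeval (p i).x (pr j))
  have hZ0 : ∀ i, (0 : ℤ) ≤ (ZD (k := k) Q q (p i).x).ncard := fun i => Int.natCast_nonneg _
  have hX1 : ∀ i, 1 ≤ X i := fun i => by
    have h1 := (hXp i).1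
    have h2 := hZ0 i
    change 1 ≤ ((ZD (k := k) Q q (p i).x).ncard : ℤ) + Xt k F (fun j => aeval (p i).x (pr j))
    omega
  have hXd : ∀ i, disc k F (p i).L ≤ X i := fun i => by
    have h1 := (hXp i).2.2.1
    have h2 := hZ0 i
    change disc k F (p i).L ≤ ((ZD (k := k) Q q (p i).x).ncard : ℤ) +
      Xt k F (fun j => aeval (p i).x (pr j))
    omega
  have hXo : ∀ i, ((osc k fun j => aeval (p i).x (pr j)).ncard : ℤ) ≤ X i := fun i => by
    have h1 := (hXp i).2.2.2.1
    have h2 := hZ0 i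
    change ((osc k fun j => aeval (p i).x (pr j)).ncard : ℤ) ≤
      ((ZD (k := k) Q q (p i).x).ncard : ℤ) + Xt k F (fun j => aeval (p i).x (pr j))
    omega
  have hXf : ∀ i, (Module.finrank F (p i).L : ℤ) ≤ X i := fun i => by
    have h1 := (hXp i).2.2.2.2
    have h2 := hZ0 i
    change (Module.finrank F (p i).L : ℤ) ≤ ((ZD (k := k) Q q (p i).x).ncard : ℤ) +
      Xt k F (fun j => aeval (p i).x (pr j))
    omega
  have hXZ : ∀ i, ((ZD (k := k) Q q (p i).x).ncard : ℤ) ≤ X i := fun i => by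
    have h1 := (hXp i).1
    change ((ZD (k := k) Q q (p i).x).ncard : ℤ) ≤ ((ZD (k := k) Q q (p i).x).ncard : ℤ) +
      Xt k F (fun j => aeval (p i).x (pr j))
    omega
  obtain ⟨l0, hl0⟩ := hyne
  obtain ⟨lQ, hlQ⟩ := hQ0
  have hX : ∀ m : ℕ, ∀ᶠ i in (Ux (F := F) y : Filter (Ix (F := F) y)),
      (m : ℤ) * X i ≤ ht k (p i).x := by
    refine X_small (H := fun i => ht k (p i).x) hX1 hXf (b := 1) (c := 0) ?_ hlt
    exact Eventually.of_forall fun i => by simp
  let S : Fam k F := famOf p hXd hXf hX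
  let f : Fin (M + 1) → S.Sq := fO p hXd hXf hX
  have hG : Gsq S y f := gsq_famOf p _ _ _ hp hA
  -- the bases
  obtain ⟨g, a, b', hgi, hgs, hga, hgb⟩ := bases (L := fun i : S.I => (p i).L)
    (fun i j => aeval (p i).x (pr j)) hn
  have hprne : ∃ j, aeval y (pr j) ≠ 0 := hpr0
  obtain ⟨j0, hj0⟩ := hprne
  have hprev : ∀ᶠ i in (Ux (F := F) y : Filter (Ix (F := F) y)), aeval (p i).x (pr j0) ≠ 0 :=
    (Ux_form (F := F) y ⟨e, hpr j0⟩ hj0).mono fun i hi => Ax_mem (hA i) hi
  have hn0 : n ≠ 0 := by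
    rintro rfl
    obtain ⟨i, hi⟩ := hprev.exists
    apply hi
    have h1 := hgb j0 i
    rw [h1]
    simp
  obtain ⟨n, rfl⟩ := Nat.exists_eq_succ_of_ne_zero hn0
  let gs : Fin (n + 1) → S.Sq := fun l i => g i l
  have hN : SmS S fun i => osc k fun j => gs j i := by
    have h1 : ∀ᶠ i in (Ux (F := F) y : Filter (Ix (F := F) y)),
        osc k (g i) = osc k (fun j => aeval (p i).x (pr j)) := by
      filter_upwards [hprev] with i hi
      exact (osc_span ⟨j0, hi⟩ ⟨0, (hgi i).ne_zero 0⟩ (hgs i)).symm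
    constructor
    · refine Eventually.of_forall fun i => ?_
      exact osc_finite ⟨0, (hgi i).ne_zero 0⟩
    · intro m
      change ∀ᶠ i in (Ux (F := F) y : Filter (Ix (F := F) y)),
        (m : ℤ) * (osc k (g i)).ncard ≤ ht k (p i).x
      filter_upwards [h1, hX m] with i h2 h3
      have h2' : osc k (g i) = osc k (fun j => aeval (p i).x (pr j)) := h2
      change (m : ℤ) * (osc k (g i)).ncard ≤ ht k (p i).x
      rw [h2']
      exact (mul_le_mul_of_nonneg_left (hXo i) (Int.natCast_nonneg m)).trans h3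
  have hFc : CharZero F := charZero_of_injective_algebraMap (algebraMap k F).injective
  obtain ⟨x, hx⟩ := Pool.Agent.W602.GT.basis_of_trdeg htr
  obtain ⟨E, hE⟩ := Pool.Agent.W602.GT.exists_dual hx
  have hE' : ∀ i j, E i (x j) = if i = j then 1 else 0 := by
    intro i j
    have h1 := congrFun (congrFun hE i) j
    rwa [Matrix.of_apply, Matrix.one_apply] at h1
  obtain ⟨ψ, hψ, hob, G, δ, hδ, hGω, C, r', c, Bs, hc, hBs, hord⟩ :=
    core_seq hBAL hCAL hSMS hFRB hFLD hZG hPRX hGPT hKEY hG hy hw htr hl0 hpr hpralg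
      (g := gs) (a := a) (b := b') hgi hga hgb hN ω hpl hlog hQ hreg hx hE'
  -- all elements are small
  have e3 : ∀ᶠ m in (S.U : Filter S.I), aeval (fun l => f l m) (Q lQ) ≠ 0 :=
    hG.nz ⟨q lQ, hQ lQ⟩ hlQ
  have hZsm : S.Sm fun m => ((ZD (k := k) Q q fun l => f l m).ncard : ℤ) := by
    intro m
    filter_upwards [hX m] with i h2
    exact (mul_le_mul_of_nonneg_left (hXZ i) (Int.natCast_nonneg m)).trans h2
  have hGs : ∀ j, G j ∈ S.smf := by
    intro j
    rw [← mf_rp (G j), mem_smf]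
    let R : S.I → ℤ := fun m => N * (ZD (k := k) Q q fun l => f l m).ncard +
      (C * (Bs m).ncard + C * avo (S.D m) + C * ∑ l, hgt k (rp (c l) m))
    have hR : S.Sm R := by
      refine Fam.Sm.add (Fam.Sm.mul hZsm N) (Fam.Sm.add (Fam.Sm.add (Fam.Sm.mul hBs.small C)
        (Fam.Sm.mul (a := fun m => avo (S.D m)) S.avo_sm C))
          (Fam.Sm.mul (Fam.Sm.sum _ fun l _ => ?_) C))
      have h1 := hc l
      rw [← mf_rp (c l), mem_smf] at h1
      exact h1
    refine Fam.Sm.mono hR ?_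
    filter_upwards [e3, hBs.fin, hord] with m h3 h5 h6
    obtain ⟨T, hT⟩ := sum_bd (N := N) (C := C) (S.hDn m)
      (ZD_finite (k := k) (x := fun l => f l m) (hG.ne m) h3) h5 (fun l => rp (c l) m)
    obtain ⟨T0, hT0⟩ := exists_supp (k := k) (Finset.univ : Finset (Fin 1)) ![rp (G j) m]
    have h7 := hT (T ∪ T0) Finset.subset_union_left
    have h8 : hgt k (rp (G j) m) = ∑ P ∈ T ∪ T0, max (-P.ord (rp (G j) m)) 0 :=
      hgt_finset _ _ fun P hP => Finset.mem_union_right _ (hT0 0 (Finset.mem_univ _) P hP)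
    change hgt k (rp (G j) m) ≤ R m
    rw [h8]
    refine le_trans (Finset.sum_le_sum fun P _ => ?_) (le_of_eq h7)
    have h9 := h6 P j
    have h10 : (0 : ℤ) ≤ (N : ℤ) * (ZD (k := k) Q q fun l => f l m).indicator
        (1 : Place k (S.L m) → ℤ) P :=
      mul_nonneg (by positivity) (Set.indicator_nonneg (fun _ _ => zero_le_one) _)
    have h11 : (0 : ℤ) ≤ (C : ℤ) * (Bs m).indicator (1 : Place k (S.L m) → ℤ) P :=
      mul_nonneg (by positivity) (Set.indicator_nonneg (fun _ _ => zero_le_one) _)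
    have h12 : (0 : ℤ) ≤ (C : ℤ) * |vo P (S.D m)| := by positivity
    have h13 : (0 : ℤ) ≤ (C : ℤ) * ∑ l, max 0 (-P.ord (rp (c l) m)) :=
      mul_nonneg (by positivity) (Finset.sum_nonneg fun _ _ => le_max_left _ _)
    have h14 : ∑ l, po (c l) m P = ∑ l, max 0 (-P.ord (rp (c l) m)) := rfl
    rw [h14] at h9
    apply max_le
    · linarith
    · linarith
  -- the ratios
  have hE0 : ω 0 E ≠ 0 := by
    intro h1
    apply hD0
    rw [frame_scale (hpl 0) hx hE' D0, h1, mul_zero]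
  have hdet : (Matrix.of fun i j => D0 i (x j)).det ^ N ≠ 0 := by
    intro h1
    apply hD0
    rw [frame_scale (hpl 0) hx hE' D0, h1, zero_mul]
  have hu : ∀ j : Fin w, ψ (ω j.succ D0 / ω 0 D0) ∈ S.smf := by
    intro j
    rw [frame_scale (hpl _) hx hE' D0, frame_scale (hpl 0) hx hE' D0,
      mul_div_mul_left _ _ hdet, map_div₀]
    have h1 : ψ (ω j.succ E) / ψ (ω 0 E) = G j.succ / G 0 := by
      rw [hGω, hGω, mul_div_mul_right _ _ hδ]
    rw [h1]
    exact div_mem (hGs _) (hGs _)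
  have hub : IsTranscendenceBasis F fun j : Fin w => ω j.succ D0 / ω 0 D0 := by
    apply hind.isTranscendenceBasis_of_trdeg_le_of_finite
    rw [htr]
    simp
  have hall : ∀ z : K, ψ z ∈ S.smf := by
    intro z
    obtain ⟨-, halg⟩ := hMFB k F S
    apply halg
    have h1 := hub.isAlgebraic_field
    have h2 := alg_transfer ψ (κ := S.smf) (⊥ : IntermediateField S.smf S.MF) (P :=
      IntermediateField.adjoin F (Set.range fun j : Fin w => ω j.succ D0 / ω 0 D0)) (by
        intro z hz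
        have h3 : (IntermediateField.adjoin F
            (Set.range fun j : Fin w => ω j.succ D0 / ω 0 D0)).map ψ ≤ S.smf := by
          rw [IntermediateField.adjoin_map, IntermediateField.adjoin_le_iff]
          rintro _ ⟨_, ⟨j, rfl⟩, rfl⟩
          exact hu j
        rw [IntermediateField.mem_bot]
        exact ⟨⟨ψ z, h3 ⟨z, hz, rfl⟩⟩, rfl⟩) (h1.isAlgebraic z)
    obtain ⟨p, hp, hpz⟩ := h2
    have hsurj : ∀ s : (⊥ : IntermediateField S.smf S.MF), ∃ c : S.smf,
        algebraMap S.smf S.MF c = (s : S.MF) := fun s => IntermediateField.mem_bot.1 s.2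
    let e := IntermediateField.botEquiv S.smf S.MF
    refine ⟨p.map e.toRingEquiv.toRingHom, (Polynomial.map_ne_zero_iff
      e.toRingEquiv.toRingHom.injective).2 hp, ?_⟩
    rw [Polynomial.aeval_def, Polynomial.eval₂_map]
    have h4 : (algebraMap S.smf S.MF).comp e.toRingEquiv.toRingHom =
        algebraMap (⊥ : IntermediateField S.smf S.MF) S.MF := by
      ext s
      obtain ⟨c, hc⟩ := hsurj s
      have h5 : s = algebraMap S.smf (⊥ : IntermediateField S.smf S.MF) c :=
        Subtype.ext hc.symm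
      change algebraMap S.smf S.MF (e s) = (s : S.MF)
      rw [h5]
      change algebraMap S.smf S.MF (e (algebraMap S.smf _ c)) = _
      rw [e.commutes]
      rfl
    rw [h4, ← Polynomial.aeval_def]
    exact hpz
  -- the points are small
  have hnz : ∀ᶠ m in (S.U : Filter S.I), f l0 m ≠ 0 := S.mf_ne_zero.1 (hG.mf_X_ne hl0)
  have hsm : S.Sm fun m => ∑ j, hgt k (f j m / f l0 m) := by
    refine Fam.Sm.sum _ fun j _ => ?_
    have h1 := hall (y j / y l0)
    rw [hψ, Fam.mf_div, mem_smf] at h1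
    exact h1
  obtain ⟨m, ⟨h1, h2⟩, h3⟩ := ((hnz.and (hsm 2)).and (Ux_nat (F := F) y 1)).exists
  have h4 := FV.hp_le (k := k) (x := fun j => f j m) h1
  have h5 := hlt m
  have h6 := hX1 m
  have h7 : S.h m = ht k (p m).x := rfl
  rw [h7] at h2
  have h8 : FV.hp k (fun j => f j m) = ht k (p m).x := rfl
  rw [h8] at h4
  have h9 : (1 : ℤ) * X m ≤ m.1 * X m :=
    mul_le_mul_of_nonneg_right (by exact_mod_cast h3) (by omega)
  have h10 : (m.1 : ℤ) * X m < ht k (p m).x := h5
  push_cast at h2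
  linarith

end Pool.Agent.N131.FM
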