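import Mathlib
import Pool.Agent.N131.FM.Stm

/-!
The linear differential equation of a point with few osculation places (subtask FM/FRB of
helper131, by helper841).
-/

set_option autoImplicit false
set_option linter.unusedSectionVars false

namespace Pool.Agent.N131.FM

open FF Filter MvPolynomial Pool.Agent.W603.LV Pool.Agent.W603.PV
open Pool.Agent.N131.FV (nab nab_add nab_zero nab_mul iter_gauge nm nm_zero lamW mo osc sp good_of
  ge_sp osc_finite exists_op ge_lamW good_coeff good_kappa good_ord ge_iter_nab hgt_le_bad avo)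

/-! ### One function field -/

section pt

variable {k L : Type} [Field k] [Field L] [Algebra k L]

/-- the coefficients of the powers of the connection -/
noncomputable def frb_nc (D : Derivation k L L) (κ : L) : ℕ → ℕ → L
  | 0, s => if s = 0 then 1 else 0
  | r + 1, s => (if s = 0 then 0 else frb_nc D κ r (s - 1)) + D (frb_nc D κ r s) +
      κ * frb_nc D κ r s

theorem frb_nc_lt (D : Derivation k L L) (κ : L) (r : ℕ) : ∀ s, r < s → frb_nc D κ r s = 0 := by
  induction r with
  | zero =>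
    intro s hs
    rw [frb_nc, if_neg (by omega)]
  | succ r ih =>
    intro s hs
    rw [frb_nc, if_neg (by omega), ih (s - 1) (by omega), ih s (by omega), map_zero]
    ring

theorem frb_nc_eq (D : Derivation k L L) (κ : L) (r : ℕ) : frb_nc D κ r r = 1 := by
  induction r with
  | zero => rw [frb_nc, if_pos rfl]
  | succ r ih =>
    rw [frb_nc, if_neg (by omega), Nat.add_sub_cancel, ih, frb_nc_lt D κ r (r + 1) (by omega),
      map_zero]
    ring

theorem frb_nc_sum (D : Derivation k L L) (κ : L) (r : ℕ) (f : L) :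
    (nab D κ)^[r] f = ∑ s ∈ Finset.range (r + 1), frb_nc D κ r s * (⇑D)^[s] f := by
  induction r with
  | zero => simp [frb_nc]
  | succ r ih =>
    rw [Function.iterate_succ_apply', ih]
    have h1 : ∀ s, frb_nc D κ (r + 1) s * (⇑D)^[s] f =
        (if s = 0 then 0 else frb_nc D κ r (s - 1)) * (⇑D)^[s] f +
          (D (frb_nc D κ r s) + κ * frb_nc D κ r s) * (⇑D)^[s] f := by
      intro s
      rw [frb_nc]
      ring
    rw [Finset.sum_congr rfl fun s _ => h1 s, Finset.sum_add_distrib]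
    have h2 : ∑ s ∈ Finset.range (r + 1 + 1), (if s = 0 then 0 else frb_nc D κ r (s - 1)) *
        (⇑D)^[s] f = ∑ s ∈ Finset.range (r + 1), frb_nc D κ r s * D ((⇑D)^[s] f) := by
      rw [Finset.sum_range_succ']
      simp only [if_true, zero_mul, add_zero]
      refine Finset.sum_congr rfl fun s _ => ?_
      rw [if_neg (by omega), Nat.add_sub_cancel, Function.iterate_succ_apply']
    have h3 : ∑ s ∈ Finset.range (r + 1 + 1), (D (frb_nc D κ r s) + κ * frb_nc D κ r s) *
        (⇑D)^[s] f = ∑ s ∈ Finset.range (r + 1), (D (frb_nc D κ r s) + κ * frb_nc D κ r s) *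
        (⇑D)^[s] f := by
      rw [Finset.sum_range_succ, frb_nc_lt D κ r (r + 1) (by omega), map_zero]
      ring
    rw [h2, h3, FV.nab_sum, ← Finset.sum_add_distrib]
    refine Finset.sum_congr rfl fun s _ => ?_
    unfold nab
    rw [D.leibniz, smul_eq_mul, smul_eq_mul]
    ring

/-- the determinant does not depend on the connection -/
theorem frb_nm (D : Derivation k L L) (κ : L) {n : ℕ} (f : Fin n → L) :
    (nm D κ f).det = wr D f := by
  rw [← nm_zero]
  have h1 : nm D κ f = (Matrix.of fun r s : Fin n => frb_nc D κ r s) * nm D 0 f := by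
    ext r l
    rw [Matrix.mul_apply]
    change (nab D κ)^[(r : ℕ)] (f l) = ∑ s : Fin n, frb_nc D κ r s * (nab D 0)^[(s : ℕ)] (f l)
    have h2 : nab D 0 = ⇑D := by
      funext x
      unfold nab
      rw [zero_mul, add_zero]
    rw [h2, frb_nc_sum, Fin.sum_univ_eq_sum_range (fun s => frb_nc D κ r s * (⇑D)^[s] (f l)) n]
    apply Finset.sum_subset
    · intro s hs
      have := Finset.mem_range.1 hs
      have := r.2
      exact Finset.mem_range.2 (by omega)
    · intro s _ hs
      rw [frb_nc_lt D κ r s (by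
        by_contra hcon
        exact hs (Finset.mem_range.2 (by omega))), zero_mul]
  rw [h1, Matrix.det_mul]
  have h2 : (Matrix.of fun r s : Fin n => frb_nc D κ r s).det = 1 := by
    rw [Matrix.det_of_isLowerTriangular]
    · apply Finset.prod_eq_one
      intro i _
      exact frb_nc_eq D κ i
    · intro i j hij
      exact frb_nc_lt D κ i j hij
  rw [h2, one_mul]

/-- the connection of the affine coordinates -/
noncomputable def frb_l {n : ℕ} (D : Derivation k L L) (g : Fin (n + 1) → L) : L :=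
  D (g 0) / g 0 - D (wr D g) / (((n : L) + 1) * wr D g)

theorem frb_l_eq {n : ℕ} (D : Derivation k L L) (g : Fin (n + 1) → L) :
    frb_l D g = lamW D g + D (g 0) / g 0 := by
  unfold frb_l lamW
  push_cast
  rw [div_div, mul_comm (wr D g)]
  ring

theorem frb_gauge {n : ℕ} (D : Derivation k L L) {g : Fin (n + 1) → L} (h0 : g 0 ≠ 0)
    (j : Fin (n + 1)) (r : ℕ) :
    (nab D (frb_l D g))^[r] (g j / g 0) = (g 0)⁻¹ * (nab D (lamW D g))^[r] (g j) := by
  have h1 := iter_gauge D (lamW D g) h0 (g j / g 0) r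
  rw [mul_div_cancel₀ _ h0, ← frb_l_eq] at h1
  rw [h1, ← mul_assoc, inv_mul_cancel₀ h0, one_mul]

theorem frb_det {n : ℕ} (D : Derivation k L L) {g : Fin (n + 1) → L} (h0 : g 0 ≠ 0) :
    g 0 ^ (n + 1) * (Matrix.of fun i j : Fin (n + 1) =>
      (nab D (frb_l D g))^[(i : ℕ)] (g j / g 0)).det = wr D g := by
  have h1 : (Matrix.of fun i j : Fin (n + 1) => (nab D (frb_l D g))^[(i : ℕ)] (g j / g 0)) =
      (g 0)⁻¹ • nm D (lamW D g) g := by
    ext i j
    rw [Matrix.of_apply, frb_gauge D h0]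
    rfl
  rw [h1, Matrix.det_smul, frb_nm, Fintype.card_fin, ← mul_assoc, ← mul_pow,
    mul_inv_cancel₀ h0, one_pow, one_mul]

variable [CharZero k] [IsFF k L] [IsAlgClosed k]

/-- the differential equations -/
theorem frb_ode {D : Derivation k L L} (hD : D ≠ 0) {n : ℕ} {g : Fin (n + 1) → L}
    (hg : LinearIndependent k g) : ∃ b : Fin (n + 1) → L,
      (∀ i, hgt k (b i) ≤ ((n + 1 : ℕ) : ℤ) * ((osc k g).ncard + 2 * avo D)) ∧
      ∀ j, (nab D (frb_l D g))^[n + 1] (g j / g 0) =
        ∑ i : Fin (n + 1), b i * (nab D (frb_l D g))^[(i : ℕ)] (g j / g 0) := by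
  have h0 : g 0 ≠ 0 := hg.ne_zero 0
  obtain ⟨c0, hc1, -, hc2, hc3⟩ := exists_op hD (lamW D g) (n + 1) g
  have hn : Module.finrank k (sp k g) = n + 1 := by
    rw [finrank_span_eq_card hg, Fintype.card_fin]
  have hgx : ∀ l, g l ∈ sp k g := fun l => Submodule.subset_span ⟨l, rfl⟩
  have hb : ∀ l, (nab D (lamW D g))^[n + 1] (g l) =
      ∑ i : Fin (n + 1), (-c0 i) * (nab D (lamW D g))^[(i : ℕ)] (g l) := by
    intro l
    have h1 := hc2 l
    rw [Finset.sum_range_succ, hc1, one_mul, Finset.sum_range] at h1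
    simp only [neg_mul, Finset.sum_neg_distrib]
    linear_combination h1
  refine ⟨fun i => -c0 i, fun i => ?_, fun j => ?_⟩
  · refine hgt_le_bad hD (osc_finite ⟨0, h0⟩) (fun P s hs hs0 => ?_) (fun P hP hv => ?_)
    · refine (hc3 P s hs hs0 (ge_lamW P hD hs hg) i).neg.mono ?_
      have h1 : ((((n + 1 : ℕ) : ℤ) - (i : ℕ)) * s) ≤ ((n + 1 : ℕ) : ℤ) * s := by
        have : (0 : ℤ) ≤ (i : ℕ) := Int.natCast_nonneg _
        nlinarith
      linarith
    · obtain ⟨u, hu, hum⟩ : ∃ u : L, u ≠ 0 ∧ P.ord u = mo P g := by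
        obtain ⟨c, hc, hcm⟩ := FV.exists_mo P (x := g) ⟨0, h0⟩
        exact ⟨g c, hc, hcm⟩
      exact good_coeff n.succ_pos hD hv hg (fun l => ge_sp P g (hgx l))
        (good_of hn hg hgx hP) hu hum hb i
  · rw [frb_gauge D h0, hb, Finset.mul_sum]
    refine Finset.sum_congr rfl fun i _ => ?_
    rw [frb_gauge D h0]
    ring

/-- the generators -/
theorem frb_reg {D : Derivation k L L} (hD : D ≠ 0) {n : ℕ} {g : Fin (n + 1) → L}
    (hg : LinearIndependent k g) (p : (Fin (n + 1) → Fin (n + 1)) × (Fin (n + 1) → Fin (n + 1)))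
    (P : Place k L) (hP : P ∉ osc k g) (hv : vo P D = 0) :
    Ge P 0 (g 0 ^ (n + 1) / wr D g *
      ∏ s, (nab D (frb_l D g))^[(p.1 s : ℕ)] (g (p.2 s) / g 0)) := by
  have h0 : g 0 ≠ 0 := hg.ne_zero 0
  have hW := wr_ne_zero hD g hg
  have hn : Module.finrank k (sp k g) = n + 1 := by
    rw [finrank_span_eq_card hg, Fintype.card_fin]
  have hgx : ∀ l, g l ∈ sp k g := fun l => Submodule.subset_span ⟨l, rfl⟩
  obtain ⟨u, hu, hum⟩ : ∃ u : L, u ≠ 0 ∧ P.ord u = mo P g := by
    obtain ⟨c, hc, hcm⟩ := FV.exists_mo P (x := g) ⟨0, h0⟩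
    exact ⟨g c, hc, hcm⟩
  have hm : ∀ l, Ge P (mo P g) (g l) := fun l => ge_sp P g (hgx l)
  have hgood := good_of hn hg hgx hP
  have hκ := good_kappa n.succ_pos hD hv hg hm hgood hu hum
  have hord := good_ord hD hv hg hm hgood hu hum
  have hui : Ge P (-mo P g) u⁻¹ := Or.inr (by rw [P.ord_inv, hum])
  have h1 : ∀ l, Ge P 0 (u⁻¹ * g l) := fun l => (hui.mul (hm l)).mono (by omega)
  have h2 : ∀ (j : Fin (n + 1)) (r : ℕ), (nab D (frb_l D g))^[r] (g j / g 0) =
      ((g 0)⁻¹ * u) * (nab D (lamW D g + D u / u))^[r] (u⁻¹ * g j) := by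
    intro j r
    rw [frb_gauge D h0, mul_assoc, ← iter_gauge D (lamW D g) hu, ← mul_assoc u,
      mul_inv_cancel₀ hu, one_mul]
  have h3 : ∀ (j : Fin (n + 1)) (r : ℕ),
      Ge P 0 ((nab D (lamW D g + D u / u))^[r] (u⁻¹ * g j)) := by
    intro j r
    have h5 : Ge P (((0 : ℕ) : ℤ)) (u⁻¹ * g j) := by simpa using h1 j
    have := ge_iter_nab P hD hv hκ h5 r
    simpa using this
  have h4 : g 0 ^ (n + 1) / wr D g *
      ∏ s, (nab D (frb_l D g))^[(p.1 s : ℕ)] (g (p.2 s) / g 0) =
      u ^ (n + 1) / wr D g *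
        ∏ s, (nab D (lamW D g + D u / u))^[(p.1 s : ℕ)] (u⁻¹ * g (p.2 s)) := by
    rw [Finset.prod_congr rfl fun s _ => h2 (p.2 s) (p.1 s : ℕ), Finset.prod_mul_distrib,
      Finset.prod_const, Finset.card_univ, Fintype.card_fin, mul_pow, inv_pow]
    field_simp
  rw [h4]
  have h5 : Ge P 0 (u ^ (n + 1) / wr D g) := by
    right
    rw [P.ord_div (pow_ne_zero _ hu) hW, P.ord_pow, hord]
    simp
  have h6 : Ge P 0 (∏ s, (nab D (lamW D g + D u / u))^[(p.1 s : ℕ)] (u⁻¹ * g (p.2 s))) := by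
    classical
    refine Finset.prod_induction _ (fun x => Ge P 0 x) (fun a b ha hb => ?_) ?_ fun s _ => h3 _ _
    · exact (ha.mul hb).mono (by norm_num)
    · exact Ge.one (P := P)
  exact (h5.mul h6).mono (by norm_num)

end pt

/-! ### The ultraproduct -/

section fam

variable {k F : Type} [Field k] [Field F] [Algebra k F] {S : Fam k F}

/-- the iterates of the twisted derivative -/
theorem frb_et (l y : S.Sq) (r : ℕ) :
    (Et (S.mf l))^[r] (S.mf y) = S.mf fun i => (nab (S.D i) (l i))^[r] (y i) := by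
  induction r with
  | zero => rfl
  | succ r ih =>
    rw [Function.iterate_succ_apply', ih, Et, Fam.DM_mf, ← map_mul, ← map_add, Fam.mf_eq]
    refine Eventually.of_forall fun i => ?_
    change S.D i ((nab (S.D i) (l i))^[r] (y i)) + l i * (nab (S.D i) (l i))^[r] (y i) =
      (nab (S.D i) (l i))^[r + 1] (y i)
    rw [Function.iterate_succ_apply']
    rfl

theorem frb_mdet {m : ℕ} (M : Fin m → Fin m → S.Sq) :
    (Matrix.of fun i j => S.mf (M i j)).det = S.mf fun t => (Matrix.of fun i j => M i j t).det := by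
  have h1 : (Matrix.of fun i j => S.mf (M i j)) = S.mf.mapMatrix (Matrix.of M) := rfl
  rw [h1, ← RingHom.map_det]
  congr 1
  funext t
  exact RingHom.map_det (Pi.evalRingHom (fun t => S.L t) t) (Matrix.of M)

end fam

theorem t_FRB : S_FRB := by
  intro k F _ _ _ _ _ _ S n g hg _ hosc ρ ℓ hρ hℓ
  have h0 : ∀ i, g 0 i ≠ 0 := fun i => (hg i).ne_zero (0 : Fin (n + 1))
  set W : S.Sq := fun i => wr (S.D i) fun j => g j i with hWdef
  have hW : ∀ i, W i ≠ 0 := fun i => wr_ne_zero (S.hDn i) _ (hg i)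
  have hG0 : S.mf (g 0) ≠ 0 := (S.mf_ne_zero).2 (Eventually.of_forall h0)
  have hWW : S.mf W ≠ 0 := (S.mf_ne_zero).2 (Eventually.of_forall hW)
  have hn1 : (n : S.MF) + 1 ≠ 0 := by exact_mod_cast Nat.succ_ne_zero n
  let l : S.Sq := fun i => frb_l (S.D i) fun j => g j i
  have hl : ℓ = S.mf l := by
    have h1 : ((n : S.MF) + 1) = S.mf ((n : S.Sq) + 1) := by
      rw [map_add, map_natCast, map_one]
    rw [hℓ, h1, ← map_mul, Fam.DM_mf, Fam.DM_mf, Fam.mf_div, Fam.mf_div, ← map_sub]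
    rfl
  have hx : ∀ j, S.mf (g j) / S.mf (g 0) = S.mf fun i => g j i / g 0 i := fun j => S.mf_div _ _
  have hit : ∀ (j : Fin (n + 1)) (r : ℕ), (Et ℓ)^[r] (S.mf (g j) / S.mf (g 0)) =
      S.mf fun i => (nab (S.D i) (l i))^[r] (g j i / g 0 i) := by
    intro j r
    rw [hx j, hl]
    exact frb_et l (fun i => g j i / g 0 i) r
  have hρ' : ρ = S.mf fun i => g 0 i ^ (n + 1) / W i := by
    rw [hρ, ← map_pow, Fam.mf_div]
    rfl
  refine ⟨?_, ?_, ?_, ?_⟩
  · -- the linear differential equations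
    choose b hb1 hb2 using fun i => frb_ode (S.hDn i) (hg i)
    have hsm : S.Sm fun i => ((n + 1 : ℕ) : ℤ) * ((osc k fun j => g j i).ncard +
        ((2 : ℕ) : ℤ) * avo (S.D i)) :=
      Fam.Sm.mul (Fam.Sm.add hosc.small (Fam.Sm.mul (a := fun i => avo (S.D i)) S.avo_sm 2)) (n + 1)
    refine ⟨fun j => S.mf fun i => b i j, fun j => ?_, fun j => ?_⟩
    · rw [Fam.mem_smf]
      refine Fam.Sm.mono hsm (Eventually.of_forall fun i => ?_)
      exact hb1 i j
    · rw [hit j (n + 1), Finset.sum_congr rfl fun i _ => by rw [hit j i, ← map_mul], ← map_sum,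
        Fam.mf_eq]
      refine Eventually.of_forall fun t => ?_
      rw [Finset.sum_apply]
      exact hb2 t j
  · -- the determinant
    have h1 : (Matrix.of fun i j : Fin (n + 1) =>
        (Et ℓ)^[(i : ℕ)] (S.mf (g j) / S.mf (g 0))) = Matrix.of fun i j : Fin (n + 1) =>
          S.mf ((fun i j => fun t => (nab (S.D t) (l t))^[(i : ℕ)] (g j t / g 0 t)) i j) := by
      ext i j
      rw [Matrix.of_apply, Matrix.of_apply, hit j i]
    rw [h1, frb_mdet, hρ', ← map_mul, ← map_one S.mf, Fam.mf_eq]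
    refine Eventually.of_forall fun t => ?_
    have h2 := frb_det (S.D t) (g := fun j => g j t) (h0 t)
    change g 0 t ^ (n + 1) / W t * (Matrix.of fun i j : Fin (n + 1) =>
      (nab (S.D t) (frb_l (S.D t) fun j => g j t))^[(i : ℕ)] (g j t / g 0 t)).det = 1
    rw [div_mul_eq_mul_div, h2]
    exact div_self (hW t)
  · -- the derivative
    have hd1 : S.DM ρ = ((S.mf W)⁻¹) ^ 2 * (S.mf W *
        (((n : S.MF) + 1) * (S.mf (g 0) ^ n * S.DM (S.mf (g 0)))) -
          S.mf (g 0) ^ (n + 1) * S.DM (S.mf W)) := by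
      rw [hρ, Derivation.leibniz_div, Derivation.leibniz_pow]
      simp only [smul_eq_mul, nsmul_eq_mul, Nat.add_sub_cancel]
      push_cast
      ring
    rw [hd1, hℓ, hρ]
    field_simp
    ring
  · -- the generators
    intro p
    have h2 : ρ * ∏ s, (Et ℓ)^[(p.1 s : ℕ)] (S.mf (g (p.2 s)) / S.mf (g 0)) =
        S.mf fun i => g 0 i ^ (n + 1) / W i *
          ∏ s, (nab (S.D i) (l i))^[(p.1 s : ℕ)] (g (p.2 s) i / g 0 i) := by
      rw [hρ', Finset.prod_congr rfl fun s _ => hit (p.2 s) (p.1 s : ℕ), ← map_prod, ← map_mul,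
        Fam.mf_eq]
      refine Eventually.of_forall fun t => ?_
      rw [Pi.mul_apply, Finset.prod_apply]
    rw [h2]
    filter_upwards [S.rp_mf fun i => g 0 i ^ (n + 1) / W i *
          ∏ s, (nab (S.D i) (l i))^[(p.1 s : ℕ)] (g (p.2 s) i / g 0 i)] with i hi P hP hv
    rw [hi]
    exact frb_reg (S.hDn i) (hg i) p P hP hv

end Pool.Agent.N131.FM
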