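import Pool.Agent.N131.FM.Stm
import Pool.Agent.W603.LV.Spec

/-!
The alternative at the places of a sequence, from the alternative at valuation rings (`S_GPT`), over
function fields. Port of SV/Gpt.lean (helper803).
-/

set_option autoImplicit false
set_option linter.unusedSectionVars false

namespace Pool.Agent.N131.FM

open FF Filter Pool.Agent.W603.LV Pool.Agent.W603.PV

theorem gpt_nu {K : Type*} [Field K] (A : ValuationSubring K) (x : K) :
    x ∈ A.nonunits ↔ x = 0 ∨ x⁻¹ ∉ A := by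
  rw [ValuationSubring.mem_nonunits_iff]
  by_cases h : x = 0
  · simp [h]
  · rw [← ValuationSubring.valuation_le_one_iff, map_inv₀]
    have h1 : A.valuation x ≠ 0 := by
      rwa [Ne, map_eq_zero]
    simp only [h, false_or, not_le]
    rw [one_lt_inv₀ (zero_lt_iff.2 h1)]

section

variable {k F : Type} [Field k] [IsAlgClosed k] [CharZero k] [Field F] [Algebra k F] [IsFF k F]
  {S : Fam k F}

theorem gpt_dv {x : S.MF} {z : ∀ n, Place k (S.L n)}
    (hv : ∀ᶠ n in (S.U : Filter S.I), vo (z n) (S.D n) = 0)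
    (h1 : ∀ᶠ n in (S.U : Filter S.I), Ge (z n) 1 (Fam.rp x n))
    (h3 : ∀ᶠ n in (S.U : Filter S.I), ¬ Ge (z n) 1 (Fam.rp (S.DM x) n)) :
    ∀ᶠ n in (S.U : Filter S.I), Fam.rp x n ≠ 0 ∧ (z n).ord (Fam.rp x n) = 1 := by
  have h4 : S.DM x = S.mf (S.dv (Fam.rp x)) := by
    conv_lhs => rw [← Fam.mf_rp x]
    exact S.DM_mf _
  have h5 := Fam.rp_mf (S.dv (Fam.rp x))
  rw [← h4] at h5
  filter_upwards [h1, h3, h5, hv] with n h1 h3 h5 hv
  rw [h5] at h3
  change ¬ Ge (z n) 1 (S.D n (Fam.rp x n)) at h3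
  have h0 : Fam.rp x n ≠ 0 := by
    intro h0
    apply h3
    rw [h0, map_zero]
    exact Ge.zero
  have h6 := h1.resolve_left h0
  refine ⟨h0, ?_⟩
  by_contra h7
  apply h3
  have h8 : Ge (z n) 2 (Fam.rp x n) := Or.inr (by omega)
  have h9 := FV.ge_der (z n) (S.hDn n) (s := 1) (by rw [hv]; norm_num) h8
  exact h9.mono (by norm_num)

end

/-- **GPT** -/
theorem t_GPT : S_GPT := by
  intro k F _ _ _ _ _ _ S Fd D hD I1 ι J _ _ _ gen T Pos Neg g N Gs hV B Z hB hT hgen hGs hZ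
  by_contra hcon
  rw [← Ultrafilter.eventually_not] at hcon
  have hex : ∀ i : S.I, ∃ w : Place k (S.L i),
      (¬ ∀ P, P ∉ B i → (∀ i', Ge P 0 (Fam.rp (g i' : S.MF) i)) ∨
        (P ∈ Z i ∧ ∀ i', Ge P (-N) (Fam.rp (g i' : S.MF) i))) →
      w ∉ B i ∧ ¬ ((∀ i', Ge w 0 (Fam.rp (g i' : S.MF) i)) ∨
        (w ∈ Z i ∧ ∀ i', Ge w (-N) (Fam.rp (g i' : S.MF) i))) := by
    intro i
    by_cases h : ∀ P, P ∉ B i → (∀ i', Ge P 0 (Fam.rp (g i' : S.MF) i)) ∨
        (P ∈ Z i ∧ ∀ i', Ge P (-N) (Fam.rp (g i' : S.MF) i))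
    · obtain ⟨P, -⟩ := exists_place_not_mem (k := k) (K := S.L i) ∅
      exact ⟨P, fun h' => absurd h h'⟩
    · have h' := h
      simp only [not_forall] at h'
      obtain ⟨w, hw1, hw2⟩ := h'
      exact ⟨w, fun _ => ⟨hw1, hw2⟩⟩
  choose z hz using hex
  have hzB : ∀ᶠ i in (S.U : Filter S.I), z i ∉ B i := hcon.mono fun i hi => (hz i hi).1
  have hzP : ∀ᶠ i in (S.U : Filter S.I), ¬ ((∀ i', Ge (z i) 0 (Fam.rp (g i' : S.MF) i)) ∨
        (z i ∈ Z i ∧ ∀ i', Ge (z i) (-N) (Fam.rp (g i' : S.MF) i))) :=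
    hcon.mono fun i hi => (hz i hi).2
  have hzv : ∀ᶠ i in (S.U : Filter S.I), vo (z i) (S.D i) = 0 := by
    filter_upwards [hB, hzB] with i h1 h2
    exact h1 (z i) h2
  have hm : ∀ x : Fd, x ∈ (Fam.hp z).comap (algebraMap Fd S.MF) ↔ (x : S.MF) ∈ Fam.hp z :=
    fun x => ValuationSubring.mem_comap
  have hn : ∀ x : Fd, x ∈ ((Fam.hp z).comap (algebraMap Fd S.MF)).nonunits ↔
      (x : S.MF) ∈ (Fam.hp z).nonunits := by
    intro x
    rw [gpt_nu, gpt_nu, hm]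
    simp
  have hs1 : ∀ x ∈ (Fam.hp z).comap (algebraMap Fd S.MF),
      D x ∈ (Fam.hp z).comap (algebraMap Fd S.MF) := by
    intro x hx
    rw [hm] at hx ⊢
    rw [hD]
    exact Fam.DM_hp hzv hx
  have hs2 : ∀ c ∈ T, algebraMap S.smf Fd c ∈ (Fam.hp z).comap (algebraMap Fd S.MF) := by
    intro c hc
    rw [hm, Fam.mem_hp']
    filter_upwards [hT c hc, hzB] with i h1 h2
    exact h1 (z i) h2
  have hs3 : ∀ p, gen p ∈ (Fam.hp z).comap (algebraMap Fd S.MF) := by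
    intro p
    rw [hm, Fam.mem_hp']
    filter_upwards [hgen p, hzB] with i h1 h2
    exact h1 (z i) h2
  rcases hV ((Fam.hp z).comap (algebraMap Fd S.MF)) hs1 hs2 hs3 with h1 |
    ⟨⟨j, hj1, hj2⟩, t, ht, hdt, hdt', h1⟩ | ⟨G, hG, h1⟩
  · have h2 : ∀ᶠ i in (S.U : Filter S.I), ∀ i', Ge (z i) 0 (Fam.rp (g i' : S.MF) i) := by
      rw [eventually_all]
      intro i'
      exact Fam.mem_hp'.1 ((hm _).1 (h1 i'))
    obtain ⟨i, hi1, hi2⟩ := (h2.and hzP).exists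
    exact hi2 (Or.inl hi1)
  · have h2 := hZ z ⟨j, fun x hx => (hm x).1 (hj1 x hx), fun x hx => (hn x).1 (hj2 x hx)⟩
    have h3 : ∀ᶠ i in (S.U : Filter S.I), Fam.rp (t : S.MF) i ≠ 0 ∧
        (z i).ord (Fam.rp (t : S.MF) i) = 1 := by
      apply gpt_dv hzv
      · exact Fam.mem_hp_nonunits'.1 ((hn t).1 ht)
      · rw [← hD, Ultrafilter.eventually_not, ← Fam.mem_hp_nonunits', ← hn]
        exact hdt'
    have h4 : ∀ᶠ i in (S.U : Filter S.I), ∀ i', Ge (z i) (-N) (Fam.rp (g i' : S.MF) i) := by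
      rw [eventually_all]
      intro i'
      have h5 := (hm _).1 (h1 i')
      have h6 : ((t ^ N * g i' : Fd) : S.MF) =
          S.mf ((Fam.rp (t : S.MF)) ^ N * Fam.rp (g i' : S.MF)) := by
        rw [map_mul, map_pow, Fam.mf_rp, Fam.mf_rp]
        rfl
      rw [h6, Fam.mem_hp] at h5
      filter_upwards [h3, h5] with i h3 h5
      have h7 : (z i).ord (Fam.rp (t : S.MF) i ^ N) = N := by
        rw [(z i).ord_pow, h3.2, mul_one]
      refine Ge.of_mul' (m := N) (pow_ne_zero N h3.1) h7 ?_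
      rw [neg_add_cancel]
      exact h5
    obtain ⟨i, ⟨hi1, hi2⟩, hi3⟩ := ((h4.and h2).and hzP).exists
    exact hi3 (Or.inr ⟨hi2, hi1⟩)
  · have h2 : ∀ᶠ i in (S.U : Filter S.I), ∀ x ∈ G, Ge (z i) 1 (Fam.rp ((x : Fd) : S.MF) i) := by
      rw [eventually_all_finset]
      intro x hx
      exact Fam.mem_hp_nonunits'.1 ((hn x).1 (h1 x hx))
    obtain ⟨i, ⟨hi1, hi2⟩, hi3⟩ := ((h2.and (hGs G hG)).and hzB).exists
    obtain ⟨x, hx, hx'⟩ := hi2 (z i) hi3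
    exact hx' (hi1 x hx)

end Pool.Agent.N131.FM
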