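import Mathlib
import Pool.Agent.N131.FM.Stm

/-!
Constants are small, algebraic elements are small.
-/

set_option autoImplicit false

namespace Pool.Agent.N131.FM

open FF Filter Pool.Agent.W603.LV Pool.Agent.W603.PV

theorem t_MFB : S_MFB := by
  intro k F _ _ _ _ _ _ S
  refine ⟨fun x hx => ?_, fun x hx => ?_⟩
  · obtain ⟨a, rfl⟩ := S.mf_surj x
    rw [Fam.DM_mf, Fam.mf_eq_zero] at hx
    rw [Fam.mem_smf]
    refine Fam.Sm.mono Fam.Sm.zero (hx.mono fun n hn => ?_)
    have h1 : S.D n (a n) = 0 := hn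
    obtain ⟨c, hc⟩ := const_of_der (S.hDn n) h1
    rw [hc, hgt_algebraic (isAlgebraic_algebraMap c)]
  · obtain ⟨z, rfl⟩ := S.mf_surj x
    rw [Fam.mem_smf]
    obtain ⟨p, hp0, hp⟩ := hx
    have h2 : ∀ i, ∃ a : S.Sq, Fam.SmE a ∧ S.mf a = p.coeff i := fun i => (p.coeff i).2
    choose e he1 he2 using h2
    set N := p.natDegree with hN
    have h3 : S.mf (∑ i ∈ Finset.range (N + 1), e i * z ^ i) = 0 := by
      rw [map_sum, ← hp, Polynomial.aeval_eq_sum_range]
      refine Finset.sum_congr rfl fun i _ => ?_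
      rw [map_mul, map_pow, he2, Algebra.smul_def]
      rfl
    rw [Fam.mf_eq_zero] at h3
    have h4 : ∀ᶠ n in (S.U : Filter S.I), e N n ≠ 0 := by
      rw [← Fam.mf_ne_zero, he2]
      intro h6
      exact hp0 (Polynomial.leadingCoeff_eq_zero.1 (Subtype.ext h6))
    have h6 : S.Sm fun n => hgt k (e N n) + ∑ i ∈ Finset.range N, hgt k (e i n) :=
      Fam.Sm.add (he1 N) (Fam.Sm.sum _ fun i _ => he1 i)
    refine Fam.Sm.mono h6 ?_
    filter_upwards [h3, h4] with n h7 h8
    refine hgt_root (fun i => e i n) h8 (z n) ?_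
    rw [← h7, Finset.sum_apply]
    rfl

end Pool.Agent.N131.FM

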