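import Mathlib
import Pool.Agent.N131.FM.Stm

/-!
Poles from integral equations (function fields).
-/

set_option autoImplicit false
set_option linter.unusedSectionVars false

namespace Pool.Agent.N131.FM

open FF Filter Pool.Agent.W603.LV Pool.Agent.W603.PV

/-! ### bounds for integral elements -/

/-- families of functions which behave as (the positive parts of) logarithms of absolute values -/
structure PrxVl {M Λ : Type} [Field M] (l : Filter Λ) (φ : M → Λ → ℝ) (c : ℝ) : Prop where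
  c0 : 0 ≤ c
  nonneg : ∀ x t, 0 ≤ φ x t
  zero : ∀ᶠ t in l, φ 0 t = 0
  add : ∀ x y, ∀ᶠ t in l, φ (x + y) t ≤ max (φ x t) (φ y t) + c
  mul : ∀ x y, ∀ᶠ t in l, φ (x * y) t ≤ φ x t + φ y t
  pow : ∀ x (n : ℕ), ∀ᶠ t in l, φ (x ^ n) t = n * φ x t

section

variable {A M Λ σ : Type} [Field A] [Field M] [Algebra A M] [Fintype σ] {l : Filter Λ}
  {φ : M → Λ → ℝ} {c : ℝ}

/-- the bound -/
def PrxBd (A : Type) {M Λ σ : Type} [Field A] [Field M] [Algebra A M] [Fintype σ] (l : Filter Λ)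
    (φ : M → Λ → ℝ) (e : σ → M) (x : M) : Prop :=
  ∃ (K : ℕ) (F : Finset A), ∀ᶠ t in l,
    φ x t ≤ K * (1 + ∑ a ∈ F, φ (algebraMap A M a) t + ∑ s, φ (e s) t)

theorem prx_sum (V : PrxVl l φ c) (z : ℕ → M) (m : ℕ) : ∀ᶠ t in l, ∀ B : ℝ, 0 ≤ B →
    (∀ i < m, φ (z i) t ≤ B) → φ (∑ i ∈ Finset.range m, z i) t ≤ B + c * m := by
  induction m with
  | zero =>
    filter_upwards [V.zero] with t ht B hB _
    simp only [Finset.range_zero, Finset.sum_empty, ht, Nat.cast_zero, mul_zero, add_zero]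
    exact hB
  | succ m ih =>
    filter_upwards [ih, V.add (∑ i ∈ Finset.range m, z i) (z m)] with t h1 h2 B hB h3
    rw [Finset.sum_range_succ]
    have h4 := h1 B hB fun i hi => h3 i (by omega)
    have h5 := h3 m (by omega)
    have h6 : (0 : ℝ) ≤ c * m := mul_nonneg V.c0 (Nat.cast_nonneg m)
    push_cast
    have h7 : max (φ (∑ i ∈ Finset.range m, z i) t) (φ (z m) t) ≤ B + c * m :=
      max_le h4 (by linarith)
    linarith

theorem prx_mono (V : PrxVl l φ c) (e : σ → M) {F F' : Finset A} (hF : F ⊆ F') {K K' : ℕ}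
    (hK : K ≤ K') (t : Λ) :
    (K : ℝ) * (1 + ∑ a ∈ F, φ (algebraMap A M a) t + ∑ s, φ (e s) t) ≤
      (K' : ℝ) * (1 + ∑ a ∈ F', φ (algebraMap A M a) t + ∑ s, φ (e s) t) := by
  have h1 : ∑ a ∈ F, φ (algebraMap A M a) t ≤ ∑ a ∈ F', φ (algebraMap A M a) t :=
    Finset.sum_le_sum_of_subset_of_nonneg hF fun a _ _ => V.nonneg _ _
  have h2 : 0 ≤ ∑ a ∈ F, φ (algebraMap A M a) t := Finset.sum_nonneg fun a _ => V.nonneg _ _
  have h3 : 0 ≤ ∑ s, φ (e s) t := Finset.sum_nonneg fun s _ => V.nonneg _ _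
  have h4 : (K : ℝ) ≤ K' := by exact_mod_cast hK
  have h5 : (0 : ℝ) ≤ K := Nat.cast_nonneg K
  exact mul_le_mul h4 (by linarith) (by linarith) (by linarith)

theorem PrxBd.of_const (V : PrxVl l φ c) (e : σ → M) (a : A) :
    PrxBd A l φ e (algebraMap A M a) := by
  classical
  refine ⟨1, {a}, Eventually.of_forall fun t => ?_⟩
  have h3 : 0 ≤ ∑ s, φ (e s) t := Finset.sum_nonneg fun s _ => V.nonneg _ _
  rw [Finset.sum_singleton]
  push_cast
  linarith

theorem PrxBd.of_gen (V : PrxVl l φ c) (e : σ → M) (s : σ) : PrxBd A l φ e (e s) := by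
  classical
  refine ⟨1, ∅, Eventually.of_forall fun t => ?_⟩
  have h3 : φ (e s) t ≤ ∑ s, φ (e s) t :=
    Finset.single_le_sum (f := fun s => φ (e s) t) (fun s _ => V.nonneg _ _) (Finset.mem_univ s)
  rw [Finset.sum_empty]
  push_cast
  linarith

theorem PrxBd.add (V : PrxVl l φ c) {e : σ → M} {x y : M} (hx : PrxBd A l φ e x)
    (hy : PrxBd A l φ e y) : PrxBd A l φ e (x + y) := by
  classical
  obtain ⟨K, F, h1⟩ := hx
  obtain ⟨K', F', h2⟩ := hy
  obtain ⟨C, hC⟩ := exists_nat_ge c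
  refine ⟨K + K' + C, F ∪ F', ?_⟩
  filter_upwards [h1, h2, V.add x y] with t h3 h4 h5
  have h6 := h3.trans (prx_mono V e (Finset.subset_union_left (s₁ := F) (s₂ := F')) le_rfl t)
  have h7 := h4.trans (prx_mono V e (Finset.subset_union_right (s₁ := F) (s₂ := F')) le_rfl t)
  have h8 : 0 ≤ ∑ a ∈ F ∪ F', φ (algebraMap A M a) t := Finset.sum_nonneg fun a _ => V.nonneg _ _
  have h9 : 0 ≤ ∑ s, φ (e s) t := Finset.sum_nonneg fun s _ => V.nonneg _ _
  have h10 := V.nonneg x t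
  have h11 := V.nonneg y t
  have h12 : max (φ x t) (φ y t) ≤ φ x t + φ y t := max_le (by linarith) (by linarith)
  have h13 : (C : ℝ) ≤ C * (1 + ∑ a ∈ F ∪ F', φ (algebraMap A M a) t + ∑ s, φ (e s) t) := by
    have h14 : (0 : ℝ) ≤ C := Nat.cast_nonneg C
    nlinarith
  push_cast
  linarith

theorem PrxBd.mul (V : PrxVl l φ c) {e : σ → M} {x y : M} (hx : PrxBd A l φ e x)
    (hy : PrxBd A l φ e y) : PrxBd A l φ e (x * y) := by
  classical
  obtain ⟨K, F, h1⟩ := hx
  obtain ⟨K', F', h2⟩ := hy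
  refine ⟨K + K', F ∪ F', ?_⟩
  filter_upwards [h1, h2, V.mul x y] with t h3 h4 h5
  have h6 := h3.trans (prx_mono V e (Finset.subset_union_left (s₁ := F) (s₂ := F')) le_rfl t)
  have h7 := h4.trans (prx_mono V e (Finset.subset_union_right (s₁ := F) (s₂ := F')) le_rfl t)
  push_cast
  linarith

theorem PrxBd.aeval (V : PrxVl l φ c) (e : σ → M) (P : MvPolynomial σ A) :
    PrxBd A l φ e (MvPolynomial.aeval e P) := by
  induction P using MvPolynomial.induction_on with
  | C a =>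
    rw [MvPolynomial.aeval_C]
    exact PrxBd.of_const V e a
  | add p q hp hq =>
    rw [map_add]
    exact hp.add V hq
  | mul_X p s hp =>
    rw [map_mul, MvPolynomial.aeval_X]
    exact hp.mul V (PrxBd.of_gen V e s)

theorem PrxBd.finsum (V : PrxVl l φ c) {e : σ → M} (z : ℕ → M) (m : ℕ)
    (hz : ∀ i, PrxBd A l φ e (z i)) : ∃ (K : ℕ) (F : Finset A), ∀ᶠ t in l,
    ∑ i ∈ Finset.range m, φ (z i) t ≤
      K * (1 + ∑ a ∈ F, φ (algebraMap A M a) t + ∑ s, φ (e s) t) := by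
  classical
  induction m with
  | zero =>
    refine ⟨0, ∅, Eventually.of_forall fun t => ?_⟩
    simp
  | succ m ih =>
    obtain ⟨K, F, h1⟩ := ih
    obtain ⟨K', F', h2⟩ := hz m
    refine ⟨K + K', F ∪ F', ?_⟩
    filter_upwards [h1, h2] with t h3 h4
    rw [Finset.sum_range_succ]
    have h6 := h3.trans (prx_mono V e (Finset.subset_union_left (s₁ := F) (s₂ := F')) le_rfl t)
    have h7 := h4.trans (prx_mono V e (Finset.subset_union_right (s₁ := F) (s₂ := F')) le_rfl t)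
    push_cast
    linarith

/-- integral elements -/
theorem PrxBd.integral (V : PrxVl l φ c) (e : σ → M) {x : M}
    {p : Polynomial (MvPolynomial σ A)} (hp : p.Monic)
    (hx : p.eval₂ (MvPolynomial.aeval e).toRingHom x = 0) : PrxBd A l φ e x := by
  classical
  set n := p.natDegree with hn
  set q : ℕ → M := fun i => MvPolynomial.aeval e (p.coeff i) with hq
  have hn0 : n ≠ 0 := by
    intro h0
    have h1 : p = 1 := Polynomial.eq_one_of_monic_natDegree_zero hp (hn ▸ h0)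
    rw [h1, Polynomial.eval₂_one] at hx
    exact one_ne_zero hx
  have hrel : x ^ n = ∑ i ∈ Finset.range n, ((-1) * q i) * x ^ i := by
    rw [Polynomial.eval₂_eq_sum_range, Finset.sum_range_succ, ← hn] at hx
    have h1 : (MvPolynomial.aeval e).toRingHom (p.coeff n) = (1 : M) := by
      rw [hn, hp.coeff_natDegree, map_one]
    rw [h1, one_mul] at hx
    have h2 : ∑ i ∈ Finset.range n, ((-1) * q i) * x ^ i =
        -∑ i ∈ Finset.range n, (MvPolynomial.aeval e).toRingHom (p.coeff i) * x ^ i := by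
      rw [← Finset.sum_neg_distrib]
      refine Finset.sum_congr rfl fun i _ => ?_
      simp only [hq, AlgHom.toRingHom_eq_coe, RingHom.coe_coe]
      ring
    rw [h2]
    linear_combination hx
  have hone : PrxBd A l φ e (-1 : M) := by
    have := PrxBd.of_const (A := A) V e (-1)
    rwa [map_neg, map_one] at this
  obtain ⟨K, F, h1⟩ := PrxBd.finsum V (fun i => (-1) * q i) n
    fun i => hone.mul V (PrxBd.aeval V e (p.coeff i))
  obtain ⟨C, hC⟩ := exists_nat_ge (c * n)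
  have hev : ∀ᶠ t in l, ∀ i ∈ Finset.range n, φ (((-1) * q i) * x ^ i) t ≤
      φ ((-1) * q i) t + i * φ x t := by
    rw [eventually_all_finset]
    intro i _
    filter_upwards [V.mul ((-1) * q i) (x ^ i), V.pow x i] with t h2 h3
    rw [h3] at h2
    exact h2
  refine ⟨K + C, F, ?_⟩
  filter_upwards [h1, hev, V.pow x n, prx_sum V (fun i => ((-1) * q i) * x ^ i) n]
    with t h2 h3 h4 h5
  have hx0 := V.nonneg x t
  have h6 := h5 (∑ i ∈ Finset.range n, φ ((-1) * q i) t + (n - 1 : ℝ) * φ x t) (by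
    have h7 : 0 ≤ ∑ i ∈ Finset.range n, φ ((-1) * q i) t :=
      Finset.sum_nonneg fun i _ => V.nonneg _ _
    have h8 : (1 : ℝ) ≤ n := by exact_mod_cast Nat.one_le_iff_ne_zero.2 hn0
    have h9 : 0 ≤ (n - 1 : ℝ) * φ x t := mul_nonneg (by linarith) hx0
    linarith) (fun i hi => by
    refine (h3 i (Finset.mem_range.2 hi)).trans ?_
    have h7 : φ ((-1) * q i) t ≤ ∑ i ∈ Finset.range n, φ ((-1) * q i) t :=
      Finset.single_le_sum (f := fun i => φ ((-1) * q i) t) (fun s _ => V.nonneg _ _)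
        (Finset.mem_range.2 hi)
    have h8 : (i : ℝ) ≤ n - 1 := by
      have : i + 1 ≤ n := hi
      have h9 : ((i + 1 : ℕ) : ℝ) ≤ n := by exact_mod_cast this
      push_cast at h9
      linarith
    have h10 := mul_le_mul_of_nonneg_right h8 hx0
    linarith)
  rw [← hrel, h4] at h6
  have h8 : 0 ≤ ∑ a ∈ F, φ (algebraMap A M a) t := Finset.sum_nonneg fun a _ => V.nonneg _ _
  have h9 : 0 ≤ ∑ s, φ (e s) t := Finset.sum_nonneg fun s _ => V.nonneg _ _
  have h13 : (C : ℝ) ≤ C * (1 + ∑ a ∈ F, φ (algebraMap A M a) t + ∑ s, φ (e s) t) := by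
    have h14 : (0 : ℝ) ≤ C := Nat.cast_nonneg C
    nlinarith
  push_cast
  linarith

end

section

variable {A M Λ : Type} [Field A] [Field M] [Algebra A M] {l : Filter Λ} {φ : M → Λ → ℝ} {c : ℝ}

/-- the bound without the quotients -/
theorem prx_asm (V : PrxVl l φ c) {q J : ℕ} (y : Fin q → M) (v : Fin (J + 1) → M) (g : M)
    (hint : ∀ i0, y i0 ≠ 0 → ∃ p : Polynomial (MvPolynomial (Fin q ⊕ Fin (J + 1)) A), p.Monic ∧
      p.eval₂ (MvPolynomial.aeval (Sum.elim (fun a => y a / y i0) v)).toRingHom g = 0)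
    (hmax : ∀ᶠ t in l, ∃ i0, y i0 ≠ 0 ∧ ∀ a, φ (y a / y i0) t = 0) :
    ∃ (K : ℕ) (F : Finset A), ∀ᶠ t in l,
      φ g t ≤ K * (1 + ∑ a ∈ F, φ (algebraMap A M a) t + ∑ j, φ (v j) t) := by
  classical
  have h0 : ∀ i : {i : Fin q // y i ≠ 0},
      PrxBd A l φ (Sum.elim (fun a => y a / y i.1) v) g := by
    intro i
    obtain ⟨p, hp, hpg⟩ := hint i.1 i.2
    exact PrxBd.integral V _ hp hpg
  choose K F hKF using h0
  refine ⟨∑ i, K i, Finset.univ.biUnion F, ?_⟩
  have h1 : ∀ᶠ t in l, ∀ i, φ g t ≤ K i * (1 + ∑ a ∈ F i, φ (algebraMap A M a) t +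
      ∑ s, φ ((Sum.elim (fun a => y a / y i.1) v : Fin q ⊕ Fin (J + 1) → M) s) t) := by
    rw [eventually_all]
    exact hKF
  filter_upwards [h1, hmax] with t h2 ⟨i0, hi0, h3⟩
  have h4 := h2 ⟨i0, hi0⟩
  rw [Fintype.sum_sum_type] at h4
  simp only [Sum.elim_inl, Sum.elim_inr, h3, Finset.sum_const_zero, zero_add] at h4
  refine h4.trans ?_
  exact prx_mono V v (Finset.subset_biUnion_of_mem F (Finset.mem_univ _))
    (Finset.single_le_sum (f := K) (fun _ _ => Nat.zero_le _) (Finset.mem_univ _)) t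

end

/-! ### poles -/

section

variable {k F : Type} [Field k] [IsAlgClosed k] [CharZero k] [Field F] [Algebra k F] [IsFF k F]
  {S : Fam k F}

theorem prx_rp {x : S.MF} {a : S.Sq} (h : S.mf a = x) :
    ∀ᶠ n in (S.U : Filter S.I), Fam.rp x n = a n := by
  subst h
  exact Fam.rp_mf a

theorem prx_rp_add (x y : S.MF) :
    ∀ᶠ n in (S.U : Filter S.I), Fam.rp (x + y) n = Fam.rp x n + Fam.rp y n :=
  prx_rp (a := Fam.rp x + Fam.rp y) (by rw [map_add, Fam.mf_rp, Fam.mf_rp])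

theorem prx_rp_mul (x y : S.MF) :
    ∀ᶠ n in (S.U : Filter S.I), Fam.rp (x * y) n = Fam.rp x n * Fam.rp y n :=
  prx_rp (a := Fam.rp x * Fam.rp y) (by rw [map_mul, Fam.mf_rp, Fam.mf_rp])

theorem prx_rp_div (x y : S.MF) :
    ∀ᶠ n in (S.U : Filter S.I), Fam.rp (x / y) n = Fam.rp x n / Fam.rp y n :=
  prx_rp (a := fun n => Fam.rp x n / Fam.rp y n) (by rw [← Fam.mf_div, Fam.mf_rp, Fam.mf_rp])

theorem prx_rp_pow (x : S.MF) (m : ℕ) :
    ∀ᶠ n in (S.U : Filter S.I), Fam.rp (x ^ m) n = Fam.rp x n ^ m :=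
  prx_rp (a := Fam.rp x ^ m) (by rw [map_pow, Fam.mf_rp])

theorem prx_rp_zero : ∀ᶠ n in (S.U : Filter S.I), Fam.rp (0 : S.MF) n = 0 :=
  prx_rp (a := 0) (map_zero _)

theorem prx_rp_ne {x : S.MF} (hx : x ≠ 0) : ∀ᶠ n in (S.U : Filter S.I), Fam.rp x n ≠ 0 := by
  rw [← Fam.mf_rp x] at hx
  exact S.mf_ne_zero.1 hx

/-- the pairs of a member and of a place -/
def PrxPt (S : Fam k F) : Type := Σ n : S.I, Place k (S.L n)

/-- at almost all members, at all places -/
noncomputable def prxF (S : Fam k F) : Filter (PrxPt S) :=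
  (S.U : Filter S.I).bind fun n => (⊤ : Filter (Place k (S.L n))).map (Sigma.mk n)

theorem ev_prxF {Q : PrxPt S → Prop} :
    (∀ᶠ p in prxF S, Q p) ↔ ∀ᶠ n in (S.U : Filter S.I), ∀ P, Q ⟨n, P⟩ := by
  refine Filter.eventually_bind.trans
    (Filter.eventually_congr (Eventually.of_forall fun n => ?_))
  exact Filter.eventually_map.trans Filter.eventually_top

theorem prx_ev {Q : S.I → Prop} (h : ∀ᶠ n in (S.U : Filter S.I), Q n) :
    ∀ᶠ p in prxF S, Q p.1 := by
  rw [ev_prxF]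
  exact h.mono fun n hn _ => hn

/-- the order of the pole of an element -/
def prxo {L : Type} [Field L] [Algebra k L] (P : Place k L) (f : L) : ℤ := max 0 (-P.ord f)

theorem prx_po (x : S.MF) (n : S.I) (P : Place k (S.L n)) :
    Fam.po x n P = prxo P (Fam.rp x n) := rfl

theorem prxo_nonneg {L : Type} [Field L] [Algebra k L] (P : Place k L) (f : L) : 0 ≤ prxo P f :=
  le_max_left _ _

theorem prxo_zero {L : Type} [Field L] [Algebra k L] (P : Place k L) : prxo P 0 = 0 := by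
  unfold prxo
  rw [P.ord_zero, neg_zero, max_self]

theorem prxo_le {L : Type} [Field L] [Algebra k L] {P : Place k L} {f : L} {m : ℤ} (hm : 0 ≤ m)
    (h : Ge P (-m) f) : prxo P f ≤ m := by
  rcases h with h | h
  · rw [h, prxo_zero]
    exact hm
  · exact max_le hm (by omega)

theorem prxo_ge {L : Type} [Field L] [Algebra k L] {P : Place k L} {f : L} {m : ℤ}
    (h : prxo P f ≤ m) : Ge P (-m) f := by
  right
  have h1 : -P.ord f ≤ m := (le_max_right _ _).trans h
  omega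

theorem prx_V : PrxVl (prxF S) (fun (x : S.MF) (p : PrxPt S) => (Fam.po x p.1 p.2 : ℝ)) 0 where
  c0 := le_rfl
  nonneg := fun x p => by
    show (0 : ℝ) ≤ (Fam.po x p.1 p.2 : ℝ)
    exact_mod_cast prxo_nonneg _ _
  zero := by
    filter_upwards [prx_ev (S := S) prx_rp_zero] with p hp
    rw [prx_po, hp, prxo_zero]
    exact Int.cast_zero
  add := fun x y => by
    filter_upwards [prx_ev (prx_rp_add x y)] with p hp
    rw [prx_po, prx_po, prx_po, hp, add_zero]
    have h1 : prxo p.2 (Fam.rp x p.1 + Fam.rp y p.1) ≤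
        max (prxo p.2 (Fam.rp x p.1)) (prxo p.2 (Fam.rp y p.1)) :=
      prxo_le ((prxo_nonneg _ _).trans (le_max_left _ _))
        ((prxo_ge (le_max_left _ _)).add (prxo_ge (le_max_right _ _)))
    exact_mod_cast h1
  mul := fun x y => by
    filter_upwards [prx_ev (prx_rp_mul x y)] with p hp
    rw [prx_po, prx_po, prx_po, hp]
    have h1 : prxo p.2 (Fam.rp x p.1 * Fam.rp y p.1) ≤
        prxo p.2 (Fam.rp x p.1) + prxo p.2 (Fam.rp y p.1) :=
      prxo_le (add_nonneg (prxo_nonneg _ _) (prxo_nonneg _ _)) (by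
        have h2 := (prxo_ge (P := p.2) (f := Fam.rp x p.1) le_rfl).mul
          (prxo_ge (P := p.2) (f := Fam.rp y p.1) le_rfl)
        rwa [← neg_add] at h2)
    exact_mod_cast h1
  pow := fun x n => by
    filter_upwards [prx_ev (prx_rp_pow x n)] with p hp
    rw [prx_po, prx_po, hp]
    have h1 : prxo p.2 (Fam.rp x p.1 ^ n) = n * prxo p.2 (Fam.rp x p.1) := by
      unfold prxo
      rw [p.2.ord_pow]
      generalize p.2.ord (Fam.rp x p.1) = a
      rcases le_total a 0 with h3 | h3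
      · rw [max_eq_right (by omega : (0 : ℤ) ≤ -a), max_eq_right (by
          have : (0 : ℤ) ≤ n := Int.natCast_nonneg n
          nlinarith)]
        ring
      · rw [max_eq_left (by omega : -a ≤ (0 : ℤ)), max_eq_left (by
          have : (0 : ℤ) ≤ n := Int.natCast_nonneg n
          nlinarith), mul_zero]
    rw [h1]
    push_cast
    rfl

theorem prx_max {q : ℕ} (y : Fin q → S.MF) (hy : ∃ i0, y i0 ≠ 0) :
    ∀ᶠ p in prxF S, ∃ i0, y i0 ≠ 0 ∧ ∀ a, (Fam.po (y a / y i0) p.1 p.2 : ℝ) = 0 := by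
  classical
  obtain ⟨i1, hi1⟩ := hy
  have : Nonempty {i : Fin q // y i ≠ 0} := ⟨⟨i1, hi1⟩⟩
  have h1 : ∀ᶠ p in prxF S, ∀ a i, Fam.rp (y a / y i) p.1 = Fam.rp (y a) p.1 / Fam.rp (y i) p.1 := by
    rw [eventually_all]
    intro a
    rw [eventually_all]
    intro i
    exact prx_ev (prx_rp_div _ _)
  have h2 : ∀ᶠ p in prxF S, ∀ a, y a ≠ 0 → Fam.rp (y a) p.1 ≠ 0 := by
    rw [eventually_all]
    intro a
    by_cases ha : y a = 0
    · exact Eventually.of_forall fun p h => absurd ha h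
    · exact (prx_ev (prx_rp_ne ha)).mono fun p hp _ => hp
  have h5 : ∀ᶠ p in prxF S, (Fam.po (0 : S.MF) p.1 p.2 : ℝ) = 0 := prx_V.zero
  filter_upwards [h1, h2, h5] with p h3 h4 h6
  obtain ⟨i0, hi0⟩ := Finite.exists_min
    fun i : {i : Fin q // y i ≠ 0} => p.2.ord (Fam.rp (y i.1) p.1)
  refine ⟨i0.1, i0.2, fun a => ?_⟩
  by_cases ha : y a = 0
  · rw [ha, zero_div]
    exact h6
  · have h7 : prxo p.2 (Fam.rp (y a / y i0.1) p.1) = 0 := by
      have h10 : p.2.ord (Fam.rp (y i0.1) p.1) ≤ p.2.ord (Fam.rp (y a) p.1) := hi0 ⟨a, ha⟩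
      unfold prxo
      rw [h3, p.2.ord_div (h4 a ha) (h4 i0.1 i0.2)]
      exact max_eq_left (by omega)
    rw [prx_po, h7]
    exact Int.cast_zero

end

section

variable {k F : Type} [Field k] [IsAlgClosed k] [CharZero k] [Field F] [Algebra k F] [IsFF k F]
  {S : Fam k F}

/-- the representatives of the logarithmic derivatives -/
theorem prx_ld {b : S.MF} (hb0 : b ≠ 0) (j : ℕ) :
    ∃ a : S.Sq, S.mf a = S.DM^[j] b / b ∧ ∀ᶠ n in (S.U : Filter S.I), ∀ P : Place k (S.L n),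
      Ge P (-((j : ℤ) * (1 + |vo P (S.D n)|))) (a n) := by
  induction j with
  | zero =>
    refine ⟨1, ?_, Eventually.of_forall fun n P => ?_⟩
    · rw [map_one, Function.iterate_zero_apply, div_self hb0]
    · simpa using Ge.one (P := P)
  | succ j ih =>
    obtain ⟨a, he, ha⟩ := ih
    have hl : S.mf (fun n => S.dv (Fam.rp b) n / Fam.rp b n) = S.DM b / b := by
      have e2 := S.mf_div (S.dv (Fam.rp b)) (Fam.rp b)
      rw [← e2, ← Fam.DM_mf, Fam.mf_rp]
    refine ⟨S.dv a + a * fun n => S.dv (Fam.rp b) n / Fam.rp b n, ?_, ?_⟩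
    · rw [map_add, map_mul, ← Fam.DM_mf, he, hl, Function.iterate_succ_apply']
      set x := S.DM^[j] b with hx
      have h1 : S.DM x = (x / b) * S.DM b + b * S.DM (x / b) := by
        have h2 : x = (x / b) * b := (div_mul_cancel₀ x hb0).symm
        nth_rewrite 1 [h2]
        rw [Derivation.leibniz, smul_eq_mul, smul_eq_mul]
      rw [h1, add_div, mul_div_assoc, mul_div_cancel_left₀ _ hb0]
      ring
    · filter_upwards [ha, prx_rp_ne hb0] with n h1 h2 P
      have hs : 1 - vo P (S.D n) ≤ 1 + |vo P (S.D n)| := by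
        have := neg_abs_le (vo P (S.D n))
        omega
      have h3 := FV.ge_der P (S.hDn n) hs (h1 P)
      have h4 := (h1 P).mul (FV.ge_ld P (S.hDn n) hs h2)
      have h5 := (h3.mono (M := -(((j + 1 : ℕ) : ℤ) * (1 + |vo P (S.D n)|))) (by
        push_cast
        linarith)).add (h4.mono (M := -(((j + 1 : ℕ) : ℤ) * (1 + |vo P (S.D n)|))) (by
        push_cast
        linarith))
      exact h5

theorem t_PRX : S_PRX := by
  classical
  intro k F _ _ _ _ _ _ S q J b y g hb0 hy hint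
  have hv : ∀ᶠ p in prxF S, ∀ j : Fin (J + 1), (Fam.po (S.DM^[(j : ℕ)] b / b) p.1 p.2 : ℤ) ≤
      (j : ℕ) * (1 + |vo p.2 (S.D p.1)|) := by
    rw [eventually_all]
    intro j
    obtain ⟨a, he, ha⟩ := prx_ld hb0 (j : ℕ)
    rw [ev_prxF]
    filter_upwards [prx_rp he, ha] with n h1 h2 P
    show prxo P (Fam.rp (S.DM^[(j : ℕ)] b / b) n) ≤ _
    rw [h1]
    exact prxo_le (by positivity) (h2 P)
  obtain ⟨K, G, hK⟩ := prx_asm (A := S.smf) prx_V y
    (fun j : Fin (J + 1) => S.DM^[(j : ℕ)] b / b) g hint (prx_max y hy)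
  let e := G.equivFin
  refine ⟨K * (1 + ∑ j : Fin (J + 1), (j : ℕ)), G.card, fun l => ((e.symm l).1 : S.MF),
    fun l => (e.symm l).1.2, ?_⟩
  have h1 : ∀ᶠ p in prxF S, -(((K * (1 + ∑ j : Fin (J + 1), (j : ℕ)) : ℕ) : ℤ) *
      (1 + |vo p.2 (S.D p.1)| + ∑ l, Fam.po ((e.symm l).1 : S.MF) p.1 p.2)) ≤
        p.2.ord (Fam.rp g p.1) := by
    filter_upwards [hK, hv] with p h2 h3
    have h5 : ∑ l, Fam.po ((e.symm l).1 : S.MF) p.1 p.2 =
        ∑ a ∈ G, Fam.po (a : S.MF) p.1 p.2 := by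
      rw [← Finset.sum_coe_sort G (fun a => Fam.po (a : S.MF) p.1 p.2)]
      exact Equiv.sum_comp e.symm (fun a : G => Fam.po ((a : S.smf) : S.MF) p.1 p.2)
    rw [h5]
    set s := ∑ a ∈ G, Fam.po (a : S.MF) p.1 p.2 with hs
    have hs0 : 0 ≤ s := Finset.sum_nonneg fun a _ => prxo_nonneg _ _
    have h6 : ∑ a ∈ G, (Fam.po (algebraMap S.smf S.MF a) p.1 p.2 : ℝ) = (s : ℝ) := by
      rw [hs]
      push_cast
      rfl
    rw [h6] at h2
    have h8 : Fam.po g p.1 p.2 ≤
        K * (1 + s + ∑ j : Fin (J + 1), Fam.po (S.DM^[(j : ℕ)] b / b) p.1 p.2) := by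
      have h9 : (Fam.po g p.1 p.2 : ℝ) ≤ ((K * (1 + s +
          ∑ j : Fin (J + 1), Fam.po (S.DM^[(j : ℕ)] b / b) p.1 p.2) : ℤ) : ℝ) := by
        push_cast
        exact h2
      exact_mod_cast h9
    have h10 : -p.2.ord (Fam.rp g p.1) ≤ Fam.po g p.1 p.2 := le_max_right _ _
    set v := |vo p.2 (S.D p.1)| with hvv
    have hv0 : 0 ≤ v := abs_nonneg _
    have h11 : ∑ j : Fin (J + 1), Fam.po (S.DM^[(j : ℕ)] b / b) p.1 p.2 ≤
        (∑ j : Fin (J + 1), ((j : ℕ) : ℤ)) * (1 + v) := by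
      rw [Finset.sum_mul]
      exact Finset.sum_le_sum fun j _ => h3 j
    have hM0 : (0 : ℤ) ≤ ∑ j : Fin (J + 1), ((j : ℕ) : ℤ) :=
      Finset.sum_nonneg fun j _ => Int.natCast_nonneg _
    set M := ∑ j : Fin (J + 1), ((j : ℕ) : ℤ) with hM
    have h12 : (K : ℤ) * (1 + s + ∑ j : Fin (J + 1), Fam.po (S.DM^[(j : ℕ)] b / b) p.1 p.2) ≤
        K * ((1 + M) * (1 + v + s)) := by
      apply mul_le_mul_of_nonneg_left _ (Int.natCast_nonneg K)
      nlinarith [mul_nonneg hM0 hs0]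
    push_cast
    rw [← hM]
    linarith
  rw [ev_prxF] at h1
  exact h1

end

end Pool.Agent.N131.FM
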