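import Mathlib
import Pool.Agent.N131.FM.Stm

/-!
Small sequences of sets of places.
-/

set_option autoImplicit false

namespace Pool.Agent.N131.FM

open FF Filter Pool.Agent.W603.LV Pool.Agent.W603.PV
open Pool.Agent.N131.FV (avo avo_finset)

section one

variable {k K : Type} [Field k] [IsAlgClosed k] [CharZero k] [Field K] [Algebra k K] [IsFF k K]

/-- the number of poles -/
theorem sms_pole (a : K) : {P : Place k K | P.ord a < 0}.Finite ∧
    ({P : Place k K | P.ord a < 0}.ncard : ℤ) ≤ hgt k a := by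
  classical
  have hf : {P : Place k K | P.ord a ≠ 0}.Finite := finite_support (k := k) a
  have hs : {P : Place k K | P.ord a < 0} ⊆ {P : Place k K | P.ord a ≠ 0} := fun P hP => by
    have hP' : P.ord a < 0 := hP
    exact hP'.ne
  have hf2 : {P : Place k K | P.ord a < 0}.Finite := hf.subset hs
  refine ⟨hf2, ?_⟩
  have h1 := hgt_finset (k := k) a hf.toFinset (fun P hP => hf.mem_toFinset.2 hP)
  rw [h1, Set.ncard_eq_toFinset_card _ hf2, Finset.card_eq_sum_ones]
  push_cast
  have h2 : hf2.toFinset ⊆ hf.toFinset := Set.Finite.toFinset_subset_toFinset.2 hs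
  refine (Finset.sum_le_sum (g := fun P : Place k K => max (-P.ord a) 0)
    fun P hP => ?_).trans (Finset.sum_le_sum_of_subset_of_nonneg h2 fun P _ _ => le_max_right _ _)
  have h3 : P.ord a < 0 := (hf2.mem_toFinset.1 hP)
  have h4 : (1 : ℤ) ≤ -P.ord a := by omega
  exact h4.trans (le_max_left _ _)

/-- the number of zeros and poles -/
theorem sms_supp (a : K) : {P : Place k K | P.ord a ≠ 0}.Finite ∧
    ({P : Place k K | P.ord a ≠ 0}.ncard : ℤ) ≤ 2 * hgt k a := by
  have hf : {P : Place k K | P.ord a ≠ 0}.Finite := finite_support (k := k) a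
  refine ⟨hf, ?_⟩
  have h1 : {P : Place k K | P.ord a ≠ 0} ⊆
      {P : Place k K | P.ord a < 0} ∪ {P : Place k K | P.ord a⁻¹ < 0} := fun P hP => by
    have hP' : P.ord a ≠ 0 := hP
    rcases lt_or_gt_of_ne hP' with h | h
    · exact Or.inl h
    · right
      change P.ord a⁻¹ < 0
      rw [P.ord_inv]
      omega
  have h2 := sms_pole (k := k) a
  have h3 := sms_pole (k := k) a⁻¹
  have h4 := Set.ncard_le_ncard h1 (h2.1.union h3.1)
  have h5 := Set.ncard_union_le {P : Place k K | P.ord a < 0} {P : Place k K | P.ord a⁻¹ < 0}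
  have h6 := h2.2
  have h7 := h3.2
  rw [hgt_inv] at h7
  have h8 : ({P : Place k K | P.ord a ≠ 0}.ncard : ℤ) ≤
      ({P : Place k K | P.ord a < 0}.ncard : ℤ) + ({P : Place k K | P.ord a⁻¹ < 0}.ncard : ℤ) := by
    exact_mod_cast h4.trans h5
  linarith

/-- the number of bad places of a derivation -/
theorem sms_vo {D : Derivation k K K} (hD : D ≠ 0) : {P : Place k K | vo P D ≠ 0}.Finite ∧
    ({P : Place k K | vo P D ≠ 0}.ncard : ℤ) ≤ avo D := by
  classical
  have hf : {P : Place k K | vo P D ≠ 0}.Finite := vo_finite hD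
  refine ⟨hf, ?_⟩
  have h1 := avo_finset (D := D) hf.toFinset (fun P hP => hf.mem_toFinset.2 hP)
  rw [h1, Set.ncard_eq_toFinset_card _ hf, Finset.card_eq_sum_ones]
  push_cast
  refine Finset.sum_le_sum fun P hP => ?_
  have h3 : vo P D ≠ 0 := hf.mem_toFinset.1 hP
  exact Int.one_le_abs h3

end one

section fam

variable {k F : Type} [Field k] [IsAlgClosed k] [CharZero k] [Field F] [Algebra k F] [IsFF k F]
  {S : Fam k F}

theorem sms_mono {B B' : ∀ n, Set (Place k (S.L n))}
    (h : ∀ᶠ n in (S.U : Filter S.I), B n ⊆ B' n) (hB : Fam.SmS S B') : Fam.SmS S B where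
  fin := by
    filter_upwards [h, hB.fin] with n h1 h2
    exact h2.subset h1
  small := Fam.Sm.mono hB.small (by
    filter_upwards [h, hB.fin] with n h1 h2
    exact_mod_cast Set.ncard_le_ncard h1 h2)

end fam

theorem t_SMS : S_SMS := by
  intro k F _ _ _ _ _ _ S
  refine ⟨fun B B' h hB => sms_mono h hB, fun B B' hB hB' => ?_, ?_, fun x hx => ?_,
    fun x hx => ?_, ?_⟩
  · refine ⟨?_, ?_⟩
    · filter_upwards [hB.fin, hB'.fin] with n h1 h2
      exact h1.union h2
    · refine Fam.Sm.mono (Fam.Sm.add hB.small hB'.small) (Eventually.of_forall fun n => ?_)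
      exact_mod_cast Set.ncard_union_le (B n) (B' n)
  · refine ⟨Eventually.of_forall fun n => Set.finite_empty, ?_⟩
    refine Fam.Sm.mono Fam.Sm.zero (Eventually.of_forall fun n => ?_)
    simp
  · have hs : Fam.SmE (S := S) (Fam.rp x) := Fam.mem_smf.1 (by rw [Fam.mf_rp]; exact hx)
    refine sms_mono (B' := fun n => {P | P.ord (Fam.rp x n) < 0})
      (Eventually.of_forall fun n P hP => ?_) ⟨Eventually.of_forall fun n => (sms_pole _).1,
        Fam.Sm.mono hs (Eventually.of_forall fun n => (sms_pole _).2)⟩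
    have hP' : ¬ Ge P 0 (Fam.rp x n) := hP
    change P.ord (Fam.rp x n) < 0
    by_contra h
    exact hP' (Or.inr (not_lt.1 h))
  · have hs : Fam.SmE (S := S) (Fam.rp x) := Fam.mem_smf.1 (by rw [Fam.mf_rp]; exact hx)
    exact ⟨Eventually.of_forall fun n => (sms_supp _).1,
      Fam.Sm.mono (Fam.Sm.mul hs 2) (Eventually.of_forall fun n => (sms_supp _).2)⟩
  · exact ⟨Eventually.of_forall fun n => (sms_vo (S.hDn n)).1,
      Fam.Sm.mono (Fam.Sm.mul (a := fun n => avo (S.D n)) S.avo_sm 1)
        (Eventually.of_forall fun n => by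
          have := (sms_vo (S.hDn n)).2
          push_cast
          linarith)⟩

end Pool.Agent.N131.FM

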