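import Mathlib
import Pool.Agent.N131.FM.Stm

/-!
Few common zeros of the members of a prime ideal of codimension two (helper581, after helper401).
-/

set_option autoImplicit false
set_option linter.unusedSectionVars false

namespace Pool.Agent.N131.FM

open FF Filter MvPolynomial Pool.Agent.W603.LV Pool.Agent.W603.PV
open Pool.Agent.N131.MV (PV gen1 W1 R0)

section ff

variable {k L : Type} [Field k] [Field L] [Algebra k L]

theorem zg_ge {ι σ : Type} [Fintype ι] (P : Place k L) (S : Finset σ) (c : σ → L) (w : ι → L)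
    (e : σ → ι → ℕ) (l : ℕ) (he : ∀ α ∈ S, ∀ p, e α p ≤ l) (m : ι → ℕ)
    (hm : ∀ a, Ge P (-(m a : ℤ)) (w a)) (M : ℕ) (hM : ∀ α ∈ S, Ge P (-(M : ℤ)) (c α)) :
    Ge P (-((l * ∑ a, m a + M : ℕ) : ℤ)) (∑ α ∈ S, c α * ∏ p, w p ^ e α p) := by
  refine Ge.sum _ _ fun α hα => ?_
  have h1 := (hM α hα).mul
    (Ge.prod Finset.univ (fun a => w a ^ e α a) (fun a => e α a * (-(m a : ℤ)))
      (fun a _ => (hm a).pow (e α a)))
  refine h1.mono ?_
  have h3 : ∑ a, e α a * m a ≤ l * ∑ a, m a := by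
    rw [Finset.mul_sum]
    exact Finset.sum_le_sum fun a _ => Nat.mul_le_mul_right _ (he α hα a)
  have h4 : (-(M : ℤ)) + ∑ a, (e α a : ℤ) * (-(m a : ℤ)) = -((∑ a, e α a * m a + M : ℕ) : ℤ) := by
    push_cast
    rw [neg_add, ← Finset.sum_neg_distrib, add_comm]
    congr 1
    exact Finset.sum_congr rfl fun a _ => by ring
  rw [h4]
  have h5 : ((∑ a, e α a * m a + M : ℕ) : ℤ) ≤ ((l * ∑ a, m a + M : ℕ) : ℤ) := by
    exact_mod_cast Nat.add_le_add_right h3 M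
  omega

variable [CharZero k] [IsFF k L]

theorem zg_hgt {ι σ : Type} [Fintype ι] (S : Finset σ) (c : σ → L) (w : ι → L)
    (e : σ → ι → ℕ) (l : ℕ) (he : ∀ α ∈ S, ∀ p, e α p ≤ l) :
    hgt k (∑ α ∈ S, c α * ∏ p, w p ^ e α p) ≤ l * ∑ p, hgt k (w p) + ∑ α ∈ S, hgt k (c α) := by
  classical
  obtain ⟨T1, hT1⟩ := exists_supp (k := k) (Finset.univ : Finset (Option ι))
    (fun a => Option.elim a (∑ α ∈ S, c α * ∏ p, w p ^ e α p) w)
  obtain ⟨T2, hT2⟩ := exists_supp (k := k) S c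
  set T := T1 ∪ T2 with hT
  have h0 : ∀ P : Place k L, P.ord (∑ α ∈ S, c α * ∏ p, w p ^ e α p) ≠ 0 → P ∈ T := fun P hP =>
    Finset.mem_union_left _ (hT1 none (Finset.mem_univ _) P hP)
  have h1 : ∀ a, ∀ P : Place k L, P.ord (w a) ≠ 0 → P ∈ T := fun a P hP =>
    Finset.mem_union_left _ (hT1 (some a) (Finset.mem_univ _) P hP)
  have h1' : ∀ α ∈ S, ∀ P : Place k L, P.ord (c α) ≠ 0 → P ∈ T :=
    fun α hα P hP => Finset.mem_union_right _ (hT2 α hα P hP)
  rw [hgt_finset _ T h0, Finset.sum_congr rfl fun a _ => hgt_finset (w a) T (h1 a),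
    Finset.sum_comm, Finset.mul_sum, Finset.sum_congr rfl fun α hα => hgt_finset _ T (h1' α hα),
    Finset.sum_comm (s := S), ← Finset.sum_add_distrib]
  refine Finset.sum_le_sum fun P _ => ?_
  have h2 := zg_ge P S c w e l he (fun a => (-P.ord (w a)).toNat) (fun a => Or.inr (by omega))
    (∑ α ∈ S, (-P.ord (c α)).toNat) (by
      intro α hα
      right
      have h3 : (-P.ord (c α)).toNat ≤ ∑ α ∈ S, (-P.ord (c α)).toNat :=
        Finset.single_le_sum (f := fun α => (-P.ord (c α)).toNat)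
          (fun _ _ => Nat.zero_le _) hα
      omega)
  have h3 : ∀ a, max (-P.ord (w a)) 0 = ((-P.ord (w a)).toNat : ℤ) := fun a => by omega
  have h3' : ∀ α, max (-P.ord (c α)) 0 = ((-P.ord (c α)).toNat : ℤ) := fun a => by omega
  rw [Finset.sum_congr rfl fun a _ => h3 a, Finset.sum_congr rfl fun a _ => h3' a]
  have h5 : ((l * ∑ a, (-P.ord (w a)).toNat + ∑ α ∈ S, (-P.ord (c α)).toNat : ℕ) : ℤ) =
      l * ∑ a, ((-P.ord (w a)).toNat : ℤ) + ∑ α ∈ S, ((-P.ord (c α)).toNat : ℤ) := by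
    push_cast; rfl
  have h4 : (0 : ℤ) ≤ ((l * ∑ a, (-P.ord (w a)).toNat + ∑ α ∈ S, (-P.ord (c α)).toNat : ℕ) : ℤ) :=
    by positivity
  rw [← h5]
  rcases h2 with h2 | h2
  · rw [h2, P.ord_zero]; simpa using h4
  · apply max_le _ h4
    omega

variable [IsAlgClosed k]

/-- the number of zeros of high order -/
theorem zg_zeros {f : L} {N : ℕ} (hN : 0 < N) (Z : Set (Place k L))
    (h : ∀ P ∈ Z, (N : ℤ) ≤ P.ord f) : Z.Finite ∧ (N : ℤ) * Z.ncard ≤ hgt k f := by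
  classical
  have hfin : Z.Finite := by
    refine (finite_support (k := k) f).subset fun P hP => ?_
    have := h P hP
    change P.ord f ≠ 0
    omega
  refine ⟨hfin, ?_⟩
  obtain ⟨T, hT⟩ := exists_supp (k := k) (Finset.univ : Finset (Fin 1)) ![f⁻¹]
  have hT' : ∀ P : Place k L, P.ord f⁻¹ ≠ 0 → P ∈ T := fun P => hT 0 (Finset.mem_univ _) P
  rw [← hgt_inv f, hgt_finset _ T hT', Set.ncard_eq_toFinset_card _ hfin]
  have hsub : hfin.toFinset ⊆ T := by
    intro P hP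
    apply hT'
    rw [P.ord_inv]
    have := h P (hfin.mem_toFinset.1 hP)
    omega
  calc (N : ℤ) * hfin.toFinset.card = ∑ P ∈ hfin.toFinset, (N : ℤ) := by
        rw [Finset.sum_const, nsmul_eq_mul, mul_comm]
    _ ≤ ∑ P ∈ hfin.toFinset, max (-P.ord f⁻¹) 0 := by
        refine Finset.sum_le_sum fun P hP => ?_
        rw [P.ord_inv]
        have := h P (hfin.mem_toFinset.1 hP)
        omega
    _ ≤ ∑ P ∈ T, max (-P.ord f⁻¹) 0 :=
        Finset.sum_le_sum_of_subset_of_nonneg hsub fun P _ _ => le_max_right _ _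

/-- many derivatives vanish -/
theorem zg_drop (P : Place k L) {D : Derivation k L L} (hD : D ≠ 0) (hv : vo P D = 0) {f : L}
    {N : ℕ} (h1 : Ge P 1 f) (h2 : Ge P N (D f)) : Ge P (N + 1 : ℕ) f := by
  rcases h1 with h1 | h1
  · exact Or.inl h1
  · obtain ⟨h3, h4⟩ := ord_der P hD (f := f) (by omega)
    right
    have h5 := h2.resolve_left h3
    push_cast
    omega

end ff

section

variable {k F : Type} [Field k] [IsAlgClosed k] [CharZero k] [Field F] [Algebra k F]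
  [IsFF k F] {S : Fam k F}

/-- many derivatives are not units -/
theorem zg_iter (z : ∀ n, Place k (S.L n))
    (hz : ∀ᶠ n in (S.U : Filter S.I), vo (z n) (S.D n) = 0) : ∀ (N : ℕ) (x : S.MF), 0 < N →
    (∀ j < N, S.DM^[j] x ∈ (Fam.hp z).nonunits) →
    ∀ᶠ n in (S.U : Filter S.I), Ge (z n) N (Fam.rp x n) := by
  intro N
  induction N with
  | zero =>
    intro x h
    exact absurd h (lt_irrefl _)
  | succ N ih =>
    intro x _ h
    have h1 := Fam.mem_hp_nonunits'.1 (h 0 (Nat.succ_pos N))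
    rw [Function.iterate_zero_apply] at h1
    rcases Nat.eq_zero_or_pos N with hN | hN
    · subst hN
      exact h1.mono fun k hk => by simpa using hk
    · have h2 := ih (S.DM x) hN (fun j hj => by
        have := h (j + 1) (by omega)
        rwa [Function.iterate_succ_apply] at this)
      have h3 : S.DM x = S.mf (S.dv (Fam.rp x)) := by
        rw [← Fam.DM_mf, Fam.mf_rp]
      rw [h3] at h2
      filter_upwards [h1, h2, Fam.rp_mf (S := S) (S.dv (Fam.rp x)), hz] with n h4 h5 h6 h7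
      rw [h6] at h5
      exact zg_drop (z n) (S.hDn n) h7 h4 h5

/-- there is a place -/
theorem zg_ne (n : S.I) : Nonempty (Place k (S.L n)) := by
  by_contra hcon
  rw [not_nonempty_iff] at hcon
  apply S.hDn n
  ext f
  have h1 : hgt k f ≤ 0 := by
    unfold hgt
    rw [finsum_of_isEmpty]
  obtain ⟨c, hc⟩ := const_of_hgt h1
  rw [hc, Derivation.map_algebraMap, Derivation.coe_zero, Pi.zero_apply]

omit [IsAlgClosed k] [CharZero k] [IsFF k F] in
/-- polynomials in the valuation ring -/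
theorem zg_hp {κ I : Type} [Field κ] [Algebra κ S.MF] [Fintype I] (V : ValuationSubring S.MF)
    (w : I → S.MF) (Q : MvPolynomial I κ)
    (hQ : ∀ α ∈ Q.support, algebraMap κ S.MF (Q.coeff α) ∈ V)
    (hw : ∀ p, w p ∈ V) : aeval w Q ∈ V := by
  rw [aeval_def, eval₂_eq']
  refine sum_mem fun α hα => mul_mem (hQ α hα) (prod_mem fun p _ => pow_mem (hw p) _)

omit [IsAlgClosed k] [CharZero k] [IsFF k F] in
theorem zg_nonunits {J : Type} [Fintype J] (V : ValuationSubring S.MF) (a b : J → S.MF)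
    (ha : ∀ i, a i ∈ V) (hb : ∀ i, b i ∈ V.nonunits) : ∑ i, a i * b i ∈ V.nonunits := by
  rw [ValuationSubring.mem_nonunits_iff]
  apply Valuation.map_sum_lt _ one_ne_zero
  intro i _
  rw [map_mul]
  have h1 := (ValuationSubring.valuation_le_one_iff V (a i)).2 (ha i)
  have h2 := (ValuationSubring.mem_nonunits_iff V).1 (hb i)
  exact (mul_le_of_le_one_left' h1).trans_lt h2

/-- finite unions of small sets -/
theorem zg_union (h2 : S_SMS) {J : Type} (s : Finset J) (B : J → ∀ n, Set (Place k (S.L n)))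
    (hB : ∀ i ∈ s, Fam.SmS S (B i)) :
    Fam.SmS S fun n => {z | ∃ i ∈ s, z ∈ B i n} := by
  classical
  obtain ⟨-, e2, e3, -⟩ := h2 k F S
  induction s using Finset.induction_on with
  | empty =>
    have h : (fun n : S.I => {z : Place k (S.L n) | ∃ i ∈ (∅ : Finset J), z ∈ B i n}) =
        fun _ => ∅ := by
      funext n
      ext z
      simp
    rw [h]
    exact e3
  | insert i s hi ih =>
    have h : (fun n : S.I => {z : Place k (S.L n) | ∃ j ∈ insert i s, z ∈ B j n}) =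
        fun n => B i n ∪ {z | ∃ j ∈ s, z ∈ B j n} := by
      funext n
      ext z
      simp
    rw [h]
    exact e2 _ _ (hB i (Finset.mem_insert_self i s))
      (ih fun j hj => hB j (Finset.mem_insert_of_mem hj))

theorem zg_step (h0 : MV.S_GCD) (h2 : S_SMS) (Fd : IntermediateField S.smf S.MF)
    (D : Derivation k Fd Fd) (n : ℕ)
    (U' : Matrix (Fin (n + 1)) (Fin (n + 1)) Fd) (ρ ℓ : Fd)
    (A : Matrix (Fin (n + 1)) (Fin (n + 1)) S.smf) (hD : ∀ y : Fd, ((D y : Fd) : S.MF) = S.DM y)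
    (hPV : PV S.smf D n U' ρ ℓ A) (hF : Algebra.EssFiniteType S.smf Fd)
    (m : ℕ) (hm : Algebra.trdeg S.smf Fd = (m + 1 : ℕ))
    (hgen : Fam.SmS S (fun i => {P | ∃ p, ¬ Ge P 0 (Fam.rp ((gen1 U' ρ p : Fd) : S.MF) i)}))
    (G : Finset (R0 S.smf U' ρ)) (hG : (Ideal.span (G : Set (R0 S.smf U' ρ))).IsPrime)
    (hG' : Algebra.trdeg S.smf (R0 S.smf U' ρ ⧸ Ideal.span (G : Set (R0 S.smf U' ρ))) < m)
    (M : ℕ) (hM : 1 ≤ M) : ∃ (B : ∀ i, Set (Place k (S.L i))) (S1 : S.I → ℤ),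
      Fam.SmS S B ∧ S.Sm S1 ∧ ∀ᶠ i in (S.U : Filter S.I),
        ({P | ∀ x ∈ G, Ge P 1 (Fam.rp ((x : Fd) : S.MF) i)} \ B i).Finite ∧
        (M : ℤ) * ({P | ∀ x ∈ G, Ge P 1 (Fam.rp ((x : Fd) : S.MF) i)} \ B i).ncard ≤
          ∑ p, hgt k (Fam.rp ((gen1 U' ρ p : Fd) : S.MF) i) + S1 i := by
  classical
  obtain ⟨e1, e2, e3, e4, e5, e6⟩ := h2 k F S
  obtain ⟨l, Q, hl, hQ, hQ0, hj⟩ := h0 k S.smf Fd D n U' ρ ℓ A hPV m hm G hG hG' M
  choose! rr hrr using hj
  -- the exceptional set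
  obtain ⟨B1, hB1⟩ : ∃ B1 : ℕ × G → ∀ i, Set (Place k (S.L i)), B1 = fun j i =>
      {P | ∃ α ∈ (rr j.1 j.2).support,
        ¬ Ge P 0 (Fam.rp ((((rr j.1 j.2).coeff α : S.smf) : S.MF)) i)} := ⟨_, rfl⟩
  have hB1s : ∀ i, Fam.SmS S (B1 i) := by
    intro i
    rw [hB1]
    exact zg_union h2 _ (fun α j => {P | ¬ Ge P 0
      (Fam.rp ((((rr i.1 i.2).coeff α : S.smf) : S.MF)) j)})
      fun α _ => e4 _ (SetLike.coe_mem _)
  obtain ⟨B, hB⟩ : ∃ B : ∀ i, Set (Place k (S.L i)), B = fun i =>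
      ({P | ∃ j ∈ Finset.range (M * l) ×ˢ (Finset.univ : Finset G), P ∈ B1 j i} ∪
        {P | ∃ p, ¬ Ge P 0 (Fam.rp ((gen1 U' ρ p : Fd) : S.MF) i)}) ∪
        {P | vo P (S.D i) ≠ 0} := ⟨_, rfl⟩
  have hBs : Fam.SmS S B := by
    rw [hB]
    exact e2 _ _ (e2 _ _ (zg_union h2 _ B1 fun i _ => hB1s i) hgen) e6
  obtain ⟨P', hP'⟩ : ∃ P' : S.MF, P' = ((aeval (gen1 U' ρ) Q : Fd) : S.MF) := ⟨_, rfl⟩
  have hit : ∀ (j : ℕ) (y : Fd), ((D^[j] y : Fd) : S.MF) = S.DM^[j] (y : S.MF) := by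
    intro j
    induction j with
    | zero => intro y; rfl
    | succ j ih =>
      intro y
      rw [Function.iterate_succ_apply', Function.iterate_succ_apply', hD, ih]
  have hval : ∀ Q' : MvPolynomial ((Fin (n + 1) → Fin (n + 1)) × (Fin (n + 1) → Fin (n + 1)))
      S.smf, ((aeval (gen1 U' ρ) Q' : Fd) : S.MF) =
        aeval (fun p => ((gen1 U' ρ p : Fd) : S.MF)) Q' := by
    intro Q'
    exact MvPolynomial.comp_aeval_apply (gen1 U' ρ) Fd.val Q'
  -- the order of the zeros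
  have hord : ∀ᶠ i in (S.U : Filter S.I), ∀ P : Place k (S.L i),
      (∀ x ∈ G, Ge P 1 (Fam.rp ((x : Fd) : S.MF) i)) → P ∉ B i →
      Ge P ((M * l : ℕ) : ℤ) (Fam.rp P' i) := by
    by_contra hcon
    rw [← Ultrafilter.eventually_not] at hcon
    have hcon' : ∀ᶠ i in (S.U : Filter S.I), ∃ P : Place k (S.L i),
        (∀ x ∈ G, Ge P 1 (Fam.rp ((x : Fd) : S.MF) i)) ∧ P ∉ B i ∧
        ¬ Ge P ((M * l : ℕ) : ℤ) (Fam.rp P' i) := by
      refine hcon.mono fun i hi => ?_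
      by_contra h
      apply hi
      intro z h3 h4
      by_contra h5
      exact h ⟨z, h3, h4, h5⟩
    obtain ⟨z, hz⟩ : ∃ z : ∀ i, Place k (S.L i), ∀ᶠ i in (S.U : Filter S.I),
        (∀ x ∈ G, Ge (z i) 1 (Fam.rp ((x : Fd) : S.MF) i)) ∧ z i ∉ B i ∧
        ¬ Ge (z i) ((M * l : ℕ) : ℤ) (Fam.rp P' i) := by
      have hne : ∀ i, Nonempty (Place k (S.L i)) := zg_ne
      refine ⟨fun i => if h : ∃ P : Place k (S.L i),
        (∀ x ∈ G, Ge P 1 (Fam.rp ((x : Fd) : S.MF) i)) ∧ P ∉ B i ∧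
        ¬ Ge P ((M * l : ℕ) : ℤ) (Fam.rp P' i) then h.choose else (hne i).some, ?_⟩
      refine hcon'.mono fun i hi => ?_
      simp only [dif_pos hi]
      exact hi.choose_spec
    have hvo : ∀ᶠ i in (S.U : Filter S.I), vo (z i) (S.D i) = 0 := by
      refine hz.mono fun i hi => ?_
      by_contra hc
      apply hi.2.1
      rw [hB]
      exact Or.inr hc
    have hgV : ∀ p, ((gen1 U' ρ p : Fd) : S.MF) ∈ Fam.hp z := by
      intro p
      refine Fam.mem_hp'.2 (hz.mono fun i hi => ?_)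
      by_contra hc
      apply hi.2.1
      rw [hB]
      exact Or.inl (Or.inr ⟨p, hc⟩)
    have hcV : ∀ j < M * l, ∀ x : G, ∀ α ∈ (rr j x).support,
        algebraMap S.smf S.MF ((rr j x).coeff α) ∈ Fam.hp z := by
      intro j hj x α hα
      refine Fam.mem_hp'.2 (hz.mono fun i hi => ?_)
      by_contra hc
      apply hi.2.1
      rw [hB]
      refine Or.inl (Or.inl ⟨(j, x), ?_, ?_⟩)
      · rw [Finset.mem_product]
        exact ⟨Finset.mem_range.2 hj, Finset.mem_univ x⟩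
      · rw [hB1]
        exact ⟨α, hα, hc⟩
    have hxV : ∀ x : G, (((x : R0 S.smf U' ρ) : Fd) : S.MF) ∈ (Fam.hp z).nonunits := by
      intro x
      exact Fam.mem_hp_nonunits'.2 (hz.mono fun i hi => hi.1 x x.2)
    have hNU : ∀ j < M * l, S.DM^[j] P' ∈ (Fam.hp z).nonunits := by
      intro j hj
      rw [hP', ← hit, hrr j hj]
      have h3 : ((∑ x : G, aeval (gen1 U' ρ) (rr j x) * ((x : R0 S.smf U' ρ) : Fd) : Fd) : S.MF) =
          ∑ x : G, aeval (fun p => ((gen1 U' ρ p : Fd) : S.MF)) (rr j x) *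
            (((x : R0 S.smf U' ρ) : Fd) : S.MF) := by
        have h4 : ∀ y : Fd, (y : S.MF) = Fd.val y := fun y => rfl
        rw [h4, map_sum]
        refine Finset.sum_congr rfl fun x _ => ?_
        rw [map_mul, ← h4, ← h4, hval]
      rw [h3]
      exact zg_nonunits (Fam.hp z) _ _ (fun x => zg_hp (Fam.hp z) _ _ (hcV j hj x) hgV) hxV
    have h5 := zg_iter z hvo (M * l) P' (Nat.mul_pos hM hl) hNU
    obtain ⟨k, h6, h7⟩ := (h5.and hz).exists
    exact h7.2.2 h6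
  -- the height
  have hP0 : P' ≠ 0 := by
    rw [hP']
    intro h
    exact hQ0 (Subtype.ext h)
  have hnz : ∀ᶠ i in (S.U : Filter S.I), Fam.rp P' i ≠ 0 := by
    apply (S.mf_ne_zero (a := Fam.rp P')).1
    rwa [Fam.mf_rp]
  have hexp : P' = S.mf (fun i => ∑ α ∈ Q.support,
      Fam.rp (algebraMap S.smf S.MF (Q.coeff α)) i *
      ∏ p, Fam.rp ((gen1 U' ρ p : Fd) : S.MF) i ^ α p) := by
    have h3 : (fun i => ∑ α ∈ Q.support,
      Fam.rp (algebraMap S.smf S.MF (Q.coeff α)) i *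
      ∏ p, Fam.rp ((gen1 U' ρ p : Fd) : S.MF) i ^ α p) = ∑ α ∈ Q.support,
      Fam.rp (algebraMap S.smf S.MF (Q.coeff α)) *
      ∏ p, Fam.rp ((gen1 U' ρ p : Fd) : S.MF) ^ α p := by
      funext i
      simp only [Finset.sum_apply, Pi.mul_apply, Finset.prod_apply, Pi.pow_apply]
    rw [h3, map_sum, hP', hval, aeval_def, eval₂_eq']
    refine Finset.sum_congr rfl fun α _ => ?_
    rw [map_mul, map_prod, Fam.mf_rp]
    congr 1
    refine Finset.prod_congr rfl fun p _ => ?_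
    rw [map_pow, Fam.mf_rp]
  have hcg : ∀ᶠ i in (S.U : Filter S.I), Fam.rp P' i = ∑ α ∈ Q.support,
      Fam.rp (algebraMap S.smf S.MF (Q.coeff α)) i *
      ∏ p, Fam.rp ((gen1 U' ρ p : Fd) : S.MF) i ^ α p := by
    have h3 := S.mf_eq.1 ((Fam.mf_rp P').trans hexp)
    exact h3
  have hdeg : ∀ α ∈ Q.support, ∀ p, α p ≤ l := by
    intro α hα p
    exact (MvPolynomial.monomial_le_degreeOf p hα).trans
      ((MvPolynomial.degreeOf_le_totalDegree Q p).trans hQ.totalDegree_le)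
  refine ⟨B, fun i => ∑ α ∈ Q.support, hgt k (Fam.rp (algebraMap S.smf S.MF (Q.coeff α)) i),
    hBs, ?_, ?_⟩
  · refine Fam.Sm.sum _ fun α _ => ?_
    have h3 : S.mf (Fam.rp (algebraMap S.smf S.MF (Q.coeff α))) ∈ S.smf := by
      rw [Fam.mf_rp]
      exact SetLike.coe_mem _
    exact Fam.mem_smf.1 h3
  · filter_upwards [hord, hcg, hnz] with i g1 g2 g3
    obtain ⟨f1, f2⟩ := zg_zeros (k := k) (f := Fam.rp P' i) (Nat.mul_pos hM hl)
      ({P | ∀ x ∈ G, Ge P 1 (Fam.rp ((x : Fd) : S.MF) i)} \ B i)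
      (fun P hP => (g1 P hP.1 hP.2).resolve_left g3)
    refine ⟨f1, ?_⟩
    have f3 := zg_hgt (k := k) Q.support (fun α => Fam.rp (algebraMap S.smf S.MF (Q.coeff α)) i)
      (fun p => Fam.rp ((gen1 U' ρ p : Fd) : S.MF) i) (fun α p => α p) l hdeg
    rw [← g2] at f3
    have f4 := f2.trans f3
    have f5 : (0 : ℤ) ≤ ∑ α ∈ Q.support,
        hgt k (Fam.rp (algebraMap S.smf S.MF (Q.coeff α)) i) :=
      Finset.sum_nonneg fun _ _ => hgt_nonneg _
    have hl1 : (1 : ℤ) ≤ l := by exact_mod_cast hl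
    push_cast at f4
    by_contra hcon
    rw [not_le] at hcon
    nlinarith
end

/-- (ZG) common zeros of the members of a prime ideal of codimension at least two are few -/
theorem t_ZG (h0 : MV.S_GCD) (h1 : S_SMS) : S_ZG := by
  intro k F _ _ _ _ _ _ S Fd D n U' ρ ℓ A hD hob hPV hF m hm hgen G hG hG'
  obtain ⟨e1, -⟩ := h1 k F S
  have key := fun M hM => zg_step h0 h1 Fd D n U' ρ ℓ A hD hPV hF m hm hgen G hG hG' M hM
  have hfin : ∀ᶠ i in (S.U : Filter S.I),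
      {P : Place k (S.L i) | ∀ x ∈ G, Ge P 1 (Fam.rp ((x : Fd) : S.MF) i)}.Finite := by
    obtain ⟨B, S1, hB, hS1, hk⟩ := key 1 le_rfl
    filter_upwards [hk, hB.fin] with i h3 h4
    refine (h3.1.union h4).subset fun z hz => ?_
    by_cases h : z ∈ B i
    · exact Or.inr h
    · exact Or.inl ⟨hz, h⟩
  refine ⟨hfin, ?_⟩
  have hW : S.Ob (fun i => ∑ p, hgt k (Fam.rp ((gen1 U' ρ p : Fd) : S.MF) i)) := by
    have h4 : ∀ s : Finset ((Fin (n + 1) → Fin (n + 1)) × (Fin (n + 1) → Fin (n + 1))),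
        S.Ob (fun i => ∑ p ∈ s, hgt k (Fam.rp ((gen1 U' ρ p : Fd) : S.MF) i)) := by
      classical
      intro s
      induction s using Finset.induction_on with
      | empty => simpa using Fam.Sm.ob (S := S) Fam.Sm.zero
      | insert p s hp ih =>
        simp only [Finset.sum_insert hp]
        refine Fam.Ob.add ?_ ih
        have h3 : S.mf (Fam.rp ((gen1 U' ρ p : Fd) : S.MF)) ∈ S.obf := by
          rw [Fam.mf_rp]
          exact hob _
        exact Fam.mem_obf.1 h3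
    exact h4 _
  obtain ⟨C0, hC0⟩ := hW
  intro m'
  obtain ⟨B, S1, hB, hS1, hk⟩ := key (2 * (m' + 1) * (C0 + 1)) (by nlinarith)
  have hZB : Fam.SmS S fun i => {P | ∀ x ∈ G, Ge P 1 (Fam.rp ((x : Fd) : S.MF) i)} ∩ B i :=
    e1 _ _ (Eventually.of_forall fun k z hz => hz.2) hB
  filter_upwards [hC0, hk, hfin, hS1 1, hZB.small (2 * m'), Fam.h_nonneg (S := S)] with
    i a1 a2 a3 a4 a5 a6
  obtain ⟨a7, a8⟩ := a2
  have c3 : ({P : Place k (S.L i) | ∀ x ∈ G, Ge P 1 (Fam.rp ((x : Fd) : S.MF) i)}.ncard : ℤ) =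
      ({P : Place k (S.L i) | ∀ x ∈ G, Ge P 1 (Fam.rp ((x : Fd) : S.MF) i)} ∩ B i).ncard +
      ({P : Place k (S.L i) | ∀ x ∈ G, Ge P 1 (Fam.rp ((x : Fd) : S.MF) i)} \ B i).ncard := by
    rw [← Nat.cast_add, Set.ncard_inter_add_ncard_sdiff_eq_ncard _ _ a3]
  rw [c3]
  generalize (({P : Place k (S.L i) | ∀ x ∈ G, Ge P 1 (Fam.rp ((x : Fd) : S.MF) i)} ∩
    B i).ncard : ℤ) = u at *
  have hv0 : (0 : ℤ) ≤ (({P : Place k (S.L i) | ∀ x ∈ G, Ge P 1 (Fam.rp ((x : Fd) : S.MF) i)} \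
    B i).ncard : ℤ) := Nat.cast_nonneg _
  generalize (({P : Place k (S.L i) | ∀ x ∈ G, Ge P 1 (Fam.rp ((x : Fd) : S.MF) i)} \
    B i).ncard : ℤ) = v at *
  push_cast at a8 a5 a4
  have b1 : (2 * ((m' : ℤ) + 1) * (C0 + 1)) * v ≤ (C0 + 1) * S.h i := by
    nlinarith
  have b2 : 2 * ((m' : ℤ) + 1) * v ≤ S.h i := by
    have hC : (0 : ℤ) < C0 + 1 := by positivity
    have : ((C0 : ℤ) + 1) * (2 * ((m' : ℤ) + 1) * v) ≤ (C0 + 1) * S.h i := by
      linarith
    exact le_of_mul_le_mul_left this hC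
  nlinarith

end Pool.Agent.N131.FM
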