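import Mathlib
import Pool.Agent.N131.FM.Fin2
import Pool.Agent.N131.FM.Sms
import Pool.Agent.N131.FM.Mfb
import Pool.Agent.N131.FM.Frb
import Pool.Agent.N131.FM.Fld
import Pool.Agent.N131.FM.Zg
import Pool.Agent.N131.FM.Prx
import Pool.Agent.N131.FM.Gpt
import Pool.Agent.N131.SV.Key
import Pool.Agent.N131.MV.Int
import Pool.Agent.N131.MV.Ord
import Pool.Agent.N131.MV.Gcd
import Pool.Agent.N131.MV.Bal
import Pool.Agent.N131.MV.Cal

/-!
The master inequality over function fields, for all points.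
-/

set_option autoImplicit false
set_option linter.unusedSectionVars false

namespace Pool.Agent.N131.FM

open FF Filter MvPolynomial Pool.Agent.W603.LV Pool.Agent.W603.PV
open Pool.Agent.N131.SV (S_KEY t_KEY)
open Pool.Agent.W602.GT (IsForm coords val exists_embedding Divisorial IsPluri RegAt LogAt
  LogGeneralType)
open Pool.Agent.N131.FV (mo osc sp osc_card)

variable {k F : Type} [Field k] [IsAlgClosed k] [CharZero k] [Field F] [Algebra k F] [IsFF k F]
  {M : ℕ} {K : Type} [Field K] [Algebra F K] {w : ℕ}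

section cards

variable {L : Type} [Field L] [Algebra k L] [Algebra F L] [IsScalarTower k F L]
  [FiniteDimensional F L] [IsFF k L]

/-- the number of the places over `S`, divided by the degree -/
noncomputable def cS (S : Finset (Place k F)) : ℕ := (∑ v ∈ S, hgt k (unif v)).toNat

theorem over_le (S : Finset (Place k F)) : {P : Place k L | under F P ∈ S}.Finite ∧
    ({P : Place k L | under F P ∈ S}.ncard : ℤ) ≤ cS S * Module.finrank F L := by
  refine ⟨finite_over_set (Finset.finite_toSet S), ?_⟩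
  have h1 := card_over_le (L := L) S
  have h2 : (0 : ℤ) ≤ ∑ v ∈ S, hgt k (unif v) := Finset.sum_nonneg fun v _ => hgt_nonneg _
  unfold cS
  rw [Int.toNat_of_nonneg h2]
  linarith

theorem off_card (S : Finset (Place k F)) {B : Set (Place k L)} (hB : B.Finite) :
    (B.ncard : ℤ) ≤ {P : Place k L | under F P ∉ S ∧ P ∈ B}.ncard +
      cS S * Module.finrank F L := by
  obtain ⟨h1, h2⟩ := over_le (L := L) S
  have h3 : B ⊆ {P : Place k L | under F P ∉ S ∧ P ∈ B} ∪ {P : Place k L | under F P ∈ S} := by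
    intro P hP
    by_cases h4 : under F P ∈ S
    · exact Or.inr h4
    · exact Or.inl ⟨h4, hP⟩
  have h4 := Set.ncard_le_ncard h3 ((hB.subset fun P hP => hP.2).union h1)
  have h5 := Set.ncard_union_le {P : Place k L | under F P ∉ S ∧ P ∈ B}
    {P : Place k L | under F P ∈ S}
  have h6 : (B.ncard : ℤ) ≤ {P : Place k L | under F P ∉ S ∧ P ∈ B}.ncard +
      {P : Place k L | under F P ∈ S}.ncard := by exact_mod_cast h4.trans h5
  linarith

end cards

theorem sp_le {L : Type} [Field L] [Algebra k L] {ν : ℕ} (z : Fin (ν + 1) → L) :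
    Module.finrank k (sp k z) < ν + 2 := by
  have h2 := finrank_range_le_card (R := k) (b := z)
  rw [Set.finrank, Fintype.card_fin] at h2
  change Module.finrank k (Submodule.span k (Set.range z)) < ν + 2
  omega

theorem combine {y : Fin (M + 1) → K} {ν : ℕ} {pr : Fin (ν + 1) → MvPolynomial (Fin (M + 1)) F}
    {G : MvPolynomial (Fin (M + 1)) F} (hG : IsForm G) (hG0 : aeval y G ≠ 0)
    {Pr : ℕ → ∀ (L : Type) [Field L] [Algebra k L] [Algebra F L] [IsScalarTower k F L]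
        [FiniteDimensional F L] [IsFF k L] (_x : Fin (M + 1) → L), Prop}
    (hmono : ∀ C C' : ℕ, C ≤ C' → ∀ (L : Type) [Field L] [Algebra k L] [Algebra F L]
      [IsScalarTower k F L] [FiniteDimensional F L] [IsFF k L] (x : Fin (M + 1) → L),
      Pr C L x → Pr C' L x)
    (h : ∀ n : ℕ, ∃ A : MvPolynomial (Fin (M + 1)) F, IsForm A ∧ aeval y A ≠ 0 ∧ ∃ C : ℕ,
      ∀ (L : Type) [Field L] [Algebra k L] [Algebra F L] [IsScalarTower k F L]
        [FiniteDimensional F L] [IsFF k L] (x : Fin (M + 1) → L), Pt (F := F) y x →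
        aeval x A ≠ 0 → Module.finrank k (sp k fun j => aeval x (pr j)) = n → Pr C L x) :
    ∃ A : MvPolynomial (Fin (M + 1)) F, IsForm A ∧ aeval y A ≠ 0 ∧ ∃ C : ℕ,
      ∀ (L : Type) [Field L] [Algebra k L] [Algebra F L] [IsScalarTower k F L]
        [FiniteDimensional F L] [IsFF k L] (x : Fin (M + 1) → L), Pt (F := F) y x →
        aeval x A ≠ 0 → aeval x G ≠ 0 ∧ Pr C L x := by
  choose A hA hA0 C hC using h
  refine ⟨(∏ n ∈ Finset.range (ν + 2), A n) * G, ?_, ?_, ∑ n ∈ Finset.range (ν + 2), C n, ?_⟩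
  · obtain ⟨a, ha⟩ := isForm_prod (Finset.range (ν + 2)) fun n _ => hA n
    obtain ⟨b, hb⟩ := hG
    exact ⟨a + b, ha.mul hb⟩
  · rw [map_mul, map_prod]
    exact mul_ne_zero (Finset.prod_ne_zero_iff.2 fun n _ => hA0 n) hG0
  · intro L _ _ _ _ _ _ x hx hxA
    rw [map_mul, map_prod] at hxA
    refine ⟨right_ne_zero_of_mul hxA, ?_⟩
    have h1 := Finset.prod_ne_zero_iff.1 (left_ne_zero_of_mul hxA)
    have h2 : Module.finrank k (sp k fun j => aeval x (pr j)) ∈ Finset.range (ν + 2) :=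
      Finset.mem_range.2 (sp_le _)
    refine hmono _ _ ?_ L x (hC _ L x hx (h1 _ h2) rfl)
    exact Finset.single_le_sum (f := C) (fun n _ => Nat.zero_le _) h2

/-- **The master inequality.** -/
theorem fin1 {y : Fin (M + 1) → K} (hy : coords F y = ⊤) (hyne : ∃ l, y l ≠ 0)
    {ν e : ℕ} {pr : Fin (ν + 1) → MvPolynomial (Fin (M + 1)) F}
    (hpr : ∀ i, (pr i).IsHomogeneous e) (hpr0 : ∃ i, aeval y (pr i) ≠ 0)
    (hpralg : Algebra.IsAlgebraic (IntermediateField.adjoin F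
      {z | ∃ i j, aeval y (pr j) ≠ 0 ∧ z = aeval y (pr i) / aeval y (pr j)}) K)
    (hw : 0 < w) (htr : Algebra.trdeg F K = w) {N t : ℕ}
    {ω : Fin (t + 1) → (Fin w → Derivation F K K) → K} (hpl : ∀ i, IsPluri N (ω i))
    (hlog : ∀ P : Place F K, Divisorial w P → ∀ i, LogAt P (ω i)) {r : ℕ}
    {Q : Fin (r + 1) → MvPolynomial (Fin (M + 1)) F} {q : Fin (r + 1) → ℕ}
    (hQ : ∀ l, (Q l).IsHomogeneous (q l)) (hQ0 : ∃ l, aeval y (Q l) ≠ 0)
    (hreg : ∀ P : Place F K, Divisorial w P → ¬ Bd Q q y P → ∀ i, RegAt P (ω i)) {b : ℕ}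
    {B : Fin (t + 1) → MvPolynomial (Fin (M + 1)) F} (hB : ∀ i, (B i).IsHomogeneous b)
    (hBω : ∀ i j D, ω i D * aeval y (B j) = ω j D * aeval y (B i))
    (hB0 : ∃ i, aeval y (B i) ≠ 0) (hω0 : ∃ i D, ω i D ≠ 0) (S : Finset (Place k F)) {ε : ℝ}
    (hε : 0 < ε) :
    ∃ A : MvPolynomial (Fin (M + 1)) F, IsForm A ∧ aeval y A ≠ 0 ∧ ∃ C : ℕ,
      ∀ (L : Type) [Field L] [Algebra k L] [Algebra F L] [IsScalarTower k F L]
        [FiniteDimensional F L] [IsFF k L] (x : Fin (M + 1) → L), Pt (F := F) y x →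
        aeval x A ≠ 0 →
        (ht k (fun i => aeval x (B i)) : ℝ) ≤
          N * {P : Place k L | under F P ∉ S ∧ P ∈ ZD (k := k) Q q x}.ncard + ε * ht k x +
          C * (disc k F L + {P : Place k L | under F P ∉ S ∧
            P ∈ osc k fun j => aeval x (pr j)}.ncard + Module.finrank F L) := by
  obtain ⟨lQ, hlQ⟩ := hQ0
  obtain ⟨j0, hj0⟩ := hpr0
  have hform : IsForm (Q lQ * pr j0) := ⟨_, (hQ lQ).mul (hpr j0)⟩
  obtain ⟨A, hA, hA0, C, hC⟩ := combine (y := y) (pr := pr) (G := Q lQ * pr j0) hform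
    (by rw [map_mul]; exact mul_ne_zero hlQ hj0)
    (Pr := fun C L _ _ _ _ _ _ x =>
      (ht k (fun i => aeval x (B i)) : ℝ) ≤ N * (ZD (k := k) Q q x).ncard + ε * ht k x +
          C * Xt k F (fun j => aeval x (pr j)))
    (fun C C' hCC L _ _ _ _ _ _ x hx => by
      refine hx.trans ?_
      have h1 := (Xt_parts (k := k) (F := F) (L := L) (fun j => aeval x (pr j))).1
      have h2 : (0 : ℝ) ≤ (Xt k F (fun j => aeval x (pr j)) : ℤ) := by
        exact_mod_cast (by omega : (0 : ℤ) ≤ Xt k F (fun j => aeval x (pr j)))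
      have h3 : (C : ℝ) ≤ C' := by exact_mod_cast hCC
      have h4 := mul_le_mul_of_nonneg_right h3 h2
      linarith)
    fun n => fin1n (MV.t_BAL MV.t_INT) (MV.t_CAL MV.t_ORD) t_SMS t_FRB (t_FLD t_MFB)
      (t_ZG MV.t_GCD t_SMS) t_PRX t_GPT t_KEY hy hyne hpr ⟨j0, hj0⟩ hpralg hw htr hpl hlog hQ
      ⟨lQ, hlQ⟩ hreg hB hBω hB0 hω0 hε n
  refine ⟨A, hA, hA0, C * (1 + cS S) + N * cS S, fun L _ _ _ _ _ _ x hx hxA => ?_⟩
  obtain ⟨h1, h2⟩ := hC L x hx hxA
  rw [map_mul] at h1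
  have h3 := off_card (F := F) S (ZD_finite (k := k) (Q := Q) (q := q) hx.ne
    (left_ne_zero_of_mul h1))
  have h4 := off_card (F := F) S (FV.osc_finite (k := k) (x := fun j => aeval x (pr j))
    ⟨j0, right_ne_zero_of_mul h1⟩)
  have h5 : (0 : ℤ) ≤ disc k F L := disc_nn
  have h6 : ((Xt k F (fun j => aeval x (pr j)) : ℤ) : ℝ) = disc k F L +
    (osc k fun j => aeval x (pr j)).ncard + Module.finrank F L := by
    unfold Xt
    push_cast
    ring
  rw [h6] at h2
  set a : ℕ := (ZD (k := k) Q q x).ncard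
  set a' : ℕ := {P : Place k L | under F P ∉ S ∧ P ∈ ZD (k := k) Q q x}.ncard
  set o : ℕ := (osc k fun j => aeval x (pr j)).ncard
  set o' : ℕ := {P : Place k L | under F P ∉ S ∧ P ∈ osc k fun j => aeval x (pr j)}.ncard
  set d : ℤ := disc k F L
  set f : ℕ := Module.finrank F L
  set c : ℕ := cS S
  have h3' : (a : ℝ) ≤ a' + c * f := by exact_mod_cast h3
  have h4' : (o : ℝ) ≤ o' + c * f := by exact_mod_cast h4
  have h5' : (0 : ℝ) ≤ d := by exact_mod_cast h5
  have h7 : (N : ℝ) * a ≤ N * (a' + c * f) := mul_le_mul_of_nonneg_left h3' (Nat.cast_nonneg N)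
  have h8 : (C : ℝ) * (d + o + f) ≤ C * (d + (o' + c * f) + f) :=
    mul_le_mul_of_nonneg_left (by linarith) (Nat.cast_nonneg C)
  have h9 : (0 : ℝ) ≤ (C * c) * (d + o') := by positivity
  have h10 : (0 : ℝ) ≤ (N * c) * (d + o') := by positivity
  push_cast
  refine h2.trans ?_
  nlinarith

/-- **Varieties of logarithmic general type.** -/
theorem fin2 {y : Fin (M + 1) → K} (hy : coords F y = ⊤) (hyne : ∃ l, y l ≠ 0)
    {ν e : ℕ} {pr : Fin (ν + 1) → MvPolynomial (Fin (M + 1)) F}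
    (hpr : ∀ i, (pr i).IsHomogeneous e) (hpr0 : ∃ i, aeval y (pr i) ≠ 0)
    (hpralg : Algebra.IsAlgebraic (IntermediateField.adjoin F
      {z | ∃ i j, aeval y (pr j) ≠ 0 ∧ z = aeval y (pr i) / aeval y (pr j)}) K)
    (hw : 0 < w) {r : ℕ}
    {Q : Fin (r + 1) → MvPolynomial (Fin (M + 1)) F} {q : Fin (r + 1) → ℕ}
    (hQ : ∀ l, (Q l).IsHomogeneous (q l)) (hQ0 : ∃ l, aeval y (Q l) ≠ 0)
    (hLG : LogGeneralType F K w (Bd Q q y)) (S : Finset (Place k F)) :
    ∃ A : MvPolynomial (Fin (M + 1)) F, IsForm A ∧ aeval y A ≠ 0 ∧ ∃ C : ℕ,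
      ∀ (L : Type) [Field L] [Algebra k L] [Algebra F L] [IsScalarTower k F L]
        [FiniteDimensional F L] [IsFF k L] (x : Fin (M + 1) → L), Pt (F := F) y x →
        aeval x A ≠ 0 →
        ht k x ≤ C * (disc k F L +
          {P : Place k L | under F P ∉ S ∧ P ∈ ZD (k := k) Q q x}.ncard +
          {P : Place k L | under F P ∉ S ∧ P ∈ osc k fun j => aeval x (pr j)}.ncard +
          Module.finrank F L) := by
  obtain ⟨lQ, hlQ⟩ := hQ0
  obtain ⟨j0, hj0⟩ := hpr0
  have hform : IsForm (Q lQ * pr j0) := ⟨_, (hQ lQ).mul (hpr j0)⟩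
  obtain ⟨A, hA, hA0, C, hC⟩ := combine (y := y) (pr := pr) (G := Q lQ * pr j0) hform
    (by rw [map_mul]; exact mul_ne_zero hlQ hj0)
    (Pr := fun C L _ _ _ _ _ _ x =>
      ht k x ≤ C * ((ZD (k := k) Q q x).ncard + Xt k F (fun j => aeval x (pr j))))
    (fun C C' hCC L _ _ _ _ _ _ x hx => by
      refine hx.trans ?_
      have h1 := (Xt_parts (k := k) (F := F) (L := L) (fun j => aeval x (pr j))).1
      have h3 : (C : ℤ) ≤ C' := by exact_mod_cast hCC
      have h4 : (0 : ℤ) ≤ (ZD (k := k) Q q x).ncard := Int.natCast_nonneg _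
      exact mul_le_mul_of_nonneg_right h3 (by omega))
    fun n => fin2n (MV.t_BAL MV.t_INT) (MV.t_CAL MV.t_ORD) t_SMS t_MFB t_FRB (t_FLD t_MFB)
      (t_ZG MV.t_GCD t_SMS) t_PRX t_GPT t_KEY hy hyne hpr ⟨j0, hj0⟩ hpralg hw hQ
      ⟨lQ, hlQ⟩ hLG n
  refine ⟨A, hA, hA0, C * (1 + 2 * cS S), fun L _ _ _ _ _ _ x hx hxA => ?_⟩
  obtain ⟨h1, h2⟩ := hC L x hx hxA
  rw [map_mul] at h1
  have h3 := off_card (F := F) S (ZD_finite (k := k) (Q := Q) (q := q) hx.ne
    (left_ne_zero_of_mul h1))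
  have h4 := off_card (F := F) S (FV.osc_finite (k := k) (x := fun j => aeval x (pr j))
    ⟨j0, right_ne_zero_of_mul h1⟩)
  have h5 : (0 : ℤ) ≤ disc k F L := disc_nn
  have h6 : Xt k F (fun j => aeval x (pr j)) = disc k F L +
    (osc k fun j => aeval x (pr j)).ncard + Module.finrank F L := rfl
  rw [h6] at h2
  set a : ℕ := (ZD (k := k) Q q x).ncard
  set a' : ℕ := {P : Place k L | under F P ∉ S ∧ P ∈ ZD (k := k) Q q x}.ncard
  set o : ℕ := (osc k fun j => aeval x (pr j)).ncard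
  set o' : ℕ := {P : Place k L | under F P ∉ S ∧ P ∈ osc k fun j => aeval x (pr j)}.ncard
  set d : ℤ := disc k F L
  set f : ℕ := Module.finrank F L
  set c : ℕ := cS S
  have h8 : (C : ℤ) * (a + (d + o + f)) ≤ C * ((a' + c * f) + (d + (o' + c * f) + f)) :=
    mul_le_mul_of_nonneg_left (by linarith) (Int.natCast_nonneg C)
  have h9 : (0 : ℤ) ≤ (C * (2 * c)) * (d + a' + o') := by positivity
  push_cast
  refine (h2.trans h8).trans ?_
  nlinarith

end Pool.Agent.N131.FM
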