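import Mathlib
import Pool.Agent.N131.FM.Hts

/-!
Osculation places of systems with few zeros.
-/

set_option autoImplicit false
set_option linter.unusedSectionVars false

namespace Pool.Agent.N131.FM

open FF MvPolynomial Pool.Agent.W603.LV Pool.Agent.W603.PV
open Pool.Agent.N131.FV (mo mo_le exists_mo ge_mo mo_finite osc sp avo avo_nonneg avo_finset
  ge_der reg_der nonunit_nm nm_zero hgt_le_bad osc_finite)

section one

variable {k L : Type} [Field k] [IsAlgClosed k] [CharZero k] [Field L] [Algebra k L] [IsFF k L]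

/-- bases which consist of members of the system -/
theorem sub_basis {ν : ℕ} {z : Fin (ν + 1) → L} (hz : ∀ j, z j ≠ 0) :
    ∃ (n : ℕ) (s : Fin (n + 1) → Fin (ν + 1)), n ≤ ν ∧ LinearIndependent k (fun l => z (s l)) ∧
      Submodule.span k (Set.range z) = Submodule.span k (Set.range fun l => z (s l)) := by
  classical
  obtain ⟨κ, a, ha, hspan, hli⟩ := exists_linearIndependent' k z
  have hfin : Finite κ := Finite.of_injective a ha
  have : Fintype κ := Fintype.ofFinite κ
  have hcard : Fintype.card κ ≤ ν + 1 := by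
    have := Fintype.card_le_of_injective a ha
    rwa [Fintype.card_fin] at this
  have hpos : Fintype.card κ ≠ 0 := by
    intro h0
    have h1 : IsEmpty κ := Fintype.card_eq_zero_iff.1 h0
    rw [Set.range_eq_empty, Submodule.span_empty] at hspan
    have h2 : z 0 ∈ Submodule.span k (Set.range z) := Submodule.subset_span ⟨0, rfl⟩
    rw [← hspan, Submodule.mem_bot] at h2
    exact hz 0 h2
  obtain ⟨n, hn⟩ := Nat.exists_eq_succ_of_ne_zero hpos
  let e : Fin (n + 1) ≃ κ := (Fintype.equivFinOfCardEq hn).symm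
  refine ⟨n, fun l => a (e l), by omega, hli.comp e e.injective, ?_⟩
  rw [← hspan]
  congr 1
  have h3 : (fun l => z (a (e l))) = (z ∘ a) ∘ e := rfl
  rw [h3, e.surjective.range_comp]

theorem iter_ge (P : Place k L) {D : Derivation k L L} (hD : D ≠ 0) {s : ℤ}
    (hs : 1 - vo P D ≤ s) (i : ℕ) (a : L) : Ge P (P.ord a - i * s) (D^[i] a) := by
  induction i with
  | zero => right; simp
  | succ i ih =>
    rw [Function.iterate_succ_apply']
    refine (ge_der P hD hs ih).mono ?_
    push_cast
    linarith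

theorem iter_reg (P : Place k L) {D : Derivation k L L} (hD : D ≠ 0) (hv : vo P D = 0) (i : ℕ)
    {a : L} (ha : Ge P 0 a) : Ge P 0 (D^[i] a) := by
  induction i with
  | zero => exact ha
  | succ i ih =>
    rw [Function.iterate_succ_apply']
    exact reg_der P hD hv.ge ih

/-- **Osculation places of systems with few zeros.** -/
theorem osc_le {D : Derivation k L L} (hD : D ≠ 0) {ν : ℕ} {z : Fin (ν + 1) → L}
    (hz : ∀ j, z j ≠ 0) : ((osc k z).ncard : ℤ) ≤ (1 + 2 * (ν + 1) ^ 2) *
      ({P : Place k L | ∃ j, P.ord (z j) ≠ mo P z}.ncard + avo D) := by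
  classical
  obtain ⟨n, s, hn, hli, hspan⟩ := sub_basis (k := k) hz
  have hzx : ∃ j, z j ≠ 0 := ⟨0, hz 0⟩
  set B : Set (Place k L) := {P : Place k L | ∃ j, P.ord (z j) ≠ mo P z} with hB
  have hBfin : B.Finite := by
    have h1 : (⋃ j : Fin (ν + 1), {P : Place k L | P.ord (z j) ≠ 0}).Finite :=
      Set.finite_iUnion fun j => finite_support (z j)
    refine (h1.union (mo_finite hzx)).subset ?_
    rintro P ⟨j, hj⟩
    by_contra hcon
    simp only [Set.mem_union, Set.mem_iUnion, Set.mem_ofPred_eq, not_or, not_exists,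
      not_not] at hcon
    exact hj (by rw [hcon.1 j, hcon.2])
  let a : Fin (n + 1) → L := fun l => z (s l) / z (s 0)
  have ha0 : ∀ l, a l ≠ 0 := fun l => div_ne_zero (hz _) (hz _)
  have hli' : LinearIndependent k a := by
    rw [Fintype.linearIndependent_iff] at hli ⊢
    intro c hc i
    apply hli c _ i
    have h1 : ∑ l, c l • z (s l) = z (s 0) * ∑ l, c l • a l := by
      rw [Finset.mul_sum]
      refine Finset.sum_congr rfl fun l _ => ?_
      rw [mul_smul_comm, mul_div_cancel₀ _ (hz _)]
    rw [h1, hc, mul_zero]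
  have hW : wr D a ≠ 0 := wr_ne_zero hD a hli'
  let Mx : Matrix (Fin (n + 1)) (Fin (n + 1)) L := Matrix.of fun i l => D^[(i : ℕ)] (a l) / a l
  have hdet : wr D a = (∏ l, a l) * Mx.det := by
    have h1 : (wm (n := n + 1) D a) = Matrix.of fun i l => a i * Mx.transpose i l := by
      ext i l
      change D^[(l : ℕ)] (a i) = a i * (D^[(l : ℕ)] (a i) / a i)
      rw [mul_div_cancel₀ _ (ha0 i)]
    unfold wr
    rw [h1, Matrix.det_mul_column, Matrix.det_transpose]
  have hΦ : Mx.det ≠ 0 := by
    intro h0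
    rw [h0, mul_zero] at hdet
    exact hW hdet
  -- the height of the determinant
  have hht : hgt k Mx.det ≤ ((n + 1) ^ 2 : ℕ) * (B.ncard + 2 * avo D) := by
    refine hgt_le_bad hD hBfin (fun P s' hs hs0 => ?_) (fun P hP hv => ?_)
    · refine ge_det P Mx _ (fun i _ => -(i * s')) (fun i l => ?_) fun σ => ?_
      · have h1 := iter_ge P hD hs i (a l)
        have h2 : Ge P (-P.ord (a l)) (a l)⁻¹ := Or.inr (by rw [P.ord_inv])
        have h3 := h1.mul h2
        rw [← div_eq_mul_inv] at h3
        exact h3.mono (by linarith)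
      · rw [Finset.sum_neg_distrib, neg_le_neg_iff]
        have h1 : ∑ i : Fin (n + 1), ((σ i : ℕ) : ℤ) * s' ≤ ∑ _i : Fin (n + 1), ((n : ℤ) + 1) * s' := by
          refine Finset.sum_le_sum fun i _ => mul_le_mul_of_nonneg_right ?_ hs0
          have := (σ i).2
          omega
        refine h1.trans (le_of_eq ?_)
        rw [Finset.sum_const, Finset.card_univ, Fintype.card_fin]
        push_cast
        simp only [nsmul_eq_mul]
        push_cast
        ring
    · have hP' : ∀ j, P.ord (z j) = mo P z := by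
        intro j
        by_contra h
        exact hP ⟨j, h⟩
      refine ge_det P Mx 0 (fun _ _ => 0) (fun i l => ?_) fun σ => by simp
      have h1 : P.ord (a l) = 0 := by
        change P.ord (z (s l) / z (s 0)) = 0
        rw [P.ord_div (hz _) (hz _), hP', hP', sub_self]
      have h2 := iter_reg P hD hv i (a := a l) (Or.inr h1.ge)
      have h3 : Ge P 0 (a l)⁻¹ := Or.inr (by rw [P.ord_inv, h1]; norm_num)
      have h4 := h2.mul h3
      rw [← div_eq_mul_inv] at h4
      exact h4
  -- the zeros of the determinant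
  have hzero : {P : Place k L | 1 ≤ P.ord Mx.det}.Finite ∧
      ({P : Place k L | 1 ≤ P.ord Mx.det}.ncard : ℤ) ≤ hgt k Mx.det := by
    have hf : {P : Place k L | 1 ≤ P.ord Mx.det}.Finite :=
      (finite_support (k := k) Mx.det).subset fun P hP => by
        change P.ord Mx.det ≠ 0
        have : 1 ≤ P.ord Mx.det := hP
        omega
    refine ⟨hf, ?_⟩
    obtain ⟨T0, hT0⟩ := exists_supp (k := k) (Finset.univ : Finset (Fin 1)) ![(Mx.det)⁻¹]
    rw [← hgt_inv, hgt_finset (Mx.det)⁻¹ (T0 ∪ hf.toFinset) fun P hP =>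
      Finset.mem_union_left _ (hT0 0 (Finset.mem_univ _) P hP), Set.ncard_eq_toFinset_card _ hf,
      Finset.card_eq_sum_ones]
    push_cast
    refine (Finset.sum_le_sum fun P hP => ?_).trans
      (Finset.sum_le_sum_of_subset_of_nonneg Finset.subset_union_right
        fun P _ _ => le_max_right (-P.ord (Mx.det)⁻¹) 0)
    have h1 : 1 ≤ P.ord Mx.det := (Set.Finite.mem_toFinset hf).1 hP
    rw [P.ord_inv]
    omega
  -- the osculation places
  have hV : {P : Place k L | vo P D ≠ 0}.Finite := vo_finite hD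
  have hVc : ({P : Place k L | vo P D ≠ 0}.ncard : ℤ) ≤ avo D := by
    rw [Set.ncard_eq_toFinset_card _ hV, Finset.card_eq_sum_ones,
      avo_finset (D := D) hV.toFinset fun P hP => (Set.Finite.mem_toFinset hV).2 hP]
    push_cast
    refine Finset.sum_le_sum fun P hP => ?_
    exact Int.one_le_abs ((Set.Finite.mem_toFinset hV).1 hP)
  have hsub : osc k z ⊆ (B ∪ {P : Place k L | vo P D ≠ 0}) ∪
      {P : Place k L | 1 ≤ P.ord Mx.det} := by
    intro P hP
    by_cases h1 : P ∈ B
    · exact Or.inl (Or.inl h1)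
    by_cases h2 : vo P D = 0
    swap
    · exact Or.inl (Or.inr h2)
    right
    have hP' : ∀ j, P.ord (z j) = mo P z := by
      intro j
      by_contra h
      exact h1 ⟨j, h⟩
    have ha1 : ∀ l, P.ord (a l) = 0 := fun l => by
      change P.ord (z (s l) / z (s 0)) = 0
      rw [P.ord_div (hz _) (hz _), hP', hP', sub_self]
    obtain ⟨v, hv, hv0, ho⟩ := hP
    have hfr : Module.finrank k (Submodule.span k (Set.range z)) = n + 1 := by
      rw [hspan, finrank_span_eq_card hli, Fintype.card_fin]
    rw [hfr] at ho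
    rw [hspan] at hv
    obtain ⟨c, hc⟩ := (Submodule.mem_span_range_iff_exists_fun k).1 hv
    have hc0 : c ≠ 0 := by
      rintro rfl
      apply hv0
      rw [← hc]
      simp
    have h3 : Ge P ((n + 1 : ℕ) : ℤ) (∑ l, algebraMap k L (c l) * a l) := by
      have h4 : ∑ l, algebraMap k L (c l) * a l = v / z (s 0) := by
        rw [← hc, Finset.sum_div]
        refine Finset.sum_congr rfl fun l _ => ?_
        rw [Algebra.smul_def, mul_div_assoc]
      rw [h4]
      right
      rw [P.ord_div hv0 (hz _), hP']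
      push_cast at ho ⊢
      linarith
    have h4 := nonunit_nm P hD h2 (κ := 0) Ge.zero (f := a) (fun l => Or.inr (ha1 l).ge) hc0 h3
    rw [nm_zero, hdet] at h4
    have h5 := h4.resolve_left (mul_ne_zero (Finset.prod_ne_zero_iff.2 fun l _ => ha0 l) hΦ)
    have h6 : P.ord (∏ l, a l) = 0 := by
      have h7 : ∀ T : Finset (Fin (n + 1)), P.ord (∏ l ∈ T, a l) = 0 := by
        intro T
        induction T using Finset.induction_on with
        | empty => simp [P.ord_one]
        | insert i T hi ih =>
          rw [Finset.prod_insert hi, P.ord_mul (ha0 i)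
            (Finset.prod_ne_zero_iff.2 fun l _ => ha0 l), ih, ha1, add_zero]
      exact h7 _
    rw [P.ord_mul (Finset.prod_ne_zero_iff.2 fun l _ => ha0 l) hΦ, h6, zero_add] at h5
    exact h5
  have h1 := Set.ncard_le_ncard hsub ((hBfin.union hV).union hzero.1)
  have h2 := Set.ncard_union_le (B ∪ {P : Place k L | vo P D ≠ 0})
    {P : Place k L | 1 ≤ P.ord Mx.det}
  have h3 := Set.ncard_union_le B {P : Place k L | vo P D ≠ 0}
  have h4 : ((osc k z).ncard : ℤ) ≤ B.ncard + {P : Place k L | vo P D ≠ 0}.ncard +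
      {P : Place k L | 1 ≤ P.ord Mx.det}.ncard := by
    exact_mod_cast h1.trans (h2.trans (Nat.add_le_add_right h3 _))
  have h5 := hzero.2
  have h6 : (0 : ℤ) ≤ (B.ncard : ℤ) + 2 * avo D := by
    have := avo_nonneg D
    positivity
  have h7 : (((n + 1) ^ 2 : ℕ) : ℤ) * (B.ncard + 2 * avo D) ≤
      (ν + 1) ^ 2 * (B.ncard + 2 * avo D) := by
    refine mul_le_mul_of_nonneg_right ?_ h6
    exact_mod_cast Nat.pow_le_pow_left (by omega) 2
  have h8 : (0 : ℤ) ≤ (ν + 1) ^ 2 * (B.ncard : ℤ) := by positivity
  have h9 := avo_nonneg D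
  nlinarith

end one

end Pool.Agent.N131.FM
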