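import Mathlib
import Pool.Agent.N131.FM.Fin
import Pool.Agent.N131.FM.Osc

/-!
The master inequality over function fields for points with few zeros.
-/

set_option autoImplicit false
set_option linter.unusedSectionVars false

namespace Pool.Agent.N131.FM

open FF Filter MvPolynomial Pool.Agent.W603.LV Pool.Agent.W603.PV
open Pool.Agent.W602.GT (IsForm coords val exists_embedding Divisorial IsPluri RegAt LogAt
  LogGeneralType)
open Pool.Agent.N131.FV (mo mo_le exists_mo mo_finite osc sp osc_card q_card q_finite cneg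
  ord_aeval_ge sum_cneg_le avo avo_le osc_finite)

variable {k F : Type} [Field k] [IsAlgClosed k] [CharZero k] [Field F] [Algebra k F] [IsFF k F]
  {M : ℕ} {K : Type} [Field K] [Algebra F K] {w : ℕ}

/-- the places at which the value of a form is larger than expected -/
theorem neg_card {L : Type} [Field L] [Algebra k L] [Algebra F L] [IsScalarTower k F L]
    [FiniteDimensional F L] [IsFF k L] {d : ℕ} {Q : MvPolynomial (Fin (M + 1)) F}
    (hQ : Q.IsHomogeneous d) {x : Fin (M + 1) → L} (hx : ∃ j, x j ≠ 0) (hQx : aeval x Q ≠ 0) :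
    {P : Place k L | P.ord (aeval x Q) < d * mo P x}.Finite ∧
    ({P : Place k L | P.ord (aeval x Q) < d * mo P x}.ncard : ℤ) ≤
      Module.finrank F L * ∑ α ∈ Q.support, hgt k (coeff α Q) := by
  classical
  have h2 : {P : Place k L | P.ord (aeval x Q) < d * mo P x}.Finite :=
    (q_finite (k := k) (d := d) hx (aeval x Q)).subset fun P hP => (ne_of_lt hP)
  refine ⟨h2, ?_⟩
  rw [Set.ncard_eq_toFinset_card _ h2, Finset.card_eq_sum_ones]
  push_cast
  refine le_trans (Finset.sum_le_sum fun P hP => ?_) (sum_cneg_le h2.toFinset Q)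
  have h9 := ord_aeval_ge P hQ hQx
  have h10 : P.ord (aeval x Q) < d * mo P x := (Set.Finite.mem_toFinset h2).1 hP
  linarith

theorem ord_prod' {L : Type} [Field L] [Algebra k L] (P : Place k L) {ι : Type} (T : Finset ι)
    {z : ι → L} (hz : ∀ i, z i ≠ 0) : P.ord (∏ i ∈ T, z i) = ∑ i ∈ T, P.ord (z i) := by
  classical
  induction T using Finset.induction_on with
  | empty => simp [P.ord_one]
  | insert i T hi ih =>
    rw [Finset.prod_insert hi, Finset.sum_insert hi, P.ord_mul (hz i)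
      (Finset.prod_ne_zero_iff.2 fun l _ => hz l), ih]

/-- **Osculation places of nearly integral points.** -/
theorem osc_bd (S : Finset (Place k F)) {ν e : ℕ}
    {pr : Fin (ν + 1) → MvPolynomial (Fin (M + 1)) F} (hpr : ∀ i, (pr i).IsHomogeneous e) :
    ∃ C : ℕ, ∀ (L : Type) [Field L] [Algebra k L] [Algebra F L] [IsScalarTower k F L]
      [FiniteDimensional F L] [IsFF k L] (x : Fin (M + 1) → L), (∃ j, x j ≠ 0) →
      (∀ j, aeval x (pr j) ≠ 0) →
      ((osc k fun j => aeval x (pr j)).ncard : ℤ) ≤ C * (disc k F L +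
        {P : Place k L | under F P ∉ S ∧ P ∈ ZD (k := k) (fun _ : Fin 1 => ∏ j, pr j)
          (fun _ => (ν + 1) * e) x}.ncard + Module.finrank F L) := by
  classical
  obtain ⟨C0, hC0⟩ := avo_le (D0_ne (k := k) (F := F))
  set q : MvPolynomial (Fin (M + 1)) F := ∏ j, pr j with hq
  have hqh : q.IsHomogeneous ((ν + 1) * e) := by
    have h1 : (∏ j, pr j).IsHomogeneous (∑ _j : Fin (ν + 1), e) :=
      IsHomogeneous.prod _ _ _ fun i _ => hpr i
    rwa [Finset.sum_const, Finset.card_univ, Fintype.card_fin, smul_eq_mul] at h1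
  set c1 : ℤ := ∑ α ∈ q.support, hgt k (coeff α q) + ∑ v ∈ S, hgt k (unif v) with hc1
  set c2 : ℤ := ∑ j, ∑ α ∈ (pr j).support, hgt k (coeff α (pr j)) with hc2
  have hc1' : 0 ≤ c1 := add_nonneg (Finset.sum_nonneg fun _ _ => hgt_nonneg _)
    (Finset.sum_nonneg fun _ _ => hgt_nonneg _)
  have hc2' : 0 ≤ c2 := Finset.sum_nonneg fun _ _ => Finset.sum_nonneg fun _ _ => hgt_nonneg _
  refine ⟨(1 + 2 * (ν + 1) ^ 2) * (1 + (c1 + c2).toNat + C0), ?_⟩
  intro L _ _ _ _ _ _ x hx hz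
  set z : Fin (ν + 1) → L := fun j => aeval x (pr j) with hzdef
  have hD := hC0 L (DL k F L) fun x => DL_spec x
  have h1 := osc_le (k := k) (z := z) hD.1 hz
  have hqx : aeval x q = ∏ j, z j := by rw [hq, map_prod]
  have hqx0 : aeval x q ≠ 0 := by
    rw [hqx]
    exact Finset.prod_ne_zero_iff.2 fun j _ => hz j
  have h2 := q_card (k := k) hqh hx hqx0 S
  -- the places at which the orders are not equal
  have hsub : {P : Place k L | ∃ j, P.ord (z j) ≠ mo P z} ⊆
      {P : Place k L | P.ord (aeval x q) ≠ ((ν + 1) * e : ℕ) * mo P x} ∪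
      ⋃ j, {P : Place k L | P.ord (z j) < e * mo P x} := by
    intro P hP
    by_contra hcon
    simp only [Set.mem_union, Set.mem_iUnion, Set.mem_ofPred_eq, not_or, not_exists, not_not,
      not_lt] at hcon
    obtain ⟨h3, h4⟩ := hcon
    rw [hqx, ord_prod' P _ hz] at h3
    have h5 : ∀ j, P.ord (z j) = e * mo P x := by
      intro j
      by_contra h6
      have h7 : ∑ _i : Fin (ν + 1), (e : ℤ) * mo P x < ∑ i, P.ord (z i) :=
        Finset.sum_lt_sum (fun i _ => h4 i) ⟨j, Finset.mem_univ j,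
          lt_of_le_of_ne (h4 j) (Ne.symm h6)⟩
      rw [h3, Finset.sum_const, Finset.card_univ, Fintype.card_fin] at h7
      simp only [nsmul_eq_mul] at h7
      push_cast at h7
      linarith
    obtain ⟨j, hj⟩ := hP
    apply hj
    obtain ⟨i, hi, him⟩ := exists_mo P (x := z) ⟨0, hz 0⟩
    rw [← him, h5, h5]
  have hneg := fun j => neg_card (k := k) (hpr j) hx (hz j)
  have hU : (⋃ j, {P : Place k L | P.ord (z j) < e * mo P x}).Finite :=
    Set.finite_iUnion fun j => (hneg j).1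
  have hUc : ((⋃ j, {P : Place k L | P.ord (z j) < e * mo P x}).ncard : ℤ) ≤
      Module.finrank F L * c2 := by
    have h3 : (⋃ j, {P : Place k L | P.ord (z j) < e * mo P x}).ncard ≤
        ∑ j, {P : Place k L | P.ord (z j) < e * mo P x}.ncard := by
      have h4 : (⋃ j, {P : Place k L | P.ord (z j) < e * mo P x}) =
          ⋃ j ∈ (Finset.univ : Finset (Fin (ν + 1))),
            {P : Place k L | P.ord (z j) < e * mo P x} := by simp
      rw [h4]
      have h5 : ∀ T : Finset (Fin (ν + 1)), (⋃ j ∈ T,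
          {P : Place k L | P.ord (z j) < e * mo P x}).ncard ≤
            ∑ j ∈ T, {P : Place k L | P.ord (z j) < e * mo P x}.ncard := by
        intro T
        induction T using Finset.induction_on with
        | empty => simp
        | insert i T hi ih =>
          rw [Finset.set_biUnion_insert, Finset.sum_insert hi]
          exact (Set.ncard_union_le _ _).trans (Nat.add_le_add_left ih _)
      exact h5 _
    have h6 : ((∑ j, {P : Place k L | P.ord (z j) < e * mo P x}.ncard : ℕ) : ℤ) ≤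
        ∑ j, Module.finrank F L * ∑ α ∈ (pr j).support, hgt k (coeff α (pr j)) := by
      push_cast
      exact Finset.sum_le_sum fun j _ => (hneg j).2
    rw [← Finset.mul_sum] at h6
    exact (by exact_mod_cast h3 : ((⋃ j, {P : Place k L | P.ord (z j) < e * mo P x}).ncard : ℤ) ≤
      ((∑ j, {P : Place k L | P.ord (z j) < e * mo P x}.ncard : ℕ) : ℤ)).trans h6
  have hBc : ({P : Place k L | ∃ j, P.ord (z j) ≠ mo P z}.ncard : ℤ) ≤
      {P : Place k L | P.ord (aeval x q) ≠ ((ν + 1) * e : ℕ) * mo P x}.ncard +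
        Module.finrank F L * c2 := by
    have h3 := Set.ncard_le_ncard hsub ((q_finite (k := k) (d := (ν + 1) * e) hx _).union hU)
    have h4 := Set.ncard_union_le {P : Place k L | P.ord (aeval x q) ≠ ((ν + 1) * e : ℕ) * mo P x}
      (⋃ j, {P : Place k L | P.ord (z j) < e * mo P x})
    have h5 : ({P : Place k L | ∃ j, P.ord (z j) ≠ mo P z}.ncard : ℤ) ≤
        {P : Place k L | P.ord (aeval x q) ≠ ((ν + 1) * e : ℕ) * mo P x}.ncard +
        (⋃ j, {P : Place k L | P.ord (z j) < e * mo P x}).ncard := by exact_mod_cast h3.trans h4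
    linarith
  have hset : {P : Place k L | under F P ∉ S ∧ ((ν + 1) * e : ℕ) * mo P x < P.ord (aeval x q)} =
      {P : Place k L | under F P ∉ S ∧ P ∈ ZD (k := k) (fun _ : Fin 1 => q)
        (fun _ => (ν + 1) * e) x} := by
    ext P
    constructor
    · rintro ⟨h3, h4⟩
      exact ⟨h3, fun l => Or.inr h4⟩
    · rintro ⟨h3, h4⟩
      exact ⟨h3, (h4 0).resolve_left hqx0⟩
  rw [hset] at h2
  have hf : (0 : ℤ) ≤ Module.finrank F L := Int.natCast_nonneg _
  have hd : (0 : ℤ) ≤ disc k F L := disc_nn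
  have hT : (((c1 + c2).toNat : ℕ) : ℤ) = c1 + c2 := Int.toNat_of_nonneg (by omega)
  set b : ℕ := {P : Place k L | under F P ∉ S ∧ P ∈ ZD (k := k) (fun _ : Fin 1 => q)
        (fun _ => (ν + 1) * e) x}.ncard
  have hb : (0 : ℤ) ≤ b := Int.natCast_nonneg _
  have h3 : ({P : Place k L | ∃ j, P.ord (z j) ≠ mo P z}.ncard : ℤ) + avo (DL k F L) ≤
      (1 + (c1 + c2) + C0) * (disc k F L + b + Module.finrank F L) := by
    have h4 := hD.2
    have h5 : (0 : ℤ) ≤ (C0 : ℤ) * (disc k F L + b) := by positivity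
    have h6 : (0 : ℤ) ≤ (c1 + c2) * (disc k F L + b) := mul_nonneg (by omega) (by omega)
    nlinarith
  have h4 : (0 : ℤ) ≤ 1 + 2 * ((ν : ℤ) + 1) ^ 2 := by positivity
  refine h1.trans ((mul_le_mul_of_nonneg_left h3 h4).trans (le_of_eq ?_))
  push_cast
  rw [hT]
  ring

/-- **The master inequality, with the minimum of the two error terms.** -/
theorem fin1min {y : Fin (M + 1) → K} (hy : coords F y = ⊤) (hyne : ∃ l, y l ≠ 0)
    {ν e : ℕ} {pr : Fin (ν + 1) → MvPolynomial (Fin (M + 1)) F}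
    (hpr : ∀ i, (pr i).IsHomogeneous e) (hpr0 : ∀ i, aeval y (pr i) ≠ 0)
    (hpralg : Algebra.IsAlgebraic (IntermediateField.adjoin F
      {z | ∃ i j, aeval y (pr j) ≠ 0 ∧ z = aeval y (pr i) / aeval y (pr j)}) K)
    (hw : 0 < w) (htr : Algebra.trdeg F K = w) {N t : ℕ}
    {ω : Fin (t + 1) → (Fin w → Derivation F K K) → K} (hpl : ∀ i, IsPluri N (ω i))
    (hlog : ∀ P : Place F K, Divisorial w P → ∀ i, LogAt P (ω i)) {r : ℕ}
    {Q : Fin (r + 1) → MvPolynomial (Fin (M + 1)) F} {q : Fin (r + 1) → ℕ}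
    (hQ : ∀ l, (Q l).IsHomogeneous (q l)) (hQ0 : ∃ l, aeval y (Q l) ≠ 0)
    (hreg : ∀ P : Place F K, Divisorial w P → ¬ Bd Q q y P → ∀ i, RegAt P (ω i)) {b : ℕ}
    {B : Fin (t + 1) → MvPolynomial (Fin (M + 1)) F} (hB : ∀ i, (B i).IsHomogeneous b)
    (hBω : ∀ i j D, ω i D * aeval y (B j) = ω j D * aeval y (B i))
    (hB0 : ∃ i, aeval y (B i) ≠ 0) (hω0 : ∃ i D, ω i D ≠ 0) (S : Finset (Place k F)) {ε : ℝ}
    (hε : 0 < ε) :
    ∃ A : MvPolynomial (Fin (M + 1)) F, IsForm A ∧ aeval y A ≠ 0 ∧ ∃ C : ℕ,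
      ∀ (L : Type) [Field L] [Algebra k L] [Algebra F L] [IsScalarTower k F L]
        [FiniteDimensional F L] [IsFF k L] (x : Fin (M + 1) → L), Pt (F := F) y x →
        aeval x A ≠ 0 →
        (ht k (fun i => aeval x (B i)) : ℝ) ≤
          N * {P : Place k L | under F P ∉ S ∧ P ∈ ZD (k := k) Q q x}.ncard + ε * ht k x +
          C * (disc k F L + min ({P : Place k L | under F P ∉ S ∧
            P ∈ osc k fun j => aeval x (pr j)}.ncard : ℝ)
            ({P : Place k L | under F P ∉ S ∧ P ∈ ZD (k := k) (fun _ : Fin 1 => ∏ j, pr j)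
          (fun _ => (ν + 1) * e) x}.ncard : ℝ) + Module.finrank F L) := by
  obtain ⟨A, ⟨a, ha⟩, hA0, C, hC⟩ := fin1 hy hyne hpr ⟨0, hpr0 0⟩ hpralg hw htr hpl hlog hQ hQ0
    hreg hB hBω hB0 hω0 S hε
  obtain ⟨c, hc⟩ := osc_bd S hpr
  obtain ⟨a', ha'⟩ := isForm_prod Finset.univ fun i _ => (⟨e, hpr i⟩ : IsForm (pr i))
  refine ⟨A * ∏ i, pr i, ⟨_, ha.mul ha'⟩, ?_, C * (1 + c), fun L _ _ _ _ _ _ x hx hxA => ?_⟩
  · rw [map_mul, map_prod]
    exact mul_ne_zero hA0 (Finset.prod_ne_zero_iff.2 fun i _ => hpr0 i)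
  rw [map_mul, map_prod] at hxA
  have hz : ∀ j, aeval x (pr j) ≠ 0 := fun j =>
    Finset.prod_ne_zero_iff.1 (right_ne_zero_of_mul hxA) j (Finset.mem_univ j)
  have h1 := hC L x hx (left_ne_zero_of_mul hxA)
  have h2 := hc L x hx.ne hz
  have h3 : {P : Place k L | under F P ∉ S ∧ P ∈ osc k fun j => aeval x (pr j)}.ncard ≤
      (osc k fun j => aeval x (pr j)).ncard :=
    Set.ncard_le_ncard (fun P hP => hP.2) (osc_finite ⟨0, hz 0⟩)
  have h5 : (0 : ℤ) ≤ disc k F L := disc_nn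
  set o' : ℕ := {P : Place k L | under F P ∉ S ∧ P ∈ osc k fun j => aeval x (pr j)}.ncard
  set b' : ℕ := {P : Place k L | under F P ∉ S ∧ P ∈ ZD (k := k) (fun _ : Fin 1 => ∏ j, pr j)
          (fun _ => (ν + 1) * e) x}.ncard
  set o : ℕ := (osc k fun j => aeval x (pr j)).ncard
  set d : ℤ := disc k F L
  set f : ℕ := Module.finrank F L
  have h2' : (o : ℝ) ≤ c * (d + b' + f) := by exact_mod_cast h2
  have h3' : (o' : ℝ) ≤ o := by exact_mod_cast h3
  have h5' : (0 : ℝ) ≤ d := by exact_mod_cast h5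
  have h6 : (0 : ℝ) ≤ b' := Nat.cast_nonneg _
  have h7 : (0 : ℝ) ≤ f := Nat.cast_nonneg _
  have h8 : (0 : ℝ) ≤ o' := Nat.cast_nonneg _
  have hC0 : (0 : ℝ) ≤ C := Nat.cast_nonneg _
  have hc0 : (0 : ℝ) ≤ c := Nat.cast_nonneg _
  have key : (C : ℝ) * (d + o' + f) ≤ (C * (1 + c)) * (d + min (o' : ℝ) b' + f) := by
    rcases le_total (o' : ℝ) b' with h9 | h9
    · rw [min_eq_left h9]
      have h10 : (0 : ℝ) ≤ C * c * (d + o' + f) := by positivity
      nlinarith
    · rw [min_eq_right h9]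
      have h10 : (C : ℝ) * (d + o' + f) ≤ C * (d + c * (d + b' + f) + f) :=
        mul_le_mul_of_nonneg_left (by linarith) hC0
      have h11 : (0 : ℝ) ≤ C * b' := by positivity
      nlinarith
  push_cast
  linarith

/-- **Varieties of logarithmic general type, with the minimum of the two error terms.** -/
theorem fin2min {y : Fin (M + 1) → K} (hy : coords F y = ⊤) (hyne : ∃ l, y l ≠ 0)
    {ν e : ℕ} {pr : Fin (ν + 1) → MvPolynomial (Fin (M + 1)) F}
    (hpr : ∀ i, (pr i).IsHomogeneous e) (hpr0 : ∀ i, aeval y (pr i) ≠ 0)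
    (hpralg : Algebra.IsAlgebraic (IntermediateField.adjoin F
      {z | ∃ i j, aeval y (pr j) ≠ 0 ∧ z = aeval y (pr i) / aeval y (pr j)}) K)
    (hw : 0 < w) {r : ℕ}
    {Q : Fin (r + 1) → MvPolynomial (Fin (M + 1)) F} {q : Fin (r + 1) → ℕ}
    (hQ : ∀ l, (Q l).IsHomogeneous (q l)) (hQ0 : ∃ l, aeval y (Q l) ≠ 0)
    (hLG : LogGeneralType F K w (Bd Q q y)) (S : Finset (Place k F)) :
    ∃ A : MvPolynomial (Fin (M + 1)) F, IsForm A ∧ aeval y A ≠ 0 ∧ ∃ C : ℕ,
      ∀ (L : Type) [Field L] [Algebra k L] [Algebra F L] [IsScalarTower k F L]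
        [FiniteDimensional F L] [IsFF k L] (x : Fin (M + 1) → L), Pt (F := F) y x →
        aeval x A ≠ 0 →
        (ht k x : ℝ) ≤ C * (disc k F L +
          {P : Place k L | under F P ∉ S ∧ P ∈ ZD (k := k) Q q x}.ncard +
          min ({P : Place k L | under F P ∉ S ∧ P ∈ osc k fun j => aeval x (pr j)}.ncard : ℝ)
            ({P : Place k L | under F P ∉ S ∧ P ∈ ZD (k := k) (fun _ : Fin 1 => ∏ j, pr j)
          (fun _ => (ν + 1) * e) x}.ncard : ℝ) +
          Module.finrank F L) := by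
  obtain ⟨A, ⟨a, ha⟩, hA0, C, hC⟩ := fin2 hy hyne hpr ⟨0, hpr0 0⟩ hpralg hw hQ hQ0 hLG S
  obtain ⟨c, hc⟩ := osc_bd S hpr
  obtain ⟨a', ha'⟩ := isForm_prod Finset.univ fun i _ => (⟨e, hpr i⟩ : IsForm (pr i))
  refine ⟨A * ∏ i, pr i, ⟨_, ha.mul ha'⟩, ?_, C * (1 + c), fun L _ _ _ _ _ _ x hx hxA => ?_⟩
  · rw [map_mul, map_prod]
    exact mul_ne_zero hA0 (Finset.prod_ne_zero_iff.2 fun i _ => hpr0 i)
  rw [map_mul, map_prod] at hxA
  have hz : ∀ j, aeval x (pr j) ≠ 0 := fun j =>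
    Finset.prod_ne_zero_iff.1 (right_ne_zero_of_mul hxA) j (Finset.mem_univ j)
  have h1 := hC L x hx (left_ne_zero_of_mul hxA)
  have h2 := hc L x hx.ne hz
  have h3 : {P : Place k L | under F P ∉ S ∧ P ∈ osc k fun j => aeval x (pr j)}.ncard ≤
      (osc k fun j => aeval x (pr j)).ncard :=
    Set.ncard_le_ncard (fun P hP => hP.2) (osc_finite ⟨0, hz 0⟩)
  have h5 : (0 : ℤ) ≤ disc k F L := disc_nn
  set a1 : ℕ := {P : Place k L | under F P ∉ S ∧ P ∈ ZD (k := k) Q q x}.ncard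
  set o' : ℕ := {P : Place k L | under F P ∉ S ∧ P ∈ osc k fun j => aeval x (pr j)}.ncard
  set b' : ℕ := {P : Place k L | under F P ∉ S ∧ P ∈ ZD (k := k) (fun _ : Fin 1 => ∏ j, pr j)
          (fun _ => (ν + 1) * e) x}.ncard
  set o : ℕ := (osc k fun j => aeval x (pr j)).ncard
  set d : ℤ := disc k F L
  set f : ℕ := Module.finrank F L
  have h1' : ((ht k x : ℤ) : ℝ) ≤ C * (d + a1 + o' + f) := by exact_mod_cast h1
  have h2' : (o : ℝ) ≤ c * (d + b' + f) := by exact_mod_cast h2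
  have h3' : (o' : ℝ) ≤ o := by exact_mod_cast h3
  have h5' : (0 : ℝ) ≤ d := by exact_mod_cast h5
  have h4 : (0 : ℝ) ≤ a1 := Nat.cast_nonneg _
  have h6 : (0 : ℝ) ≤ b' := Nat.cast_nonneg _
  have h7 : (0 : ℝ) ≤ f := Nat.cast_nonneg _
  have h8 : (0 : ℝ) ≤ o' := Nat.cast_nonneg _
  have hC0 : (0 : ℝ) ≤ C := Nat.cast_nonneg _
  have hc0 : (0 : ℝ) ≤ c := Nat.cast_nonneg _
  refine h1'.trans ?_
  push_cast
  rcases le_total (o' : ℝ) b' with h9 | h9
  · rw [min_eq_left h9]
    have h10 : (0 : ℝ) ≤ C * c * (d + a1 + o' + f) := by positivity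
    nlinarith
  · rw [min_eq_right h9]
    have h10 : (C : ℝ) * (d + a1 + o' + f) ≤ C * (d + a1 + c * (d + b' + f) + f) :=
      mul_le_mul_of_nonneg_left (by linarith) hC0
    have h11 : (0 : ℝ) ≤ C * b' := by positivity
    have h12 : (0 : ℝ) ≤ C * c * a1 := by positivity
    nlinarith

end Pool.Agent.N131.FM
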