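import Mathlib
import Pool.Agent.N131.FM.Fin3

/-!
Multiplicities: tools for C-pairs over function fields.
-/

set_option autoImplicit false
set_option linter.unusedSectionVars false

namespace Pool.Agent.N131.FM

open FF Filter MvPolynomial Pool.Agent.W603.LV Pool.Agent.W603.PV
open Pool.Agent.W602.GT (IsForm coords val Divisorial IsPluri RegAt LogAt)
open Pool.Agent.N131.FV (mo mo_le exists_mo mo_finite osc cneg cneg_nonneg ord_aeval_ge sum_cneg_le
  osc_finite)

variable {k F : Type} [Field k] [IsAlgClosed k] [CharZero k] [Field F] [Algebra k F] [IsFF k F]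
  {M : ℕ}

section pts

variable {L : Type} [Field L] [Algebra k L] [Algebra F L] [IsScalarTower k F L]
    [FiniteDimensional F L] [IsFF k L]

/-- the number of the places at which the value of a form has a large multiplicity -/
theorem mult_card {d m : ℕ} {Q : MvPolynomial (Fin (M + 1)) F} (hQ : Q.IsHomogeneous d)
    {x : Fin (M + 1) → L} (hx : ∃ j, x j ≠ 0) (hQx : aeval x Q ≠ 0) (hm : 0 < m) :
    {P : Place k L | d * mo P x + m ≤ P.ord (aeval x Q)}.Finite ∧
    (m : ℤ) * {P : Place k L | d * mo P x + m ≤ P.ord (aeval x Q)}.ncard ≤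
      d * ht k x + Module.finrank F L * ∑ α ∈ Q.support, hgt k (coeff α Q) := by
  classical
  set Z : Set (Place k L) := {P : Place k L | d * mo P x + m ≤ P.ord (aeval x Q)} with hZ
  obtain ⟨T0, hT0⟩ := exists_supp (k := k) (Finset.univ : Finset (Fin 1)) ![aeval x Q]
  set T : Finset (Place k L) := T0 ∪ (mo_finite hx).toFinset with hT
  have h1 : ∀ P : Place k L, P.ord (aeval x Q) ≠ 0 → P ∈ T := fun P hP =>
    Finset.mem_union_left _ (hT0 0 (Finset.mem_univ _) P hP)
  have h2 : ∀ P : Place k L, mo P x ≠ 0 → P ∈ T := fun P hP =>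
    Finset.mem_union_right _ (by simpa using hP)
  have hsub : Z ⊆ T := by
    intro P hP
    by_contra hcon
    have h3 : P.ord (aeval x Q) = 0 := by
      by_contra h; exact hcon (h1 P h)
    have h4 : mo P x = 0 := by
      by_contra h; exact hcon (h2 P h)
    have h5 : (d : ℤ) * mo P x + m ≤ P.ord (aeval x Q) := hP
    rw [h3, h4] at h5
    have : (0 : ℤ) < m := by exact_mod_cast hm
    linarith
  have hfin : Z.Finite := T.finite_toSet.subset hsub
  refine ⟨hfin, ?_⟩
  have h3 : ∑ P ∈ T, (P.ord (aeval x Q) - d * mo P x + cneg P Q) =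
      d * ht k x + ∑ P ∈ T, cneg P Q := by
    rw [Finset.sum_add_distrib, Finset.sum_sub_distrib, sum_ord_finset (aeval x Q) T h1,
      ht_finset T h2, ← Finset.mul_sum]
    ring
  have h4 : ∑ P ∈ T, (P.ord (aeval x Q) - d * mo P x + cneg P Q) ≥
      ∑ P ∈ hfin.toFinset, (m : ℤ) := by
    refine le_trans (Finset.sum_le_sum (g := fun P =>
      P.ord (aeval x Q) - d * mo P x + cneg P Q) fun P hP => ?_)
      (Finset.sum_le_sum_of_subset_of_nonneg ?_ fun P _ _ => ?_)
    · have h5 : (d : ℤ) * mo P x + m ≤ P.ord (aeval x Q) := (Set.Finite.mem_toFinset hfin).1 hP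
      have h6 := cneg_nonneg P Q
      linarith
    · intro P hP
      exact hsub ((Set.Finite.mem_toFinset hfin).1 hP)
    · have h5 := ord_aeval_ge P hQ hQx
      linarith
  rw [Finset.sum_const, nsmul_eq_mul, ← Set.ncard_eq_toFinset_card _ hfin, h3] at h4
  have h5 := sum_cneg_le (k := k) T Q
  rw [mul_comm]
  linarith

/-- heights of products of powers -/
theorem ht_prod_ge {ι κ ξ : Type} [Finite ι] [Finite κ] [Finite ξ] {u : ι → L} {v : κ → L}
    (hu : ∃ i, u i ≠ 0) (hv : ∃ j, v j ≠ 0) (a : ξ → ι) (b : ξ → κ)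
    (hs : ∀ i j, ∃ c, a c = i ∧ b c = j) (m E : ℕ) :
    (m : ℤ) * ht k u + E * ht k v ≤ ht k (fun c => u (a c) ^ m * v (b c) ^ E) := by
  classical
  have hz : ∃ c, u (a c) ^ m * v (b c) ^ E ≠ 0 := by
    obtain ⟨i, hi⟩ := hu
    obtain ⟨j, hj⟩ := hv
    obtain ⟨c, rfl, rfl⟩ := hs i j
    exact ⟨c, mul_ne_zero (pow_ne_zero _ hi) (pow_ne_zero _ hj)⟩
  set z : ξ → L := fun c => u (a c) ^ m * v (b c) ^ E with hzd
  set T : Finset (Place k L) := ((mo_finite hu).toFinset ∪ (mo_finite hv).toFinset) ∪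
    (mo_finite hz).toFinset with hT
  have h1 : ∀ P : Place k L, mo P u ≠ 0 → P ∈ T := fun P hP =>
    Finset.mem_union_left _ (Finset.mem_union_left _ (by simpa using hP))
  have h2 : ∀ P : Place k L, mo P v ≠ 0 → P ∈ T := fun P hP =>
    Finset.mem_union_left _ (Finset.mem_union_right _ (by simpa using hP))
  have h3 : ∀ P : Place k L, mo P z ≠ 0 → P ∈ T := fun P hP =>
    Finset.mem_union_right _ (by
      rw [Set.Finite.mem_toFinset]
      exact hP)
  rw [ht_finset T h1, ht_finset T h2, ht_finset T h3]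
  have h4 : ∀ P ∈ T, mo P z ≤ m * mo P u + E * mo P v := by
    intro P _
    obtain ⟨i, hi, him⟩ := exists_mo P hu
    obtain ⟨j, hj, hjm⟩ := exists_mo P hv
    obtain ⟨c, rfl, rfl⟩ := hs i j
    have h5 : z c ≠ 0 := mul_ne_zero (pow_ne_zero _ hi) (pow_ne_zero _ hj)
    have h6 := mo_le P h5
    have h7 : P.ord (z c) = m * P.ord (u (a c)) + E * P.ord (v (b c)) := by
      rw [hzd]
      simp only
      rw [P.ord_mul (pow_ne_zero _ hi) (pow_ne_zero _ hj), P.ord_pow, P.ord_pow]
    rw [h7, him, hjm] at h6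
    exact h6
  have h5 := Finset.sum_le_sum h4
  rw [Finset.sum_add_distrib, ← Finset.mul_sum, ← Finset.mul_sum] at h5
  linarith

/-- the union of two boundaries -/
theorem ZD_union {r s : ℕ} {Q : Fin (s + 1) → MvPolynomial (Fin (M + 1)) F} {q : Fin (s + 1) → ℕ}
    {G : Fin r → MvPolynomial (Fin (M + 1)) F} {g : Fin r → ℕ} {x : Fin (M + 1) → L}
    (hG : ∀ l, aeval x (G l) ≠ 0) {P : Place k L}
    (hP : P ∈ ZD (k := k) (fun i => Q i * ∏ l, G l) (fun i => q i + ∑ l, g l) x) :
    P ∈ ZD (k := k) Q q x ∨ ∃ l, g l * mo P x < P.ord (aeval x (G l)) := by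
  by_contra hcon
  simp only [not_or, not_exists, not_lt] at hcon
  obtain ⟨h1, h2⟩ := hcon
  apply h1
  intro i
  by_contra h3
  have h4 : aeval x (Q i) ≠ 0 := fun h => h3 (Or.inl h)
  have h5 : P.ord (aeval x (Q i)) ≤ q i * mo P x := by
    by_contra h
    apply h3
    right
    omega
  have h6 := hP i
  have h7 : aeval x (Q i * ∏ l, G l) = aeval x (Q i) * ∏ l, aeval x (G l) := by
    rw [map_mul, map_prod]
  rw [h7] at h6
  have h8 : (∏ l, aeval x (G l)) ≠ 0 := Finset.prod_ne_zero_iff.2 fun l _ => hG l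
  have h9 := h6.resolve_left (mul_ne_zero h4 h8)
  rw [P.ord_mul h4 h8, ord_prod' P Finset.univ hG] at h9
  have h10 : ∑ l, P.ord (aeval x (G l)) ≤ ∑ l, (g l : ℤ) * mo P x :=
    Finset.sum_le_sum fun l _ => h2 l
  rw [← Finset.sum_mul] at h10
  push_cast at h9
  linarith [add_mul (q i : ℤ) (∑ l, (g l : ℤ)) (mo P x)]

end pts

end Pool.Agent.N131.FM
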