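import Mathlib
import Pool.Agent.N131.FM.Cpair

/-!
Forms with the poles of a C-pair.
-/

set_option autoImplicit false
set_option linter.unusedSectionVars false

namespace Pool.Agent.N131.FM

open FF Filter MvPolynomial Pool.Agent.W603.LV Pool.Agent.W603.PV
open Pool.Agent.W602.GT (IsForm coords val Divisorial IsPluri RegAt LogAt)
open Pool.Agent.N131.FV (mo mo_le exists_mo mo_finite)

section K

variable {F : Type} [Field F] {M : ℕ} {K : Type} [Field K] [Algebra F K] {w : ℕ}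

/-- the exponent `N (m_1 ⋯ m_r) / m_l` -/
def xp (N : ℕ) {r : ℕ} (m : Fin r → ℕ) (l : Fin r) : ℕ := N * ∏ i ∈ Finset.univ.erase l, m i

theorem xp_mul (N : ℕ) {r : ℕ} (m : Fin r → ℕ) (l : Fin r) : xp N m l * m l = N * ∏ i, m i := by
  unfold xp
  rw [mul_assoc, Finset.prod_erase_mul _ _ (Finset.mem_univ l)]

theorem form_ratio {G : MvPolynomial (Fin (M + 1)) F} {d : ℕ} (hG : G.IsHomogeneous d)
    {y : Fin (M + 1) → K} {l : Fin (M + 1)} (hl : y l ≠ 0) :
    aeval y G / y l ^ d = aeval (fun j => y j / y l) G := by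
  have h1 := Pool.Agent.W602.GT.val_smul hG (y l) (fun j => y j / y l)
  unfold val at h1
  have h2 : (fun j => y l * (y j / y l)) = y := funext fun j => mul_div_cancel₀ _ hl
  rw [h2] at h1
  rw [h1, mul_div_cancel_left₀ _ (pow_ne_zero _ hl)]

theorem reg_aeval (P : Place F K) {z : Fin (M + 1) → K} (hz : ∀ i, P.Reg (z i))
    (G : MvPolynomial (Fin (M + 1)) F) : P.Reg (aeval z G) := by
  induction G using MvPolynomial.induction_on with
  | C c => rw [aeval_C]; exact P.reg_const c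
  | add p q hp hq => rw [map_add]; exact P.reg_add hp hq
  | mul_X p i hp => rw [map_mul, aeval_X]; exact P.reg_mul hp (hz i)

theorem reg_pow' (P : Place F K) {f : K} (hf : P.Reg f) (n : ℕ) : P.Reg (f ^ n) := by
  induction n with
  | zero => rw [pow_zero]; exact P.reg_one
  | succ n ih => rw [pow_succ]; exact P.reg_mul ih hf

theorem reg_prod' (P : Place F K) {ι : Type} (T : Finset ι) {z : ι → K}
    (hz : ∀ i ∈ T, P.Reg (z i)) : P.Reg (∏ i ∈ T, z i) := by
  classical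
  induction T using Finset.induction_on with
  | empty => rw [Finset.prod_empty]; exact P.reg_one
  | insert i T hi ih =>
    rw [Finset.prod_insert hi]
    exact P.reg_mul (hz i (Finset.mem_insert_self i T))
      (ih fun j hj => hz j (Finset.mem_insert_of_mem hj))

theorem exists_chart (P : Place F K) {y : Fin (M + 1) → K} (hy : ∃ i, y i ≠ 0) :
    ∃ j, y j ≠ 0 ∧ ∀ i, P.Reg (y i / y j) := by
  obtain ⟨j, hj, hjm⟩ := exists_mo P hy
  refine ⟨j, hj, fun i => ?_⟩
  by_cases hi : y i = 0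
  · rw [hi, zero_div]; exact P.reg_zero
  · right
    rw [P.ord_div hi hj, hjm]
    have := mo_le P hi
    linarith

theorem prod_ratio {r : ℕ} (a : Fin r → K) (b : K) (g n : Fin r → ℕ) :
    ∏ l, (a l / b ^ g l) ^ n l = (∏ l, a l ^ n l) / b ^ (∑ l, n l * g l) := by
  rw [← Finset.prod_pow_eq_pow_sum, ← Finset.prod_div_distrib]
  refine Finset.prod_congr rfl fun l _ => ?_
  rw [div_pow, ← pow_mul, mul_comm (g l)]

variable {r s : ℕ} {Q : Fin (s + 1) → MvPolynomial (Fin (M + 1)) F} {q : Fin (s + 1) → ℕ}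
    {G : Fin r → MvPolynomial (Fin (M + 1)) F} {g : Fin r → ℕ} {y : Fin (M + 1) → K}

theorem bd_left (hG : ∀ l, (G l).IsHomogeneous (g l)) {P : Place F K} (h : Bd Q q y P) :
    Bd (fun i => Q i * ∏ l, G l) (fun i => q i + ∑ l, g l) y P := by
  obtain ⟨j, hj, hr, h⟩ := h
  refine ⟨j, hj, hr, fun i => ?_⟩
  have h1 : aeval y (Q i * ∏ l, G l) / y j ^ (q i + ∑ l, g l) =
      aeval y (Q i) / y j ^ q i * (aeval y (∏ l, G l) / y j ^ (∑ l, g l)) := by
    rw [map_mul, pow_add, mul_div_mul_comm]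
  rw [h1]
  have h2 : (∏ l, G l).IsHomogeneous (∑ l, g l) := IsHomogeneous.prod _ _ _ fun l _ => hG l
  rw [form_ratio h2 hj]
  have h3 : Ge P 0 (aeval (fun i => y i / y j) (∏ l, G l)) := reg_aeval P hr _
  have h4 := (h i).mul h3
  rwa [add_zero] at h4

theorem bd_right (hQ : ∀ i, (Q i).IsHomogeneous (q i)) (hG : ∀ l, (G l).IsHomogeneous (g l))
    {P : Place F K} {l : Fin r}
    (h : Bd (fun _ : Fin (0 + 1) => G l) (fun _ => g l) y P) :
    Bd (fun i => Q i * ∏ l, G l) (fun i => q i + ∑ l, g l) y P := by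
  obtain ⟨j, hj, hr, h⟩ := h
  refine ⟨j, hj, hr, fun i => ?_⟩
  have h5 : (∏ l, aeval y (G l)) / y j ^ (∑ l, g l) = ∏ l, (aeval y (G l) / y j ^ g l) := by
    rw [Finset.prod_div_distrib, Finset.prod_pow_eq_pow_sum]
  have h1 : aeval y (Q i * ∏ l, G l) / y j ^ (q i + ∑ l, g l) =
      (aeval y (G l) / y j ^ g l) * (aeval y (Q i) / y j ^ q i *
        ∏ l' ∈ Finset.univ.erase l, (aeval y (G l') / y j ^ g l')) := by
    rw [map_mul, pow_add, mul_div_mul_comm, map_prod, h5,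
      ← Finset.mul_prod_erase _ _ (Finset.mem_univ l)]
    ring
  rw [h1]
  have h3 : Ge P 0 (aeval y (Q i) / y j ^ q i *
        ∏ l' ∈ Finset.univ.erase l, (aeval y (G l') / y j ^ g l')) := by
    refine P.reg_mul ?_ (reg_prod' P _ fun l' _ => ?_)
    · rw [form_ratio (hQ i) hj]; exact reg_aeval P hr _
    · rw [form_ratio (hG l') hj]; exact reg_aeval P hr _
  have h4 := (h 0).mul h3
  rwa [add_zero] at h4

/-- the form `ω ^ m y_c ^ E / ∏ G_l ^ n_l` -/
noncomputable def eta {N : ℕ} (m : Fin r → ℕ) (G : Fin r → MvPolynomial (Fin (M + 1)) F)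
    (g : Fin r → ℕ) (y : Fin (M + 1) → K) (c : Fin (M + 1))
    (ω : (Fin w → Derivation F K K) → K) : (Fin w → Derivation F K K) → K :=
  fun D => ω D ^ (∏ l, m l) *
    (y c ^ (∑ l, xp N m l * g l) / ∏ l, aeval y (G l) ^ xp N m l)

theorem eta_pluri {N : ℕ} {m : Fin r → ℕ} {c : Fin (M + 1)}
    {ω : (Fin w → Derivation F K K) → K} (h : IsPluri N ω) :
    IsPluri (N * ∏ l, m l) (eta (N := N) m G g y c ω) := by
  intro A D
  unfold eta
  rw [h A D, mul_pow, ← pow_mul, mul_assoc]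

theorem eta_eq {N : ℕ} {m : Fin r → ℕ} {c j : Fin (M + 1)} (hj : y j ≠ 0)
    (hG : ∀ l, aeval y (G l) ≠ 0)
    {ω : (Fin w → Derivation F K K) → K} (D : Fin w → Derivation F K K) :
    eta (N := N) m G g y c ω D = ω D ^ (∏ l, m l) / (∏ l, (aeval y (G l) / y j ^ g l) ^ xp N m l) *
      (y c / y j) ^ (∑ l, xp N m l * g l) := by
  unfold eta
  rw [prod_ratio]
  have h1 : (∏ l, aeval y (G l) ^ xp N m l) ≠ 0 :=
    Finset.prod_ne_zero_iff.2 fun l _ => pow_ne_zero _ (hG l)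
  have h2 : y j ^ (∑ l, xp N m l * g l) ≠ 0 := pow_ne_zero _ hj
  rw [div_pow]
  field_simp

theorem eta_log {N : ℕ} {m : Fin r → ℕ} {c j : Fin (M + 1)} (hj : y j ≠ 0)
    (hG : ∀ l, aeval y (G l) ≠ 0) {P : Place F K} (hr : ∀ i, P.Reg (y i / y j))
    {ω : (Fin w → Derivation F K K) → K}
    (h : LogAt P (fun D => ω D ^ (∏ l, m l) /
      ∏ l, (aeval y (G l) / y j ^ g l) ^ xp N m l)) : LogAt P (eta (N := N) m G g y c ω) := by
  intro D hD
  rw [eta_eq hj hG]
  exact P.reg_mul (h D hD) (reg_pow' P (hr c) _)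

theorem eta_reg {N : ℕ} {m : Fin r → ℕ} {c j : Fin (M + 1)} (hj : y j ≠ 0)
    (hG : ∀ l, aeval y (G l) ≠ 0) {P : Place F K} (hr : ∀ i, P.Reg (y i / y j))
    {ω : (Fin w → Derivation F K K) → K} (hu : ∀ l, P.ord (aeval y (G l) / y j ^ g l) ≤ 0)
    (h : RegAt P ω) : RegAt P (eta (N := N) m G g y c ω) := by
  intro D hD
  rw [eta_eq hj hG, div_eq_mul_inv, ← Finset.prod_inv_distrib]
  refine P.reg_mul (P.reg_mul (reg_pow' P (h D hD) _) (reg_prod' P _ fun l _ => ?_))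
    (reg_pow' P (hr c) _)
  right
  rw [P.ord_inv, P.ord_pow]
  have h1 := hu l
  have h2 : (0 : ℤ) ≤ (xp N m l : ℤ) := Int.natCast_nonneg _
  nlinarith

end K

end Pool.Agent.N131.FM
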