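import Mathlib
import Pool.Agent.N131.FM.Cpair2

/-!
The height inequality for C-pairs over function fields.
-/

set_option autoImplicit false
set_option linter.unusedSectionVars false

namespace Pool.Agent.N131.FM

open FF Filter MvPolynomial Pool.Agent.W603.LV Pool.Agent.W603.PV
open Pool.Agent.W602.GT (IsForm coords val Divisorial IsPluri RegAt LogAt)
open Pool.Agent.N131.FV (mo mo_le exists_mo mo_finite osc cneg cneg_nonneg ord_aeval_ge sum_cneg_le
  osc_finite)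

variable {k F : Type} [Field k] [IsAlgClosed k] [CharZero k] [Field F] [Algebra k F] [IsFF k F]
  {M : ℕ} {K : Type} [Field K] [Algebra F K] {w : ℕ}

/-- the places, not over `S`, at which `x` is not a point of the C-pair -/
def CB {L : Type} [Field L] [Algebra k L] [Algebra F L] [IsScalarTower k F L]
    [FiniteDimensional F L] [IsFF k L] {r s : ℕ}
    (S : Finset (Place k F)) (Q : Fin (s + 1) → MvPolynomial (Fin (M + 1)) F)
    (q : Fin (s + 1) → ℕ) (G : Fin r → MvPolynomial (Fin (M + 1)) F) (g m : Fin r → ℕ)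
    (x : Fin (M + 1) → L) : Set (Place k L) :=
  {P | under F P ∉ S ∧ (P ∈ ZD (k := k) Q q x ∨ ∃ l, aeval x (G l) ≠ 0 ∧
    g l * mo P x < P.ord (aeval x (G l)) ∧ P.ord (aeval x (G l)) < g l * mo P x + m l)}

theorem CB_finite {L : Type} [Field L] [Algebra k L] [Algebra F L] [IsScalarTower k F L]
    [FiniteDimensional F L] [IsFF k L] {r s : ℕ}
    (S : Finset (Place k F)) {Q : Fin (s + 1) → MvPolynomial (Fin (M + 1)) F}
    {q : Fin (s + 1) → ℕ} {G : Fin r → MvPolynomial (Fin (M + 1)) F} {g m : Fin r → ℕ}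
    (_ : ∀ l, (G l).IsHomogeneous (g l))
    {x : Fin (M + 1) → L} (hx : ∃ j, x j ≠ 0) {l0 : Fin (s + 1)} (hQx : aeval x (Q l0) ≠ 0) :
    (CB S Q q G g m x).Finite := by
  classical
  have h1 : (ZD (k := k) Q q x).Finite := ZD_finite hx hQx
  have h2 : (⋃ l : {l : Fin r // aeval x (G l) ≠ 0},
      ZD (k := k) (fun _ : Fin (0 + 1) => G l) (fun _ => g l) x).Finite :=
    Set.finite_iUnion fun l => ZD_finite hx (l := 0) l.2
  refine (h1.union h2).subset fun P hP => ?_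
  rcases hP.2 with h3 | ⟨l, h0, h3, -⟩
  · exact Or.inl h3
  · refine Or.inr (Set.mem_iUnion.2 ⟨⟨l, h0⟩, fun _ => Or.inr ?_⟩)
    change g l * mo P x + 1 ≤ P.ord (aeval x (G l))
    omega

theorem off_le {L : Type} [Field L] [Algebra k L] [Algebra F L] [IsScalarTower k F L]
    [FiniteDimensional F L] [IsFF k L] {r s : ℕ}
    (S : Finset (Place k F)) {Q : Fin (s + 1) → MvPolynomial (Fin (M + 1)) F}
    {q : Fin (s + 1) → ℕ} {G : Fin r → MvPolynomial (Fin (M + 1)) F} {g m : Fin r → ℕ}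
    (hm : ∀ l, 0 < m l) (hG : ∀ l, (G l).IsHomogeneous (g l))
    {x : Fin (M + 1) → L} (hx : ∃ j, x j ≠ 0) {l0 : Fin (s + 1)} (hQx : aeval x (Q l0) ≠ 0)
    (hGx : ∀ l, aeval x (G l) ≠ 0) :
    {P : Place k L | under F P ∉ S ∧ P ∈ ZD (k := k) (fun i => Q i * ∏ l, G l)
      (fun i => q i + ∑ l, g l) x}.ncard ≤ (CB S Q q G g m x).ncard +
      ∑ l, {P : Place k L | g l * mo P x + m l ≤ P.ord (aeval x (G l))}.ncard := by
  classical
  have hf1 : (CB S Q q G g m x).Finite := by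
    have h1 : (ZD (k := k) Q q x).Finite := ZD_finite hx hQx
    have h2 : (⋃ l : Fin r, ZD (k := k) (fun _ : Fin (0 + 1) => G l) (fun _ => g l) x).Finite :=
      Set.finite_iUnion fun l => ZD_finite hx (l := 0) (hGx l)
    refine (h1.union h2).subset fun P hP => ?_
    rcases hP.2 with h3 | ⟨l, -, h3, -⟩
    · exact Or.inl h3
    · refine Or.inr (Set.mem_iUnion.2 ⟨l, fun _ => Or.inr ?_⟩)
      change g l * mo P x + 1 ≤ P.ord (aeval x (G l))
      omega
  have hf2 : (⋃ l : Fin r, {P : Place k L | g l * mo P x + m l ≤ P.ord (aeval x (G l))}).Finite :=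
    Set.finite_iUnion fun l => (mult_card (hG l) hx (hGx l) (hm l)).1
  refine le_trans (Set.ncard_le_ncard (t := CB S Q q G g m x ∪
    ⋃ l : Fin r, {P : Place k L | g l * mo P x + m l ≤ P.ord (aeval x (G l))}) ?_
    (hf1.union hf2)) ((Set.ncard_union_le _ _).trans
      (add_le_add le_rfl (Set.ncard_iUnion_le_of_fintype _)))
  rintro P ⟨hPS, hP⟩
  rcases ZD_union hGx hP with h1 | ⟨l, h1⟩
  · exact Or.inl ⟨hPS, Or.inl h1⟩
  · by_cases h2 : P.ord (aeval x (G l)) < g l * mo P x + m l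
    · exact Or.inl ⟨hPS, Or.inr ⟨l, hGx l, h1, h2⟩⟩
    · exact Or.inr (Set.mem_iUnion.2 ⟨l, not_lt.1 h2⟩)

/-- **The inequality for C-pairs.** -/
theorem cp1 {y : Fin (M + 1) → K} (hy : coords F y = ⊤) (hyne : ∃ l, y l ≠ 0)
    {ν e : ℕ} {pr : Fin (ν + 1) → MvPolynomial (Fin (M + 1)) F}
    (hpr : ∀ i, (pr i).IsHomogeneous e) (hpr0 : ∀ i, aeval y (pr i) ≠ 0)
    (hpralg : Algebra.IsAlgebraic (IntermediateField.adjoin F
      {z | ∃ i j, aeval y (pr j) ≠ 0 ∧ z = aeval y (pr i) / aeval y (pr j)}) K)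
    (hw : 0 < w) (htr : Algebra.trdeg F K = w) {N t r s : ℕ}
    {Q : Fin (s + 1) → MvPolynomial (Fin (M + 1)) F} {q : Fin (s + 1) → ℕ}
    {G : Fin r → MvPolynomial (Fin (M + 1)) F} {g m : Fin r → ℕ}
    (hQ : ∀ l, (Q l).IsHomogeneous (q l)) (hQ0 : ∃ l, aeval y (Q l) ≠ 0)
    (hG : ∀ l, (G l).IsHomogeneous (g l)) (hG0 : ∀ l, aeval y (G l) ≠ 0) (hm : ∀ l, 0 < m l)
    {ω : Fin (t + 1) → (Fin w → Derivation F K K) → K} (hpl : ∀ i, IsPluri N (ω i))
    (hlog : ∀ P : Place F K, Divisorial w P → ∀ j, y j ≠ 0 → (∀ i, P.Reg (y i / y j)) →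
      ∀ i, LogAt P (fun D => ω i D ^ (∏ l, m l) /
        ∏ l, (aeval y (G l) / y j ^ g l) ^ xp N m l))
    (hreg : ∀ P : Place F K, Divisorial w P → ¬ Bd Q q y P →
      (∀ l, ¬ Bd (fun _ : Fin (0 + 1) => G l) (fun _ => g l) y P) → ∀ i, RegAt P (ω i)) {b : ℕ}
    {B : Fin (t + 1) → MvPolynomial (Fin (M + 1)) F} (hB : ∀ i, (B i).IsHomogeneous b)
    (hBω : ∀ i j D, ω i D * aeval y (B j) = ω j D * aeval y (B i))
    (hB0 : ∃ i, aeval y (B i) ≠ 0) (hω0 : ∃ i D, ω i D ≠ 0) (S : Finset (Place k F)) {ε : ℝ}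
    (hε : 0 < ε) :
    ∃ A : MvPolynomial (Fin (M + 1)) F, IsForm A ∧ aeval y A ≠ 0 ∧ ∃ C : ℝ, 0 ≤ C ∧
      ∀ (L : Type) [Field L] [Algebra k L] [Algebra F L] [IsScalarTower k F L]
        [FiniteDimensional F L] [IsFF k L] (x : Fin (M + 1) → L), Pt (F := F) y x →
        aeval x A ≠ 0 →
        (ht k (fun i => aeval x (B i)) : ℝ) ≤
          N * (CB S Q q G g m x).ncard + ε * ht k x +
          C * (disc k F L + min ({P : Place k L | under F P ∉ S ∧
            P ∈ osc k fun j => aeval x (pr j)}.ncard : ℝ)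
            ({P : Place k L | under F P ∉ S ∧ P ∈ ZD (k := k) (fun _ : Fin 1 => ∏ j, pr j)
          (fun _ => (ν + 1) * e) x}.ncard : ℝ) + Module.finrank F L) := by
  classical
  set m1 : ℕ := ∏ l, m l with hm1
  have hm1pos : 0 < m1 := Finset.prod_pos fun l _ => hm l
  set E : ℕ := ∑ l, xp N m l * g l with hE
  obtain ⟨c0, hc0⟩ := hyne
  obtain ⟨i0, hi0⟩ := hB0
  obtain ⟨i1, D1, hi1⟩ := hω0
  obtain ⟨l0, hl0⟩ := hQ0
  -- the index set
  have hcard : t * (M + 1) + M + 1 = (t + 1) * (M + 1) := by ring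
  let ee : Fin (t * (M + 1) + M + 1) ≃ Fin (t + 1) × Fin (M + 1) :=
    (finCongr hcard).trans finProdFinEquiv.symm
  let ia : Fin (t * (M + 1) + M + 1) → Fin (t + 1) := fun c => (ee c).1
  let ic : Fin (t * (M + 1) + M + 1) → Fin (M + 1) := fun c => (ee c).2
  have hs : ∀ i j, ∃ c, ia c = i ∧ ic c = j := fun i j => by
    refine ⟨ee.symm (i, j), ?_, ?_⟩ <;> simp [ia, ic]
  let η : Fin (t * (M + 1) + M + 1) → (Fin w → Derivation F K K) → K :=
    fun c => eta (N := N) m G g y (ic c) (ω (ia c))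
  let B' : Fin (t * (M + 1) + M + 1) → MvPolynomial (Fin (M + 1)) F :=
    fun c => B (ia c) ^ m1 * X (ic c) ^ E
  have hQ' : ∀ i, (Q i * ∏ l, G l).IsHomogeneous (q i + ∑ l, g l) := fun i =>
    (hQ i).mul (IsHomogeneous.prod _ _ _ fun l _ => hG l)
  have hprod0 : (∏ l, aeval y (G l)) ≠ 0 := Finset.prod_ne_zero_iff.2 fun l _ => hG0 l
  have hQ0' : ∃ i, aeval y (Q i * ∏ l, G l) ≠ 0 := by
    refine ⟨l0, ?_⟩
    rw [map_mul, map_prod]
    exact mul_ne_zero hl0 hprod0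
  have hpl' : ∀ c, IsPluri (N * m1) (η c) := fun c => eta_pluri (hpl _)
  have hlog' : ∀ P : Place F K, Divisorial w P → ∀ c, LogAt P (η c) := by
    intro P hP c
    obtain ⟨j, hj, hr⟩ := exists_chart P ⟨c0, hc0⟩
    exact eta_log hj hG0 hr (hlog P hP j hj hr _)
  have hreg' : ∀ P : Place F K, Divisorial w P →
      ¬ Bd (fun i => Q i * ∏ l, G l) (fun i => q i + ∑ l, g l) y P → ∀ c, RegAt P (η c) := by
    intro P hP hb c
    obtain ⟨j, hj, hr⟩ := exists_chart P ⟨c0, hc0⟩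
    have h1 : ¬ Bd Q q y P := fun h => hb (bd_left hG h)
    have h2 : ∀ l, ¬ Bd (fun _ : Fin (0 + 1) => G l) (fun _ => g l) y P :=
      fun l h => hb (bd_right hQ hG h)
    refine eta_reg hj hG0 hr (fun l => ?_) (hreg P hP h1 h2 _)
    by_contra h3
    refine h2 l ⟨j, hj, hr, fun _ => Or.inr ?_⟩
    change 1 ≤ P.ord (aeval y (G l) / y j ^ g l)
    omega
  have hB' : ∀ c, (B' c).IsHomogeneous (b * m1 + 1 * E) := fun c =>
    ((hB _).pow m1).mul ((isHomogeneous_X F (ic c)).pow E)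
  have hBη : ∀ c c' D, η c D * aeval y (B' c') = η c' D * aeval y (B' c) := by
    intro c c' D
    have h1 := hBω (ia c) (ia c') D
    have h2 : ω (ia c) D ^ m1 * aeval y (B (ia c')) ^ m1 =
        ω (ia c') D ^ m1 * aeval y (B (ia c)) ^ m1 := by
      rw [← mul_pow, h1, mul_pow]
    change ω (ia c) D ^ m1 * (y (ic c) ^ E / ∏ l, aeval y (G l) ^ xp N m l) *
      aeval y (B (ia c') ^ m1 * X (ic c') ^ E) =
      ω (ia c') D ^ m1 * (y (ic c') ^ E / ∏ l, aeval y (G l) ^ xp N m l) *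
      aeval y (B (ia c) ^ m1 * X (ic c) ^ E)
    rw [map_mul, map_mul, map_pow, map_pow, map_pow, map_pow, aeval_X, aeval_X]
    linear_combination (y (ic c) ^ E / ∏ l, aeval y (G l) ^ xp N m l) * y (ic c') ^ E * h2
  have hB0' : ∃ c, aeval y (B' c) ≠ 0 := by
    obtain ⟨c, hc1, hc2⟩ := hs i0 c0
    refine ⟨c, ?_⟩
    change aeval y (B (ia c) ^ m1 * X (ic c) ^ E) ≠ 0
    rw [map_mul, map_pow, map_pow, aeval_X, hc1, hc2]
    exact mul_ne_zero (pow_ne_zero _ hi0) (pow_ne_zero _ hc0)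
  have hη0 : ∃ c D, η c D ≠ 0 := by
    obtain ⟨c, hc1, hc2⟩ := hs i1 c0
    refine ⟨c, D1, ?_⟩
    change ω (ia c) D1 ^ m1 * (y (ic c) ^ E / ∏ l, aeval y (G l) ^ xp N m l) ≠ 0
    rw [hc1, hc2]
    exact mul_ne_zero (pow_ne_zero _ hi1) (div_ne_zero (pow_ne_zero _ hc0)
      (Finset.prod_ne_zero_iff.2 fun l _ => pow_ne_zero _ (hG0 l)))
  have hm1R : (0 : ℝ) < m1 := by exact_mod_cast hm1pos
  obtain ⟨A, ⟨a, ha⟩, hA0, C, hC⟩ := fin1min (k := k) hy ⟨c0, hc0⟩ hpr hpr0 hpralg hw htr hpl' hlog'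
    hQ' hQ0' hreg' hB' hBη hB0' hη0 S (mul_pos hε hm1R)
  obtain ⟨a', ha'⟩ := isForm_prod Finset.univ fun i _ => (⟨g i, hG i⟩ : IsForm (G i))
  set cc : ℤ := ∑ l, (xp N m l : ℤ) * ∑ α ∈ (G l).support, hgt k (coeff α (G l)) with hcc
  have hcc0 : 0 ≤ cc := Finset.sum_nonneg fun l _ => mul_nonneg (Int.natCast_nonneg _)
    (Finset.sum_nonneg fun _ _ => hgt_nonneg _)
  refine ⟨A * (∏ l, G l) * Q l0 * B i0, ⟨_, ((ha.mul ha').mul (hQ l0)).mul (hB i0)⟩, ?_,
    C + cc, by positivity, fun L _ _ _ _ _ _ x hx hxA => ?_⟩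
  · rw [map_mul, map_mul, map_mul, map_prod]
    exact mul_ne_zero (mul_ne_zero (mul_ne_zero hA0 hprod0) hl0) hi0
  rw [map_mul, map_mul, map_mul, map_prod] at hxA
  have hxB : aeval x (B i0) ≠ 0 := right_ne_zero_of_mul hxA
  have hxQ : aeval x (Q l0) ≠ 0 := right_ne_zero_of_mul (left_ne_zero_of_mul hxA)
  have hxG : ∀ l, aeval x (G l) ≠ 0 := fun l => Finset.prod_ne_zero_iff.1
    (right_ne_zero_of_mul (left_ne_zero_of_mul (left_ne_zero_of_mul hxA))) l (Finset.mem_univ l)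
  have hxA' : aeval x A ≠ 0 :=
    left_ne_zero_of_mul (left_ne_zero_of_mul (left_ne_zero_of_mul hxA))
  have h1 := hC L x hx hxA'
  have h2 : (m1 : ℤ) * ht k (fun i => aeval x (B i)) + E * ht k x ≤
      ht k (fun c => aeval x (B' c)) := by
    have h3 := ht_prod_ge (k := k) (u := fun i => aeval x (B i)) (v := x) ⟨i0, hxB⟩ hx.ne ia
      ic hs m1 E
    have h4 : (fun c => aeval x (B' c)) = fun c => aeval x (B (ia c)) ^ m1 * x (ic c) ^ E := by
      funext c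
      change aeval x (B (ia c) ^ m1 * X (ic c) ^ E) = _
      rw [map_mul, map_pow, map_pow, aeval_X]
    rw [h4]
    exact h3
  have h3 := off_le (k := k) S hm hG hx.ne (q := q) hxQ hxG
  have h4 : ∀ l, ((N * m1 : ℕ) : ℤ) *
      {P : Place k L | g l * mo P x + m l ≤ P.ord (aeval x (G l))}.ncard ≤
      (xp N m l : ℤ) * (g l * ht k x +
        Module.finrank F L * ∑ α ∈ (G l).support, hgt k (coeff α (G l))) := by
    intro l
    rw [← xp_mul N m l]
    have h5 := (mult_card (k := k) (F := F) (hG l) hx.ne (hxG l) (hm l)).2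
    push_cast
    rw [mul_assoc]
    exact mul_le_mul_of_nonneg_left h5 (Int.natCast_nonneg _)
  have h5 := Finset.sum_le_sum fun l (_ : l ∈ Finset.univ) => h4 l
  rw [← Finset.mul_sum] at h5
  have h6 : ∑ l, (xp N m l : ℤ) * (g l * ht k x +
        Module.finrank F L * ∑ α ∈ (G l).support, hgt k (coeff α (G l))) =
        E * ht k x + Module.finrank F L * cc := by
    rw [hE, hcc]
    push_cast
    rw [Finset.sum_mul, Finset.mul_sum, ← Finset.sum_add_distrib]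
    refine Finset.sum_congr rfl fun l _ => ?_
    ring
  rw [h6] at h5
  have h7 : (0 : ℤ) ≤ disc k F L := disc_nn
  set H : ℤ := ht k x
  set HB : ℤ := ht k (fun i => aeval x (B i))
  set HB' : ℤ := ht k (fun c => aeval x (B' c))
  set z0 : ℕ := {P : Place k L | under F P ∉ S ∧ P ∈ ZD (k := k) (fun i => Q i * ∏ l, G l)
      (fun i => q i + ∑ l, g l) x}.ncard
  set cb : ℕ := (CB S Q q G g m x).ncard
  set sl : ℕ := ∑ l, {P : Place k L | g l * mo P x + m l ≤ P.ord (aeval x (G l))}.ncard with hsl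
  set d : ℤ := disc k F L
  set f : ℕ := Module.finrank F L
  set mn : ℝ := min ({P : Place k L | under F P ∉ S ∧
            P ∈ osc k fun j => aeval x (pr j)}.ncard : ℝ)
            ({P : Place k L | under F P ∉ S ∧ P ∈ ZD (k := k) (fun _ : Fin 1 => ∏ j, pr j)
          (fun _ => (ν + 1) * e) x}.ncard : ℝ)
  have hmn : 0 ≤ mn := le_min (Nat.cast_nonneg _) (Nat.cast_nonneg _)
  have h1R : (HB' : ℝ) ≤ (N * m1 : ℕ) * z0 + ε * m1 * H + C * (d + mn + f) := h1
  have h2R : (m1 : ℝ) * HB + E * H ≤ HB' := by exact_mod_cast h2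
  have h3R : (z0 : ℝ) ≤ cb + sl := by exact_mod_cast h3
  have h5R : ((N * m1 : ℕ) : ℝ) * sl ≤ E * H + f * cc := by
    have : ((N * m1 : ℕ) : ℤ) * (sl : ℤ) ≤ E * H + f * cc := by
      rw [hsl]
      push_cast
      push_cast at h5
      exact h5
    exact_mod_cast this
  have h7R : (0 : ℝ) ≤ d := by exact_mod_cast h7
  have hfR : (0 : ℝ) ≤ f := Nat.cast_nonneg _
  have hccR : (0 : ℝ) ≤ cc := by exact_mod_cast hcc0
  have hCR : (0 : ℝ) ≤ C := Nat.cast_nonneg _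
  have hNm : (0 : ℝ) ≤ ((N * m1 : ℕ) : ℝ) := Nat.cast_nonneg _
  have h8 : ((N * m1 : ℕ) : ℝ) * z0 ≤ (N * m1 : ℕ) * cb + (N * m1 : ℕ) * sl := by
    rw [← mul_add]
    exact mul_le_mul_of_nonneg_left h3R hNm
  have h9 : (m1 : ℝ) * HB ≤ m1 * (N * cb + ε * H) + (C * (d + mn + f) + f * cc) := by
    push_cast at h8 h5R h1R
    linarith
  have h10 : C * (d + mn + f) + f * cc ≤ (C + cc) * (d + mn + f) := by
    have : 0 ≤ (cc : ℝ) * (d + mn) := mul_nonneg hccR (by linarith)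
    nlinarith
  have h11 : (1 : ℝ) ≤ m1 := by exact_mod_cast hm1pos
  have h12 : (C + cc : ℝ) * (d + mn + f) ≤ m1 * ((C + cc) * (d + mn + f)) := by
    have : 0 ≤ (C + cc : ℝ) * (d + mn + f) := by positivity
    nlinarith
  have h13 : (m1 : ℝ) * HB ≤ m1 * (N * cb + ε * H + (C + cc) * (d + mn + f)) := by
    rw [mul_add]
    linarith
  exact le_of_mul_le_mul_left h13 hm1R

end Pool.Agent.N131.FM
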