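import Mathlib
import Pool.Agent.N131.FM.Cpair3

/-!
C-pairs over function fields whose integral part contains the divisor of the map.
-/

set_option autoImplicit false
set_option linter.unusedSectionVars false

namespace Pool.Agent.N131.FM

open FF Filter MvPolynomial Pool.Agent.W603.LV Pool.Agent.W603.PV
open Pool.Agent.W602.GT (IsForm coords val Divisorial IsPluri RegAt LogAt)
open Pool.Agent.N131.FV (mo mo_le exists_mo mo_finite osc cneg cneg_nonneg ord_aeval_ge sum_cneg_le
  osc_finite)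

variable {k F : Type} [Field k] [IsAlgClosed k] [CharZero k] [Field F] [Algebra k F] [IsFF k F]
  {M : ℕ} {K : Type} [Field K] [Algebra F K] {w : ℕ}

/-- the counting function of a divisor which is contained in a closed subset -/
theorem zd_le {y : Fin (M + 1) → K} {s d : ℕ} (S : Finset (Place k F))
    {Q : Fin (s + 1) → MvPolynomial (Fin (M + 1)) F} {q : Fin (s + 1) → ℕ}
    {R : MvPolynomial (Fin (M + 1)) F} (hQ : ∀ l, (Q l).IsHomogeneous (q l))
    (hR : R.IsHomogeneous d) {l0 : Fin (s + 1)}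
    (h : ∀ l, ∃ (a τ : ℕ) (T : MvPolynomial (Fin (M + 1)) F), 0 < a ∧ T.IsHomogeneous τ ∧
      a * q l = d + τ ∧ aeval y (Q l) ^ a = aeval y R * aeval y T) :
    ∃ C : ℕ, ∀ (L : Type) [Field L] [Algebra k L] [Algebra F L] [IsScalarTower k F L]
        [FiniteDimensional F L] [IsFF k L] (x : Fin (M + 1) → L), Pt (F := F) y x →
        aeval x R ≠ 0 → aeval x (Q l0) ≠ 0 →
        {P : Place k L | under F P ∉ S ∧ P ∈ ZD (k := k) (fun _ : Fin (0 + 1) => R)
          (fun _ => d) x}.ncard ≤
        {P : Place k L | under F P ∉ S ∧ P ∈ ZD (k := k) Q q x}.ncard +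
          C * Module.finrank F L := by
  classical
  choose a τ T ha hT hdeg hrel using h
  refine ⟨(∑ l, ∑ α ∈ (T l).support, hgt k (coeff α (T l))).toNat, ?_⟩
  intro L _ _ _ _ _ _ x hx hxR hxQ
  set Z1 : Set (Place k L) := {P : Place k L | under F P ∉ S ∧
    P ∈ ZD (k := k) (fun _ : Fin (0 + 1) => R) (fun _ => d) x} with hZ1
  set Z2 : Set (Place k L) := {P : Place k L | under F P ∉ S ∧ P ∈ ZD (k := k) Q q x} with hZ2
  have hf1 : Z1.Finite := (ZD_finite hx.ne (l := 0) hxR).subset fun P hP => hP.2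
  have hf2 : Z2.Finite := (ZD_finite hx.ne (l := l0) hxQ).subset fun P hP => hP.2
  have key : ∀ P ∈ hf1.toFinset, P ∈ hf2.toFinset ∨ ∃ l, 1 ≤ cneg P (T l) := by
    intro P hP
    have hP' : P ∈ Z1 := (Set.Finite.mem_toFinset hf1).1 hP
    by_cases hc : ∃ l, 1 ≤ cneg P (T l)
    · exact Or.inr hc
    left
    rw [Set.Finite.mem_toFinset]
    refine ⟨hP'.1, fun l => ?_⟩
    push Not at hc
    have hc0 : cneg P (T l) = 0 := le_antisymm (by linarith [hc l]) (cneg_nonneg P (T l))
    by_cases hQl : aeval x (Q l) = 0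
    · exact Or.inl hQl
    right
    have h1 : aeval x (Q l) ^ a l = aeval x R * aeval x (T l) := by
      have h2 : ((Q l) ^ a l - R * T l).IsHomogeneous (q l * a l) := by
        refine ((hQ l).pow (a l)).sub ?_
        have h3 := hR.mul (hT l)
        rwa [← hdeg l, mul_comm (a l)] at h3
      have h3 := hx.van _ ⟨_, h2⟩ (by rw [map_sub, map_pow, map_mul, hrel l, sub_self])
      rw [map_sub, map_pow, map_mul] at h3
      exact sub_eq_zero.1 h3
    have hTl : aeval x (T l) ≠ 0 := by
      intro h0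
      rw [h0, mul_zero] at h1
      exact hQl (pow_eq_zero_iff (ha l).ne' |>.1 h1)
    have h4 := congrArg P.ord h1
    rw [P.ord_pow, P.ord_mul hxR hTl] at h4
    have h5 := ord_aeval_ge P (hT l) hTl
    have h6 : (d : ℤ) * mo P x + 1 ≤ P.ord (aeval x R) := (hP'.2 0).resolve_left hxR
    have h7 : (a l : ℤ) * q l = d + τ l := by exact_mod_cast hdeg l
    have h8 : (a l : ℤ) * (q l * mo P x) < a l * P.ord (aeval x (Q l)) := by
      rw [h4, ← mul_assoc, h7]
      rw [hc0] at h5
      linarith [add_mul (d : ℤ) (τ l) (mo P x)]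
    have h9 : (q l : ℤ) * mo P x < P.ord (aeval x (Q l)) :=
      lt_of_mul_lt_mul_left h8 (Int.natCast_nonneg _)
    omega
  rw [Set.ncard_eq_toFinset_card _ hf1, Set.ncard_eq_toFinset_card _ hf2]
  have h1 : ((hf1.toFinset.card : ℕ) : ℤ) ≤ hf2.toFinset.card +
      ∑ P ∈ hf1.toFinset, ∑ l, cneg P (T l) := by
    have h2 : hf1.toFinset.card ≤ hf2.toFinset.card +
        (hf1.toFinset.filter fun P => ∃ l, 1 ≤ cneg P (T l)).card := by
      rw [← Finset.card_union_add_card_inter]
      refine le_trans (Finset.card_le_card fun P hP => ?_) (Nat.le_add_right _ _)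
      rcases key P hP with h3 | h3
      · exact Finset.mem_union_left _ h3
      · exact Finset.mem_union_right _ (Finset.mem_filter.2 ⟨hP, h3⟩)
    have h3 : (((hf1.toFinset.filter fun P => ∃ l, 1 ≤ cneg P (T l)).card : ℕ) : ℤ) ≤
        ∑ P ∈ hf1.toFinset, ∑ l, cneg P (T l) := by
      rw [Finset.card_eq_sum_ones]
      push_cast
      refine le_trans (Finset.sum_le_sum (g := fun P => ∑ l, cneg P (T l)) fun P hP => ?_)
        (Finset.sum_le_sum_of_subset_of_nonneg (Finset.filter_subset _ _) fun P _ _ =>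
          Finset.sum_nonneg fun l _ => cneg_nonneg P (T l))
      obtain ⟨l, hl⟩ := (Finset.mem_filter.1 hP).2
      exact hl.trans (Finset.single_le_sum (f := fun l => cneg P (T l))
        (fun l _ => cneg_nonneg P (T l)) (Finset.mem_univ l))
    have h4 : ((hf1.toFinset.card : ℕ) : ℤ) ≤ hf2.toFinset.card +
      ((hf1.toFinset.filter fun P => ∃ l, 1 ≤ cneg P (T l)).card : ℕ) := by exact_mod_cast h2
    linarith
  rw [Finset.sum_comm] at h1
  have h2 : ∑ l, ∑ P ∈ hf1.toFinset, cneg P (T l) ≤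
      ∑ l, Module.finrank F L * ∑ α ∈ (T l).support, hgt k (coeff α (T l)) :=
    Finset.sum_le_sum fun l _ => sum_cneg_le _ (T l)
  rw [← Finset.mul_sum] at h2
  have h3 : 0 ≤ ∑ l, ∑ α ∈ (T l).support, hgt k (coeff α (T l)) :=
    Finset.sum_nonneg fun l _ => Finset.sum_nonneg fun α _ => hgt_nonneg _
  have h4 : ((∑ l, ∑ α ∈ (T l).support, hgt k (coeff α (T l))).toNat : ℤ) =
      ∑ l, ∑ α ∈ (T l).support, hgt k (coeff α (T l)) := Int.toNat_of_nonneg h3
  zify
  rw [h4]
  linarith [mul_comm (Module.finrank F L : ℤ) (∑ l, ∑ α ∈ (T l).support, hgt k (coeff α (T l)))]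

end Pool.Agent.N131.FM
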