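import Mathlib
import Pool.Agent.N131.FM.Cpair4

/-!
The inequality for C-pairs, up to the places at which the multiplicity of the divisor of the map is
small.
-/

set_option autoImplicit false
set_option linter.unusedSectionVars false

namespace Pool.Agent.N131.FM

open FF Filter MvPolynomial Pool.Agent.W603.LV Pool.Agent.W603.PV
open Pool.Agent.W602.GT (IsForm coords val Divisorial IsPluri RegAt LogAt)
open Pool.Agent.N131.FV (mo mo_le exists_mo mo_finite osc cneg cneg_nonneg ord_aeval_ge sum_cneg_le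
  osc_finite)

variable {k F : Type} [Field k] [IsAlgClosed k] [CharZero k] [Field F] [Algebra k F] [IsFF k F]
  {M : ℕ} {K : Type} [Field K] [Algebra F K] {w : ℕ}

/-- the places, not over `S`, at which `x` meets the divisor `R = 0` with a multiplicity less than
`μ` -/
def LW {L : Type} [Field L] [Algebra k L] [Algebra F L] [IsScalarTower k F L]
    [FiniteDimensional F L] [IsFF k L]
    (S : Finset (Place k F)) (R : MvPolynomial (Fin (M + 1)) F) (d μ : ℕ)
    (x : Fin (M + 1) → L) : Set (Place k L) :=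
  {P | under F P ∉ S ∧ d * mo P x < P.ord (aeval x R) ∧ P.ord (aeval x R) < d * mo P x + μ}

theorem lw_sub (S : Finset (Place k F)) {R : MvPolynomial (Fin (M + 1)) F} {d μ : ℕ}
    {L : Type} [Field L] [Algebra k L] [Algebra F L]
    [IsScalarTower k F L] [FiniteDimensional F L] [IsFF k L]
    {x : Fin (M + 1) → L} (hx : ∃ j, x j ≠ 0) (hRx : aeval x R ≠ 0) :
    (LW S R d μ x).ncard ≤ {P : Place k L | under F P ∉ S ∧
      P ∈ ZD (k := k) (fun _ : Fin (0 + 1) => R) (fun _ => d) x}.ncard := by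
  have h1 : (ZD (k := k) (fun _ : Fin (0 + 1) => R) (fun _ => d) x).Finite :=
    ZD_finite hx (l := 0) hRx
  refine Set.ncard_le_ncard (fun P hP => ⟨hP.1, fun _ => Or.inr ?_⟩)
    (h1.subset fun P hP => hP.2)
  have h2 := hP.2.1
  change d * mo P x + 1 ≤ P.ord (aeval x R)
  omega

theorem lw_le (S : Finset (Place k F)) {R : MvPolynomial (Fin (M + 1)) F} {d μ : ℕ}
    (hR : R.IsHomogeneous d) (hμ : 0 < μ) {L : Type} [Field L] [Algebra k L] [Algebra F L]
    [IsScalarTower k F L] [FiniteDimensional F L] [IsFF k L]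
    {x : Fin (M + 1) → L} (hx : ∃ j, x j ≠ 0) (hRx : aeval x R ≠ 0) :
    (μ : ℤ) * {P : Place k L | under F P ∉ S ∧ P ∈ ZD (k := k) (fun _ : Fin (0 + 1) => R)
      (fun _ => d) x}.ncard ≤ μ * (LW S R d μ x).ncard +
      (d * ht k x + Module.finrank F L * ∑ α ∈ R.support, hgt k (coeff α R)) := by
  classical
  obtain ⟨hf, hc⟩ := mult_card (k := k) (F := F) hR hx hRx hμ
  have hf1 : (LW S R d μ x).Finite := by
    refine (ZD_finite (k := k) (Q := fun _ : Fin (0 + 1) => R) (q := fun _ => d) hx (l := 0)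
      hRx).subset fun P hP _ => Or.inr ?_
    have h1 := hP.2.1
    change d * mo P x + 1 ≤ P.ord (aeval x R)
    omega
  have h1 : {P : Place k L | under F P ∉ S ∧ P ∈ ZD (k := k) (fun _ : Fin (0 + 1) => R)
      (fun _ => d) x}.ncard ≤ (LW S R d μ x).ncard +
      {P : Place k L | d * mo P x + μ ≤ P.ord (aeval x R)}.ncard := by
    refine le_trans (Set.ncard_le_ncard (t := LW S R d μ x ∪
      {P : Place k L | d * mo P x + μ ≤ P.ord (aeval x R)}) ?_ (hf1.union hf))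
      (Set.ncard_union_le _ _)
    rintro P ⟨hPS, hP⟩
    have h2 : d * mo P x + 1 ≤ P.ord (aeval x R) := (hP 0).resolve_left hRx
    by_cases h3 : P.ord (aeval x R) < d * mo P x + μ
    · exact Or.inl ⟨hPS, by omega, h3⟩
    · exact Or.inr (not_lt.1 h3)
  have h2 : (({P : Place k L | under F P ∉ S ∧ P ∈ ZD (k := k) (fun _ : Fin (0 + 1) => R)
      (fun _ => d) x}.ncard : ℕ) : ℤ) ≤ (LW S R d μ x).ncard +
      {P : Place k L | d * mo P x + μ ≤ P.ord (aeval x R)}.ncard := by exact_mod_cast h1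
  have h3 := mul_le_mul_of_nonneg_left h2 (Int.natCast_nonneg μ)
  rw [mul_add] at h3
  linarith

/-- **The inequality for C-pairs, up to the places of small multiplicity.** -/
theorem cp2 {y : Fin (M + 1) → K} (hy : coords F y = ⊤) (hyne : ∃ l, y l ≠ 0)
    {ν e : ℕ} {pr : Fin (ν + 1) → MvPolynomial (Fin (M + 1)) F}
    (hpr : ∀ i, (pr i).IsHomogeneous e) (hpr0 : ∀ i, aeval y (pr i) ≠ 0)
    (hpralg : Algebra.IsAlgebraic (IntermediateField.adjoin F
      {z | ∃ i j, aeval y (pr j) ≠ 0 ∧ z = aeval y (pr i) / aeval y (pr j)}) K)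
    (hw : 0 < w) (htr : Algebra.trdeg F K = w) {N t r s : ℕ}
    {Q : Fin (s + 1) → MvPolynomial (Fin (M + 1)) F} {q : Fin (s + 1) → ℕ}
    {G : Fin r → MvPolynomial (Fin (M + 1)) F} {g m : Fin r → ℕ}
    (hQ : ∀ l, (Q l).IsHomogeneous (q l)) (hQ0 : ∃ l, aeval y (Q l) ≠ 0)
    (hG : ∀ l, (G l).IsHomogeneous (g l)) (hG0 : ∀ l, aeval y (G l) ≠ 0) (hm : ∀ l, 0 < m l)
    {ω : Fin (t + 1) → (Fin w → Derivation F K K) → K} (hpl : ∀ i, IsPluri N (ω i))
    (hlog : ∀ P : Place F K, Divisorial w P → ∀ j, y j ≠ 0 → (∀ i, P.Reg (y i / y j)) →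
      ∀ i, LogAt P (fun D => ω i D ^ (∏ l, m l) /
        ∏ l, (aeval y (G l) / y j ^ g l) ^ xp N m l))
    (hreg : ∀ P : Place F K, Divisorial w P → ¬ Bd Q q y P →
      (∀ l, ¬ Bd (fun _ : Fin (0 + 1) => G l) (fun _ => g l) y P) → ∀ i, RegAt P (ω i)) {b : ℕ}
    {B : Fin (t + 1) → MvPolynomial (Fin (M + 1)) F} (hB : ∀ i, (B i).IsHomogeneous b)
    (hBω : ∀ i j D, ω i D * aeval y (B j) = ω j D * aeval y (B i))
    (hB0 : ∃ i, aeval y (B i) ≠ 0) (hω0 : ∃ i D, ω i D ≠ 0) (S : Finset (Place k F)) {ε : ℝ}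
    (hε : 0 < ε) :
    ∃ A : MvPolynomial (Fin (M + 1)) F, IsForm A ∧ aeval y A ≠ 0 ∧ ∃ (C : ℝ) (μ : ℕ), 0 ≤ C ∧
      ∀ (L : Type) [Field L] [Algebra k L] [Algebra F L] [IsScalarTower k F L]
        [FiniteDimensional F L] [IsFF k L] (x : Fin (M + 1) → L), Pt (F := F) y x →
        aeval x A ≠ 0 →
        (ht k (fun i => aeval x (B i)) : ℝ) ≤
          N * (CB S Q q G g m x).ncard + ε * ht k x +
          C * (disc k F L + min ({P : Place k L | under F P ∉ S ∧
            P ∈ osc k fun j => aeval x (pr j)}.ncard : ℝ)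
            ((LW S (∏ j, pr j) ((ν + 1) * e) μ x).ncard : ℝ) + Module.finrank F L) := by
  classical
  obtain ⟨A, ⟨a, ha⟩, hA0, C, hC0, hC⟩ := cp1 (k := k) hy hyne hpr hpr0 hpralg hw htr hQ hQ0 hG hG0
    hm hpl hlog hreg hB hBω hB0 hω0 S (half_pos hε)
  have hRh : (∏ j, pr j).IsHomogeneous ((ν + 1) * e) := by
    have h1 : (∏ j, pr j).IsHomogeneous (∑ _j : Fin (ν + 1), e) :=
      IsHomogeneous.prod _ _ _ fun i _ => hpr i
    rwa [Finset.sum_const, Finset.card_univ, Fintype.card_fin, smul_eq_mul] at h1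
  obtain ⟨μ0, hμ0⟩ := exists_nat_ge (C * (((ν + 1) * e : ℕ) : ℝ) / (ε / 2))
  set c : ℤ := ∑ α ∈ (∏ j, pr j).support, hgt k (coeff α (∏ j, pr j)) with hc
  have hc0 : 0 ≤ c := Finset.sum_nonneg fun _ _ => hgt_nonneg _
  refine ⟨A * ∏ j, pr j, ⟨_, ha.mul hRh⟩, ?_, C + C * c, μ0 + 1, by positivity,
    fun L _ _ _ _ _ _ x hx hxA => ?_⟩
  · rw [map_mul, map_prod]
    exact mul_ne_zero hA0 (Finset.prod_ne_zero_iff.2 fun i _ => hpr0 i)
  rw [map_mul] at hxA
  have h1 := hC L x hx (left_ne_zero_of_mul hxA)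
  have hxR := right_ne_zero_of_mul hxA
  have h2 := lw_le (k := k) S hRh (Nat.succ_pos μ0) hx.ne hxR
  rw [← hc] at h2
  have hH : (0 : ℤ) ≤ ht k x := ht_nonneg hx.ne
  have h7 : (0 : ℤ) ≤ disc k F L := disc_nn
  set H : ℤ := ht k x
  set o : ℝ := ({P : Place k L | under F P ∉ S ∧ P ∈ osc k fun j => aeval x (pr j)}.ncard : ℝ)
  set z : ℕ := {P : Place k L | under F P ∉ S ∧ P ∈ ZD (k := k) (fun _ : Fin 1 => ∏ j, pr j)
          (fun _ => (ν + 1) * e) x}.ncard with hz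
  set lw : ℕ := (LW S (∏ j, pr j) ((ν + 1) * e) (μ0 + 1) x).ncard
  set d : ℤ := disc k F L
  set f : ℕ := Module.finrank F L
  have h2' : ((μ0 + 1 : ℕ) : ℤ) * z ≤ (μ0 + 1 : ℕ) * lw +
      ((((ν + 1) * e : ℕ) : ℤ) * H + f * c) := h2
  have h2R : ((μ0 : ℝ) + 1) * z ≤ (μ0 + 1) * lw + ((((ν + 1) * e : ℕ) : ℝ) * H + f * c) := by
    exact_mod_cast h2'
  have hHR : (0 : ℝ) ≤ H := by exact_mod_cast hH
  have hdR : (0 : ℝ) ≤ d := by exact_mod_cast h7
  have hfR : (0 : ℝ) ≤ f := Nat.cast_nonneg _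
  have hcR : (0 : ℝ) ≤ c := by exact_mod_cast hc0
  have hμR : (0 : ℝ) ≤ μ0 := Nat.cast_nonneg _
  have hμ1 : (0 : ℝ) < (μ0 : ℝ) + 1 := by linarith
  set u : ℝ := ((((ν + 1) * e : ℕ) : ℝ) * H + f * c) / (μ0 + 1) with hu
  have hu0 : 0 ≤ u := by positivity
  have h3 : (z : ℝ) ≤ lw + u := by
    rw [hu, ← sub_le_iff_le_add', le_div_iff₀ hμ1]
    linarith
  have h4 : min o (z : ℝ) ≤ min o (lw : ℝ) + u := by
    rcases le_total o (lw : ℝ) with h5 | h5
    · rw [min_eq_left h5]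
      exact (min_le_left _ _).trans (by linarith)
    · rw [min_eq_right h5]
      exact (min_le_right _ _).trans h3
  have h5 : C * u ≤ ε / 2 * H + C * c * f := by
    have h6 : C * (((ν + 1) * e : ℕ) : ℝ) ≤ (μ0 + 1) * (ε / 2) := by
      have h8 := (div_le_iff₀ (half_pos hε)).1 hμ0
      have : 0 ≤ ε / 2 := (half_pos hε).le
      nlinarith
    rw [hu, mul_div_assoc', div_le_iff₀ hμ1]
    have h9 : C * (((ν + 1) * e : ℕ) : ℝ) * H ≤ (μ0 + 1) * (ε / 2) * H :=
      mul_le_mul_of_nonneg_right h6 hHR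
    have h10 : C * (f * c) ≤ C * c * f * (μ0 + 1) := by
      have : 0 ≤ C * c * f * μ0 := by positivity
      nlinarith
    nlinarith
  have h6 : C * (d + min o (z : ℝ) + f) ≤ C * (d + min o (lw : ℝ) + f) + C * u := by
    have := mul_le_mul_of_nonneg_left h4 hC0
    nlinarith
  have ho : 0 ≤ min o (lw : ℝ) := le_min (Nat.cast_nonneg _) (Nat.cast_nonneg _)
  have h8 : C * c * f ≤ C * c * (d + min o (lw : ℝ) + f) := by
    have : 0 ≤ C * c := by positivity
    exact mul_le_mul_of_nonneg_left (by linarith) this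
  have h1' : (ht k (fun i => aeval x (B i)) : ℝ) ≤
          N * (CB S Q q G g m x).ncard + ε / 2 * H + C * (d + min o (z : ℝ) + f) := h1
  rw [add_mul]
  linarith

end Pool.Agent.N131.FM
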