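import Mathlib
import Pool.Agent.N131.FM.Cpair5

/-!
The master inequality up to the places of small multiplicity, without finite multiplicities.
-/

set_option autoImplicit false
set_option linter.unusedSectionVars false

namespace Pool.Agent.N131.FM

open FF Filter MvPolynomial Pool.Agent.W603.LV Pool.Agent.W603.PV
open Pool.Agent.W602.GT (IsForm coords val Divisorial IsPluri RegAt LogAt)
open Pool.Agent.N131.FV (mo osc)

variable {k F : Type} [Field k] [IsAlgClosed k] [CharZero k] [Field F] [Algebra k F] [IsFF k F]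
  {M : ℕ} {K : Type} [Field K] [Algebra F K] {w : ℕ}

/-- **The master inequality, up to the places of small multiplicity.** -/
theorem fin1low {y : Fin (M + 1) → K} (hy : coords F y = ⊤) (hyne : ∃ l, y l ≠ 0)
    {ν e : ℕ} {pr : Fin (ν + 1) → MvPolynomial (Fin (M + 1)) F}
    (hpr : ∀ i, (pr i).IsHomogeneous e) (hpr0 : ∀ i, aeval y (pr i) ≠ 0)
    (hpralg : Algebra.IsAlgebraic (IntermediateField.adjoin F
      {z | ∃ i j, aeval y (pr j) ≠ 0 ∧ z = aeval y (pr i) / aeval y (pr j)}) K)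
    (hw : 0 < w) (htr : Algebra.trdeg F K = w) {N t s : ℕ}
    {Q : Fin (s + 1) → MvPolynomial (Fin (M + 1)) F} {q : Fin (s + 1) → ℕ}
    (hQ : ∀ l, (Q l).IsHomogeneous (q l)) (hQ0 : ∃ l, aeval y (Q l) ≠ 0)
    {ω : Fin (t + 1) → (Fin w → Derivation F K K) → K} (hpl : ∀ i, IsPluri N (ω i))
    (hlog : ∀ P : Place F K, Divisorial w P → ∀ i, LogAt P (ω i))
    (hreg : ∀ P : Place F K, Divisorial w P → ¬ Bd Q q y P → ∀ i, RegAt P (ω i)) {b : ℕ}
    {B : Fin (t + 1) → MvPolynomial (Fin (M + 1)) F} (hB : ∀ i, (B i).IsHomogeneous b)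
    (hBω : ∀ i j D, ω i D * aeval y (B j) = ω j D * aeval y (B i))
    (hB0 : ∃ i, aeval y (B i) ≠ 0) (hω0 : ∃ i D, ω i D ≠ 0) (S : Finset (Place k F)) {ε : ℝ}
    (hε : 0 < ε) :
    ∃ A : MvPolynomial (Fin (M + 1)) F, IsForm A ∧ aeval y A ≠ 0 ∧ ∃ (C : ℝ) (μ : ℕ), 0 ≤ C ∧
      ∀ (L : Type) [Field L] [Algebra k L] [Algebra F L] [IsScalarTower k F L]
        [FiniteDimensional F L] [IsFF k L] (x : Fin (M + 1) → L), Pt (F := F) y x →
        aeval x A ≠ 0 →
        (ht k (fun i => aeval x (B i)) : ℝ) ≤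
          N * {P : Place k L | under F P ∉ S ∧ P ∈ ZD (k := k) Q q x}.ncard + ε * ht k x +
          C * (disc k F L + min ({P : Place k L | under F P ∉ S ∧
            P ∈ osc k fun j => aeval x (pr j)}.ncard : ℝ)
            ((LW S (∏ j, pr j) ((ν + 1) * e) μ x).ncard : ℝ) + Module.finrank F L) := by
  obtain ⟨A, hA, hA0, C, μ, hC0, hC⟩ := cp2 (k := k) hy hyne hpr hpr0 hpralg hw htr hQ hQ0
    (G := fun _ : Fin 0 => 0) (g := fun _ => 0) (m := fun _ => 1) (fun l => l.elim0)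
    (fun l => l.elim0) (fun l => l.elim0) hpl (fun P hP j _ _ i => by simpa using hlog P hP i)
    (fun P hP h1 _ => hreg P hP h1) hB hBω hB0 hω0 S hε
  refine ⟨A, hA, hA0, C, μ, hC0, fun L _ _ _ _ _ _ x hx hxA => ?_⟩
  have h1 := hC L x hx hxA
  have h2 : CB S Q q (fun _ : Fin 0 => (0 : MvPolynomial (Fin (M + 1)) F)) (fun _ => 0)
      (fun _ => 1) x = {P : Place k L | under F P ∉ S ∧ P ∈ ZD (k := k) Q q x} := by
    ext P
    simp [CB]
  rw [h2] at h1
  exact h1

end Pool.Agent.N131.FM
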