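import Mathlib
import Pool.Agent.N131.FM.Cpair5

/-!
Varieties of logarithmic general type over function fields, up to the places of small multiplicity.
-/

set_option autoImplicit false
set_option linter.unusedSectionVars false

namespace Pool.Agent.N131.FM

open FF Filter MvPolynomial Pool.Agent.W603.LV Pool.Agent.W603.PV
open Pool.Agent.W602.GT (IsForm coords val Divisorial IsPluri RegAt LogAt LogGeneralType)
open Pool.Agent.N131.FV (mo osc)

variable {k F : Type} [Field k] [IsAlgClosed k] [CharZero k] [Field F] [Algebra k F] [IsFF k F]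
  {M : ℕ} {K : Type} [Field K] [Algebra F K] {w : ℕ}

/-- **Varieties of logarithmic general type, up to the places of small multiplicity.** -/
theorem fin2low {y : Fin (M + 1) → K} (hy : coords F y = ⊤) (hyne : ∃ l, y l ≠ 0)
    {ν e : ℕ} {pr : Fin (ν + 1) → MvPolynomial (Fin (M + 1)) F}
    (hpr : ∀ i, (pr i).IsHomogeneous e) (hpr0 : ∀ i, aeval y (pr i) ≠ 0)
    (hpralg : Algebra.IsAlgebraic (IntermediateField.adjoin F
      {z | ∃ i j, aeval y (pr j) ≠ 0 ∧ z = aeval y (pr i) / aeval y (pr j)}) K)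
    (hw : 0 < w) {r : ℕ}
    {Q : Fin (r + 1) → MvPolynomial (Fin (M + 1)) F} {q : Fin (r + 1) → ℕ}
    (hQ : ∀ l, (Q l).IsHomogeneous (q l)) (hQ0 : ∃ l, aeval y (Q l) ≠ 0)
    (hLG : LogGeneralType F K w (Bd Q q y)) (S : Finset (Place k F)) :
    ∃ A : MvPolynomial (Fin (M + 1)) F, IsForm A ∧ aeval y A ≠ 0 ∧ ∃ (C : ℝ) (μ : ℕ),
      ∀ (L : Type) [Field L] [Algebra k L] [Algebra F L] [IsScalarTower k F L]
        [FiniteDimensional F L] [IsFF k L] (x : Fin (M + 1) → L), Pt (F := F) y x →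
        aeval x A ≠ 0 →
        (ht k x : ℝ) ≤ C * (disc k F L +
          {P : Place k L | under F P ∉ S ∧ P ∈ ZD (k := k) Q q x}.ncard +
          min ({P : Place k L | under F P ∉ S ∧ P ∈ osc k fun j => aeval x (pr j)}.ncard : ℝ)
            ((LW S (∏ j, pr j) ((ν + 1) * e) μ x).ncard : ℝ) +
          Module.finrank F L) := by
  classical
  obtain ⟨A, ⟨a, ha⟩, hA0, C, hC⟩ := fin2min (k := k) hy hyne hpr hpr0 hpralg hw hQ hQ0 hLG S
  have hRh : (∏ j, pr j).IsHomogeneous ((ν + 1) * e) := by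
    have h1 : (∏ j, pr j).IsHomogeneous (∑ _j : Fin (ν + 1), e) :=
      IsHomogeneous.prod _ _ _ fun i _ => hpr i
    rwa [Finset.sum_const, Finset.card_univ, Fintype.card_fin, smul_eq_mul] at h1
  set μ0 : ℕ := 2 * C * ((ν + 1) * e) with hμ0
  set c : ℤ := ∑ α ∈ (∏ j, pr j).support, hgt k (coeff α (∏ j, pr j)) with hc
  have hc0 : 0 ≤ c := Finset.sum_nonneg fun _ _ => hgt_nonneg _
  refine ⟨A * ∏ j, pr j, ⟨_, ha.mul hRh⟩, ?_, 2 * (C + C * c), μ0 + 1,
    fun L _ _ _ _ _ _ x hx hxA => ?_⟩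
  · rw [map_mul, map_prod]
    exact mul_ne_zero hA0 (Finset.prod_ne_zero_iff.2 fun i _ => hpr0 i)
  rw [map_mul] at hxA
  have h1 := hC L x hx (left_ne_zero_of_mul hxA)
  have hxR := right_ne_zero_of_mul hxA
  have h2 := lw_le (k := k) S hRh (Nat.succ_pos μ0) hx.ne hxR
  rw [← hc] at h2
  have hH : (0 : ℤ) ≤ ht k x := ht_nonneg hx.ne
  have h7 : (0 : ℤ) ≤ disc k F L := disc_nn
  set H : ℤ := ht k x
  set a1 : ℕ := {P : Place k L | under F P ∉ S ∧ P ∈ ZD (k := k) Q q x}.ncard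
  set o : ℝ := ({P : Place k L | under F P ∉ S ∧ P ∈ osc k fun j => aeval x (pr j)}.ncard : ℝ)
  set z : ℕ := {P : Place k L | under F P ∉ S ∧ P ∈ ZD (k := k) (fun _ : Fin 1 => ∏ j, pr j)
          (fun _ => (ν + 1) * e) x}.ncard with hz
  set lw : ℕ := (LW S (∏ j, pr j) ((ν + 1) * e) (μ0 + 1) x).ncard
  set d : ℤ := disc k F L
  set f : ℕ := Module.finrank F L
  have h2' : ((μ0 + 1 : ℕ) : ℤ) * z ≤ (μ0 + 1 : ℕ) * lw +
      ((((ν + 1) * e : ℕ) : ℤ) * H + f * c) := h2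
  have h2R : ((μ0 : ℝ) + 1) * z ≤ (μ0 + 1) * lw + ((((ν + 1) * e : ℕ) : ℝ) * H + f * c) := by
    exact_mod_cast h2'
  have hHR : (0 : ℝ) ≤ H := by exact_mod_cast hH
  have hdR : (0 : ℝ) ≤ d := by exact_mod_cast h7
  have hfR : (0 : ℝ) ≤ f := Nat.cast_nonneg _
  have hcR : (0 : ℝ) ≤ c := by exact_mod_cast hc0
  have hCR : (0 : ℝ) ≤ C := Nat.cast_nonneg _
  have haR : (0 : ℝ) ≤ a1 := Nat.cast_nonneg _
  have hμR : (0 : ℝ) ≤ μ0 := Nat.cast_nonneg _
  have hμ1 : (0 : ℝ) < (μ0 : ℝ) + 1 := by linarith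
  set u : ℝ := ((((ν + 1) * e : ℕ) : ℝ) * H + f * c) / (μ0 + 1) with hu
  have hu0 : 0 ≤ u := by positivity
  have h3 : (z : ℝ) ≤ lw + u := by
    rw [hu, ← sub_le_iff_le_add', le_div_iff₀ hμ1]
    linarith
  have h4 : min o (z : ℝ) ≤ min o (lw : ℝ) + u := by
    rcases le_total o (lw : ℝ) with h5 | h5
    · rw [min_eq_left h5]
      exact (min_le_left _ _).trans (by linarith)
    · rw [min_eq_right h5]
      exact (min_le_right _ _).trans h3
  have h5 : C * u ≤ 1 / 2 * H + C * c * f := by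
    have h6 : C * (((ν + 1) * e : ℕ) : ℝ) ≤ (μ0 + 1) * (1 / 2) := by
      have h8 : (μ0 : ℝ) = 2 * C * (((ν + 1) * e : ℕ) : ℝ) := by rw [hμ0]; push_cast; ring
      have h11 : ((μ0 : ℝ) + 1) * (1 / 2) = C * (((ν + 1) * e : ℕ) : ℝ) + 1 / 2 := by
        rw [h8]; ring
      rw [h11]
      linarith
    rw [hu, mul_div_assoc', div_le_iff₀ hμ1]
    have h9 : C * (((ν + 1) * e : ℕ) : ℝ) * H ≤ (μ0 + 1) * (1 / 2) * H :=
      mul_le_mul_of_nonneg_right h6 hHR
    have h10 : (C : ℝ) * (f * c) ≤ C * c * f * (μ0 + 1) := by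
      have : 0 ≤ (C : ℝ) * c * f * μ0 := by positivity
      nlinarith
    nlinarith
  have h6 : C * (d + a1 + min o (z : ℝ) + f) ≤ C * (d + a1 + min o (lw : ℝ) + f) + C * u := by
    have := mul_le_mul_of_nonneg_left h4 hCR
    nlinarith
  have ho : 0 ≤ min o (lw : ℝ) := le_min (Nat.cast_nonneg _) (Nat.cast_nonneg _)
  have h8 : C * c * f ≤ C * c * (d + a1 + min o (lw : ℝ) + f) := by
    have : 0 ≤ (C : ℝ) * c := by positivity
    exact mul_le_mul_of_nonneg_left (by linarith) this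
  have h1' : (H : ℝ) ≤ C * (d + a1 + min o (z : ℝ) + f) := h1
  linarith

/-- **Varieties of logarithmic general type, up to the places of small multiplicity; with the
complete inequality if the boundary contains the divisor of the map.** -/
theorem fin2con {y : Fin (M + 1) → K} (hy : coords F y = ⊤) (hyne : ∃ l, y l ≠ 0)
    {ν e : ℕ} {pr : Fin (ν + 1) → MvPolynomial (Fin (M + 1)) F}
    (hpr : ∀ i, (pr i).IsHomogeneous e) (hpr0 : ∀ i, aeval y (pr i) ≠ 0)
    (hpralg : Algebra.IsAlgebraic (IntermediateField.adjoin F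
      {z | ∃ i j, aeval y (pr j) ≠ 0 ∧ z = aeval y (pr i) / aeval y (pr j)}) K)
    (hw : 0 < w) {r : ℕ}
    {Q : Fin (r + 1) → MvPolynomial (Fin (M + 1)) F} {q : Fin (r + 1) → ℕ}
    (hQ : ∀ l, (Q l).IsHomogeneous (q l)) (hQ0 : ∃ l, aeval y (Q l) ≠ 0)
    (hLG : LogGeneralType F K w (Bd Q q y)) (S : Finset (Place k F)) :
    ∃ A : MvPolynomial (Fin (M + 1)) F, IsForm A ∧ aeval y A ≠ 0 ∧ ∃ (C : ℝ) (μ : ℕ),
      ∀ (L : Type) [Field L] [Algebra k L] [Algebra F L] [IsScalarTower k F L]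
        [FiniteDimensional F L] [IsFF k L] (x : Fin (M + 1) → L), Pt (F := F) y x →
        aeval x A ≠ 0 →
        (ht k x : ℝ) ≤ C * (disc k F L +
          {P : Place k L | under F P ∉ S ∧ P ∈ ZD (k := k) Q q x}.ncard +
          min ({P : Place k L | under F P ∉ S ∧ P ∈ osc k fun j => aeval x (pr j)}.ncard : ℝ)
            ((LW S (∏ j, pr j) ((ν + 1) * e) μ x).ncard : ℝ) +
          Module.finrank F L) ∧
        ((∀ l, ∃ (a τ : ℕ) (T : MvPolynomial (Fin (M + 1)) F), 0 < a ∧ T.IsHomogeneous τ ∧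
          a * q l = (ν + 1) * e + τ ∧ aeval y (Q l) ^ a = aeval y (∏ j, pr j) * aeval y T) →
          (ht k x : ℝ) ≤ C * (disc k F L +
            {P : Place k L | under F P ∉ S ∧ P ∈ ZD (k := k) Q q x}.ncard +
            Module.finrank F L)) := by
  classical
  obtain ⟨A, ⟨a, ha⟩, hA0, C, μ, hC⟩ := fin2low (k := k) hy hyne hpr hpr0 hpralg hw hQ hQ0 hLG S
  obtain ⟨l0, hl0⟩ := hQ0
  have hRh : (∏ j, pr j).IsHomogeneous ((ν + 1) * e) := by
    have h1 : (∏ j, pr j).IsHomogeneous (∑ _j : Fin (ν + 1), e) :=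
      IsHomogeneous.prod _ _ _ fun i _ => hpr i
    rwa [Finset.sum_const, Finset.card_univ, Fintype.card_fin, smul_eq_mul] at h1
  have hR0 : aeval y (∏ i, pr i) ≠ 0 := by
    rw [map_prod]
    exact Finset.prod_ne_zero_iff.2 fun i _ => hpr0 i
  obtain ⟨C', hC'⟩ : ∃ C' : ℕ, (∀ l, ∃ (a τ : ℕ) (T : MvPolynomial (Fin (M + 1)) F), 0 < a ∧
        T.IsHomogeneous τ ∧ a * q l = (ν + 1) * e + τ ∧
        aeval y (Q l) ^ a = aeval y (∏ j, pr j) * aeval y T) →
      ∀ (L : Type) [Field L] [Algebra k L] [Algebra F L] [IsScalarTower k F L]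
        [FiniteDimensional F L] [IsFF k L] (x : Fin (M + 1) → L), Pt (F := F) y x →
        aeval x (∏ i, pr i) ≠ 0 → aeval x (Q l0) ≠ 0 →
        {P : Place k L | under F P ∉ S ∧ P ∈ ZD (k := k) (fun _ : Fin (0 + 1) => ∏ i, pr i)
          (fun _ => (ν + 1) * e) x}.ncard ≤
        {P : Place k L | under F P ∉ S ∧ P ∈ ZD (k := k) Q q x}.ncard +
          C' * Module.finrank F L := by
    by_cases h : ∀ l, ∃ (a τ : ℕ) (T : MvPolynomial (Fin (M + 1)) F), 0 < a ∧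
        T.IsHomogeneous τ ∧ a * q l = (ν + 1) * e + τ ∧
        aeval y (Q l) ^ a = aeval y (∏ j, pr j) * aeval y T
    · obtain ⟨C', hC'⟩ := zd_le (k := k) (y := y) (l0 := l0) S hQ hRh h
      exact ⟨C', fun _ => hC'⟩
    · exact ⟨0, fun h' => absurd h' h⟩
  refine ⟨A * (∏ i, pr i) * Q l0, ⟨_, (ha.mul hRh).mul (hQ l0)⟩, ?_, |C| * (C' + 2), μ,
    fun L _ _ _ _ _ _ x hx hxA => ?_⟩
  · rw [map_mul, map_mul]
    exact mul_ne_zero (mul_ne_zero hA0 hR0) hl0
  rw [map_mul, map_mul] at hxA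
  have hxQ := right_ne_zero_of_mul hxA
  have hxR := right_ne_zero_of_mul (left_ne_zero_of_mul hxA)
  have h1 := hC L x hx (left_ne_zero_of_mul (left_ne_zero_of_mul hxA))
  have h7 : (0 : ℤ) ≤ disc k F L := disc_nn
  have h8 := lw_sub (k := k) (μ := μ) (d := (ν + 1) * e) S hx.ne hxR
  set a1 : ℕ := {P : Place k L | under F P ∉ S ∧ P ∈ ZD (k := k) Q q x}.ncard with ha1
  set o : ℝ := ({P : Place k L | under F P ∉ S ∧ P ∈ osc k fun j => aeval x (pr j)}.ncard : ℝ)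
  set lw : ℕ := (LW S (∏ j, pr j) ((ν + 1) * e) μ x).ncard with hlw
  set d : ℤ := disc k F L
  set f : ℕ := Module.finrank F L
  have hdR : (0 : ℝ) ≤ d := by exact_mod_cast h7
  have hfR : (0 : ℝ) ≤ f := Nat.cast_nonneg _
  have haR : (0 : ℝ) ≤ a1 := Nat.cast_nonneg _
  have hC'R : (0 : ℝ) ≤ C' := Nat.cast_nonneg _
  have hCR : (0 : ℝ) ≤ |C| := abs_nonneg C
  have ho : 0 ≤ min o (lw : ℝ) := le_min (Nat.cast_nonneg _) (Nat.cast_nonneg _)
  have h2 : (ht k x : ℝ) ≤ |C| * (d + a1 + min o (lw : ℝ) + f) :=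
    h1.trans (mul_le_mul_of_nonneg_right (le_abs_self C) (by linarith))
  refine ⟨h2.trans ?_, fun hcon => ?_⟩
  · rw [mul_assoc]
    refine mul_le_mul_of_nonneg_left ?_ hCR
    have h9 : (0 : ℝ) ≤ (C' + 1) * (d + a1 + min o (lw : ℝ) + f) := by positivity
    linarith
  · have h3 := hC' hcon L x hx hxR hxQ
    have h4 : (lw : ℝ) ≤ a1 + C' * f := by
      have h5 : lw ≤ a1 + C' * f := h8.trans h3
      exact_mod_cast h5
    have h5 : min o (lw : ℝ) ≤ a1 + C' * f := (min_le_right _ _).trans h4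
    refine h2.trans ?_
    rw [mul_assoc]
    refine mul_le_mul_of_nonneg_left ?_ hCR
    have h9 : (0 : ℝ) ≤ (C' + 1) * d + C' * a1 + f := by positivity
    nlinarith

end Pool.Agent.N131.FM
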